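import Pool.Agent.H590R3.AbNear

set_option autoImplicit false

namespace Pool.H590R3.Ab

variable {E : Type*} [NormedAddCommGroup E] [NormedSpace ℝ E]

/-- the bounded operator given by an isometry -/
noncomputable def op (T : E ≃ₗᵢ[ℝ] E) : E →L[ℝ] E := (T.toContinuousLinearEquiv : E →L[ℝ] E)

@[simp] lemma op_apply (T : E ≃ₗᵢ[ℝ] E) (x : E) : op T x = T x := rfl

/-- Core lemma: an operator commuting with its conjugates and killing a nonzero vector has square
zero. -/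
theorem core [CompleteSpace E] [TopologicalSpace.SeparableSpace E]
    (G : Subgroup (E ≃ₗᵢ[ℝ] E))
    (htr : ∀ x y : E, ‖x‖ = 1 → ‖y‖ = 1 → ∃ T ∈ G, T x = y)
    (a : E →L[ℝ] E)
    (hc : ∀ T ∈ G, ∀ (z : E), T (a (T.symm (a z))) = a (T (a (T.symm z))))
    (x0 : E) (hx0 : x0 ≠ 0) (hax0 : a x0 = 0) (w : E) : a (a w) = 0 := by
  -- normalise
  obtain ⟨x, hx, hax⟩ : ∃ x : E, ‖x‖ = 1 ∧ a x = 0 := by
    refine ⟨‖x0‖⁻¹ • x0, ?_, ?_⟩
    · rw [norm_smul, norm_inv, norm_norm, inv_mul_cancel₀ (norm_ne_zero_iff.2 hx0)]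
    · rw [map_smul, hax0, smul_zero]
  have key : ∀ κ : ℝ, 0 < κ → ‖a (a w)‖ ≤ (‖a‖ ^ 2 + ‖a‖ * (‖a‖ + 1)) * κ := by
    intro κ hκ
    obtain ⟨t, ht, H⟩ := near_open_sub G htr (![w, a w] : Fin 2 → E) x hx hκ
    set ε : ℝ := min t 1 / (2 * (‖w‖ + 1)) with hε
    have hw : 0 ≤ ‖w‖ := norm_nonneg w
    have hmin : 0 < min t 1 := lt_min ht one_pos
    have hεpos : 0 < ε := by positivity
    have hεw : ε * ‖w‖ ≤ min t 1 / 2 := by
      rw [hε, div_mul_eq_mul_div, div_le_div_iff₀ (by positivity) (by norm_num)]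
      nlinarith
    set y : E := x + ε • w with hy
    have hyx : ‖y - x‖ = ε * ‖w‖ := by
      rw [hy, add_sub_cancel_left, norm_smul, Real.norm_of_nonneg hεpos.le]
    have hy1 : |‖y‖ - 1| ≤ ε * ‖w‖ := by
      rw [← hx, ← hyx]
      exact abs_norm_sub_norm_le y x
    have hm1 : min t 1 ≤ 1 := min_le_right _ _
    have hmt : min t 1 ≤ t := min_le_left _ _
    have hypos : 0 < ‖y‖ := by
      have := (abs_le.1 hy1).1
      linarith
    set v : E := ‖y‖⁻¹ • y with hv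
    have hv1 : ‖v‖ = 1 := by
      rw [hv, norm_smul, norm_inv, norm_norm, inv_mul_cancel₀ hypos.ne']
    have hvy : y = ‖y‖ • v := by
      rw [hv, smul_smul, mul_inv_cancel₀ hypos.ne', one_smul]
    have hvx : ‖v - x‖ ≤ t := by
      have h1 : ‖v - y‖ = |‖y‖ - 1| := by
        have h2 : v - y = (1 - ‖y‖) • v := by
          rw [sub_smul, one_smul, ← hvy]
        rw [h2, norm_smul, hv1, mul_one, Real.norm_eq_abs, abs_sub_comm]
      calc ‖v - x‖ = ‖(v - y) + (y - x)‖ := by rw [sub_add_sub_cancel]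
        _ ≤ ‖v - y‖ + ‖y - x‖ := norm_add_le _ _
        _ ≤ ε * ‖w‖ + ε * ‖w‖ := by rw [h1, hyx]; linarith
        _ ≤ t := by linarith
    obtain ⟨T, hTG, hT1, hT2⟩ := H v hv1 hvx (ε * κ / ‖y‖) (by positivity)
    have hTw : ‖T w - w‖ ≤ κ := hT2 0
    have hTaw : ‖T (a w) - a w‖ ≤ κ := hT2 1
    have hna : 0 ≤ ‖a‖ := norm_nonneg a
    -- b = T a T⁻¹
    have hbTx : T (a (T.symm (T x))) = 0 := by
      rw [T.symm_apply_apply, hax, map_zero]
    have hbv : ‖T (a (T.symm v))‖ ≤ ‖a‖ * (ε * κ / ‖y‖) := by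
      have h1 : T (a (T.symm v)) = T (a (T.symm (v - T x))) := by
        rw [map_sub, map_sub, map_sub, hbTx, sub_zero]
      rw [h1, T.norm_map]
      refine (a.le_opNorm _).trans ?_
      rw [T.symm.norm_map, norm_sub_rev]
      exact mul_le_mul_of_nonneg_left hT1 hna
    have hby : ‖T (a (T.symm y))‖ ≤ ‖a‖ * (ε * κ) := by
      rw [hvy, map_smul, map_smul, map_smul, norm_smul, norm_norm]
      calc ‖y‖ * ‖T (a (T.symm v))‖ ≤ ‖y‖ * (‖a‖ * (ε * κ / ‖y‖)) :=
            mul_le_mul_of_nonneg_left hbv hypos.le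
        _ = ‖a‖ * (ε * κ) := by field_simp
    have hab : a (T (a (T.symm y))) = ε • a (T (a (T.symm w))) := by
      rw [hy, map_add, map_add, map_add, map_add, map_smul, map_smul, map_smul, map_smul,
        ← hc T hTG x, hax, map_zero, map_zero, map_zero, zero_add]
    have h3 : ‖a (T (a (T.symm w)))‖ ≤ ‖a‖ ^ 2 * κ := by
      have h4 : ε * ‖a (T (a (T.symm w)))‖ ≤ ‖a‖ * (‖a‖ * (ε * κ)) := by
        have h5 : ‖ε • a (T (a (T.symm w)))‖ ≤ ‖a‖ * (‖a‖ * (ε * κ)) := by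
          rw [← hab]
          exact (a.le_opNorm _).trans (mul_le_mul_of_nonneg_left hby hna)
        rwa [norm_smul, Real.norm_of_nonneg hεpos.le] at h5
      have h6 : ‖a‖ * (‖a‖ * (ε * κ)) = ε * (‖a‖ ^ 2 * κ) := by ring
      rw [h6] at h4
      exact le_of_mul_le_mul_left h4 hεpos
    have h7 : ‖T (a (T.symm w)) - a w‖ ≤ (‖a‖ + 1) * κ := by
      have h8 : T (a (T.symm w)) - a w = T (a (T.symm w - w)) + (T (a w) - a w) := by
        rw [map_sub, map_sub]; abel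
      rw [h8]
      refine (norm_add_le _ _).trans ?_
      rw [T.norm_map]
      have h9 : ‖a (T.symm w - w)‖ ≤ ‖a‖ * κ := by
        refine (a.le_opNorm _).trans (mul_le_mul_of_nonneg_left ?_ hna)
        have h10 : T.symm w - w = T.symm (w - T w) := by
          rw [map_sub, T.symm_apply_apply]
        rw [h10, T.symm.norm_map, norm_sub_rev]
        exact hTw
      nlinarith
    have h11 : a (a w) = a (T (a (T.symm w))) - a (T (a (T.symm w)) - a w) := by
      rw [map_sub]; abel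
    rw [h11]
    refine (norm_sub_le _ _).trans ?_
    have h12 : ‖a (T (a (T.symm w)) - a w)‖ ≤ ‖a‖ * ((‖a‖ + 1) * κ) :=
      (a.le_opNorm _).trans (mul_le_mul_of_nonneg_left h7 hna)
    nlinarith
  by_contra hne
  have hr : 0 < ‖a (a w)‖ := norm_pos_iff.2 hne
  set r := ‖a (a w)‖ with hrdef
  set C : ℝ := ‖a‖ ^ 2 + ‖a‖ * (‖a‖ + 1) with hC
  have hC0 : 0 ≤ C := by positivity
  have h1 := key (r / (2 * (C + 1))) (by positivity)
  have h2 : C * (r / (2 * (C + 1))) < r := by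
    rw [mul_div_assoc', div_lt_iff₀ (by positivity)]
    nlinarith
  linarith

end Pool.H590R3.Ab
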