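import Pool.Agent.H590R3.AbCore

set_option autoImplicit false

namespace Pool.H590R3.Ab

open scoped BigOperators

variable {E : Type*} [NormedAddCommGroup E] [NormedSpace ℝ E]

lemma op_mul (S T : E ≃ₗᵢ[ℝ] E) : op (S * T) = op S * op T := by
  ext x; rfl

lemma op_one : op (1 : E ≃ₗᵢ[ℝ] E) = 1 := by
  ext x; rfl

lemma op_norm_le (T : E ≃ₗᵢ[ℝ] E) : ‖op T‖ ≤ 1 :=
  ContinuousLinearMap.opNorm_le_bound _ zero_le_one (fun x => by
    rw [op_apply, T.norm_map, one_mul])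

/-- functional calculus -/
noncomputable def Fop (n : E ≃ₗᵢ[ℝ] E) (a : ℤ → ℝ) : E →L[ℝ] E := ∑' k : ℤ, a k • op (n ^ k)

lemma term_norm (n : E ≃ₗᵢ[ℝ] E) (a : ℤ → ℝ) (k : ℤ) : ‖a k • op (n ^ k)‖ ≤ |a k| := by
  rw [norm_smul, Real.norm_eq_abs]
  exact mul_le_of_le_one_right (abs_nonneg _) (op_norm_le _)

lemma summable_term_norm (n : E ≃ₗᵢ[ℝ] E) {a : ℤ → ℝ} (ha : Summable fun k => |a k|) :
    Summable (fun k => ‖a k • op (n ^ k)‖) :=
  Summable.of_nonneg_of_le (fun _ => norm_nonneg _) (term_norm n a) ha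

variable [CompleteSpace E]

lemma summable_term (n : E ≃ₗᵢ[ℝ] E) {a : ℤ → ℝ} (ha : Summable fun k => |a k|) :
    Summable (fun k => a k • op (n ^ k)) :=
  (summable_term_norm n ha).of_norm

lemma Fop_norm_le (n : E ≃ₗᵢ[ℝ] E) {a : ℤ → ℝ} (ha : Summable fun k => |a k|) :
    ‖Fop n a‖ ≤ ∑' k, |a k| := by
  refine (norm_tsum_le_tsum_norm (summable_term_norm n ha)).trans ?_
  exact Summable.tsum_le_tsum (term_norm n a) (summable_term_norm n ha) ha

lemma Fop_mul_eq_zero (n : E ≃ₗᵢ[ℝ] E) {a b : ℤ → ℝ} (ha : Summable fun k => |a k|)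
    (hb : Summable fun k => |b k|) (h : ∀ m : ℤ, ∑' k : ℤ, a k * b (m - k) = 0) :
    Fop n a * Fop n b = 0 := by
  have h1 := tsum_mul_tsum_of_summable_norm (summable_term_norm n ha) (summable_term_norm n hb)
  unfold Fop
  rw [h1]
  have hs := summable_mul_of_summable_norm (summable_term_norm n ha) (summable_term_norm n hb)
  let e : ℤ × ℤ ≃ ℤ × ℤ :=
    { toFun := fun p => (p.2, p.1 - p.2)
      invFun := fun q => (q.1 + q.2, q.1)
      left_inv := fun p => by ext <;> simp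
      right_inv := fun q => by ext <;> simp }
  rw [← e.tsum_eq]
  have hs' := e.summable_iff.2 hs
  have h2 : ∀ p : ℤ × ℤ, (a (e p).1 • op (n ^ (e p).1)) * (b (e p).2 • op (n ^ (e p).2))
      = (a p.2 * b (p.1 - p.2)) • op (n ^ p.1) := by
    intro p
    show (a p.2 • op (n ^ p.2)) * (b (p.1 - p.2) • op (n ^ (p.1 - p.2))) = _
    rw [smul_mul_smul_comm, ← op_mul, ← zpow_add, add_sub_cancel]
  have hs'' : Summable (fun p : ℤ × ℤ => (a p.2 * b (p.1 - p.2)) • op (n ^ p.1)) := by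
    refine hs'.congr (fun p => ?_)
    exact h2 p
  rw [tsum_congr h2, hs''.tsum_prod]
  refine (tsum_congr (fun m => ?_)).trans tsum_zero
  have hab : Summable (fun k : ℤ => a k * b (m - k)) := by
    have hb' : Summable (fun k : ℤ => |b (m - k)|) := by
      have := (Equiv.subLeft m).summable_iff.2 hb
      exact this
    obtain ⟨C, hC⟩ : ∃ C : ℝ, ∀ k, |b k| ≤ C := ⟨∑' k, |b k|, fun k => hb.le_tsum k (fun _ _ => abs_nonneg _)⟩
    refine Summable.of_norm_bounded (ha.mul_right C) (fun k => ?_)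
    rw [norm_mul, Real.norm_eq_abs, Real.norm_eq_abs]
    exact mul_le_mul_of_nonneg_left (hC _) (abs_nonneg _)
  show ∑' (c : ℤ), (a c * b (m - c)) • op (n ^ m) = 0
  rw [hab.tsum_smul_const, h m, zero_smul]

lemma Fop_sum (n : E ≃ₗᵢ[ℝ] E) {a : ℕ → ℤ → ℝ} (ha : ∀ j, Summable fun k => |a j k|)
    (s : Finset ℕ) : ∑ j ∈ s, Fop n (a j) = Fop n (fun k => ∑ j ∈ s, a j k) := by
  unfold Fop
  rw [← Summable.tsum_finsetSum (fun j _ => summable_term n (ha j))]
  exact tsum_congr (fun k => (Finset.sum_smul).symm)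

lemma Fop_delta (n : E ≃ₗᵢ[ℝ] E) : Fop n (fun k => if k = 0 then 1 else 0) = 1 := by
  unfold Fop
  rw [tsum_eq_single 0 (fun k hk => by simp [hk])]
  simp [op_one]

/-- the cosine of an isometry -/
noncomputable def Co (n : E ≃ₗᵢ[ℝ] E) : E →L[ℝ] E := (1 / 2 : ℝ) • (op n + op n⁻¹)

omit [CompleteSpace E] in
lemma summable_shift {a : ℤ → ℝ} (ha : Summable fun k => |a k|) (j : ℤ) :
    Summable fun k => |a (k + j)| := (Equiv.addRight j).summable_iff.2 ha

lemma op_mul_Fop (n : E ≃ₗᵢ[ℝ] E) {a : ℤ → ℝ} (ha : Summable fun k => |a k|) (j : ℤ) :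
    op (n ^ j) * Fop n a = Fop n (fun k => a (k - j)) := by
  unfold Fop
  rw [← (summable_term n ha).tsum_mul_left, ← (Equiv.subRight j).tsum_eq]
  refine tsum_congr (fun k => ?_)
  show op (n ^ j) * (a (k - j) • op (n ^ (k - j))) = a (k - j) • op (n ^ k)
  rw [mul_smul_comm, ← op_mul, ← zpow_add, add_sub_cancel]

lemma Fop_lin (n : E ≃ₗᵢ[ℝ] E) {a b : ℤ → ℝ} (ha : Summable fun k => |a k|)
    (hb : Summable fun k => |b k|) (s t : ℝ) :
    s • Fop n a + t • Fop n b = Fop n (fun k => s * a k + t * b k) := by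
  unfold Fop
  rw [← (summable_term n ha).tsum_const_smul, ← (summable_term n hb).tsum_const_smul,
    ← ((summable_term n ha).const_smul s).tsum_add ((summable_term n hb).const_smul t)]
  refine tsum_congr (fun k => ?_)
  rw [smul_smul, smul_smul, ← add_smul]

lemma Co_mul_Fop (n : E ≃ₗᵢ[ℝ] E) {a : ℤ → ℝ} (ha : Summable fun k => |a k|) (c : ℝ) :
    (Co n - c • 1) * Fop n a = Fop n (fun k => (a (k - 1) + a (k + 1)) / 2 - c * a k) := by
  have h1 := op_mul_Fop n ha 1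
  have h2 := op_mul_Fop n ha (-1)
  rw [zpow_one] at h1
  rw [zpow_neg_one] at h2
  have e1 : (Co n - c • 1) * Fop n a
      = (1 / 2 : ℝ) • (op n * Fop n a) + (1 / 2 : ℝ) • (op n⁻¹ * Fop n a) - c • Fop n a := by
    unfold Co
    rw [sub_mul, smul_mul_assoc, smul_mul_assoc, add_mul, one_mul, smul_add]
  have s1 : Summable fun k : ℤ => |a (k - 1)| := summable_shift ha (-1)
  have s2 : Summable fun k : ℤ => |a (k - -1)| := by
    simpa using summable_shift ha 1
  rw [e1, h1, h2, Fop_lin n s1 s2, sub_eq_add_neg, ← neg_smul]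
  have s3 : Summable fun k : ℤ => |1 / 2 * a (k - 1) + 1 / 2 * a (k - -1)| := by
    refine Summable.of_nonneg_of_le (fun _ => abs_nonneg _) (fun k => ?_)
      ((s1.mul_left (1/2)).add (s2.mul_left (1/2)))
    refine (abs_add_le _ _).trans ?_
    rw [abs_mul, abs_mul, abs_of_pos (by norm_num : (0:ℝ) < 1/2)]
  have := Fop_lin n s3 ha 1 (-c)
  rw [one_smul] at this
  rw [this]
  congr 1
  funext k
  rw [sub_neg_eq_add]
  ring

lemma Fop_comm_of (n : E ≃ₗᵢ[ℝ] E) {a : ℤ → ℝ} (ha : Summable fun k => |a k|)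
    (B : E →L[ℝ] E) (hB : ∀ k : ℤ, B * op (n ^ k) = op (n ^ k) * B) :
    B * Fop n a = Fop n a * B := by
  unfold Fop
  rw [← (summable_term n ha).tsum_mul_left, ← (summable_term n ha).tsum_mul_right]
  refine tsum_congr (fun k => ?_)
  rw [mul_smul_comm, hB, smul_mul_assoc]

lemma Fop_conj (n T : E ≃ₗᵢ[ℝ] E) {a : ℤ → ℝ} (ha : Summable fun k => |a k|) :
    op T * Fop n a * op T⁻¹ = Fop (T * n * T⁻¹) a := by
  unfold Fop
  rw [← (summable_term n ha).tsum_mul_left,
    ← ((summable_term n ha).mul_left (op T)).tsum_mul_right]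
  refine tsum_congr (fun k => ?_)
  rw [mul_smul_comm, smul_mul_assoc, conj_zpow, op_mul, op_mul]

/-- elements of the functional calculus of an isometry commuting with its conjugates commute with
their conjugates -/
lemma Fop_good (n T : E ≃ₗᵢ[ℝ] E)
    (hn : (T * n * T⁻¹) * n = n * (T * n * T⁻¹))
    {a b : ℤ → ℝ} (ha : Summable fun k => |a k|) (hb : Summable fun k => |b k|) :
    (op T * Fop n a * op T⁻¹) * Fop n b = Fop n b * (op T * Fop n a * op T⁻¹) := by
  rw [Fop_conj n T ha]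
  refine Fop_comm_of n hb _ (fun k => ?_)
  refine (Fop_comm_of (T * n * T⁻¹) ha (op (n ^ k)) (fun l => ?_)).symm
  rw [← op_mul, ← op_mul]
  congr 1
  have h1 : Commute (T * n * T⁻¹) n := hn
  exact ((h1.zpow_zpow l k).eq).symm

lemma Fop_comm (n : E ≃ₗᵢ[ℝ] E)
    {a b : ℤ → ℝ} (ha : Summable fun k => |a k|) (hb : Summable fun k => |b k|) :
    Fop n a * Fop n b = Fop n b * Fop n a := by
  refine Fop_comm_of n hb _ (fun k => ?_)
  refine (Fop_comm_of n ha (op (n ^ k)) (fun l => ?_)).symm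
  rw [← op_mul, ← op_mul, ← zpow_add, ← zpow_add, add_comm]

end Pool.H590R3.Ab
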