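import Pool.Agent.H590R3.AbWin

set_option autoImplicit false

namespace Pool.H590R3.Ab

open scoped BigOperators

variable {E : Type*} [NormedAddCommGroup E] [NormedSpace ℝ E]

lemma op_mul_inv (n : E ≃ₗᵢ[ℝ] E) : op n * op n⁻¹ = 1 := by
  rw [← op_mul, mul_inv_cancel, op_one]

lemma op_inv_mul (n : E ≃ₗᵢ[ℝ] E) : op n⁻¹ * op n = 1 := by
  rw [← op_mul, inv_mul_cancel, op_one]

lemma sq_of_Co (n : E ≃ₗᵢ[ℝ] E) (c : ℝ) (h : Co n = c • (1 : E →L[ℝ] E)) :
    op n * op n = (2 * c) • op n - 1 := by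
  have h1 : op n * Co n = c • op n := by rw [h, mul_smul_comm, mul_one]
  unfold Co at h1
  rw [mul_smul_comm, mul_add, op_mul_inv] at h1
  have h2 : op n * op n + 1 = (2 * c) • op n := by
    have := congrArg (fun A => (2:ℝ) • A) h1
    simp only [smul_smul] at this
    norm_num at this
    exact this
  rw [← h2, add_sub_cancel_right]

lemma abs_le_of_Co [Nontrivial E] (n : E ≃ₗᵢ[ℝ] E) (c : ℝ) (h : Co n = c • (1 : E →L[ℝ] E)) :
    |c| ≤ 1 := by
  have h1 : ‖Co n‖ ≤ 1 := by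
    unfold Co
    rw [norm_smul]
    have := (norm_add_le (op n) (op n⁻¹)).trans (add_le_add (op_norm_le n) (op_norm_le n⁻¹))
    norm_num
    linarith
  rw [h, norm_smul, norm_one, mul_one, Real.norm_eq_abs] at h1
  exact h1

/-- a unipotent isometry is the identity -/
lemma unip (n : E ≃ₗᵢ[ℝ] E) (h : ∀ x, n (n x) = (2:ℝ) • n x - x) : ∀ x, n x = x := by
  intro x
  have hk : ∀ k : ℕ, (n^[k]) x = x + (k : ℝ) • (n x - x) ∧
      n ((n^[k]) x) = x + ((k : ℝ) + 1) • (n x - x) := by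
    intro k
    induction k with
    | zero => simp
    | succ k ih =>
      have h1 : (n^[k+1]) x = x + ((k : ℝ) + 1) • (n x - x) := by
        rw [Function.iterate_succ_apply']
        exact ih.2
      refine ⟨by rw [h1]; push_cast; rfl, ?_⟩
      rw [h1, map_add, map_smul, map_sub, h x]
      push_cast
      module
  have hb : ∀ k : ℕ, (k : ℝ) * ‖n x - x‖ ≤ 2 * ‖x‖ := by
    intro k
    have h1 : (k : ℝ) • (n x - x) = (n^[k]) x - x := by
      rw [(hk k).1]; abel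
    have h2 : ‖(n^[k]) x‖ = ‖x‖ := by
      induction k with
      | zero => rfl
      | succ k ih =>
        rw [Function.iterate_succ_apply', n.norm_map]
        exact ih (by rw [(hk k).1]; abel)
    have h3 : ‖(k : ℝ) • (n x - x)‖ ≤ ‖(n^[k]) x‖ + ‖x‖ := by rw [h1]; exact norm_sub_le _ _
    rw [norm_smul, Real.norm_of_nonneg (Nat.cast_nonneg k), h2] at h3
    linarith
  by_contra hne
  have hpos : 0 < ‖n x - x‖ := norm_pos_iff.2 (sub_ne_zero.2 hne)
  obtain ⟨k, hk'⟩ := exists_nat_gt (2 * ‖x‖ / ‖n x - x‖)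
  rw [div_lt_iff₀ hpos] at hk'
  have := hb k
  linarith

lemma eq_one_of_Co (n : E ≃ₗᵢ[ℝ] E) (h : Co n = (1:ℝ) • (1 : E →L[ℝ] E)) : ∀ x, n x = x := by
  refine unip n (fun x => ?_)
  have := DFunLike.congr_fun (sq_of_Co n 1 h) x
  rw [mul_one] at this
  exact this

lemma eq_neg_of_Co (n : E ≃ₗᵢ[ℝ] E) (h : Co n = (-1:ℝ) • (1 : E →L[ℝ] E)) :
    ∀ x, n x = -x := by
  intro x
  have h1 : ∀ x, n (n x) = (-2:ℝ) • n x - x := by
    intro x
    have := DFunLike.congr_fun (sq_of_Co n (-1) h) x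
    rw [show (2:ℝ) * -1 = -2 by norm_num] at this
    exact this
  have h2 := unip (n.trans (LinearIsometryEquiv.neg ℝ)) (fun x => by
    show -(n (-(n x))) = (2:ℝ) • (-(n x)) - x
    rw [map_neg, neg_neg, h1 x, smul_neg, neg_smul]) x
  have h3 : -(n x) = x := h2
  rw [← h3, neg_neg, h3]

/-- the complex structure of an isometry -/
noncomputable def Jop (n : E ≃ₗᵢ[ℝ] E) (c : ℝ) : E →L[ℝ] E :=
  (Real.sqrt (1 - c ^ 2))⁻¹ • (op n - c • 1)

lemma sqrt_pos' {c : ℝ} (hc : |c| < 1) : 0 < Real.sqrt (1 - c ^ 2) := by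
  apply Real.sqrt_pos.2
  have := abs_lt.1 hc
  nlinarith

lemma Jop_sq (n : E ≃ₗᵢ[ℝ] E) (c : ℝ) (h : Co n = c • (1 : E →L[ℝ] E)) (hc : |c| < 1) :
    Jop n c * Jop n c = -1 := by
  have hs := sqrt_pos' hc
  set s := Real.sqrt (1 - c ^ 2) with hsdef
  have hs2 : s * s = 1 - c ^ 2 := Real.mul_self_sqrt (by
    have := abs_lt.1 hc
    nlinarith)
  unfold Jop
  rw [smul_mul_smul_comm, sub_mul, mul_sub, mul_sub, sq_of_Co n c h, mul_smul_comm, mul_one,
    smul_mul_assoc, one_mul, smul_mul_smul_comm, mul_one, ← hsdef]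
  have h1 : (2 * c) • op n - 1 - c • op n - (c • op n - (c * c) • (1 : E →L[ℝ] E))
      = -(s * s) • (1 : E →L[ℝ] E) := by
    rw [hs2]
    module
  rw [h1, smul_smul]
  have h2 : s⁻¹ * s⁻¹ * -(s * s) = -1 := by field_simp
  rw [h2, neg_smul, one_smul]

lemma op_eq_Jop (n : E ≃ₗᵢ[ℝ] E) (c : ℝ) (hc : |c| < 1) :
    op n = c • 1 + Real.sqrt (1 - c ^ 2) • Jop n c := by
  have hs := sqrt_pos' hc
  unfold Jop
  rw [smul_smul, mul_inv_cancel₀ hs.ne', one_smul]
  abel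

/-- linear combinations of the identity and commuting operators -/
lemma comb_comm (A B A' B' : E →L[ℝ] E) (h1 : A * A' = A' * A) (h2 : A * B' = B' * A)
    (h3 : B * A' = A' * B) (h4 : B * B' = B' * B) (p q r p' q' r' : ℝ) :
    (p • A + q • B + r • 1) * (p' • A' + q' • B' + r' • 1)
      = (p' • A' + q' • B' + r' • 1) * (p • A + q • B + r • 1) := by
  simp only [mul_add, add_mul, smul_mul_smul_comm, mul_one, one_mul, h1, h2, h3, h4]
  module

theorem Jop_eq_or [CompleteSpace E] [TopologicalSpace.SeparableSpace E]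
    (G N : Subgroup (E ≃ₗᵢ[ℝ] E))
    (htr : ∀ x y : E, ‖x‖ = 1 → ‖y‖ = 1 → ∃ T ∈ G, T x = y)
    (hN : ∀ T ∈ G, ∀ S ∈ N, T * S * T⁻¹ ∈ N) (hab : ∀ S ∈ N, ∀ T ∈ N, S * T = T * S)
    (n m : E ≃ₗᵢ[ℝ] E) (hn : n ∈ N) (hm : m ∈ N) (c d : ℝ) (hcn : Co n = c • (1 : E →L[ℝ] E))
    (hdm : Co m = d • (1 : E →L[ℝ] E)) (hc : |c| < 1) (hd : |d| < 1) :
    Jop n c = Jop m d ∨ Jop n c = -Jop m d := by
  have hJn := Jop_sq n c hcn hc
  have hJm := Jop_sq m d hdm hd
  have hnm : op n * op m = op m * op n := by rw [← op_mul, ← op_mul, hab n hn m hm]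
  have hJJ : Jop n c * Jop m d = Jop m d * Jop n c := by
    unfold Jop
    rw [smul_mul_smul_comm, smul_mul_smul_comm, sub_mul, sub_mul, mul_sub, mul_sub, mul_sub,
      mul_sub, hnm]
    simp only [mul_smul_comm, smul_mul_assoc, mul_one, one_mul]
    module
  set a := Jop n c - Jop m d with ha
  set b := Jop n c + Jop m d with hb
  have hab0 : a * b = 0 := by
    rw [ha, hb, sub_mul, mul_add, mul_add, hJn, hJm, hJJ]
    abel
  by_cases hb0 : b = 0
  · right
    rw [hb] at hb0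
    exact eq_neg_of_add_eq_zero_left hb0
  · left
    have ha2 : a * a = 0 := by
      refine core_op G htr a b (fun T hT => ?_) hab0 hb0
      have e1 : a = (Real.sqrt (1 - c ^ 2))⁻¹ • op n + (-(Real.sqrt (1 - d ^ 2))⁻¹) • op m
          + (-((Real.sqrt (1 - c ^ 2))⁻¹ * c) + (Real.sqrt (1 - d ^ 2))⁻¹ * d) •
            (1 : E →L[ℝ] E) := by
        rw [ha]
        unfold Jop
        module
      have e2 : op T * a * op T⁻¹ = (Real.sqrt (1 - c ^ 2))⁻¹ • op (T * n * T⁻¹)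
          + (-(Real.sqrt (1 - d ^ 2))⁻¹) • op (T * m * T⁻¹)
          + (-((Real.sqrt (1 - c ^ 2))⁻¹ * c) + (Real.sqrt (1 - d ^ 2))⁻¹ * d) •
            (1 : E →L[ℝ] E) := by
        rw [e1]
        simp only [mul_add, add_mul, mul_smul_comm, smul_mul_assoc, mul_one, op_mul,
          op_mul_inv]
      rw [e2, e1]
      refine comb_comm _ _ _ _ ?_ ?_ ?_ ?_ _ _ _ _ _ _
      · rw [← op_mul, ← op_mul, hab _ (hN T hT n hn) n hn]
      · rw [← op_mul, ← op_mul, hab _ (hN T hT n hn) m hm]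
      · rw [← op_mul, ← op_mul, hab _ (hN T hT m hm) n hn]
      · rw [← op_mul, ← op_mul, hab _ (hN T hT m hm) m hm]
    have h1 : Jop n c * Jop m d = -1 := by
      rw [ha, sub_mul, mul_sub, mul_sub, hJn, hJm, ← hJJ] at ha2
      have h2 : (2:ℝ) • (Jop n c * Jop m d) = (2:ℝ) • (-1 : E →L[ℝ] E) := by
        have h3 : -1 - Jop n c * Jop m d - (Jop n c * Jop m d - -1)
            = -((2:ℝ) • (Jop n c * Jop m d)) + (2:ℝ) • (-1 : E →L[ℝ] E) := by module
        rw [h3] at ha2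
        exact (neg_add_eq_zero.1 ha2)
      exact smul_right_injective _ (two_ne_zero) h2
    have h4 : Jop n c * (Jop m d * Jop m d) = -Jop m d := by
      rw [← mul_assoc, h1, neg_mul, one_mul]
    rw [hJm, mul_neg, mul_one] at h4
    exact neg_injective h4

/-- Main theorem: abelian normal subgroups of the isometry group of a separable space with
transitive norm. -/
theorem abelian_normal [CompleteSpace E] [TopologicalSpace.SeparableSpace E]
    (hP : Parti_stmt)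
    (G N : Subgroup (E ≃ₗᵢ[ℝ] E))
    (htr : ∀ x y : E, ‖x‖ = 1 → ‖y‖ = 1 → ∃ T ∈ G, T x = y)
    (hN : ∀ T ∈ G, ∀ S ∈ N, T * S * T⁻¹ ∈ N) (hab : ∀ S ∈ N, ∀ T ∈ N, S * T = T * S) :
    (∀ n ∈ N, (∀ x, n x = x) ∨ (∀ x, n x = -x)) ∨
    ∃ J : E →L[ℝ] E, (∀ x, J (J x) = -x) ∧
      (∀ n ∈ N, ∃ θ : ℝ, ∀ x, n x = Real.cos θ • x + Real.sin θ • J x) ∧
      (∀ U ∈ G, (∀ x, U (J x) = J (U x)) ∨ (∀ x, U (J x) = -J (U x))) := by
  by_cases hnt : Nontrivial E
  swap
  · left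
    intro n _
    left
    intro x
    rw [not_nontrivial_iff_subsingleton] at hnt
    exact Subsingleton.elim _ _
  have hq : ∀ n ∈ N, ∃ c : ℝ, Co n = c • (1 : E →L[ℝ] E) := fun n hn =>
    quad hP G htr n (fun T hT => hab _ (hN T hT n hn) n hn)
  have hq2 : ∀ n ∈ N, ∀ c : ℝ, Co n = c • (1 : E →L[ℝ] E) → ¬ |c| < 1 →
      (∀ x, n x = x) ∨ (∀ x, n x = -x) := by
    intro n hn c hc hlt
    have h1 := abs_le_of_Co n c hc
    have h2 : |c| = 1 := le_antisymm h1 (not_lt.1 hlt)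
    rcases (abs_eq zero_le_one).1 h2 with h | h
    · left; rw [h] at hc; exact eq_one_of_Co n hc
    · right; rw [h] at hc; exact eq_neg_of_Co n hc
  by_cases hall : ∀ n ∈ N, (∀ x, n x = x) ∨ (∀ x, n x = -x)
  · exact Or.inl hall
  right
  push Not at hall
  obtain ⟨n0, hn0, hne1, hne2⟩ := hall
  obtain ⟨c0, hc0⟩ := hq n0 hn0
  have hc0lt : |c0| < 1 := by
    by_contra h
    rcases hq2 n0 hn0 c0 hc0 h with h' | h'
    · obtain ⟨x, hx⟩ := hne1; exact hx (h' x)
    · obtain ⟨x, hx⟩ := hne2; exact hx (h' x)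
  refine ⟨Jop n0 c0, fun x => ?_, fun n hn => ?_, fun U hU => ?_⟩
  · exact DFunLike.congr_fun (Jop_sq n0 c0 hc0 hc0lt) x
  · obtain ⟨c, hc⟩ := hq n hn
    by_cases hlt : |c| < 1
    · have hsin : Real.sin (Real.arccos c) = Real.sqrt (1 - c ^ 2) := Real.sin_arccos c
      have hcos : Real.cos (Real.arccos c) = c :=
        Real.cos_arccos (abs_lt.1 hlt).1.le (abs_lt.1 hlt).2.le
      rcases Jop_eq_or G N htr hN hab n n0 hn hn0 c c0 hc hc0 hlt hc0lt with h | h
      · refine ⟨Real.arccos c, fun x => ?_⟩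
        rw [hsin, hcos, ← h]
        exact DFunLike.congr_fun (op_eq_Jop n c hlt) x
      · refine ⟨-Real.arccos c, fun x => ?_⟩
        rw [Real.cos_neg, Real.sin_neg, hsin, hcos]
        have h1 := DFunLike.congr_fun (op_eq_Jop n c hlt) x
        rw [h] at h1
        have h2 : n x = c • x + Real.sqrt (1 - c ^ 2) • (-(Jop n0 c0 x)) := h1
        rw [h2, smul_neg, neg_smul]
    · rcases hq2 n hn c hc hlt with h | h
      · exact ⟨0, fun x => by rw [h x]; simp⟩
      · exact ⟨Real.pi, fun x => by rw [h x]; simp⟩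
  · have hm : U * n0 * U⁻¹ ∈ N := hN U hU n0 hn0
    have hCo : Co (U * n0 * U⁻¹) = c0 • (1 : E →L[ℝ] E) := by
      have h1 : op U * Co n0 * op U⁻¹ = c0 • (1 : E →L[ℝ] E) := by
        rw [hc0, mul_smul_comm, mul_one, smul_mul_assoc, op_mul_inv]
      rw [← h1]
      unfold Co
      have h2 : (U * n0 * U⁻¹)⁻¹ = U * n0⁻¹ * U⁻¹ := by group
      rw [mul_smul_comm, smul_mul_assoc, mul_add, add_mul, h2, op_mul, op_mul, op_mul, op_mul]
    have hJ : Jop (U * n0 * U⁻¹) c0 = op U * Jop n0 c0 * op U⁻¹ := by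
      unfold Jop
      rw [mul_smul_comm, smul_mul_assoc, mul_sub, sub_mul, mul_smul_comm, mul_one,
        smul_mul_assoc, op_mul_inv, op_mul, op_mul]
    have hJ2 : Jop (U * n0 * U⁻¹) c0 * op U = op U * Jop n0 c0 := by
      rw [hJ, mul_assoc, op_inv_mul, mul_one]
    rcases Jop_eq_or G N htr hN hab _ n0 hm hn0 c0 c0 hCo hc0 hc0lt hc0lt with h | h
    · left
      intro x
      rw [h] at hJ2
      exact (DFunLike.congr_fun hJ2 x).symm
    · right
      intro x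
      rw [h] at hJ2
      exact (DFunLike.congr_fun hJ2 x).symm

end Pool.H590R3.Ab
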