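import Mathlib

set_option autoImplicit false
set_option linter.unusedSectionVars false

namespace Pool.H590R3.Ab

open TopologicalSpace Metric

variable {E : Type*} [NormedAddCommGroup E] [NormedSpace ℝ E]

/-- Baire category: if a group `G` of linear isometries acts transitively on the unit sphere of a
separable Banach space, then the orbit maps are nearly open. (The proof is that of
`Pool.H305R3.Rot.near_open`, for a subgroup.) -/
theorem near_open_sub [CompleteSpace E] [SeparableSpace E] (G0 : Subgroup (E ≃ₗᵢ[ℝ] E))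
    (htr : ∀ x y : E, ‖x‖ = 1 → ‖y‖ = 1 → ∃ T ∈ G0, T x = y)
    {ι : Type} [Finite ι] (e : ι → E) (x : E) (hx : ‖x‖ = 1) {κ : ℝ} (hκ : 0 < κ) :
    ∃ t : ℝ, 0 < t ∧ ∀ y : E, ‖y‖ = 1 → ‖y - x‖ ≤ t → ∀ η : ℝ, 0 < η →
      ∃ T ∈ G0, ‖T x - y‖ ≤ η ∧ ∀ i, ‖T (e i) - e i‖ ≤ κ := by
  have := Fintype.ofFinite ι
  have : SecondCountableTopology E := UniformSpace.secondCountable_of_separable E
  -- countable cover
  set F : G0 → (ι → E) := fun T i => (T : E ≃ₗᵢ[ℝ] E) (e i) with hF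
  obtain ⟨D, hDc, hD⟩ := TopologicalSpace.isOpen_iUnion_countable
    (fun T : G0 => ball (F T) (κ / 2)) (fun T => isOpen_ball)
  have : Countable D := hDc.to_subtype
  have hcov : ∀ T : E ≃ₗᵢ[ℝ] E, T ∈ G0 →
      ∃ g : D, ∀ i, ‖T (e i) - ((g : G0) : E ≃ₗᵢ[ℝ] E) (e i)‖ ≤ κ / 2 := by
    intro T hTG
    have h1 : F ⟨T, hTG⟩ ∈ ⋃ i ∈ D, ball (F i) (κ / 2) := by
      rw [hD]
      exact Set.mem_iUnion.2 ⟨⟨T, hTG⟩, mem_ball_self (by positivity)⟩
    obtain ⟨g, hg, h2⟩ := Set.mem_iUnion₂.1 h1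
    refine ⟨⟨g, hg⟩, fun i => ?_⟩
    rw [mem_ball, dist_pi_lt_iff (by positivity)] at h2
    have := h2 i
    rw [dist_eq_norm] at this
    exact this.le
  -- the orbit of x under the neighbourhood
  set A : Set E := {z | ∃ T : E ≃ₗᵢ[ℝ] E, (T ∈ G0 ∧ ∀ i, ‖T (e i) - e i‖ ≤ κ / 2) ∧ T x = z} with hA
  set S : Set E := sphere (0 : E) 1 with hS
  have : CompleteSpace S := (isClosed_sphere).completeSpace_coe
  have : Nonempty S := ⟨⟨x, by rw [hS, mem_sphere_zero_iff_norm]; exact hx⟩⟩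
  set f : D → Set S := fun g => {y : S | ((g : G0) : E ≃ₗᵢ[ℝ] E).symm (y : E) ∈ closure A} with hf
  have hfc : ∀ g, IsClosed (f g) := by
    intro g
    exact isClosed_closure.preimage
      (((g : G0) : E ≃ₗᵢ[ℝ] E).symm.continuous.comp continuous_subtype_val)
  have hU : ⋃ g, f g = Set.univ := by
    rw [Set.eq_univ_iff_forall]
    rintro ⟨y, hy⟩
    rw [hS, mem_sphere_zero_iff_norm] at hy
    obtain ⟨T, hTG, hT⟩ := htr x y hx hy
    obtain ⟨g, hg⟩ := hcov T hTG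
    refine Set.mem_iUnion.2 ⟨g, ?_⟩
    show ((g : G0) : E ≃ₗᵢ[ℝ] E).symm y ∈ closure A
    refine subset_closure ⟨T.trans ((g : G0) : E ≃ₗᵢ[ℝ] E).symm,
      ⟨G0.mul_mem (G0.inv_mem (g : G0).2) hTG, fun i => ?_⟩, ?_⟩
    · rw [LinearIsometryEquiv.trans_apply]
      have h1 : ((g : G0) : E ≃ₗᵢ[ℝ] E).symm (T (e i)) - e i =
          ((g : G0) : E ≃ₗᵢ[ℝ] E).symm (T (e i) - ((g : G0) : E ≃ₗᵢ[ℝ] E) (e i)) := by
        rw [map_sub, LinearIsometryEquiv.symm_apply_apply]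
      rw [h1, LinearIsometryEquiv.norm_map]
      exact hg i
    · rw [LinearIsometryEquiv.trans_apply, hT]
  obtain ⟨g, y0, hy0⟩ := nonempty_interior_of_iUnion_of_closed hfc hU
  rw [mem_interior_iff_mem_nhds, Metric.mem_nhds_iff] at hy0
  obtain ⟨r, hr0, hr⟩ := hy0
  set G : E ≃ₗᵢ[ℝ] E := ((g : G0) : E ≃ₗᵢ[ℝ] E) with hG
  have hr' : ∀ y : E, ‖y‖ = 1 → ‖y - y0‖ < r → G.symm y ∈ closure A := by
    intro y hy hyr
    have h1 : (⟨y, by rw [hS, mem_sphere_zero_iff_norm]; exact hy⟩ : S) ∈ ball y0 r := by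
      rw [mem_ball, Subtype.dist_eq, dist_eq_norm]
      exact hyr
    exact hr h1
  have hy0n : ‖(y0 : E)‖ = 1 := mem_sphere_zero_iff_norm.1 y0.2
  have h0 : G.symm (y0 : E) ∈ closure A := hr' y0 hy0n (by simpa using hr0)
  obtain ⟨a, ⟨v, ⟨hvG, hv1⟩, rfl⟩, hv2⟩ := Metric.mem_closure_iff.1 h0 (r / 2) (by positivity)
  rw [dist_eq_norm] at hv2
  refine ⟨r / 4, by positivity, fun y hy hyx η hη => ?_⟩
  have h1 : v y ∈ closure A := by
    have h2 : G.symm (G (v y)) ∈ closure A := by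
      refine hr' _ (by rw [G.norm_map, v.norm_map, hy]) ?_
      have h3 : G (v y) - (y0 : E) = G (v (y - x)) + G (v x - G.symm y0) := by
        rw [← map_add, map_sub v]
        have : v y - v x + (v x - G.symm (y0 : E)) = v y - G.symm (y0 : E) := by abel
        rw [this, map_sub G, G.apply_symm_apply]
      rw [h3]
      refine (norm_add_le _ _).trans_lt ?_
      rw [G.norm_map, G.norm_map, v.norm_map, norm_sub_rev (v x)]
      linarith
    rwa [G.symm_apply_apply] at h2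
  obtain ⟨a, ⟨T, ⟨hTG, hT1⟩, rfl⟩, hT2⟩ := Metric.mem_closure_iff.1 h1 η hη
  rw [dist_eq_norm] at hT2
  refine ⟨T.trans v.symm, G0.mul_mem (G0.inv_mem hvG) hTG, ?_, fun i => ?_⟩
  · rw [LinearIsometryEquiv.trans_apply]
    have h2 : v.symm (T x) - y = v.symm (T x - v y) := by
      rw [map_sub, v.symm_apply_apply]
    rw [h2, v.symm.norm_map, norm_sub_rev]
    exact hT2.le
  · rw [LinearIsometryEquiv.trans_apply]
    have h2 : v.symm (T (e i)) - e i = v.symm ((T (e i) - e i) - (v (e i) - e i)) := by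
      rw [sub_sub_sub_cancel_right, map_sub, v.symm_apply_apply]
    rw [h2, v.symm.norm_map]
    refine (norm_sub_le _ _).trans ?_
    have := hT1 i
    have := hv1 i
    linarith

end Pool.H590R3.Ab
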