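import Mathlib

/-!
# Fourier analysis used for the Banach-Mazur rotation problem (statements)

`ca F k` is the `k`-th cosine coefficient of an even `2π`-periodic function, normalised so that
`F θ = ∑ k : ℤ, ca F k * cos (k θ)`.
-/

set_option autoImplicit false

namespace Pool.H590R3.Ab

/-- cosine coefficients, `k ∈ ℤ` -/
noncomputable def ca (F : ℝ → ℝ) (k : ℤ) : ℝ :=
  (1 / Real.pi) * ∫ θ in (0:ℝ)..Real.pi, F θ * Real.cos (k * θ)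

/-- Product formula. Idea: `F θ = ∑ k, ca F k * cos (k θ)` uniformly (Mathlib:
`has_pointwise_sum_fourier_series_of_summable` on `AddCircle (2π)`), multiply by
`G θ * cos (m θ)` and integrate term by term; `cos kθ cos mθ = (cos (m+k)θ + cos (m-k)θ)/2` and
`ca F (-k) = ca F k`. -/
def Prod_stmt : Prop :=
  ∀ F G : ℝ → ℝ, Continuous F → Continuous G →
    (∀ θ, F (-θ) = F θ) → (∀ θ, F (θ + 2 * Real.pi) = F θ) →
    (∀ θ, G (-θ) = G θ) → (∀ θ, G (θ + 2 * Real.pi) = G θ) →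
    Summable (fun k : ℤ => |ca F k|) → Summable (fun k : ℤ => |ca G k|) →
    ∀ m : ℤ, ∑' k : ℤ, ca F k * ca G (m - k) = ca (fun θ => F θ * G θ) m

/-- Fourier series representation of an even periodic function with summable coefficients. -/
def Series_stmt : Prop :=
  ∀ F : ℝ → ℝ, Continuous F → (∀ θ, F (-θ) = F θ) → (∀ θ, F (θ + 2 * Real.pi) = F θ) →
    Summable (fun k : ℤ => |ca F k|) →
    ∀ θ, HasSum (fun k : ℤ => ca F k * Real.cos (k * θ)) (F θ)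

/-- Second order decay, uniform in `c` and `δ`. Idea: integrate by parts twice on `[0,π]` (boundary
terms vanish: `sin kθ = 0` and `F'(0) = F'(π) = 0`);
`∫_0^π |F''| ≤ π sup|G'| + ∫_0^π sin θ |G''((cos θ - c)/δ)| dθ/δ ≤ π sup|G'| + 2 sup|G''|` by the
substitution `u = (cos θ - c)/δ` and `G'' = 0` off `[-1,1]`. -/
def Dec1_stmt : Prop :=
  ∀ G : ℝ → ℝ, ContDiff ℝ 2 G → (∀ u, 1 ≤ |u| → G u = 0) →
    ∃ K : ℝ, ∀ δ : ℝ, 0 < δ → δ ≤ 1 → ∀ c : ℝ, ∀ k : ℤ, k ≠ 0 →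
      |ca (fun θ => δ * G ((Real.cos θ - c) / δ)) k| ≤ K / (k : ℝ) ^ 2

/-- Norm of thin bumps. -/
def Dec_stmt : Prop :=
  ∀ G : ℝ → ℝ, ContDiff ℝ 2 G → (∀ u, 1 ≤ |u| → G u = 0) →
    (∀ δ : ℝ, 0 < δ → δ ≤ 1 → ∀ c : ℝ,
      Summable (fun k : ℤ => |ca (fun θ => G ((Real.cos θ - c) / δ)) k|)) ∧
    ∀ ε : ℝ, 0 < ε → ∃ δ0 : ℝ, 0 < δ0 ∧ ∀ δ : ℝ, 0 < δ → δ < δ0 → δ ≤ 1 → ∀ c : ℝ,
      ∑' k : ℤ, |ca (fun θ => δ * G ((Real.cos θ - c) / δ)) k| ≤ ε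

/-- `Dec1_stmt → Dec_stmt`. Idea: `|ca (δ G(..)) k| ≤ δ sup|G|` for all `k` and `≤ K/k²` for
`k ≠ 0`; the sum of the minimum tends to `0` as `δ → 0` (Tannery:
`tendsto_tsum_of_dominated_convergence`, or split the sum at `|k| ≤ 1/√δ`). -/
def Dec2_stmt : Prop := Dec1_stmt → Dec_stmt

/-- the partition of unity, in terms of coefficients -/
def Parti_stmt : Prop :=
  ∀ ε : ℝ, 0 < ε → ∃ (M : ℕ) (a : ℕ → ℤ → ℝ) (c : ℕ → ℝ),
    (∀ j, Summable (fun k : ℤ => |a j k|)) ∧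
    (∀ k : ℤ, ∑ j ∈ Finset.range (M + 1), a j k = if k = 0 then 1 else 0) ∧
    (∀ i j, i + 2 ≤ j → ∀ m : ℤ, ∑' k : ℤ, a i k * a j (m - k) = 0) ∧
    (∀ i j, i ≤ j → j ≤ i + 2 →
      ∑' k : ℤ, |(a j (k - 1) + a j (k + 1)) / 2 - c i * a j k| ≤ ε)

/-- `Prod_stmt → Dec_stmt → Parti_stmt`. Idea: `s = Real.smoothTransition`,
`w t = s (t + 1) - s t` (smooth, zero for `|t| ≥ 1`), `δ = 2 / M`, `M` large, `c j = -1 + j δ`,
`h_j θ = w ((cos θ - c j) / δ)`, `a j = ca h_j`. Telescoping: `∑_{j ≤ M} w (t - j) = 1` for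
`0 ≤ t ≤ M`, `t = (cos θ + 1) / δ`. `h_i h_j = 0` if `j ≥ i + 2`. For the last item,
`(cos θ - c i) h_j θ = δ G_b ((cos θ - c j) / δ)` with `G_b u = (u + b) w u`, `b = j - i ∈ {0,1,2}`,
and `ca (cos θ * h) k = (ca h (k-1) + ca h (k+1)) / 2`. -/
def PartiOf_stmt : Prop := Prod_stmt → Dec_stmt → Parti_stmt

end Pool.H590R3.Ab
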