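import Pool.Agent.H590R3.AbSeries
import Pool.Agent.H397R3.AB.Prod
import Pool.Agent.H663R4.AB.Dec2
import Pool.Agent.H343R3.Ab.Dec1
import Pool.Agent.H984R3.AbPartiOf

set_option autoImplicit false

namespace Pool.H590R3.Ab

theorem parti : Parti_stmt :=
  Pool.Agent.H984R3.AbPartiOf.partiOf (prod series)
    (Pool.Agent.H663R4.AB.dec2 Pool.Agent.H343R3.Ab.dec1)

end Pool.H590R3.Ab
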