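import Pool.Agent.H590R3.AbMain
import Pool.Agent.H590R3.AbParti

set_option autoImplicit false

namespace Pool.H590R3.Ab

variable {E : Type*} [NormedAddCommGroup E] [NormedSpace ℝ E]

lemma adjoin [CompleteSpace E] [TopologicalSpace.SeparableSpace E]
    (G : Subgroup (E ≃ₗᵢ[ℝ] E))
    (htr : ∀ x y : E, ‖x‖ = 1 → ‖y‖ = 1 → ∃ T ∈ G, T x = y)
    (A : Set (E ≃ₗᵢ[ℝ] E)) (hA1 : 1 ∈ A) (hAc : ∀ a ∈ A, ∀ b ∈ A, a * b = b * a)
    (hAm : ∀ a ∈ A, ∀ b ∈ A, a * b ∈ A)
    (hAn : ∀ T ∈ G, ∀ a ∈ A, T * a * T⁻¹ ∈ A)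
    (x : E ≃ₗᵢ[ℝ] E) (hx : ∀ a ∈ A, a * x = x * a)
    (hxG : ∀ T ∈ G, ∃ a ∈ A, T * x * T⁻¹ = a * x) :
    (∀ S, S ∈ A ∨ S = x → (∀ z, S z = z) ∨ (∀ z, S z = -z)) ∨
    ∃ J : E →L[ℝ] E, (∀ z, J (J z) = -z) ∧
      (∀ S, S ∈ A ∨ S = x → ∃ θ : ℝ, ∀ z, S z = Real.cos θ • z + Real.sin θ • J z) ∧
      (∀ U ∈ G, (∀ z, U (J z) = J (U z)) ∨ (∀ z, U (J z) = -J (U z))) := by
  set K : Set (E ≃ₗᵢ[ℝ] E) := {S | ∃ a ∈ A, S = a ∨ S = a * x} with hK
  have hKc : ∀ S ∈ K, ∀ T ∈ K, S * T = T * S := by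
    rintro S ⟨a, ha, hS⟩ T ⟨b, hb, hT⟩
    have c1 : Commute a b := hAc a ha b hb
    have c2 : Commute a x := hx a ha
    have c3 : Commute b x := hx b hb
    rcases hS with rfl | rfl <;> rcases hT with rfl | rfl
    · exact c1
    · exact c1.mul_right c2
    · exact (c1.mul_left c3.symm)
    · exact ((c1.mul_left c3.symm).mul_right (c2.mul_left (Commute.refl x)))
  set N := Subgroup.closure K with hNdef
  have hN1 : N ≤ Subgroup.centralizer K := by
    rw [hNdef, Subgroup.closure_le]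
    intro S hS
    rw [SetLike.mem_coe, Subgroup.mem_centralizer_iff]
    intro T hT
    exact hKc T hT S hS
  have hN2 : N ≤ Subgroup.centralizer (N : Set (E ≃ₗᵢ[ℝ] E)) := by
    rw [hNdef, Subgroup.closure_le]
    intro S hS
    rw [SetLike.mem_coe, Subgroup.mem_centralizer_iff]
    intro T hT
    have := Subgroup.mem_centralizer_iff.1 (hN1 hT) S hS
    exact this.symm
  have hNab : ∀ S ∈ N, ∀ T ∈ N, S * T = T * S := fun S hS T hT =>
    Subgroup.mem_centralizer_iff.1 (hN2 hT) S hS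
  have hNn : ∀ T ∈ G, ∀ S ∈ N, T * S * T⁻¹ ∈ N := by
    intro T hT S hS
    induction hS using Subgroup.closure_induction with
    | mem S hS =>
      obtain ⟨a, ha, hS⟩ := hS
      refine Subgroup.subset_closure ?_
      rcases hS with rfl | rfl
      · exact ⟨_, hAn T hT _ ha, Or.inl rfl⟩
      · obtain ⟨b, hb, hb'⟩ := hxG T hT
        refine ⟨T * a * T⁻¹ * b, hAm _ (hAn T hT _ ha) _ hb, Or.inr ?_⟩
        rw [mul_assoc (T * a * T⁻¹) b x, ← hb']
        group
    | one => rw [mul_one, mul_inv_cancel]; exact N.one_mem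
    | mul S S' _ _ h1 h2 =>
      have : T * (S * S') * T⁻¹ = (T * S * T⁻¹) * (T * S' * T⁻¹) := by group
      rw [this]; exact N.mul_mem h1 h2
    | inv S _ h1 =>
      have : T * S⁻¹ * T⁻¹ = (T * S * T⁻¹)⁻¹ := by group
      rw [this]; exact N.inv_mem h1
  have hmem : ∀ S, S ∈ A ∨ S = x → S ∈ N := by
    rintro S (h | rfl)
    · exact Subgroup.subset_closure ⟨S, h, Or.inl rfl⟩
    · exact Subgroup.subset_closure ⟨1, hA1, Or.inr (one_mul _).symm⟩
  rcases abelian_normal parti G N htr hNn hNab with h | ⟨J, hJ, h1, h2⟩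
  · exact Or.inl (fun S hS => h S (hmem S hS))
  · exact Or.inr ⟨J, hJ, fun S hS => h1 S (hmem S hS), h2⟩

/-- a complex structure is not a scalar at a nonzero vector -/
lemma J_ne_smul (J : E →L[ℝ] E) (hJ : ∀ z, J (J z) = -z) (z : E) (hz : z ≠ 0) (r : ℝ) :
    J z ≠ r • z := by
  intro h
  have h1 := hJ z
  rw [h, map_smul, h, smul_smul] at h1
  have h2 : (r * r + 1) • z = 0 := by rw [add_smul, one_smul, h1, neg_add_cancel]
  rcases smul_eq_zero.1 h2 with h3 | h3
  · nlinarith [mul_self_nonneg r]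
  · exact hz h3

/-- two complex structures giving the same nonreal rotation agree up to sign -/
lemma J_unique [Nontrivial E] (J J' : E →L[ℝ] E) (hJ : ∀ z, J (J z) = -z)
    (hJ' : ∀ z, J' (J' z) = -z) (p s p' s' : ℝ) (hs : s ≠ 0)
    (h : ∀ z, p • z + s • J z = p' • z + s' • J' z) : (∀ z, J' z = J z) ∨ (∀ z, J' z = -J z) := by
  set α : ℝ := (p' - p) / s with hα
  set β : ℝ := s' / s with hβ
  have h1 : ∀ z, J z = α • z + β • J' z := by
    intro z
    have h2 : s • J z = (p' - p) • z + s' • J' z := by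
      have := h z
      rw [sub_smul]
      have h3 : s • J z = (p • z + s • J z) - p • z := by abel
      rw [h3, this]; abel
    have h4 : J z = s⁻¹ • (s • J z) := by rw [smul_smul, inv_mul_cancel₀ hs, one_smul]
    rw [h4, h2, smul_add, smul_smul, smul_smul, hα, hβ, div_eq_inv_mul, div_eq_inv_mul]
  have h5 : ∀ z, (α * α - β * β + 1) • z + (2 * α * β) • J' z = 0 := by
    intro z
    have e := hJ z
    rw [h1 (J z), h1 z, map_add, map_smul, map_smul, hJ' z] at e
    have e2 : (α * α - β * β + 1) • z + (2 * α * β) • J' z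
        = (α • (α • z + β • J' z) + β • (α • J' z + β • -z)) - (-z) := by module
    rw [e2, e, sub_self]
  obtain ⟨z0, hz0⟩ := exists_ne (0 : E)
  have h6 : 2 * α * β = 0 := by
    by_contra hne
    apply J_ne_smul J' hJ' z0 hz0 (-((2 * α * β)⁻¹ * (α * α - β * β + 1)))
    have := h5 z0
    have h7 : J' z0 = (2 * α * β)⁻¹ • ((2 * α * β) • J' z0) := by
      rw [smul_smul, inv_mul_cancel₀ hne, one_smul]
    have h8 : (2 * α * β) • J' z0 = -((α * α - β * β + 1) • z0) :=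
      eq_neg_of_add_eq_zero_right this
    rw [h7, h8, smul_neg, smul_smul, neg_smul]
  have h9 : α * α - β * β + 1 = 0 := by
    have := h5 z0
    rw [h6, zero_smul, add_zero] at this
    exact (smul_eq_zero.1 this).resolve_right hz0
  have hβ0 : β ≠ 0 := by
    intro hb
    rw [hb] at h9
    nlinarith [mul_self_nonneg α]
  have hα0 : α = 0 := by
    have : α * β = 0 := by linarith
    exact (mul_eq_zero.1 this).resolve_right hβ0
  have hβ1 : β * β = 1 := by rw [hα0] at h9; linarith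
  rcases mul_self_eq_one_iff.1 hβ1 with hb | hb
  · left; intro z
    rw [h1 z, hα0, hb, zero_smul, zero_add, one_smul]
  · right; intro z
    rw [h1 z, hα0, hb, zero_smul, zero_add, neg_smul, one_smul, neg_neg]

end Pool.H590R3.Ab
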