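import Pool.Agent.H590R3.AbNil

set_option autoImplicit false

namespace Pool.H590R3.Ab

open scoped commutatorElement

variable {E : Type*} [NormedAddCommGroup E] [NormedSpace ℝ E]

lemma central_step (G : Subgroup (E ≃ₗᵢ[ℝ] E)) (i : ℕ) (x T : G)
    (hx : x ∈ Subgroup.upperCentralSeries G (i + 1)) :
    T * x * T⁻¹ * x⁻¹ ∈ Subgroup.upperCentralSeries G i := by
  have h := (Subgroup.mem_upperCentralSeries_succ_iff.1 hx) T
  have h2 := (Subgroup.upperCentralSeries G i).inv_mem h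
  have h3 : (⁅x, T⁆)⁻¹ = T * x * T⁻¹ * x⁻¹ := by rw [commutatorElement_def]; group
  rwa [h3] at h2

lemma inv_J (J : E →L[ℝ] E) (T : E ≃ₗᵢ[ℝ] E) (h : ∀ z, T (J z) = J (T z)) (z : E) :
    T⁻¹ (J z) = J (T⁻¹ z) := by
  have h1 := h (T⁻¹ z)
  have h2 : T (T⁻¹ z) = z := T.apply_symm_apply z
  rw [h2] at h1
  rw [← h1]
  exact T.symm_apply_apply _

lemma inv_J' (J : E →L[ℝ] E) (T : E ≃ₗᵢ[ℝ] E) (h : ∀ z, T (J z) = -J (T z)) (z : E) :
    T⁻¹ (J z) = -J (T⁻¹ z) := by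
  have h1 := h (T⁻¹ z)
  have h2 : T (T⁻¹ z) = z := T.apply_symm_apply z
  rw [h2] at h1
  have h3 : J z = T (-J (T⁻¹ z)) := by rw [map_neg, h1, neg_neg]
  rw [h3]
  exact T.symm_apply_apply _

theorem case1 [CompleteSpace E] [TopologicalSpace.SeparableSpace E] [Nontrivial E]
    (G : Subgroup (E ≃ₗᵢ[ℝ] E))
    (htr : ∀ x y : E, ‖x‖ = 1 → ‖y‖ = 1 → ∃ T ∈ G, T x = y)
    (J : E →L[ℝ] E) (hJ : ∀ z, J (J z) = -z)
    (hGJ : ∀ U ∈ G, (∀ z, U (J z) = J (U z)) ∨ (∀ z, U (J z) = -J (U z)))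
    (n0 : E ≃ₗᵢ[ℝ] E) (hn0 : n0 ∈ G) (θ0 : ℝ)
    (h0 : ∀ z, n0 z = Real.cos θ0 • z + Real.sin θ0 • J z) (hs : Real.sin θ0 ≠ 0) (i : ℕ) :
    ∀ x : G, x ∈ Subgroup.upperCentralSeries G i →
      (∀ z, (x : E ≃ₗᵢ[ℝ] E) (J z) = J ((x : E ≃ₗᵢ[ℝ] E) z)) →
      ∃ θ : ℝ, ∀ z, (x : E ≃ₗᵢ[ℝ] E) z = Real.cos θ • z + Real.sin θ • J z := by
  induction i with
  | zero =>
    intro x hx _
    rw [Subgroup.upperCentralSeries_zero, Subgroup.mem_bot] at hx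
    refine ⟨0, fun z => ?_⟩
    rw [hx]
    simp
  | succ i ih =>
    intro x hx hxJ
    set A : Set (E ≃ₗᵢ[ℝ] E) :=
      {S | S ∈ G ∧ ∃ θ : ℝ, ∀ z, S z = Real.cos θ • z + Real.sin θ • J z} with hA
    have hA1 : (1 : E ≃ₗᵢ[ℝ] E) ∈ A := ⟨G.one_mem, 0, fun z => by simp⟩
    have hmulf : ∀ a b : E ≃ₗᵢ[ℝ] E, ∀ α β : ℝ,
        (∀ z, a z = Real.cos α • z + Real.sin α • J z) →
        (∀ z, b z = Real.cos β • z + Real.sin β • J z) →
        ∀ z, a (b z) = Real.cos (α + β) • z + Real.sin (α + β) • J z := by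
      intro a b α β ha hb z
      rw [ha, hb, map_add, map_smul, map_smul, hJ, Real.cos_add, Real.sin_add]
      module
    have hAc : ∀ a ∈ A, ∀ b ∈ A, a * b = b * a := by
      rintro a ⟨_, α, ha⟩ b ⟨_, β, hb⟩
      refine LinearIsometryEquiv.ext (fun z => ?_)
      show a (b z) = b (a z)
      rw [hmulf a b α β ha hb, hmulf b a β α hb ha, add_comm α β]
    have hAm : ∀ a ∈ A, ∀ b ∈ A, a * b ∈ A := by
      rintro a ⟨haG, α, ha⟩ b ⟨hbG, β, hb⟩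
      exact ⟨G.mul_mem haG hbG, α + β, hmulf a b α β ha hb⟩
    have hAn : ∀ T ∈ G, ∀ a ∈ A, T * a * T⁻¹ ∈ A := by
      rintro T hT a ⟨haG, α, ha⟩
      refine ⟨G.mul_mem (G.mul_mem hT haG) (G.inv_mem hT), ?_⟩
      have hTT : ∀ z, T (T⁻¹ z) = z := fun z => T.apply_symm_apply z
      rcases hGJ T hT with h | h
      · refine ⟨α, fun z => ?_⟩
        show T (a (T⁻¹ z)) = _
        rw [ha, map_add, map_smul, map_smul, h, hTT]
      · refine ⟨-α, fun z => ?_⟩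
        show T (a (T⁻¹ z)) = _
        rw [ha, map_add, map_smul, map_smul, h, hTT, Real.cos_neg, Real.sin_neg, smul_neg,
          neg_smul]
    have hxA : ∀ a ∈ A, a * (x : E ≃ₗᵢ[ℝ] E) = (x : E ≃ₗᵢ[ℝ] E) * a := by
      rintro a ⟨_, α, ha⟩
      refine LinearIsometryEquiv.ext (fun z => ?_)
      show a ((x : E ≃ₗᵢ[ℝ] E) z) = (x : E ≃ₗᵢ[ℝ] E) (a z)
      rw [ha, ha, map_add, map_smul, map_smul, hxJ]
    have hxG : ∀ T ∈ G, ∃ a ∈ A, T * (x : E ≃ₗᵢ[ℝ] E) * T⁻¹ = a * (x : E ≃ₗᵢ[ℝ] E) := by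
      intro T hT
      have h1 := central_step G i x ⟨T, hT⟩ hx
      have h2 : ∀ z, (((⟨T, hT⟩ : G) * x * (⟨T, hT⟩ : G)⁻¹ * x⁻¹ : G) : E ≃ₗᵢ[ℝ] E) (J z)
          = J ((((⟨T, hT⟩ : G) * x * (⟨T, hT⟩ : G)⁻¹ * x⁻¹ : G) : E ≃ₗᵢ[ℝ] E) z) := by
        intro z
        show T ((x : E ≃ₗᵢ[ℝ] E) (T⁻¹ ((x : E ≃ₗᵢ[ℝ] E)⁻¹ (J z))))
          = J (T ((x : E ≃ₗᵢ[ℝ] E) (T⁻¹ ((x : E ≃ₗᵢ[ℝ] E)⁻¹ z))))
        rw [inv_J J _ hxJ]
        rcases hGJ T hT with h | h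
        · rw [inv_J J T h, hxJ, h]
        · rw [inv_J' J T h, map_neg, hxJ, map_neg, h, neg_neg]
      obtain ⟨θ, hθ⟩ := ih _ h1 h2
      refine ⟨T * (x : E ≃ₗᵢ[ℝ] E) * T⁻¹ * (x : E ≃ₗᵢ[ℝ] E)⁻¹, ⟨?_, θ, hθ⟩, by group⟩
      exact G.mul_mem (G.mul_mem (G.mul_mem hT x.2) (G.inv_mem hT)) (G.inv_mem x.2)
    have hn0A : n0 ∈ A := ⟨hn0, θ0, h0⟩
    rcases adjoin G htr A hA1 hAc hAm hAn (x : E ≃ₗᵢ[ℝ] E) hxA hxG with h | ⟨J', hJ', h1, h2⟩
    · exfalso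
      obtain ⟨z0, hz0⟩ := exists_ne (0 : E)
      have h3 : ∃ r : ℝ, n0 z0 = r • z0 := by
        rcases h n0 (Or.inl hn0A) with h | h
        · exact ⟨1, by rw [h, one_smul]⟩
        · exact ⟨-1, by rw [h, neg_smul, one_smul]⟩
      obtain ⟨r, hr⟩ := h3
      rw [h0] at hr
      apply J_ne_smul J hJ z0 hz0 ((Real.sin θ0)⁻¹ * (r - Real.cos θ0))
      have h4 : Real.sin θ0 • J z0 = (r - Real.cos θ0) • z0 := by
        rw [sub_smul, ← hr]; abel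
      rw [mul_smul, ← h4, smul_smul, inv_mul_cancel₀ hs, one_smul]
    · obtain ⟨θ1, hθ1⟩ := h1 n0 (Or.inl hn0A)
      obtain ⟨θ2, hθ2⟩ := h1 (x : E ≃ₗᵢ[ℝ] E) (Or.inr rfl)
      rcases J_unique J J' hJ hJ' (Real.cos θ0) (Real.sin θ0) (Real.cos θ1) (Real.sin θ1) hs
        (fun z => by rw [← h0, ← hθ1]) with h | h
      · exact ⟨θ2, fun z => by rw [hθ2, h]⟩
      · refine ⟨-θ2, fun z => ?_⟩
        rw [hθ2, h, Real.cos_neg, Real.sin_neg, smul_neg, neg_smul]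

theorem case2 [CompleteSpace E] [TopologicalSpace.SeparableSpace E]
    (G : Subgroup (E ≃ₗᵢ[ℝ] E))
    (htr : ∀ x y : E, ‖x‖ = 1 → ‖y‖ = 1 → ∃ T ∈ G, T x = y)
    (hno : ¬ ∃ J : E →L[ℝ] E, (∀ z, J (J z) = -z) ∧
      (∀ U ∈ G, (∀ z, U (J z) = J (U z)) ∨ (∀ z, U (J z) = -J (U z))) ∧
      ∃ n0 ∈ G, ∃ θ0 : ℝ, (∀ z, n0 z = Real.cos θ0 • z + Real.sin θ0 • J z) ∧
        Real.sin θ0 ≠ 0) (i : ℕ) :
    ∀ x : G, x ∈ Subgroup.upperCentralSeries G i →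
      (∀ z, (x : E ≃ₗᵢ[ℝ] E) z = z) ∨ (∀ z, (x : E ≃ₗᵢ[ℝ] E) z = -z) := by
  induction i with
  | zero =>
    intro x hx
    rw [Subgroup.upperCentralSeries_zero, Subgroup.mem_bot] at hx
    left; intro z; rw [hx]; rfl
  | succ i ih =>
    intro x hx
    set A : Set (E ≃ₗᵢ[ℝ] E) := {S | S ∈ G ∧ ((∀ z, S z = z) ∨ (∀ z, S z = -z))} with hA
    have hA1 : (1 : E ≃ₗᵢ[ℝ] E) ∈ A := ⟨G.one_mem, Or.inl (fun z => rfl)⟩
    have hAcen : ∀ a ∈ A, ∀ b : E ≃ₗᵢ[ℝ] E, a * b = b * a := by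
      rintro a ⟨_, ha⟩ b
      refine LinearIsometryEquiv.ext (fun z => ?_)
      show a (b z) = b (a z)
      rcases ha with ha | ha
      · rw [ha, ha]
      · rw [ha, ha, map_neg]
    have hAm : ∀ a ∈ A, ∀ b ∈ A, a * b ∈ A := by
      rintro a ⟨haG, ha⟩ b ⟨hbG, hb⟩
      refine ⟨G.mul_mem haG hbG, ?_⟩
      rcases ha with ha | ha <;> rcases hb with hb | hb
      · left; intro z; show a (b z) = z; rw [ha, hb]
      · right; intro z; show a (b z) = -z; rw [ha, hb]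
      · right; intro z; show a (b z) = -z; rw [ha, hb]
      · left; intro z; show a (b z) = z; rw [ha, hb, neg_neg]
    have hAn : ∀ T ∈ G, ∀ a ∈ A, T * a * T⁻¹ ∈ A := by
      intro T hT a ha
      rw [← hAcen a ha T, mul_assoc, mul_inv_cancel, mul_one]
      exact ha
    have hxG : ∀ T ∈ G, ∃ a ∈ A, T * (x : E ≃ₗᵢ[ℝ] E) * T⁻¹ = a * (x : E ≃ₗᵢ[ℝ] E) := by
      intro T hT
      have h1 := ih _ (central_step G i x ⟨T, hT⟩ hx)
      refine ⟨T * (x : E ≃ₗᵢ[ℝ] E) * T⁻¹ * (x : E ≃ₗᵢ[ℝ] E)⁻¹, ⟨?_, h1⟩, by group⟩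
      exact G.mul_mem (G.mul_mem (G.mul_mem hT x.2) (G.inv_mem hT)) (G.inv_mem x.2)
    rcases adjoin G htr A hA1 (fun a ha b _ => hAcen a ha b) hAm hAn (x : E ≃ₗᵢ[ℝ] E)
      (fun a ha => hAcen a ha _) hxG with h | ⟨J, hJ, h1, h2⟩
    · exact h _ (Or.inr rfl)
    · obtain ⟨θ, hθ⟩ := h1 (x : E ≃ₗᵢ[ℝ] E) (Or.inr rfl)
      by_cases hs : Real.sin θ = 0
      · have hc : Real.cos θ = 1 ∨ Real.cos θ = -1 := by
          have := Real.sin_sq_add_cos_sq θ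
          rw [hs] at this
          have h3 : Real.cos θ * Real.cos θ = 1 := by nlinarith
          exact mul_self_eq_one_iff.1 h3
        rcases hc with hc | hc
        · left; intro z; rw [hθ, hs, hc, one_smul, zero_smul, add_zero]
        · right; intro z; rw [hθ, hs, hc, neg_smul, one_smul, zero_smul, add_zero]
      · exact absurd ⟨J, hJ, h2, _, x.2, θ, hθ, hs⟩ hno

/-- nilpotent transitive groups live in dimension at most two -/
theorem nilp [CompleteSpace E] [TopologicalSpace.SeparableSpace E]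
    (G : Subgroup (E ≃ₗᵢ[ℝ] E)) (hnil : Group.IsNilpotent G)
    (htr : ∀ x y : E, ‖x‖ = 1 → ‖y‖ = 1 → ∃ T ∈ G, T x = y) :
    ∃ p q : E, ∀ y : E, y ∈ Submodule.span ℝ ({p, q} : Set E) := by
  by_cases hnt : Nontrivial E
  swap
  · rw [not_nontrivial_iff_subsingleton] at hnt
    exact ⟨0, 0, fun y => by rw [Subsingleton.elim y 0]; exact Submodule.zero_mem _⟩
  obtain ⟨z0, hz0⟩ := exists_ne (0 : E)
  obtain ⟨x0, hx0⟩ : ∃ x0 : E, ‖x0‖ = 1 := ⟨‖z0‖⁻¹ • z0, by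
    rw [norm_smul, norm_inv, norm_norm, inv_mul_cancel₀ (norm_ne_zero_iff.2 hz0)]⟩
  have hscale : ∀ P : Submodule ℝ E → Prop, ∀ y : E, (∀ W, P W → y ∈ W) → True := fun _ _ _ => trivial
  have hunit : ∀ W1 W2 : Submodule ℝ E, (∀ y : E, ‖y‖ = 1 → y ∈ W1 ∨ y ∈ W2) →
      ∀ y : E, y ∈ W1 ∨ y ∈ W2 := by
    intro W1 W2 h y
    by_cases hy : y = 0
    · left; rw [hy]; exact W1.zero_mem
    · have hn : ‖y‖ ≠ 0 := norm_ne_zero_iff.2 hy
      have h1 : ‖‖y‖⁻¹ • y‖ = 1 := by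
        rw [norm_smul, norm_inv, norm_norm, inv_mul_cancel₀ hn]
      have h2 : y = ‖y‖ • (‖y‖⁻¹ • y) := by rw [smul_smul, mul_inv_cancel₀ hn, one_smul]
      rcases h _ h1 with h | h
      · left; rw [h2]; exact W1.smul_mem _ h
      · right; rw [h2]; exact W2.smul_mem _ h
  obtain ⟨m, hm⟩ := hnil.nilpotent'
  by_cases hyes : ∃ J : E →L[ℝ] E, (∀ z, J (J z) = -z) ∧
      (∀ U ∈ G, (∀ z, U (J z) = J (U z)) ∨ (∀ z, U (J z) = -J (U z))) ∧
      ∃ n0 ∈ G, ∃ θ0 : ℝ, (∀ z, n0 z = Real.cos θ0 • z + Real.sin θ0 • J z) ∧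
        Real.sin θ0 ≠ 0
  · obtain ⟨J, hJ, hGJ, n0, hn0, θ0, h0, hs⟩ := hyes
    have hC : ∀ U ∈ G, (∀ z, U (J z) = J (U z)) →
        ∃ θ : ℝ, ∀ z, U z = Real.cos θ • z + Real.sin θ • J z := by
      intro U hU hUJ
      exact case1 G htr J hJ hGJ n0 hn0 θ0 h0 hs m ⟨U, hU⟩ (by rw [hm]; exact Subgroup.mem_top _)
        hUJ
    have hW1 : ∀ U ∈ G, (∀ z, U (J z) = J (U z)) →
        U x0 ∈ Submodule.span ℝ ({x0, J x0} : Set E) := by
      intro U hU hUJ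
      obtain ⟨θ, hθ⟩ := hC U hU hUJ
      rw [hθ, Submodule.mem_span_pair]
      exact ⟨_, _, rfl⟩
    by_cases hV : ∃ V ∈ G, ∀ z, V (J z) = -J (V z)
    · obtain ⟨V, hVG, hVJ⟩ := hV
      have hW2 : ∀ U ∈ G, (∀ z, U (J z) = -J (U z)) →
          U x0 ∈ Submodule.span ℝ ({V x0, V (J x0)} : Set E) := by
        intro U hU hUJ
        have h1 : ∀ z, (V⁻¹ * U) (J z) = J ((V⁻¹ * U) z) := by
          intro z
          show V⁻¹ (U (J z)) = J (V⁻¹ (U z))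
          rw [hUJ, map_neg, inv_J' J V hVJ, neg_neg]
        obtain ⟨θ, hθ⟩ := hC (V⁻¹ * U) (G.mul_mem (G.inv_mem hVG) hU) h1
        have h2 : U x0 = V ((V⁻¹ * U) x0) := (V.apply_symm_apply _).symm
        rw [h2, hθ, map_add, map_smul, map_smul, Submodule.mem_span_pair]
        exact ⟨_, _, rfl⟩
      have hall := hunit _ _ (fun y hy => by
        obtain ⟨U, hU, hUy⟩ := htr x0 y hx0 hy
        rcases hGJ U hU with h | h
        · left; rw [← hUy]; exact hW1 U hU h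
        · right; rw [← hUy]; exact hW2 U hU h)
      by_cases hone : ∀ y : E, y ∈ Submodule.span ℝ ({x0, J x0} : Set E)
      · exact ⟨_, _, hone⟩
      · push Not at hone
        obtain ⟨u, hu⟩ := hone
        have hu2 := (hall u).resolve_left hu
        refine ⟨V x0, V (J x0), fun y => ?_⟩
        by_contra hy
        have hy1 := (hall y).resolve_right hy
        rcases hall (u + y) with h | h
        · exact hu (by simpa using Submodule.sub_mem _ h hy1)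
        · exact hy (by simpa using Submodule.sub_mem _ h hu2)
    · push Not at hV
      refine ⟨x0, J x0, fun y => ?_⟩
      have hall := hunit (Submodule.span ℝ ({x0, J x0} : Set E))
        (Submodule.span ℝ ({x0, J x0} : Set E)) (fun y hy => by
        obtain ⟨U, hU, hUy⟩ := htr x0 y hx0 hy
        left
        rw [← hUy]
        refine hW1 U hU ?_
        rcases hGJ U hU with h | h
        · exact h
        · obtain ⟨z, hz⟩ := hV U hU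
          exact absurd (h z) hz)
      rcases hall y with h | h <;> exact h
  · refine ⟨x0, x0, fun y => ?_⟩
    have hall := hunit (Submodule.span ℝ ({x0, x0} : Set E))
        (Submodule.span ℝ ({x0, x0} : Set E)) (fun y hy => by
      obtain ⟨U, hU, hUy⟩ := htr x0 y hx0 hy
      left
      have hmem : x0 ∈ Submodule.span ℝ ({x0, x0} : Set E) :=
        Submodule.subset_span (by simp)
      rcases case2 G htr hyes m ⟨U, hU⟩ (by rw [hm]; exact Subgroup.mem_top _) with h | h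
      · have h1 : U x0 = x0 := h x0
        rw [← hUy, h1]; exact hmem
      · have h1 : U x0 = -x0 := h x0
        rw [← hUy, h1]; exact Submodule.neg_mem _ hmem)
    rcases hall y with h | h <;> exact h

end Pool.H590R3.Ab
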