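import Pool.Agent.H590R3.AbStmts

/-!
Project H590-AB, task `Series`: the Fourier series of an even periodic function with absolutely
summable cosine coefficients.
-/

set_option autoImplicit false

open MeasureTheory intervalIntegral

namespace Pool.H590R3.Ab

theorem series : Series_stmt := by
  intro F hF hev hper hs
  have hpi := Real.pi_pos
  haveI : Fact (0 < 2 * Real.pi) := ⟨by positivity⟩
  set Fc : ℝ → ℂ := fun x => (F x : ℂ) with hFc
  have hperc : Function.Periodic Fc (2 * Real.pi) := by
    intro x; simp only [hFc]; rw [hper]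
  have hcont : Continuous (hperc.lift : AddCircle (2 * Real.pi) → ℂ) := by
    apply continuous_coinduced_dom.mpr
    exact Complex.continuous_ofReal.comp hF
  set f : C(AddCircle (2 * Real.pi), ℂ) := ⟨hperc.lift, hcont⟩ with hf
  have hfx : ∀ x : ℝ, f (x : AddCircle (2 * Real.pi)) = (F x : ℂ) := by
    intro x; rfl
  have hfour : ∀ (k : ℤ) (x : ℝ), fourier k (x : AddCircle (2 * Real.pi)) =
      Complex.exp (k * x * Complex.I) := by
    intro k x
    rw [fourier_coe_apply]
    congr 1
    push_cast
    have : (Real.pi : ℂ) ≠ 0 := by exact_mod_cast hpi.ne'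
    field_simp
  have hcoef : ∀ k : ℤ, fourierCoeff f k = ((ca F k : ℝ) : ℂ) := by
    intro k
    rw [fourierCoeff_eq_intervalIntegral _ _ (-Real.pi)]
    have e0 : -Real.pi + 2 * Real.pi = Real.pi := by ring
    rw [e0]
    have e1 : ∀ x : ℝ, (fourier (-k) (x : AddCircle (2 * Real.pi)) • f (x : AddCircle (2 * Real.pi)))
        = Complex.exp (-(k * x * Complex.I)) * (F x : ℂ) := by
      intro x
      rw [hfour, hfx, smul_eq_mul]
      congr 2
      push_cast; ring
    simp_rw [e1]
    set g : ℝ → ℂ := fun x => Complex.exp (-(k * x * Complex.I)) * (F x : ℂ) with hg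
    have hgc : Continuous g := by
      apply Continuous.mul
      · fun_prop
      · exact Complex.continuous_ofReal.comp hF
    have e2 : ∫ x in (-Real.pi)..Real.pi, g x = ∫ x in (0:ℝ)..Real.pi, (g (-x) + g x) := by
      rw [intervalIntegral.integral_add]
      · rw [intervalIntegral.integral_comp_neg (fun x => g x), neg_zero]
        rw [intervalIntegral.integral_add_adjacent_intervals] <;>
          exact hgc.intervalIntegrable _ _
      · exact (hgc.comp continuous_neg).intervalIntegrable _ _
      · exact hgc.intervalIntegrable _ _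
    rw [e2]
    have e3 : ∀ x : ℝ, g (-x) + g x = ((2 * (F x * Real.cos (k * x)) : ℝ) : ℂ) := by
      intro x
      simp only [hg]
      rw [hev]
      push_cast
      rw [Complex.cos]
      have h1 : -((k:ℂ) * -(x:ℂ) * Complex.I) = k * x * Complex.I := by ring
      rw [h1]
      have h2 : -((k:ℂ) * (x:ℂ) * Complex.I) = -(k * x) * Complex.I := by ring
      rw [h2]
      ring
    simp_rw [e3]
    rw [intervalIntegral.integral_ofReal, intervalIntegral.integral_const_mul]
    unfold ca
    rw [Complex.real_smul]
    push_cast
    have : (Real.pi : ℂ) ≠ 0 := by exact_mod_cast hpi.ne'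
    field_simp
  have hsum : Summable (fourierCoeff f) := by
    apply Summable.of_norm
    refine hs.congr ?_
    intro k
    rw [hcoef, Complex.norm_real, Real.norm_eq_abs]
  intro θ
  have h := has_pointwise_sum_fourier_series_of_summable hsum (θ : AddCircle (2 * Real.pi))
  have h2 := Complex.hasSum_re h
  rw [hfx] at h2
  simp only [Complex.ofReal_re] at h2
  refine h2.congr_fun ?_
  intro k
  rw [hcoef, hfour, smul_eq_mul, Complex.re_ofReal_mul]
  congr 1
  have : ((k:ℂ) * (θ:ℂ) * Complex.I) = (((k:ℝ) * θ : ℝ) : ℂ) * Complex.I := by push_cast; ring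
  rw [this, Complex.exp_ofReal_mul_I_re]

end Pool.H590R3.Ab
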