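import Pool.Agent.H590R3.AbFop
import Pool.Agent.H590R3.AbStmts

set_option autoImplicit false

namespace Pool.H590R3.Ab

open scoped BigOperators

variable {E : Type*} [NormedAddCommGroup E] [NormedSpace ℝ E]

/-- operator form of the core lemma -/
lemma core_op [CompleteSpace E] [TopologicalSpace.SeparableSpace E]
    (G : Subgroup (E ≃ₗᵢ[ℝ] E))
    (htr : ∀ x y : E, ‖x‖ = 1 → ‖y‖ = 1 → ∃ T ∈ G, T x = y)
    (a b : E →L[ℝ] E)
    (hc : ∀ T ∈ G, (op T * a * op T⁻¹) * a = a * (op T * a * op T⁻¹))
    (hab : a * b = 0) (hb : b ≠ 0) : a * a = 0 := by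
  obtain ⟨y, hy⟩ : ∃ y, b y ≠ 0 := by
    by_contra h
    push Not at h
    exact hb (ContinuousLinearMap.ext h)
  ext w
  refine core G htr a (fun T hT z => ?_) (b y) hy ?_ w
  · have := DFunLike.congr_fun (hc T hT) z
    exact this
  · exact DFunLike.congr_fun hab y

/-- The quadratic equation: an isometry commuting with its conjugates. -/
theorem quad [CompleteSpace E] [TopologicalSpace.SeparableSpace E] [Nontrivial E]
    (hP : Parti_stmt) (G : Subgroup (E ≃ₗᵢ[ℝ] E))
    (htr : ∀ x y : E, ‖x‖ = 1 → ‖y‖ = 1 → ∃ T ∈ G, T x = y)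
    (n : E ≃ₗᵢ[ℝ] E)
    (hn : ∀ T ∈ G, (T * n * T⁻¹) * n = n * (T * n * T⁻¹)) :
    ∃ c : ℝ, Co n = c • (1 : E →L[ℝ] E) := by
  have happ : ∀ ε : ℝ, 0 < ε → ∃ c : ℝ, ‖Co n - c • (1 : E →L[ℝ] E)‖ ≤ 3 * ε := by
    intro ε hε
    obtain ⟨M, a, c, hs, h1, h0, hl⟩ := hP ε hε
    set H : ℕ → (E →L[ℝ] E) := fun j => Fop n (a j) with hH
    have hsum : ∑ j ∈ Finset.range (M + 1), H j = 1 := by
      rw [hH, Fop_sum n hs]
      have : (fun k => ∑ j ∈ Finset.range (M + 1), a j k) = fun k : ℤ => if k = 0 then (1:ℝ) else 0 :=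
        funext h1
      rw [this, Fop_delta]
    have hzero : ∀ i j, i + 2 ≤ j → H i * H j = 0 := fun i j hij =>
      Fop_mul_eq_zero n (hs i) (hs j) (h0 i j hij)
    have hcomm : ∀ i j, H i * H j = H j * H i := fun i j => Fop_comm n (hs i) (hs j)
    have hone : (1 : E →L[ℝ] E) ≠ 0 := one_ne_zero
    have hex : ∃ j, H j ≠ 0 := by
      by_contra h
      push Not at h
      rw [Finset.sum_eq_zero (fun j _ => h j)] at hsum
      exact hone hsum.symm
    classical
    obtain ⟨j0, hj0, hmin⟩ : ∃ j0, H j0 ≠ 0 ∧ ∀ i, i < j0 → H i = 0 :=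
      ⟨Nat.find hex, Nat.find_spec hex, fun i hi => by
        have := Nat.find_min hex hi
        push Not at this
        exact this⟩
    -- E = H j0 + H (j0+1)
    have hsE : Summable fun k => |a j0 k + a (j0 + 1) k| :=
      Summable.of_nonneg_of_le (fun _ => abs_nonneg _) (fun k => abs_add_le _ _)
        ((hs j0).add (hs (j0 + 1)))
    have hE : H j0 + H (j0 + 1) = Fop n (fun k => a j0 k + a (j0 + 1) k) := by
      have := Fop_lin n (hs j0) (hs (j0 + 1)) 1 1
      simpa using this
    have hlate : ∀ j, j0 + 3 ≤ j → j ≤ M → H j = 0 := by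
      intro j hj hjM
      by_contra hne
      have hHE : H j0 * (H j0 + H (j0 + 1)) = H j0 := by
        have e1 : H j0 * ∑ j ∈ Finset.range (M + 1), H j = H j0 := by rw [hsum, mul_one]
        rw [Finset.mul_sum, ← Finset.sum_subset (s₁ := {j0, j0 + 1})] at e1
        · rw [Finset.sum_pair (by omega)] at e1
          rw [mul_add]
          exact e1
        · intro i hi
          simp only [Finset.mem_insert, Finset.mem_singleton] at hi
          rw [Finset.mem_range]
          omega
        · intro i _ hi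
          simp only [Finset.mem_insert, Finset.mem_singleton, not_or] at hi
          rcases lt_or_gt_of_ne hi.1 with h | h
          · rw [hmin i h, mul_zero]
          · exact hzero _ _ (by omega)
      have hEj : (H j0 + H (j0 + 1)) * H j = 0 := by
        rw [add_mul, hzero _ _ (by omega), hzero _ _ (by omega), add_zero]
      have hEE : (H j0 + H (j0 + 1)) * (H j0 + H (j0 + 1)) = 0 := by
        refine core_op G htr _ (H j) (fun T hT => ?_) hEj hne
        rw [hE]
        exact Fop_good n T (hn T hT) hsE hsE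
      have : H j0 = 0 := by
        calc H j0 = H j0 * (H j0 + H (j0 + 1)) := hHE.symm
          _ = (H j0 * (H j0 + H (j0 + 1))) * (H j0 + H (j0 + 1)) := by rw [hHE, hHE]
          _ = H j0 * ((H j0 + H (j0 + 1)) * (H j0 + H (j0 + 1))) := mul_assoc _ _ _
          _ = 0 := by rw [hEE, mul_zero]
      exact hj0 this
    refine ⟨c j0, ?_⟩
    have e2 : Co n - c j0 • (1 : E →L[ℝ] E)
        = ∑ j ∈ Finset.range (M + 1), (Co n - c j0 • (1 : E →L[ℝ] E)) * H j := by
      rw [← Finset.mul_sum, hsum, mul_one]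
    rw [e2]
    refine (norm_sum_le _ _).trans ?_
    have e3 : ∀ j ∈ Finset.range (M + 1), ‖(Co n - c j0 • (1 : E →L[ℝ] E)) * H j‖
        ≤ if j ∈ Finset.Icc j0 (j0 + 2) then ε else 0 := by
      intro j hj
      rw [Finset.mem_range] at hj
      by_cases hj1 : j < j0
      · rw [hmin j hj1, mul_zero, norm_zero]
        split_ifs
        · exact hε.le
        · exact le_refl _
      · by_cases hj2 : j ≤ j0 + 2
        · rw [if_pos (Finset.mem_Icc.2 ⟨by omega, hj2⟩)]
          rw [hH, Co_mul_Fop n (hs j)]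
          refine (Fop_norm_le n ?_).trans (hl j0 j (by omega) hj2)
          have s1 : Summable fun k : ℤ => |a j (k - 1)| := summable_shift (hs j) (-1)
          have s2 : Summable fun k : ℤ => |a j (k + 1)| := summable_shift (hs j) 1
          refine Summable.of_nonneg_of_le (fun _ => abs_nonneg _) (fun k => ?_)
            (((s1.mul_left (1/2)).add (s2.mul_left (1/2))).add ((hs j).mul_left |c j0|))
          have h3 : (a j (k - 1) + a j (k + 1)) / 2 - c j0 * a j k
              = 1 / 2 * a j (k - 1) + 1 / 2 * a j (k + 1) + - (c j0 * a j k) := by ring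
          rw [h3]
          refine (abs_add_le _ _).trans ?_
          rw [abs_neg, abs_mul (c j0)]
          have h4 := abs_add_le (1 / 2 * a j (k - 1)) (1 / 2 * a j (k + 1))
          rw [abs_mul, abs_mul, abs_of_pos (by norm_num : (0:ℝ) < 1/2)] at h4
          linarith
        · rw [hlate j (by omega) (by omega), mul_zero, norm_zero]
          split_ifs
          · exact hε.le
          · exact le_refl _
    refine (Finset.sum_le_sum e3).trans ?_
    rw [← Finset.sum_filter]
    have e4 : (Finset.filter (fun j => j ∈ Finset.Icc j0 (j0 + 2)) (Finset.range (M + 1)))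
        ⊆ Finset.Icc j0 (j0 + 2) := fun j hj => (Finset.mem_filter.1 hj).2
    refine (Finset.sum_le_sum_of_subset_of_nonneg e4 (fun _ _ _ => hε.le)).trans ?_
    rw [Finset.sum_const, Nat.card_Icc]
    have : j0 + 2 + 1 - j0 = 3 := by omega
    rw [this]
    simp
  -- closedness of the line
  have hcl : IsClosed ((Submodule.span ℝ {(1 : E →L[ℝ] E)} : Submodule ℝ (E →L[ℝ] E)) :
      Set (E →L[ℝ] E)) := Submodule.closed_of_finiteDimensional _
  have hmem : Co n ∈ ((Submodule.span ℝ {(1 : E →L[ℝ] E)} : Submodule ℝ (E →L[ℝ] E)) :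
      Set (E →L[ℝ] E)) := by
    rw [← hcl.closure_eq, Metric.mem_closure_iff]
    intro r hr
    obtain ⟨c, hc⟩ := happ (r / 4) (by positivity)
    refine ⟨c • 1, Submodule.smul_mem _ _ (Submodule.mem_span_singleton_self _), ?_⟩
    rw [dist_eq_norm]
    linarith
  obtain ⟨c, hc⟩ := Submodule.mem_span_singleton.1 hmem
  exact ⟨c, hc.symm⟩

end Pool.H590R3.Ab
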