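import Mathlib

set_option autoImplicit false

namespace Pool.Agent.H590R3.Ext

open Filter Topology

variable {𝕜 : Type*} [RCLike 𝕜] {E : Type*} [NormedAddCommGroup E] [NormedSpace 𝕜 E]

/-- Limits along ultrafilters of bounded sequences of functionals. -/
lemma exists_limit (U : Ultrafilter ℕ) (f : ℕ → E →L[𝕜] 𝕜) {D : ℝ} (hD : 0 ≤ D)
    (hf : ∀ n, ‖f n‖ ≤ D) :
    ∃ h : E →L[𝕜] 𝕜, ‖h‖ ≤ D ∧ ∀ x, Tendsto (fun n => f n x) U (𝓝 (h x)) := by
  have h1 : ∀ x : E, ∃ c : 𝕜, Tendsto (fun n => f n x) U (𝓝 c) := by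
    intro x
    have hK : IsCompact (Metric.closedBall (0 : 𝕜) (D * ‖x‖)) := isCompact_closedBall _ _
    have hU : (U.map (fun n => f n x) : Filter 𝕜) ≤ 𝓟 (Metric.closedBall (0 : 𝕜) (D * ‖x‖)) := by
      rw [le_principal_iff]
      refine Filter.mem_map.2 (Filter.univ_mem' fun n => ?_)
      change f n x ∈ Metric.closedBall (0 : 𝕜) (D * ‖x‖)
      rw [mem_closedBall_zero_iff]
      exact ((f n).le_opNorm x).trans (mul_le_mul_of_nonneg_right (hf n) (norm_nonneg _))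
    obtain ⟨c, _, hc⟩ := hK.ultrafilter_le_nhds _ hU
    exact ⟨c, hc⟩
  choose c hc using h1
  have hadd : ∀ x y, c (x + y) = c x + c y := fun x y =>
    tendsto_nhds_unique (hc (x + y)) (by simpa using (hc x).add (hc y))
  have hsmul : ∀ (a : 𝕜) x, c (a • x) = a • c x := fun a x =>
    tendsto_nhds_unique (hc (a • x)) (by simpa using (hc x).const_smul a)
  have hbd : ∀ x, ‖c x‖ ≤ D * ‖x‖ := fun x =>
    le_of_tendsto (hc x).norm (Filter.Eventually.of_forall fun n =>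
      ((f n).le_opNorm x).trans (mul_le_mul_of_nonneg_right (hf n) (norm_nonneg _)))
  refine ⟨LinearMap.mkContinuous { toFun := c, map_add' := hadd, map_smul' := hsmul } D hbd,
    LinearMap.mkContinuous_norm_le _ hD _, fun x => hc x⟩

/-- Veech / Sobczyk: make a bounded sequence of functionals which is null on `H` null on `E`,
without changing it on `H`. -/
lemma veech [TopologicalSpace.SeparableSpace E] (H : Submodule 𝕜 E) (f : ℕ → E →L[𝕜] 𝕜) {D : ℝ}
    (hD : 0 ≤ D) (hf : ∀ n, ‖f n‖ ≤ D) (hH : ∀ x ∈ H, Tendsto (fun n => f n x) atTop (𝓝 0)) :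
    ∃ f' : ℕ → E →L[𝕜] 𝕜, (∀ n, ‖f' n‖ ≤ 2 * D) ∧ (∀ n, ∀ x ∈ H, f' n x = f n x) ∧
      ∀ x, Tendsto (fun n => f' n x) atTop (𝓝 0) := by
  classical
  let u : ℕ → E := TopologicalSpace.denseSeq E
  have hu : DenseRange u := TopologicalSpace.denseRange_denseSeq E
  let P : ℕ → ℕ → Prop := fun n m => ∃ h : E →L[𝕜] 𝕜, ‖h‖ ≤ D ∧ (∀ x ∈ H, h x = 0) ∧
    ∀ j ≤ m, ‖f n (u j) - h (u j)‖ ≤ 1 / ((m : ℝ) + 1)
  have hP : ∀ m, ∀ᶠ n in atTop, P n m := by
    intro m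
    by_contra hcon
    rw [Filter.not_eventually] at hcon
    have hne : NeBot (atTop ⊓ 𝓟 {n | ¬ P n m}) := Filter.frequently_iff_neBot.1 hcon
    let U : Ultrafilter ℕ := Ultrafilter.of (atTop ⊓ 𝓟 {n | ¬ P n m})
    have hU : (U : Filter ℕ) ≤ atTop ⊓ 𝓟 {n | ¬ P n m} := Ultrafilter.of_le _
    have hU1 : (U : Filter ℕ) ≤ atTop := hU.trans inf_le_left
    have hU2 : ∀ᶠ n in (U : Filter ℕ), ¬ P n m := by
      have : {n | ¬ P n m} ∈ (U : Filter ℕ) := (hU.trans inf_le_right) (mem_principal_self _)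
      exact this
    obtain ⟨h, hh1, hh2⟩ := exists_limit U f hD hf
    have hh3 : ∀ x ∈ H, h x = 0 := fun x hx =>
      tendsto_nhds_unique (hh2 x) ((hH x hx).mono_left hU1)
    have hpos : (0 : ℝ) < 1 / ((m : ℝ) + 1) := by positivity
    have hh4 : ∀ j, ∀ᶠ n in (U : Filter ℕ), ‖f n (u j) - h (u j)‖ ≤ 1 / ((m : ℝ) + 1) := by
      intro j
      have := (tendsto_iff_norm_sub_tendsto_zero.1 (hh2 (u j)))
      exact this.eventually_le_const hpos
    have hh5 : ∀ᶠ n in (U : Filter ℕ), ∀ j ∈ Finset.range (m + 1),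
        ‖f n (u j) - h (u j)‖ ≤ 1 / ((m : ℝ) + 1) :=
      (Filter.eventually_all_finset _).2 fun j _ => hh4 j
    obtain ⟨n, hn1, hn2⟩ := (hU2.and hh5).exists
    exact hn1 ⟨h, hh1, hh3, fun j hj => hn2 j (Finset.mem_range.2 (Nat.lt_succ_of_le hj))⟩
  -- choose the corrections
  let μ : ℕ → ℕ := fun n => Nat.findGreatest (P n) n
  have hex : ∀ n, ∃ h : E →L[𝕜] 𝕜, ‖h‖ ≤ D ∧ (∀ x ∈ H, h x = 0) ∧
      ((∃ m ≤ n, P n m) → ∀ j ≤ μ n, ‖f n (u j) - h (u j)‖ ≤ 1 / ((μ n : ℝ) + 1)) := by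
    intro n
    by_cases hc : ∃ m ≤ n, P n m
    · obtain ⟨m, hm1, hm2⟩ := hc
      obtain ⟨h, h1, h2, h3⟩ := Nat.findGreatest_spec (P := P n) hm1 hm2
      exact ⟨h, h1, h2, fun _ => h3⟩
    · exact ⟨0, by simpa using hD, fun x _ => rfl, fun h => absurd h hc⟩
  choose h h1 h2 h3 using hex
  have hlim : ∀ j, Tendsto (fun n => (f n - h n) (u j)) atTop (𝓝 0) := by
    intro j
    rw [Metric.tendsto_atTop]
    intro ε hε
    obtain ⟨m, hm⟩ := exists_nat_one_div_lt hε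
    obtain ⟨N, hN⟩ := eventually_atTop.1 (hP (max m j))
    refine ⟨max N (max m j), fun n hn => ?_⟩
    have hn1 : max m j ≤ n := (le_max_right _ _).trans hn
    have hn2 := hN n ((le_max_left _ _).trans hn)
    have hμ : max m j ≤ μ n := Nat.le_findGreatest hn1 hn2
    have h4 := h3 n ⟨_, hn1, hn2⟩ j ((le_max_right _ _).trans hμ)
    rw [dist_zero_right, _root_.sub_apply]
    refine lt_of_le_of_lt h4 (lt_of_le_of_lt ?_ hm)
    have : (m : ℝ) ≤ μ n := by exact_mod_cast (le_max_left _ _).trans hμ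
    gcongr
  have hb : ∀ n, ‖f n - h n‖ ≤ 2 * D := fun n => by
    refine (norm_sub_le _ _).trans ?_
    linarith [hf n, h1 n]
  refine ⟨fun n => f n - h n, hb, fun n x hx => by simp [h2 n x hx], fun x => ?_⟩
  -- density
  rw [Metric.tendsto_atTop]
  intro ε hε
  obtain ⟨y, ⟨j, rfl⟩, hj⟩ := Metric.mem_closure_iff.1 (hu x) (ε / (2 * (2 * D + 1))) (by positivity)
  obtain ⟨N, hN⟩ := Metric.tendsto_atTop.1 (hlim j) (ε / 2) (by positivity)
  refine ⟨N, fun n hn => ?_⟩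
  have h5 := hN n hn
  rw [dist_zero_right] at h5 ⊢
  have h6 : (f n - h n) x = (f n - h n) (x - u j) + (f n - h n) (u j) := by
    rw [← map_add]; congr 1; abel
  have h7 : ‖(f n - h n) (x - u j)‖ < ε / 2 := by
    refine lt_of_le_of_lt (((f n - h n).le_opNorm _).trans
      (mul_le_mul_of_nonneg_right (hb n) (norm_nonneg _))) ?_
    rw [dist_eq_norm] at hj
    calc 2 * D * ‖x - u j‖ ≤ (2 * D + 1) * ‖x - u j‖ := by
          refine mul_le_mul_of_nonneg_right ?_ (norm_nonneg _); linarith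
      _ < (2 * D + 1) * (ε / (2 * (2 * D + 1))) := by
          refine mul_lt_mul_of_pos_left hj (by positivity)
      _ = ε / 2 := by field_simp
  rw [h6]
  refine lt_of_le_of_lt (norm_add_le _ _) ?_
  linarith

/-- Hahn Banach: a functional vanishing on a closed subspace. -/
lemma exists_functional {M : Submodule 𝕜 E} (hM : IsClosed (M : Set E)) {u : E} (hu : u ∉ M) :
    ∃ ρ : E →L[𝕜] 𝕜, (∀ x ∈ M, ρ x = 0) ∧ ρ u = 1 := by
  haveI := hM
  have h1 : (M.mkQL u : E ⧸ M) ≠ 0 := by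
    intro h
    exact hu ((Submodule.Quotient.mk_eq_zero M).1 h)
  obtain ⟨g, hg⟩ := SeparatingDual.exists_eq_one (R := 𝕜) h1
  refine ⟨g.comp M.mkQL, fun x hx => ?_, hg⟩
  have : (M.mkQL x : E ⧸ M) = 0 := (Submodule.Quotient.mk_eq_zero M).2 hx
  change g (M.mkQL x) = 0
  rw [this, map_zero]

end Pool.Agent.H590R3.Ext
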