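import Pool.Agent.H590R3.Ext1

set_option autoImplicit false

namespace Pool.Agent.H590R3.Ext

open Filter Topology

variable {𝕜 : Type} [RCLike 𝕜] {E : Type} [NormedAddCommGroup E] [NormedSpace 𝕜 E]

/-- Invariant: biorthogonal pairs with functionals vanishing on `H`. -/
def Inv (H : Submodule 𝕜 E) (S : Set (E × (E →L[𝕜] 𝕜))) : Prop :=
  (∀ p ∈ S, ∀ x ∈ H, p.2 x = 0) ∧ (∀ p ∈ S, p.2 p.1 = 1) ∧ ∀ p ∈ S, ∀ q ∈ S, p ≠ q → p.2 q.1 = 0

lemma Inv.insert {H : Submodule 𝕜 E} {S : Set (E × (E →L[𝕜] 𝕜))} (hS : Inv H S)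
    {u : E} {ρ : E →L[𝕜] 𝕜} (h1 : ∀ x ∈ H, ρ x = 0) (h2 : ρ u = 1) (h3 : ∀ p ∈ S, ρ p.1 = 0)
    (h4 : ∀ p ∈ S, p.2 u = 0) : Inv H (insert (u, ρ) S) := by
  refine ⟨?_, ?_, ?_⟩
  · rintro p (rfl | hp)
    · exact h1
    · exact hS.1 p hp
  · rintro p (rfl | hp)
    · exact h2
    · exact hS.2.1 p hp
  · rintro p (rfl | hp) q (rfl | hq) hpq
    · exact absurd rfl hpq
    · exact h3 q hq
    · exact h4 p hp
    · exact hS.2.2 p hp q hq hpq

lemma step {H : Submodule 𝕜 E} (hH : IsClosed (H : Set E)) (S : Finset (E × (E →L[𝕜] 𝕜)))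
    (hS : Inv H (S : Set _)) (w : E) :
    ∃ S' : Finset (E × (E →L[𝕜] 𝕜)), S ⊆ S' ∧ Inv H (S' : Set _) ∧
      w ∈ H ⊔ Submodule.span 𝕜 (Prod.fst '' (S' : Set (E × (E →L[𝕜] 𝕜)))) := by
  classical
  set u : E := w - ∑ p ∈ S, p.2 w • p.1 with hu
  have hw : w = u + ∑ p ∈ S, p.2 w • p.1 := by rw [hu]; abel
  have hsum : ∀ S' : Finset (E × (E →L[𝕜] 𝕜)), S ⊆ S' → ∑ p ∈ S, p.2 w • p.1 ∈
      Submodule.span 𝕜 (Prod.fst '' (S' : Set (E × (E →L[𝕜] 𝕜)))) := by
    intro S' hS'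
    refine Submodule.sum_mem _ fun p hp => Submodule.smul_mem _ _ (Submodule.subset_span ?_)
    exact ⟨p, hS' hp, rfl⟩
  by_cases huH : u ∈ H
  · refine ⟨S, Finset.Subset.refl _, hS, ?_⟩
    rw [hw]
    exact Submodule.add_mem_sup huH (hsum S (Finset.Subset.refl _))
  · have hpu : ∀ p ∈ S, p.2 u = 0 := by
      intro p hp
      rw [hu, map_sub, map_sum, Finset.sum_eq_single p]
      · rw [map_smul, hS.2.1 p hp, smul_eq_mul, mul_one, sub_self]
      · intro q hq hqp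
        rw [map_smul, hS.2.2 p hp q hq hqp.symm, smul_zero]
      · intro h; exact absurd hp h
    obtain ⟨ρ₀, hρ1, hρ2⟩ := exists_functional hH huH
    let ρ : E →L[𝕜] 𝕜 := ρ₀ - ∑ p ∈ S, ρ₀ p.1 • p.2
    have hρ : ∀ x, ρ x = ρ₀ x - ∑ p ∈ S, ρ₀ p.1 * p.2 x := by
      intro x
      simp only [ρ, _root_.sub_apply, _root_.sum_apply, _root_.smul_apply, smul_eq_mul]
    refine ⟨insert (u, ρ) S, Finset.subset_insert _ _, ?_, ?_⟩
    · rw [Finset.coe_insert]
      refine hS.insert ?_ ?_ ?_ ?_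
      · intro x hx
        rw [hρ, hρ1 x hx, Finset.sum_eq_zero, sub_zero]
        intro p hp
        rw [hS.1 p hp x hx, mul_zero]
      · rw [hρ, hρ2, Finset.sum_eq_zero, sub_zero]
        intro p hp
        rw [hpu p hp, mul_zero]
      · intro p hp
        rw [hρ, Finset.sum_eq_single p]
        · rw [hS.2.1 p hp, mul_one, sub_self]
        · intro q hq hqp
          rw [hS.2.2 q hq p hp hqp, mul_zero]
        · intro h; exact absurd hp h
      · exact hpu
    · rw [hw]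
      refine Submodule.add_mem _ ?_ ?_
      · refine Submodule.mem_sup_right (Submodule.subset_span ?_)
        exact ⟨(u, ρ), by simp, rfl⟩
      · exact Submodule.mem_sup_right (hsum _ (Finset.subset_insert _ _))

/-- A complete biorthogonal system modulo `H`. -/
lemma exists_system [TopologicalSpace.SeparableSpace E] {H : Submodule 𝕜 E}
    (hH : IsClosed (H : Set E)) : ∃ T : Set (E × (E →L[𝕜] 𝕜)), T.Countable ∧ Inv H T ∧
      (H ⊔ Submodule.span 𝕜 (Prod.fst '' T)).topologicalClosure = ⊤ := by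
  classical
  let w : ℕ → E := TopologicalSpace.denseSeq E
  have hw : DenseRange w := TopologicalSpace.denseRange_denseSeq E
  choose! nx h1 h2 h3 using fun (S : Finset (E × (E →L[𝕜] 𝕜))) (w : E) (hS : Inv H (S : Set _)) =>
    step hH S hS w
  obtain ⟨S, hS0, hSs⟩ : ∃ S : ℕ → Finset (E × (E →L[𝕜] 𝕜)), S 0 = ∅ ∧
      ∀ k, S (k + 1) = nx (S k) (w k) :=
    ⟨fun n => Nat.rec ∅ (fun k S => nx S (w k)) n, rfl, fun k => rfl⟩
  have hInv : ∀ k : ℕ, Inv H (↑(S k) : Set (E × (E →L[𝕜] 𝕜))) := by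
    intro k
    induction k with
    | zero => rw [hS0]; exact ⟨by simp, by simp, by simp⟩
    | succ k ih => rw [hSs]; exact h2 _ _ ih
  have hmono : Monotone S := monotone_nat_of_le_succ fun k => by
    rw [hSs]; exact h1 _ _ (hInv k)
  refine ⟨⋃ k, (S k : Set (E × (E →L[𝕜] 𝕜))),
    Set.countable_iUnion fun k => (S k).countable_toSet, ⟨?_, ?_, ?_⟩, ?_⟩
  · intro p hp
    obtain ⟨k, hk⟩ := Set.mem_iUnion.1 hp
    exact (hInv k).1 p hk
  · intro p hp
    obtain ⟨k, hk⟩ := Set.mem_iUnion.1 hp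
    exact (hInv k).2.1 p hk
  · intro p hp q hq hpq
    obtain ⟨k, hk⟩ := Set.mem_iUnion.1 hp
    obtain ⟨l, hl⟩ := Set.mem_iUnion.1 hq
    exact (hInv (max k l)).2.2 p (hmono (le_max_left _ _) hk) q (hmono (le_max_right _ _) hl) hpq
  · rw [eq_top_iff]
    intro x _
    rw [← SetLike.mem_coe, Submodule.topologicalClosure_coe]
    refine closure_mono ?_ (hw x)
    rintro _ ⟨k, rfl⟩
    have h4 := h3 (S k) (w k) (hInv k)
    rw [← hSs] at h4
    have h5 : Submodule.span 𝕜 (Prod.fst '' (↑(S (k + 1)) : Set (E × (E →L[𝕜] 𝕜)))) ≤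
        Submodule.span 𝕜 (Prod.fst '' ⋃ k, (↑(S k) : Set (E × (E →L[𝕜] 𝕜)))) :=
      Submodule.span_mono (Set.image_mono
        (Set.subset_iUnion (fun k => (↑(S k) : Set (E × (E →L[𝕜] 𝕜)))) (k + 1)))
    have h6 : H ⊔ Submodule.span 𝕜 (Prod.fst '' (↑(S (k + 1)) : Set (E × (E →L[𝕜] 𝕜)))) ≤
        H ⊔ Submodule.span 𝕜 (Prod.fst '' ⋃ k, (↑(S k) : Set (E × (E →L[𝕜] 𝕜)))) :=
      sup_le_sup le_rfl h5
    exact h6 h4

/-- Extension of a bounded biorthogonal system to a complete biorthogonal system. -/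
lemma extend [CompleteSpace E] [TopologicalSpace.SeparableSpace E] (x : ℕ → E) (f : ℕ → E →L[𝕜] 𝕜)
    {D : ℝ} (hD : 0 ≤ D) (hf : ∀ n, ‖f n‖ ≤ D) (hbi1 : ∀ n, f n (x n) = 1)
    (hbi2 : ∀ n m, n ≠ m → f n (x m) = 0) :
    ∃ (ι : Type) (_ : Countable ι) (v : ι → E) (ρ : ι → E →L[𝕜] 𝕜) (f' : ℕ → E →L[𝕜] 𝕜),
      (∀ n, ‖f' n‖ ≤ 2 * D + 2) ∧ (∀ n, f' n (x n) = 1) ∧ (∀ n m, n ≠ m → f' n (x m) = 0) ∧
      (∀ n p, f' n (v p) = 0) ∧ (∀ p n, ρ p (x n) = 0) ∧ (∀ p, ρ p (v p) = 1) ∧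
      (∀ p q, p ≠ q → ρ p (v q) = 0) ∧
      (Submodule.span 𝕜 (Set.range x) ⊔ Submodule.span 𝕜 (Set.range v)).topologicalClosure = ⊤ := by
  classical
  set H : Submodule 𝕜 E := (Submodule.span 𝕜 (Set.range x)).topologicalClosure with hHdef
  have hHc : IsClosed (H : Set E) := Submodule.isClosed_topologicalClosure _
  have hxH : ∀ n, x n ∈ H := fun n =>
    Submodule.le_topologicalClosure _ (Submodule.subset_span ⟨n, rfl⟩)
  -- null on H
  have hnull : ∀ z ∈ H, Tendsto (fun n => f n z) atTop (𝓝 0) := by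
    intro z hz
    rw [Metric.tendsto_atTop]
    intro ε hε
    have hz' : z ∈ closure (Submodule.span 𝕜 (Set.range x) : Set E) := hz
    obtain ⟨y, hy, hzy⟩ := Metric.mem_closure_iff.1 hz' (ε / (D + 1)) (by positivity)
    have hfin : ∃ N, ∀ n ≥ N, f n y = 0 := by
      refine Submodule.span_induction (p := fun y _ => ∃ N, ∀ n ≥ N, f n y = 0) ?_ ?_ ?_ ?_ hy
      · rintro _ ⟨m, rfl⟩
        exact ⟨m + 1, fun n hn => hbi2 n m (by omega)⟩
      · exact ⟨0, fun n _ => map_zero _⟩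
      · rintro a b _ _ ⟨N, hN⟩ ⟨M, hM⟩
        refine ⟨max N M, fun n hn => ?_⟩
        rw [map_add, hN n ((le_max_left _ _).trans hn), hM n ((le_max_right _ _).trans hn), add_zero]
      · rintro c a _ ⟨N, hN⟩
        exact ⟨N, fun n hn => by rw [map_smul, hN n hn, smul_zero]⟩
    obtain ⟨N, hN⟩ := hfin
    refine ⟨N, fun n hn => ?_⟩
    rw [dist_zero_right]
    have h1 : f n z = f n (z - y) := by rw [map_sub, hN n hn, sub_zero]
    rw [h1]
    rw [dist_eq_norm] at hzy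
    calc ‖f n (z - y)‖ ≤ ‖f n‖ * ‖z - y‖ := (f n).le_opNorm _
      _ ≤ (D + 1) * ‖z - y‖ := mul_le_mul_of_nonneg_right (by linarith [hf n]) (norm_nonneg _)
      _ < (D + 1) * (ε / (D + 1)) := mul_lt_mul_of_pos_left hzy (by positivity)
      _ = ε := by field_simp
  obtain ⟨g, hg1, hg2, hg3⟩ := veech H f hD hf hnull
  obtain ⟨T, hTc, hTinv, hTtop⟩ := exists_system hHc
  have : Countable T := hTc.to_subtype
  obtain ⟨enc, henc⟩ := exists_injective_nat T
  -- thresholds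
  have hN : ∀ p : T, ∃ N : ℕ, ∀ n ≥ N, ‖g n p.1.1‖ * ‖p.1.2‖ ≤ (1 / 2 : ℝ) ^ (enc p) := by
    intro p
    have h1 : Tendsto (fun n => ‖g n p.1.1‖ * ‖p.1.2‖) atTop (𝓝 0) := by
      have := ((hg3 p.1.1).norm).mul_const ‖p.1.2‖
      simpa using this
    obtain ⟨N, hN⟩ := eventually_atTop.1
      (h1.eventually_le_const (show (0 : ℝ) < (1 / 2 : ℝ) ^ (enc p) by positivity))
    exact ⟨N, hN⟩
  choose N hN using hN
  let t : ℕ → T → E →L[𝕜] 𝕜 := fun n p => if N p ≤ n then g n p.1.1 • p.1.2 else 0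
  have hgeo : Summable (fun p : T => (1 / 2 : ℝ) ^ (enc p)) :=
    (summable_geometric_two).comp_injective henc
  have hgeo2 : ∑' p : T, (1 / 2 : ℝ) ^ (enc p) ≤ 2 := by
    have h := Summable.tsum_le_tsum_of_inj (g := fun n : ℕ => (1 / 2 : ℝ) ^ n) enc henc
      (fun c _ => by positivity) (fun p => le_rfl) hgeo summable_geometric_two
    rwa [tsum_geometric_two] at h
  have htn : ∀ n p, ‖t n p‖ ≤ (1 / 2 : ℝ) ^ (enc p) := by
    intro n p
    simp only [t]
    split_ifs with h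
    · rw [norm_smul]
      exact hN p n h
    · rw [norm_zero]; positivity
  have hts : ∀ n, Summable (t n) := fun n => Summable.of_norm_bounded hgeo (htn n)
  have htapp : ∀ n (z : E), (∑' p, t n p) z = ∑' p, t n p z := by
    intro n z
    exact (ContinuousLinearMap.apply 𝕜 𝕜 z).map_tsum (hts n)
  have htH : ∀ n, ∀ z ∈ H, (∑' p, t n p) z = 0 := by
    intro n z hz
    rw [htapp]
    have : ∀ p : T, t n p z = 0 := by
      intro p
      simp only [t]
      split_ifs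
      · rw [_root_.smul_apply, hTinv.1 p.1 p.2 z hz, smul_zero]
      · rfl
    simp [this]
  have htu : ∀ n (q : T), (∑' p, t n p) q.1.1 = if N q ≤ n then g n q.1.1 else 0 := by
    intro n q
    rw [htapp, tsum_eq_single q]
    · simp only [t]
      split_ifs
      · rw [_root_.smul_apply, hTinv.2.1 q.1 q.2, smul_eq_mul, mul_one]
      · rfl
    · intro p hp
      simp only [t]
      split_ifs
      · rw [_root_.smul_apply, hTinv.2.2 p.1 p.2 q.1 q.2 (fun h => hp (Subtype.ext h)), smul_zero]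
      · rfl
  let f' : ℕ → E →L[𝕜] 𝕜 := fun n => g n - ∑' p, t n p
  have hf'x : ∀ n, ∀ z ∈ H, f' n z = f n z := by
    intro n z hz
    simp only [f', _root_.sub_apply]
    rw [htH n z hz, sub_zero, hg2 n z hz]
  have hf'u : ∀ n (q : T), f' n q.1.1 = if n < N q then g n q.1.1 else 0 := by
    intro n q
    simp only [f', _root_.sub_apply]
    rw [htu]
    by_cases h : N q ≤ n
    · rw [if_pos h, if_neg (not_lt.2 h), sub_self]
    · rw [if_neg h, if_pos (not_le.1 h), sub_zero]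
  let v : T → E := fun q => q.1.1 - ∑ n ∈ Finset.range (N q), g n q.1.1 • x n
  have hsumH : ∀ q : T, ∑ n ∈ Finset.range (N q), g n q.1.1 • x n ∈ H := fun q =>
    Submodule.sum_mem _ fun n _ => Submodule.smul_mem _ _ (hxH n)
  refine ⟨T, inferInstance, v, fun p => p.1.2, f', ?_, ?_, ?_, ?_, ?_, ?_, ?_, ?_⟩
  · intro n
    refine (norm_sub_le _ _).trans (add_le_add (hg1 n) ?_)
    refine (tsum_of_norm_bounded hgeo.hasSum (htn n)).trans hgeo2
  · intro n
    rw [hf'x n _ (hxH n), hbi1]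
  · intro n m hnm
    rw [hf'x n _ (hxH m), hbi2 n m hnm]
  · intro n q
    simp only [v]
    rw [map_sub, hf'u, map_sum]
    have h1 : ∀ m, f' n (g m q.1.1 • x m) = if n = m then g n q.1.1 else 0 := by
      intro m
      rw [map_smul, hf'x n _ (hxH m), smul_eq_mul]
      split_ifs with h
      · subst h
        rw [hbi1, mul_one]
      · rw [hbi2 n m h, mul_zero]
    simp only [h1]
    rw [Finset.sum_ite_eq]
    simp only [Finset.mem_range]
    rw [sub_self]
  · intro p n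
    exact hTinv.1 p.1 p.2 _ (hxH n)
  · intro p
    simp only [v]
    rw [map_sub, hTinv.1 p.1 p.2 _ (hsumH p), sub_zero]
    exact hTinv.2.1 p.1 p.2
  · intro p q hpq
    simp only [v]
    rw [map_sub, hTinv.1 p.1 p.2 _ (hsumH q), sub_zero]
    exact hTinv.2.2 p.1 p.2 q.1 q.2 (fun h => hpq (Subtype.ext h))
  · set W := (Submodule.span 𝕜 (Set.range x) ⊔ Submodule.span 𝕜 (Set.range v)).topologicalClosure
      with hW
    have hWc : IsClosed (W : Set E) := Submodule.isClosed_topologicalClosure _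
    have h1 : H ≤ W := Submodule.topologicalClosure_mono le_sup_left
    have h2 : Submodule.span 𝕜 (Prod.fst '' T) ≤ W := by
      rw [Submodule.span_le]
      rintro _ ⟨p, hp, rfl⟩
      have h3 : p.1 = v ⟨p, hp⟩ + ∑ n ∈ Finset.range (N ⟨p, hp⟩), g n p.1 • x n := by
        simp only [v]; abel
      rw [h3]
      refine Submodule.add_mem _ ?_ (h1 (hsumH ⟨p, hp⟩))
      exact Submodule.le_topologicalClosure _ (Submodule.mem_sup_right
        (Submodule.subset_span ⟨_, rfl⟩))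
    rw [eq_top_iff, ← hTtop]
    exact Submodule.topologicalClosure_minimal _ (sup_le h1 h2) hWc

end Pool.Agent.H590R3.Ext
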