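import Pool.Agent.H590R3.Ext2

set_option autoImplicit false

namespace Pool.Agent.H590R3.Ext

open Filter Topology

/-- Haar type orthogonal matrices. -/
lemma haar (m : ℕ) : ∃ (ι : Type) (_ : Fintype ι) (_ : DecidableEq ι) (b : ι) (A : ι → ι → ℝ),
    (∀ i j, ∑ k, A k i * A k j = if i = j then 1 else 0) ∧
    (∀ k, |A k b| ≤ (Real.sqrt 2)⁻¹ ^ m) ∧
    (∀ k, ∑ j, |A k j| ≤ 1 + Real.sqrt 2 - Real.sqrt 2 * (Real.sqrt 2)⁻¹ ^ m) := by
  have hs0 : (0 : ℝ) < Real.sqrt 2 := Real.sqrt_pos.2 (by norm_num)
  have hs2 : Real.sqrt 2 * Real.sqrt 2 = 2 := Real.mul_self_sqrt (by norm_num)
  have hs1 : 1 ≤ Real.sqrt 2 := by nlinarith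
  set r : ℝ := (Real.sqrt 2)⁻¹ with hr
  have hr0 : 0 < r := inv_pos.2 hs0
  have hrs : r * Real.sqrt 2 = 1 := inv_mul_cancel₀ hs0.ne'
  have hrr : r * r = 1 / 2 := by
    have : r * r * (Real.sqrt 2 * Real.sqrt 2) = 1 := by
      calc r * r * (Real.sqrt 2 * Real.sqrt 2) = (r * Real.sqrt 2) * (r * Real.sqrt 2) := by ring
        _ = 1 := by rw [hrs]; norm_num
    rw [hs2] at this
    linarith
  induction m with
  | zero =>
    refine ⟨Unit, inferInstance, inferInstance, (), fun _ _ => 1, ?_, ?_, ?_⟩
    · intro i j; simp
    · intro k; simp
    · intro k; simp
  | succ m ih =>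
    obtain ⟨ι, _, _, b, A, hA, hb, hrow⟩ := ih
    -- columns: inl j (j ≠ b), inr j (j ≠ b), inl b, inr b
    let B : ι ⊕ ι → ι ⊕ ι → ℝ := fun k j => match k, j with
      | Sum.inl k, Sum.inl j => if j = b then r * A k b else A k j
      | Sum.inl k, Sum.inr j => if j = b then r * A k b else 0
      | Sum.inr k, Sum.inl j => if j = b then r * A k b else 0
      | Sum.inr k, Sum.inr j => if j = b then - (r * A k b) else A k j
    refine ⟨ι ⊕ ι, inferInstance, inferInstance, Sum.inl b, B, ?_, ?_, ?_⟩
    · have hbb := hA b b
      rw [if_pos rfl] at hbb
      have hbj : ∀ j, j ≠ b → ∑ k, A k b * A k j = 0 := fun j hj => by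
        rw [hA, if_neg hj.symm]
      rintro (i | i) (j | j)
      · rw [Fintype.sum_sum_type]
        simp only [B]
        by_cases hi : i = b <;> by_cases hj : j = b
        · rw [hi, hj]
          simp only [if_true]
          rw [← Finset.sum_add_distrib]
          have : ∀ k, r * A k b * (r * A k b) + r * A k b * (r * A k b) = A k b * A k b := by
            intro k
            calc _ = 2 * (r * r) * (A k b * A k b) := by ring
              _ = _ := by rw [hrr]; ring
          simp only [this]
          rw [hbb]
        · subst hi
          rw [if_neg (by simpa using Ne.symm hj)]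
          simp only [if_true, if_neg hj, mul_zero, Finset.sum_const_zero, add_zero]
          have : ∀ k, r * A k i * A k j = r * (A k i * A k j) := fun k => by ring
          simp only [this]
          rw [← Finset.mul_sum, hbj j hj, mul_zero]
        · subst hj
          rw [if_neg (by simpa using hi)]
          simp only [if_true, if_neg hi, zero_mul, Finset.sum_const_zero, add_zero]
          have : ∀ k, A k i * (r * A k j) = r * (A k j * A k i) := fun k => by ring
          simp only [this]
          rw [← Finset.mul_sum, hbj i hi, mul_zero]
        · simp only [if_neg hi, if_neg hj, mul_zero, Finset.sum_const_zero, add_zero]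
          rw [hA]
          simp
      · rw [Fintype.sum_sum_type, if_neg (by simp)]
        simp only [B]
        by_cases hi : i = b <;> by_cases hj : j = b
        · subst hi; subst hj
          simp only [if_true]
          rw [← Finset.sum_add_distrib]
          refine Finset.sum_eq_zero fun k _ => ?_
          ring
        · subst hi
          simp only [if_true, if_neg hj, mul_zero, Finset.sum_const_zero, zero_add]
          have : ∀ k, r * A k i * A k j = r * (A k i * A k j) := fun k => by ring
          simp only [this]
          rw [← Finset.mul_sum, hbj j hj, mul_zero]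
        · subst hj
          simp only [if_true, if_neg hi, zero_mul, Finset.sum_const_zero, add_zero]
          have : ∀ k, A k i * (r * A k j) = r * (A k j * A k i) := fun k => by ring
          simp only [this]
          rw [← Finset.mul_sum, hbj i hi, mul_zero]
        · simp only [if_neg hi, if_neg hj, mul_zero, zero_mul, Finset.sum_const_zero, add_zero]
      · rw [Fintype.sum_sum_type, if_neg (by simp)]
        simp only [B]
        by_cases hi : i = b <;> by_cases hj : j = b
        · subst hi; subst hj
          simp only [if_true]
          rw [← Finset.sum_add_distrib]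
          refine Finset.sum_eq_zero fun k _ => ?_
          ring
        · subst hi
          simp only [if_true, if_neg hj, mul_zero, Finset.sum_const_zero, add_zero]
          have : ∀ k, r * A k i * A k j = r * (A k i * A k j) := fun k => by ring
          simp only [this]
          rw [← Finset.mul_sum, hbj j hj, mul_zero]
        · subst hj
          simp only [if_true, if_neg hi, zero_mul, Finset.sum_const_zero, zero_add]
          have : ∀ k, A k i * (r * A k j) = r * (A k j * A k i) := fun k => by ring
          simp only [this]
          rw [← Finset.mul_sum, hbj i hi, mul_zero]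
        · simp only [if_neg hi, if_neg hj, mul_zero, zero_mul, Finset.sum_const_zero, add_zero]
      · rw [Fintype.sum_sum_type]
        simp only [B]
        by_cases hi : i = b <;> by_cases hj : j = b
        · rw [hi, hj]
          simp only [if_true]
          rw [← Finset.sum_add_distrib]
          have : ∀ k, r * A k b * (r * A k b) + -(r * A k b) * -(r * A k b) = A k b * A k b := by
            intro k
            calc _ = 2 * (r * r) * (A k b * A k b) := by ring
              _ = _ := by rw [hrr]; ring
          simp only [this]
          rw [hbb]
        · subst hi
          rw [if_neg (by simpa using Ne.symm hj)]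
          simp only [if_true, if_neg hj, mul_zero, Finset.sum_const_zero, zero_add]
          have : ∀ k, -(r * A k i) * A k j = - r * (A k i * A k j) := fun k => by ring
          simp only [this]
          rw [← Finset.mul_sum, hbj j hj, mul_zero]
        · subst hj
          rw [if_neg (by simpa using hi)]
          simp only [if_true, if_neg hi, zero_mul, Finset.sum_const_zero, zero_add]
          have : ∀ k, A k i * -(r * A k j) = - r * (A k j * A k i) := fun k => by ring
          simp only [this]
          rw [← Finset.mul_sum, hbj i hi, mul_zero]
        · simp only [if_neg hi, if_neg hj, mul_zero, Finset.sum_const_zero, zero_add]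
          rw [hA]
          simp
    · rintro (k | k)
      · simp only [B, if_true]
        rw [abs_mul, abs_of_pos hr0, pow_succ, mul_comm]
        exact mul_le_mul_of_nonneg_right (hb k) hr0.le
      · simp only [B, if_true]
        rw [abs_mul, abs_of_pos hr0, pow_succ, mul_comm]
        exact mul_le_mul_of_nonneg_right (hb k) hr0.le
    · have key : ∀ k : ι, (∑ j, |if j = b then r * A k b else A k j|) + r * |A k b| ≤
          1 + Real.sqrt 2 - Real.sqrt 2 * r ^ (m + 1) := by
        intro k
        have h1 : ∑ j, |if j = b then r * A k b else A k j| =
            (∑ j, |A k j|) + (r - 1) * |A k b| := by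
          have h2 : ∀ j, |if j = b then r * A k b else A k j| =
              |A k j| + if j = b then (r - 1) * |A k b| else 0 := by
            intro j
            split_ifs with h
            · subst h
              rw [abs_mul, abs_of_pos hr0]; ring
            · rw [add_zero]
          simp only [h2]
          rw [Finset.sum_add_distrib, Finset.sum_ite_eq' Finset.univ b, if_pos (Finset.mem_univ _)]
        rw [h1]
        have h3 := hrow k
        have h4 := hb k
        have h5 : 2 * r = Real.sqrt 2 := by
          have : 2 * r = (Real.sqrt 2 * Real.sqrt 2) * r := by rw [hs2]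
          rw [this, mul_assoc, mul_comm (Real.sqrt 2) r, hrs, mul_one]
        have h6 : Real.sqrt 2 * r ^ (m + 1) = r ^ m := by
          rw [pow_succ, ← mul_assoc, mul_comm (Real.sqrt 2), mul_assoc, mul_comm (Real.sqrt 2), hrs,
            mul_one]
        rw [h6]
        have h7 : 0 ≤ (2 * r - 1) := by rw [h5]; linarith
        have h8 := mul_le_mul_of_nonneg_left h4 h7
        have h9 : (2 * r - 1) * r ^ m = Real.sqrt 2 * r ^ m - r ^ m := by rw [← h5]; ring
        rw [h9] at h8
        linarith
      rintro (k | k)
      · rw [Fintype.sum_sum_type]
        simp only [B]
        have h1 : ∑ j, |if j = b then r * A k b else 0| = r * |A k b| := by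
          rw [Finset.sum_eq_single b]
          · rw [if_pos rfl, abs_mul, abs_of_pos hr0]
          · intro j _ hj; rw [if_neg hj, abs_zero]
          · intro h; exact absurd (Finset.mem_univ _) h
        rw [h1]
        exact key k
      · rw [Fintype.sum_sum_type]
        simp only [B]
        have h1 : ∑ j, |if j = b then r * A k b else 0| = r * |A k b| := by
          rw [Finset.sum_eq_single b]
          · rw [if_pos rfl, abs_mul, abs_of_pos hr0]
          · intro j _ hj; rw [if_neg hj, abs_zero]
          · intro h; exact absurd (Finset.mem_univ _) h
        have h2 : ∀ j, |if j = b then -(r * A k b) else A k j| =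
            |if j = b then r * A k b else A k j| := by
          intro j
          split_ifs
          · rw [abs_neg]
          · rfl
        simp only [h2]
        rw [h1, add_comm]
        exact key k

end Pool.Agent.H590R3.Ext
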