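import Pool.Agent.H590R3.Ext3

set_option autoImplicit false

namespace Pool.Agent.H590R3.Ext

open Filter Topology

variable {𝕜 : Type} [RCLike 𝕜] {E : Type} [NormedAddCommGroup E] [NormedSpace 𝕜 E]

lemma row {C : ℝ} (hC : 0 ≤ C) (b : E) (b' : E →L[𝕜] 𝕜) (g : ℕ → E) (g' : ℕ → E →L[𝕜] 𝕜)
    (hg : ∀ j, ‖g j‖ ≤ C) (hg' : ∀ j, ‖g' j‖ ≤ C) (hbb : b' b = 1) (hbg : ∀ j, b' (g j) = 0)
    (hgb : ∀ j, g' j b = 0) (hgg1 : ∀ j, g' j (g j) = 1) (hgg : ∀ i j, i ≠ j → g' i (g j) = 0) :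
    ∃ (J : Type) (_ : Countable J) (e : J → E) (e' : J → E →L[𝕜] 𝕜),
      (∀ j, e j ∈ Submodule.span 𝕜 (insert b (Set.range g))) ∧
      (∀ j, e' j ∈ Submodule.span 𝕜 (insert b' (Set.range g'))) ∧
      (∀ j, e' j (e j) = 1) ∧ (∀ i j, i ≠ j → e' i (e j) = 0) ∧
      (∀ j, ‖e j‖ ≤ 1 + 3 * C) ∧ (∀ j, ‖e' j‖ ≤ 1 + 3 * C) ∧
      b ∈ Submodule.span 𝕜 (Set.range e) ∧ ∀ j, g j ∈ Submodule.span 𝕜 (Set.range e) := by
  classical
  have hs1 : (Real.sqrt 2)⁻¹ < 1 := by
    apply inv_lt_one_of_one_lt₀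
    rw [show (1 : ℝ) = Real.sqrt 1 by simp]
    exact Real.sqrt_lt_sqrt (by norm_num) (by norm_num)
  have hs0 : 0 ≤ (Real.sqrt 2)⁻¹ := by positivity
  obtain ⟨m, hm⟩ : ∃ m : ℕ, (Real.sqrt 2)⁻¹ ^ m < 1 / (‖b‖ + ‖b'‖ + 1) :=
    exists_pow_lt_of_lt_one (by positivity) hs1
  obtain ⟨ι, _, _, b0, A, hA, hAb, hArow⟩ := haar m
  have hsq2 : Real.sqrt 2 ≤ 2 := by
    rw [show (2 : ℝ) = Real.sqrt 4 by
      rw [show (4 : ℝ) = 2 ^ 2 by norm_num]; exact (Real.sqrt_sq (by norm_num)).symm]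
    exact Real.sqrt_le_sqrt (by rw [Real.sqrt_le_left] <;> norm_num)
  have hArow3 : ∀ k, ∑ j, |A k j| ≤ 3 := by
    intro k
    have h1 : 0 ≤ Real.sqrt 2 * (Real.sqrt 2)⁻¹ ^ m := by positivity
    linarith [hArow k]
  have hA' : ∀ k l, ∑ j, A k j * A l j = if k = l then 1 else 0 := by
    let M : Matrix ι ι ℝ := Matrix.of A
    have h1 : M.transpose * M = 1 := by
      ext i j
      rw [Matrix.mul_apply, Matrix.one_apply]
      exact hA i j
    have h2 : M * M.transpose = 1 := mul_eq_one_comm.1 h1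
    intro k l
    have h3 := congrFun (congrFun h2 k) l
    rw [Matrix.mul_apply, Matrix.one_apply] at h3
    exact h3
  let φ : ι → ℕ := fun i => (Fintype.equivFin ι i : ℕ)
  have hφ : Function.Injective φ := fun i j h =>
    (Fintype.equivFin ι).injective (Fin.ext h)
  let s : ι → E := fun j => if j = b0 then b else g (φ j)
  let s' : ι → E →L[𝕜] 𝕜 := fun j => if j = b0 then b' else g' (φ j)
  have hss : ∀ i j, s' i (s j) = if i = j then 1 else 0 := by
    intro i j
    simp only [s, s']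
    by_cases hi : i = b0 <;> by_cases hj : j = b0
    · rw [if_pos hi, if_pos hj, hbb, if_pos (hi.trans hj.symm)]
    · rw [if_pos hi, if_neg hj, hbg, if_neg]
      rintro rfl; exact hj hi
    · rw [if_neg hi, if_pos hj, hgb, if_neg]
      rintro rfl; exact hi hj
    · rw [if_neg hi, if_neg hj]
      by_cases hij : i = j
      · subst hij
        rw [hgg1, if_pos rfl]
      · rw [hgg _ _ (fun h => hij (hφ h)), if_neg hij]
  let J : Type := ι ⊕ {n : ℕ // ∀ i, i ≠ b0 → φ i ≠ n}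
  let e : J → E := fun j => Sum.elim (fun k => ∑ i, ((A k i : ℝ) : 𝕜) • s i) (fun n => g n.1) j
  let e' : J → E →L[𝕜] 𝕜 := fun j =>
    Sum.elim (fun k => ∑ i, ((A k i : ℝ) : 𝕜) • s' i) (fun n => g' n.1) j
  have hsb : s b0 = b := if_pos rfl
  have hsb' : s' b0 = b' := if_pos rfl
  have hsn : ∀ (n : {n : ℕ // ∀ i, i ≠ b0 → φ i ≠ n}) (i : ι), s' i (g n.1) = 0 := by
    intro n i
    simp only [s']
    split_ifs with h
    · exact hbg _
    · exact hgg _ _ (n.2 i h)
  have hns : ∀ (n : {n : ℕ // ∀ i, i ≠ b0 → φ i ≠ n}) (i : ι), g' n.1 (s i) = 0 := by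
    intro n i
    simp only [s]
    split_ifs with h
    · exact hgb _
    · exact hgg _ _ (n.2 i h).symm
  have hkl : ∀ k l, e' (Sum.inl k) (e (Sum.inl l)) = if k = l then 1 else 0 := by
    intro k l
    simp only [e, e', Sum.elim_inl, _root_.sum_apply, _root_.smul_apply, map_sum, map_smul, hss,
      smul_eq_mul]
    have h1 : ∀ i, ((A l i : ℝ) : 𝕜) * ∑ j, ((A k j : ℝ) : 𝕜) * (if j = i then (1 : 𝕜) else 0) =
        (((A k i * A l i : ℝ)) : 𝕜) := by
      intro i
      rw [Finset.sum_eq_single i]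
      · rw [if_pos rfl, mul_one]; push_cast; ring
      · intro j _ hj
        rw [if_neg hj, mul_zero]
      · intro h; exact absurd (Finset.mem_univ _) h
    simp only [h1]
    rw [← RCLike.ofReal_sum, hA']
    split_ifs <;> simp
  have hsE : ∀ j, s j = ∑ k, ((A k j : ℝ) : 𝕜) • e (Sum.inl k) := by
    intro j
    simp only [e, Sum.elim_inl, Finset.smul_sum, smul_smul]
    rw [Finset.sum_comm]
    have h1 : ∀ i, ∑ k, (((A k j : ℝ) : 𝕜) * ((A k i : ℝ) : 𝕜)) • s i =
        if i = j then s i else 0 := by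
      intro i
      rw [← Finset.sum_smul]
      have h2 : ∑ k, (((A k j : ℝ) : 𝕜) * ((A k i : ℝ) : 𝕜)) = (((if j = i then 1 else 0 : ℝ)) : 𝕜) := by
        rw [← hA j i]
        push_cast
        rfl
      rw [h2]
      by_cases hij : i = j
      · rw [if_pos hij, if_pos hij.symm]; simp
      · rw [if_neg hij, if_neg (Ne.symm hij)]; simp
    simp only [h1]
    rw [Finset.sum_ite_eq' Finset.univ j, if_pos (Finset.mem_univ _)]
  have hbm : (Real.sqrt 2)⁻¹ ^ m * ‖b‖ ≤ 1 ∧ (Real.sqrt 2)⁻¹ ^ m * ‖b'‖ ≤ 1 := by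
    have h0 : 0 < ‖b‖ + ‖b'‖ + 1 := by positivity
    rw [lt_div_iff₀ h0] at hm
    have h1 : 0 ≤ (Real.sqrt 2)⁻¹ ^ m := by positivity
    constructor <;> nlinarith [norm_nonneg b, norm_nonneg b', mul_nonneg h1 (norm_nonneg b),
      mul_nonneg h1 (norm_nonneg b')]
  have hnorm : ∀ (X : Type) [NormedAddCommGroup X] [NormedSpace 𝕜 X] (t : ι → X)
      (ht : ∀ i, i ≠ b0 → ‖t i‖ ≤ C) (hb0 : (Real.sqrt 2)⁻¹ ^ m * ‖t b0‖ ≤ 1) (k : ι),
      ‖∑ i, ((A k i : ℝ) : 𝕜) • t i‖ ≤ 1 + 3 * C := by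
    intro X _ _ t ht hb0 k
    calc ‖∑ i, ((A k i : ℝ) : 𝕜) • t i‖ ≤ ∑ i, ‖((A k i : ℝ) : 𝕜) • t i‖ := norm_sum_le _ _
      _ ≤ ∑ i, ((if i = b0 then 1 else 0) + |A k i| * C) := by
          refine Finset.sum_le_sum fun i _ => ?_
          rw [norm_smul, RCLike.norm_ofReal]
          split_ifs with h
          · subst h
            have h2 : |A k i| * ‖t i‖ ≤ 1 :=
              (mul_le_mul_of_nonneg_right (hAb k) (norm_nonneg _)).trans hb0
            have h3 : 0 ≤ |A k i| * C := by positivity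
            linarith
          · rw [zero_add]
            exact mul_le_mul_of_nonneg_left (ht i h) (abs_nonneg _)
      _ = 1 + (∑ i, |A k i|) * C := by
          rw [Finset.sum_add_distrib, Finset.sum_ite_eq' Finset.univ b0,
            if_pos (Finset.mem_univ _), Finset.sum_mul]
      _ ≤ 1 + 3 * C := by
          have := mul_le_mul_of_nonneg_right (hArow3 k) hC
          linarith
  have hspan_e : ∀ j, s j ∈ Submodule.span 𝕜 (Set.range e) := by
    intro j
    rw [hsE]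
    exact Submodule.sum_mem _ fun k _ => Submodule.smul_mem _ _ (Submodule.subset_span ⟨_, rfl⟩)
  refine ⟨J, inferInstance, e, e', ?_, ?_, ?_, ?_, ?_, ?_, ?_, ?_⟩
  · rintro (k | n)
    · refine Submodule.sum_mem _ fun i _ => Submodule.smul_mem _ _ (Submodule.subset_span ?_)
      simp only [s]
      split_ifs
      · exact Set.mem_insert _ _
      · exact Set.mem_insert_of_mem _ ⟨_, rfl⟩
    · exact Submodule.subset_span (Set.mem_insert_of_mem _ ⟨_, rfl⟩)
  · rintro (k | n)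
    · refine Submodule.sum_mem _ fun i _ => Submodule.smul_mem _ _ (Submodule.subset_span ?_)
      simp only [s']
      split_ifs
      · exact Set.mem_insert _ _
      · exact Set.mem_insert_of_mem _ ⟨_, rfl⟩
    · exact Submodule.subset_span (Set.mem_insert_of_mem _ ⟨_, rfl⟩)
  · rintro (k | n)
    · rw [hkl, if_pos rfl]
    · exact hgg1 _
  · rintro (k | n) (l | n') hne
    · rw [hkl, if_neg]
      rintro rfl; exact hne rfl
    · simp only [e, e', Sum.elim_inl, Sum.elim_inr, _root_.sum_apply, _root_.smul_apply, hsn,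
        smul_zero, Finset.sum_const_zero]
    · simp only [e, e', Sum.elim_inl, Sum.elim_inr, map_sum, map_smul, hns, smul_zero,
        Finset.sum_const_zero]
    · refine hgg _ _ fun h => hne ?_
      exact congrArg Sum.inr (Subtype.ext h)
  · rintro (k | n)
    · refine hnorm E s (fun i hi => ?_) ?_ k
      · simp only [s]; rw [if_neg hi]; exact hg _
      · rw [hsb]; exact hbm.1
    · refine (hg _).trans ?_; linarith
  · rintro (k | n)
    · refine hnorm (E →L[𝕜] 𝕜) s' (fun i hi => ?_) ?_ k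
      · simp only [s']; rw [if_neg hi]; exact hg' _
      · rw [hsb']; exact hbm.2
    · refine (hg' _).trans ?_; linarith
  · have := hspan_e b0
    rwa [hsb] at this
  · intro n
    by_cases h : ∀ i, i ≠ b0 → φ i ≠ n
    · exact Submodule.subset_span ⟨Sum.inr ⟨n, h⟩, rfl⟩
    · push Not at h
      obtain ⟨i, hi, rfl⟩ := h
      have := hspan_e i
      simp only [s] at this
      rwa [if_neg hi] at this

end Pool.Agent.H590R3.Ext
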