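import Pool.Agent.H590R3.Ext1

set_option autoImplicit false

namespace Pool.Agent.H590R3.Ext

open Filter Topology

section

variable {𝕜 : Type} [RCLike 𝕜] {Z : Type} [NormedAddCommGroup Z] [NormedSpace 𝕜 Z]

/-- bounded biorthogonal finite systems -/
def BInv (S : Set (Z × (Z →L[𝕜] 𝕜))) : Prop :=
  (∀ p ∈ S, ‖p.1‖ ≤ 3 ∧ ‖p.2‖ ≤ 4) ∧ (∀ p ∈ S, p.2 p.1 = 1) ∧
    ∀ p ∈ S, ∀ q ∈ S, p ≠ q → p.2 q.1 = 0

lemma bstep (hZ : ¬ FiniteDimensional 𝕜 Z) (S : Finset (Z × (Z →L[𝕜] 𝕜)))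
    (hS : BInv (↑S : Set (Z × (Z →L[𝕜] 𝕜)))) :
    ∃ p : Z × (Z →L[𝕜] 𝕜), p ∉ S ∧ BInv (insert p (↑S : Set (Z × (Z →L[𝕜] 𝕜)))) := by
  classical
  let Φ : Z →ₗ[𝕜] (S → 𝕜) := LinearMap.pi fun p => (p.1.2 : Z →ₗ[𝕜] 𝕜)
  set W : Submodule 𝕜 Z := LinearMap.ker Φ with hW
  have hWmem : ∀ z ∈ W, ∀ p ∈ S, p.2 z = 0 := by
    intro z hz p hp
    have := congrFun (LinearMap.mem_ker.1 hz) ⟨p, hp⟩
    exact this
  have hWinf : ¬ FiniteDimensional 𝕜 W := by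
    intro hfin
    apply hZ
    have : FiniteDimensional 𝕜 (Z ⧸ W) :=
      Module.Finite.equiv (Φ.quotKerEquivRange).symm
    exact Module.Finite.of_submodule_quotient W
  set F : Submodule 𝕜 Z := Submodule.span 𝕜 (Prod.fst '' (↑S : Set (Z × (Z →L[𝕜] 𝕜)))) with hF
  have hFfin : FiniteDimensional 𝕜 F :=
    FiniteDimensional.span_of_finite 𝕜 (S.finite_toSet.image _)
  obtain ⟨f, hf1, hf2⟩ := exists_seq_norm_le_one_le_norm_sub' (𝕜 := 𝕜) (c := (2 : 𝕜)) (R := 3)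
    (by rw [RCLike.norm_ofNat]; norm_num) (by rw [RCLike.norm_ofNat]; norm_num) hWinf
  have hex : ∃ n, ∀ y ∈ F, 1 / 4 ≤ ‖(f n : Z) - y‖ := by
    by_contra hcon
    push Not at hcon
    choose g hg1 hg2 using hcon
    have hproper : ProperSpace F := FiniteDimensional.proper_rclike 𝕜 F
    let G : ℕ → F := fun n => ⟨g n, hg1 n⟩
    have hGb : ∀ n, G n ∈ Metric.closedBall (0 : F) 4 := by
      intro n
      rw [mem_closedBall_zero_iff]
      change ‖g n‖ ≤ 4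
      have h1 : g n = (f n : Z) - ((f n : Z) - g n) := by abel
      rw [h1]
      have h2 : ‖(f n : Z)‖ ≤ 3 := hf1 n
      linarith [norm_sub_le (f n : Z) ((f n : Z) - g n), hg2 n]
    obtain ⟨a, _, φ, hφ, hlim⟩ := (isCompact_closedBall (0 : F) 4).tendsto_subseq hGb
    obtain ⟨N, hN⟩ := Metric.tendsto_atTop.1 hlim (1 / 8) (by norm_num)
    have h3 := hN N le_rfl
    have h4 := hN (N + 1) (Nat.le_succ _)
    have h5 : dist (G (φ N)) (G (φ (N + 1))) < 1 / 4 := by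
      refine lt_of_le_of_lt (dist_triangle_right _ _ a) ?_
      simp only [Function.comp_apply] at h3 h4
      linarith
    have h6 : ‖g (φ N) - g (φ (N + 1))‖ < 1 / 4 := by
      rw [dist_eq_norm] at h5
      exact h5
    have h7 : 1 ≤ ‖(f (φ N) : Z) - f (φ (N + 1))‖ := hf2 (hφ (Nat.lt_succ_self N)).ne
    have h8 : (f (φ N) : Z) - f (φ (N + 1)) = ((f (φ N) : Z) - g (φ N)) +
        (g (φ N) - g (φ (N + 1))) - ((f (φ (N + 1)) : Z) - g (φ (N + 1))) := by abel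
    rw [h8] at h7
    have h9 := norm_sub_le (((f (φ N) : Z) - g (φ N)) + (g (φ N) - g (φ (N + 1))))
      ((f (φ (N + 1)) : Z) - g (φ (N + 1)))
    have h10 := norm_add_le ((f (φ N) : Z) - g (φ N)) (g (φ N) - g (φ (N + 1)))
    linarith [hg2 (φ N), hg2 (φ (N + 1))]
  obtain ⟨n, hn⟩ := hex
  set s : Z := (f n).1 with hs
  have hsW : s ∈ W := (f n).2
  have hFc : IsClosed (F : Set Z) := F.closed_of_finiteDimensional
  have := hFc
  have hnorm : 1 / 4 ≤ ‖(F.mkQL s : Z ⧸ F)‖ := by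
    refine le_of_forall_pos_le_add fun ε hε => ?_
    obtain ⟨m, hm1, hm2⟩ := Submodule.Quotient.norm_mk_lt (F.mkQL s : Z ⧸ F) hε
    have h1 : s - m ∈ F := by
      rw [← Submodule.Quotient.mk_eq_zero F, Submodule.Quotient.mk_sub, hm1]
      exact sub_self _
    have h2 := hn (s - m) h1
    rw [sub_sub_cancel] at h2
    linarith
  obtain ⟨h, hh1, hh2⟩ := exists_dual_vector 𝕜 (F.mkQL s : Z ⧸ F) (by linarith)
  let ψ : Z →L[𝕜] 𝕜 := ((‖(F.mkQL s : Z ⧸ F)‖⁻¹ : ℝ) : 𝕜) • h.comp F.mkQL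
  have hψs : ψ s = 1 := by
    change ((‖(F.mkQL s : Z ⧸ F)‖⁻¹ : ℝ) : 𝕜) * h (F.mkQL s) = 1
    rw [hh2, ← RCLike.ofReal_mul, inv_mul_cancel₀ (by linarith), RCLike.ofReal_one]
  have hψF : ∀ y ∈ F, ψ y = 0 := by
    intro y hy
    change ((‖(F.mkQL s : Z ⧸ F)‖⁻¹ : ℝ) : 𝕜) * h (F.mkQL y) = 0
    have : (F.mkQL y : Z ⧸ F) = 0 := (Submodule.Quotient.mk_eq_zero F).2 hy
    rw [this, map_zero, mul_zero]
  have hψn : ‖ψ‖ ≤ 4 := by
    refine ContinuousLinearMap.opNorm_le_bound _ (by norm_num) fun z => ?_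
    change ‖((‖(F.mkQL s : Z ⧸ F)‖⁻¹ : ℝ) : 𝕜) * h (F.mkQL z)‖ ≤ 4 * ‖z‖
    rw [norm_mul, RCLike.norm_ofReal, abs_of_nonneg (by positivity)]
    have h1 : ‖(F.mkQL s : Z ⧸ F)‖⁻¹ ≤ 4 := by
      rw [inv_le_comm₀ (by linarith) (by norm_num)]; linarith
    have h2 : ‖h (F.mkQL z)‖ ≤ ‖z‖ := by
      refine (h.le_opNorm _).trans ?_
      rw [hh1, one_mul]
      exact Submodule.Quotient.norm_mk_le F z
    exact mul_le_mul h1 h2 (norm_nonneg _) (by norm_num)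
  refine ⟨(s, ψ), ?_, ?_, ?_, ?_⟩
  · intro hmem
    have h1 : ψ s = 0 := hψF s (Submodule.subset_span ⟨(s, ψ), hmem, rfl⟩)
    rw [h1] at hψs
    exact zero_ne_one hψs
  · rintro p (rfl | hp)
    · exact ⟨hf1 n, hψn⟩
    · exact hS.1 p hp
  · rintro p (rfl | hp)
    · exact hψs
    · exact hS.2.1 p hp
  · rintro p (rfl | hp) q (rfl | hq) hpq
    · exact absurd rfl hpq
    · exact hψF _ (Submodule.subset_span ⟨q, hq, rfl⟩)
    · exact hWmem s hsW p hp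
    · exact hS.2.2 p hp q hq hpq

lemma exists_bounded_system (hZ : ¬ FiniteDimensional 𝕜 Z) :
    ∃ (z : ℕ → Z) (ψ : ℕ → Z →L[𝕜] 𝕜), (∀ n, ‖z n‖ ≤ 3) ∧ (∀ n, ‖ψ n‖ ≤ 4) ∧
      (∀ n, ψ n (z n) = 1) ∧ ∀ n m, n ≠ m → ψ n (z m) = 0 := by
  classical
  choose! nx h1 h2 using fun (S : Finset (Z × (Z →L[𝕜] 𝕜)))
    (hS : BInv (↑S : Set (Z × (Z →L[𝕜] 𝕜)))) => bstep hZ S hS
  obtain ⟨S, hS0, hSs⟩ : ∃ S : ℕ → Finset (Z × (Z →L[𝕜] 𝕜)), S 0 = ∅ ∧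
      ∀ k, S (k + 1) = insert (nx (S k)) (S k) :=
    ⟨fun n => Nat.rec ∅ (fun k S => insert (nx S) S) n, rfl, fun k => rfl⟩
  have hInv : ∀ k : ℕ, BInv (↑(S k) : Set (Z × (Z →L[𝕜] 𝕜))) := by
    intro k
    induction k with
    | zero => rw [hS0]; exact ⟨by simp, by simp, by simp⟩
    | succ k ih => rw [hSs, Finset.coe_insert]; exact h2 _ ih
  have hmono : Monotone S := monotone_nat_of_le_succ fun k => by
    rw [hSs]; exact Finset.subset_insert _ _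
  have hmem : ∀ k, nx (S k) ∈ S (k + 1) := fun k => by rw [hSs]; exact Finset.mem_insert_self _ _
  have hne : ∀ k l, k < l → nx (S k) ≠ nx (S l) := by
    intro k l hkl h
    apply h1 (S l) (hInv l)
    rw [← h]
    exact hmono hkl (hmem k)
  refine ⟨fun n => (nx (S n)).1, fun n => (nx (S n)).2, fun n => ((hInv (n + 1)).1 _ (hmem n)).1,
    fun n => ((hInv (n + 1)).1 _ (hmem n)).2, fun n => (hInv (n + 1)).2.1 _ (hmem n), ?_⟩
  intro n m hnm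
  refine (hInv (max n m + 1)).2.2 _ ?_ _ ?_ ?_
  · exact hmono (Nat.succ_le_succ (le_max_left n m)) (hmem n)
  · exact hmono (Nat.succ_le_succ (le_max_right n m)) (hmem m)
  · rcases lt_or_gt_of_ne hnm with h | h
    · exact hne n m h
    · exact (hne m n h).symm

end

end Pool.Agent.H590R3.Ext
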