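import Pool.Agent.H590R3.Ext5

set_option autoImplicit false

namespace Pool.Agent.H590R3.Ext

open Filter Topology

variable {𝕜 : Type} [RCLike 𝕜] {E : Type} [NormedAddCommGroup E] [NormedSpace 𝕜 E]

/-- selection of a pair -/
lemma select (f : ℕ → E →L[𝕜] 𝕜) {D : ℝ} (hD : 0 ≤ D) (hf : ∀ n, ‖f n‖ ≤ D)
    (hnull : ∀ x, Tendsto (fun n => f n x) atTop (𝓝 0)) (y : ℕ → E) (hy : ∀ n, ‖y n‖ ≤ 4)
    (M N : ℕ) {ε : ℝ} (hε : 0 < ε) :
    ∃ a b M' N' : ℕ, M ≤ a ∧ a < b ∧ b < M' ∧ N < N' ∧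
      (∀ n < N, ‖f n (y a - y b)‖ ≤ ε) ∧ ∀ n, N' ≤ n → ‖f n (y a - y b)‖ ≤ ε := by
  let v : ℕ → (Fin N → 𝕜) := fun j i => f i (y (M + j))
  have hv : ∀ j, v j ∈ Metric.closedBall (0 : Fin N → 𝕜) (D * 4) := by
    intro j
    rw [mem_closedBall_zero_iff, pi_norm_le_iff_of_nonneg (by positivity)]
    intro i
    exact ((f i).le_opNorm _).trans (mul_le_mul (hf i) (hy _) (norm_nonneg _) hD)
  obtain ⟨a, _, φ, hφ, hlim⟩ := (isCompact_closedBall (0 : Fin N → 𝕜) (D * 4)).tendsto_subseq hv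
  obtain ⟨K, hK⟩ := Metric.tendsto_atTop.1 hlim (ε / 2) (by positivity)
  have h3 := hK K le_rfl
  have h4 := hK (K + 1) (Nat.le_succ _)
  have h5 : dist (v (φ K)) (v (φ (K + 1))) < ε := by
    refine lt_of_le_of_lt (dist_triangle_right _ _ a) ?_
    simp only [Function.comp_apply] at h3 h4
    linarith
  have h6 : φ K < φ (K + 1) := hφ (Nat.lt_succ_self K)
  set A := M + φ K
  set B := M + φ (K + 1)
  obtain ⟨N', hN'⟩ := eventually_atTop.1 ((hnull (y A - y B)).norm.eventually_le_const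
    (show ‖(0 : 𝕜)‖ < ε by simpa using hε))
  refine ⟨A, B, B + 1, max (N + 1) N', Nat.le_add_right _ _, by omega, Nat.lt_succ_self _,
    lt_of_lt_of_le (Nat.lt_succ_self N) (le_max_left _ _), fun n hn => ?_, fun n hn => ?_⟩
  · have h7 := dist_le_pi_dist (v (φ K)) (v (φ (K + 1))) ⟨n, hn⟩
    rw [dist_eq_norm] at h7
    rw [map_sub]
    exact h7.trans h5.le
  · exact hN' n ((le_max_right _ _).trans hn)

/-- Adding infinitely many good vectors to a null bounded system modulo `H`. -/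
lemma good_vectors [CompleteSpace E] {H : Submodule 𝕜 E} (hH : IsClosed (H : Set E))
    (hinf : ¬ FiniteDimensional 𝕜 (E ⧸ H)) (f : ℕ → E →L[𝕜] 𝕜) {D : ℝ} (hD : 0 ≤ D)
    (hf : ∀ n, ‖f n‖ ≤ D) (hnull : ∀ x, Tendsto (fun n => f n x) atTop (𝓝 0)) :
    ∃ (y : ℕ → E) (ψ f' : ℕ → E →L[𝕜] 𝕜), (∀ n, ‖y n‖ ≤ 8) ∧ (∀ n, ‖ψ n‖ ≤ 4) ∧
      (∀ n, ‖f' n‖ ≤ D + (2 + 8 * D) * 4) ∧ (∀ n, ∀ x ∈ H, f' n x = f n x) ∧
      (∀ n, ∀ x ∈ H, ψ n x = 0) ∧ (∀ n m, f' n (y m) = 0) ∧ (∀ n, ψ n (y n) = 1) ∧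
      ∀ n m, n ≠ m → ψ n (y m) = 0 := by
  classical
  have := hH
  obtain ⟨z, ψ₀, hz, hψ₀, hbi1, hbi2⟩ := exists_bounded_system hinf
  have hlift : ∀ n, ∃ y : E, H.mkQL y = z n ∧ ‖y‖ ≤ 4 := by
    intro n
    obtain ⟨m, hm1, hm2⟩ := Submodule.Quotient.norm_mk_lt (z n) one_pos
    exact ⟨m, hm1, by linarith [hz n]⟩
  choose y hy1 hy2 using hlift
  let ψ₁ : ℕ → E →L[𝕜] 𝕜 := fun n => (ψ₀ n).comp H.mkQL
  have hψ₁ : ∀ n, ‖ψ₁ n‖ ≤ 4 := by
    intro n
    refine ContinuousLinearMap.opNorm_le_bound _ (by norm_num) fun x => ?_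
    change ‖ψ₀ n (H.mkQL x)‖ ≤ 4 * ‖x‖
    refine ((ψ₀ n).le_opNorm _).trans ?_
    exact mul_le_mul (hψ₀ n) (Submodule.Quotient.norm_mk_le H x) (norm_nonneg _) (by norm_num)
  have hψ₁1 : ∀ n, ψ₁ n (y n) = 1 := fun n => by
    change ψ₀ n (H.mkQL (y n)) = 1
    rw [hy1, hbi1]
  have hψ₁2 : ∀ n m, n ≠ m → ψ₁ n (y m) = 0 := fun n m h => by
    change ψ₀ n (H.mkQL (y m)) = 0
    rw [hy1, hbi2 n m h]
  have hψ₁H : ∀ n, ∀ x ∈ H, ψ₁ n x = 0 := fun n x hx => by
    change ψ₀ n (H.mkQL x) = 0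
    have : (H.mkQL x : E ⧸ H) = 0 := (Submodule.Quotient.mk_eq_zero H).2 hx
    rw [this, map_zero]
  -- recursion
  choose a b M' N' hMa hab hbM hNN hlow hhigh using fun (l : ℕ) (s : ℕ × ℕ) =>
    select f hD hf hnull y hy2 s.1 s.2 (show (0 : ℝ) < (1 / 2) ^ l by positivity)
  obtain ⟨s, hs⟩ : ∃ s : ℕ → ℕ × ℕ, ∀ l, s (l + 1) = (M' l (s l), N' l (s l)) :=
    ⟨fun n => Nat.rec (0, 0) (fun l s => (M' l s, N' l s)) n, fun l => rfl⟩
  let A : ℕ → ℕ := fun l => a l (s l)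
  let B : ℕ → ℕ := fun l => b l (s l)
  have hM : ∀ l, B l < (s (l + 1)).1 := fun l => by rw [hs]; exact hbM l (s l)
  have hN : ∀ l, (s l).2 < (s (l + 1)).2 := fun l => by rw [hs]; exact hNN l (s l)
  have hAB : ∀ l, A l < B l := fun l => hab l (s l)
  have hMA : ∀ l, (s l).1 ≤ A l := fun l => hMa l (s l)
  have hMmono : Monotone (fun l => (s l).1) := monotone_nat_of_le_succ fun l =>
    (hMA l).trans ((hAB l).le.trans (hM l).le)
  have hNmono : StrictMono (fun l => (s l).2) := strictMono_nat_of_lt_succ hN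
  have hsep : ∀ l m, l < m → B l < A m := by
    intro l m hlm
    calc B l < (s (l + 1)).1 := hM l
      _ ≤ (s m).1 := hMmono hlm
      _ ≤ A m := hMA m
  have hAne : ∀ l m, l ≠ m → A l ≠ A m := by
    intro l m hlm
    rcases lt_or_gt_of_ne hlm with h | h
    · have := hsep l m h; have := hAB l; omega
    · have := hsep m l h; have := hAB m; omega
  have hABne : ∀ l m, A l ≠ B m := by
    intro l m
    rcases lt_trichotomy l m with h | h | h
    · have := hsep l m h; have := hAB l; have := hAB m; omega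
    · subst h; have := hAB l; omega
    · have := hsep m l h; omega
  let Y : ℕ → E := fun l => y (A l) - y (B l)
  let Ψ : ℕ → E →L[𝕜] 𝕜 := fun l => ψ₁ (A l)
  have hY : ∀ l, ‖Y l‖ ≤ 8 := fun l => by
    refine (norm_sub_le _ _).trans ?_
    linarith [hy2 (A l), hy2 (B l)]
  have hΨY1 : ∀ l, Ψ l (Y l) = 1 := fun l => by
    simp only [Ψ, Y]
    rw [map_sub, hψ₁1, hψ₁2 _ _ (hABne l l), sub_zero]
  have hΨY2 : ∀ l m, l ≠ m → Ψ l (Y m) = 0 := fun l m h => by
    simp only [Ψ, Y]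
    rw [map_sub, hψ₁2 _ _ (hAne l m h), hψ₁2 _ _ (hABne l m), sub_zero]
  -- bounds
  let c : ℕ → ℕ → ℝ := fun n l => (1 / 2 : ℝ) ^ l +
    if (s l).2 ≤ n ∧ n < (s (l + 1)).2 then 8 * D else 0
  have hc : ∀ n l, ‖f n (Y l)‖ ≤ c n l := by
    intro n l
    simp only [c]
    split_ifs with h
    · have h1 : ‖f n (Y l)‖ ≤ D * 8 := ((f n).le_opNorm _).trans
        (mul_le_mul (hf n) (hY l) (norm_nonneg _) hD)
      have h2 : (0 : ℝ) ≤ (1 / 2) ^ l := by positivity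
      linarith
    · rw [add_zero]
      by_cases hn : n < (s l).2
      · exact hlow l (s l) n hn
      · have : (s (l + 1)).2 ≤ n := by
          by_contra hcon
          exact h ⟨not_lt.1 hn, not_le.1 hcon⟩
        rw [hs] at this
        exact hhigh l (s l) n this
  have hc2 : ∀ n, Summable (fun l => if (s l).2 ≤ n ∧ n < (s (l + 1)).2 then 8 * D else 0) ∧
      ∑' l, (if (s l).2 ≤ n ∧ n < (s (l + 1)).2 then 8 * D else 0) ≤ 8 * D := by
    intro n
    by_cases h : ∃ l, (s l).2 ≤ n ∧ n < (s (l + 1)).2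
    · obtain ⟨l, hl⟩ := h
      have huniq : ∀ m, m ≠ l → (if (s m).2 ≤ n ∧ n < (s (m + 1)).2 then 8 * D else 0) = 0 := by
        intro m hm
        rw [if_neg]
        rintro ⟨h1, h2⟩
        rcases lt_or_gt_of_ne hm with h | h
        · have h3 : (s (m + 1)).2 ≤ (s l).2 := hNmono.monotone h
          omega
        · have h3 : (s (l + 1)).2 ≤ (s m).2 := hNmono.monotone h
          omega
      refine ⟨(hasSum_single l huniq).summable, ?_⟩
      rw [tsum_eq_single l huniq, if_pos hl]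
    · push Not at h
      have h0 : ∀ m, (if (s m).2 ≤ n ∧ n < (s (m + 1)).2 then 8 * D else 0) = 0 := by
        intro m
        rw [if_neg]
        rintro ⟨h1, h2⟩
        exact absurd (h m h1) (not_le.2 h2)
      simp only [h0]
      exact ⟨summable_zero, by simpa using hD⟩
  have hcs : ∀ n, Summable (c n) := fun n => summable_geometric_two.add (hc2 n).1
  have hct : ∀ n, ∑' l, c n l ≤ 2 + 8 * D := by
    intro n
    simp only [c]
    rw [Summable.tsum_add summable_geometric_two (hc2 n).1, tsum_geometric_two]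
    linarith [(hc2 n).2]
  let t : ℕ → ℕ → E →L[𝕜] 𝕜 := fun n l => f n (Y l) • Ψ l
  have htn : ∀ n l, ‖t n l‖ ≤ c n l * 4 := by
    intro n l
    simp only [t]
    rw [norm_smul]
    exact mul_le_mul (hc n l) (hψ₁ _) (norm_nonneg _) ((norm_nonneg _).trans (hc n l))
  have hts : ∀ n, Summable (t n) := fun n => Summable.of_norm_bounded ((hcs n).mul_right 4) (htn n)
  have htapp : ∀ n (z : E), (∑' l, t n l) z = ∑' l, t n l z := by
    intro n z
    exact (ContinuousLinearMap.apply 𝕜 𝕜 z).map_tsum (hts n)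
  refine ⟨Y, Ψ, fun n => f n - ∑' l, t n l, hY, fun n => hψ₁ _, ?_, ?_, ?_, ?_, hΨY1, hΨY2⟩
  · intro n
    refine (norm_sub_le _ _).trans (add_le_add (hf n) ?_)
    refine (tsum_of_norm_bounded ((hcs n).mul_right 4).hasSum (htn n)).trans ?_
    rw [tsum_mul_right]
    exact mul_le_mul_of_nonneg_right (hct n) (by norm_num)
  · intro n x hx
    simp only [_root_.sub_apply]
    rw [htapp]
    have : ∀ l, t n l x = 0 := by
      intro l
      simp only [t, _root_.smul_apply, Ψ]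
      rw [hψ₁H _ x hx, smul_zero]
    simp [this]
  · intro n x hx
    exact hψ₁H _ x hx
  · intro n m
    simp only [_root_.sub_apply]
    rw [htapp, tsum_eq_single m]
    · simp only [t, _root_.smul_apply]
      rw [hΨY1, smul_eq_mul, mul_one, sub_self]
    · intro l hl
      simp only [t, _root_.smul_apply]
      rw [hΨY2 l m hl, smul_zero]

end Pool.Agent.H590R3.Ext
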