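import Pool.Agent.H590R3.Ext4
import Pool.Agent.H590R3.Ext6

set_option autoImplicit false

namespace Pool.Agent.H590R3.Ext

open Filter Topology

variable {𝕜 : Type} [RCLike 𝕜] {E : Type} [NormedAddCommGroup E] [NormedSpace 𝕜 E]

lemma null_on_span (x : ℕ → E) (f : ℕ → E →L[𝕜] 𝕜)
    {D : ℝ} (hD : 0 ≤ D) (hf : ∀ n, ‖f n‖ ≤ D) (hbi2 : ∀ n m, n ≠ m → f n (x m) = 0) :
    ∀ z ∈ (Submodule.span 𝕜 (Set.range x)).topologicalClosure,
      Tendsto (fun n => f n z) atTop (𝓝 0) := by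
  intro z hz
  rw [Metric.tendsto_atTop]
  intro ε hε
  have hz' : z ∈ closure (Submodule.span 𝕜 (Set.range x) : Set E) := hz
  obtain ⟨y, hy, hzy⟩ := Metric.mem_closure_iff.1 hz' (ε / (D + 1)) (by positivity)
  have hfin : ∃ N, ∀ n ≥ N, f n y = 0 := by
    refine Submodule.span_induction (p := fun y _ => ∃ N, ∀ n ≥ N, f n y = 0) ?_ ?_ ?_ ?_ hy
    · rintro _ ⟨m, rfl⟩
      exact ⟨m + 1, fun n hn => hbi2 n m (by omega)⟩
    · exact ⟨0, fun n _ => map_zero _⟩
    · rintro a b _ _ ⟨N, hN⟩ ⟨M, hM⟩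
      refine ⟨max N M, fun n hn => ?_⟩
      rw [map_add, hN n ((le_max_left _ _).trans hn), hM n ((le_max_right _ _).trans hn), add_zero]
    · rintro c a _ ⟨N, hN⟩
      exact ⟨N, fun n hn => by rw [map_smul, hN n hn, smul_zero]⟩
  obtain ⟨N, hN⟩ := hfin
  refine ⟨N, fun n hn => ?_⟩
  rw [dist_zero_right]
  have h1 : f n z = f n (z - y) := by rw [map_sub, hN n hn, sub_zero]
  rw [h1]
  rw [dist_eq_norm] at hzy
  calc ‖f n (z - y)‖ ≤ ‖f n‖ * ‖z - y‖ := (f n).le_opNorm _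
    _ ≤ (D + 1) * ‖z - y‖ := mul_le_mul_of_nonneg_right (by linarith [hf n]) (norm_nonneg _)
    _ < (D + 1) * (ε / (D + 1)) := mul_lt_mul_of_pos_left hzy (by positivity)
    _ = ε := by field_simp

/-- The infinite codimensional case. -/
lemma main_inf [CompleteSpace E] [TopologicalSpace.SeparableSpace E] (x : ℕ → E)
    (f : ℕ → E →L[𝕜] 𝕜) {C D : ℝ} (hx : ∀ n, ‖x n‖ ≤ C) (hf : ∀ n, ‖f n‖ ≤ D)
    (hbi1 : ∀ n, f n (x n) = 1) (hbi2 : ∀ n m, n ≠ m → f n (x m) = 0)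
    (hinf : ¬ FiniteDimensional 𝕜 (E ⧸ (Submodule.span 𝕜 (Set.range x)).topologicalClosure)) :
    ∃ (ι : Type) (_ : Countable ι) (y : ι → E) (C D : ℝ) (g : ℕ ⊕ ι → (E →L[𝕜] 𝕜)),
        (∀ i j : ℕ ⊕ ι, (i = j → g i (Sum.elim x y j) = 1) ∧
            (i ≠ j → g i (Sum.elim x y j) = 0)) ∧
        (∀ i : ℕ ⊕ ι, ‖Sum.elim x y i‖ ≤ C ∧ ‖g i‖ ≤ D) ∧
        (Submodule.span 𝕜 (Set.range (Sum.elim x y))).topologicalClosure = ⊤ := by
  classical
  have hD : 0 ≤ D := (norm_nonneg _).trans (hf 0)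
  set H := (Submodule.span 𝕜 (Set.range x)).topologicalClosure with hH
  have hHc : IsClosed (H : Set E) := Submodule.isClosed_topologicalClosure _
  have hxH : ∀ n, x n ∈ H := fun n =>
    Submodule.le_topologicalClosure _ (Submodule.subset_span ⟨n, rfl⟩)
  obtain ⟨g, hg1, hg2, hg3⟩ := veech H f hD hf (null_on_span x f hD hf hbi2)
  obtain ⟨y, ψ, f', hy, hψ, hf', hf'H, hψH, hf'y, hψy1, hψy2⟩ :=
    good_vectors hHc hinf g (by positivity) hg1 hg3
  set D1 : ℝ := 2 * D + (2 + 8 * (2 * D)) * 4 with hD1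
  have hD1' : 4 ≤ D1 := by rw [hD1]; linarith
  let eqv : ℕ ⊕ ℕ ≃ ℕ := Equiv.natSumNatEquivNat
  let X : ℕ → E := fun k => Sum.elim x y (eqv.symm k)
  let F : ℕ → E →L[𝕜] 𝕜 := fun k => Sum.elim f' ψ (eqv.symm k)
  have hF : ∀ k, ‖F k‖ ≤ D1 := by
    intro k
    simp only [F]
    rcases eqv.symm k with n | n
    · exact hf' n
    · exact (hψ n).trans hD1'
  have hFX : ∀ a b : ℕ ⊕ ℕ, (Sum.elim f' ψ a : E →L[𝕜] 𝕜) (Sum.elim x y b) = if a = b then 1 else 0 := by
    rintro (a | a) (b | b)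
    · simp only [Sum.elim_inl]
      rw [hf'H _ _ (hxH b), hg2 _ _ (hxH b)]
      by_cases hab : a = b
      · subst hab; rw [hbi1, if_pos rfl]
      · rw [hbi2 a b hab, if_neg (by simpa using hab)]
    · simp only [Sum.elim_inl, Sum.elim_inr]
      rw [hf'y, if_neg (by simp)]
    · simp only [Sum.elim_inl, Sum.elim_inr]
      rw [hψH _ _ (hxH b), if_neg (by simp)]
    · simp only [Sum.elim_inr]
      by_cases hab : a = b
      · subst hab; rw [hψy1, if_pos rfl]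
      · rw [hψy2 a b hab, if_neg (by simpa using hab)]
  obtain ⟨ι, hι, v, ρ, G, hG, hGX1, hGX2, hGv, hρX, hρv1, hρv2, htop⟩ :=
    extend X F (by linarith) hF (fun k => by
      simp only [F, X]; rw [hFX, if_pos rfl]) (fun k l hkl => by
      simp only [F, X]
      rw [hFX, if_neg (fun h => hkl (eqv.symm.injective h))])
  set D2 : ℝ := 2 * D1 + 2 with hD2
  have hD2' : 8 ≤ D2 := by rw [hD2]; linarith
  obtain ⟨enc, henc⟩ := exists_injective_nat ι
  -- rows of good vectors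
  let κ : ℕ → ℕ → ℕ := fun q j => eqv (Sum.inr (Nat.pair q j))
  have hκ : ∀ q j q' j', κ q j = κ q' j' → q = q' ∧ j = j' := by
    intro q j q' j' h
    have h1 := eqv.injective h
    have h2 : Nat.pair q j = Nat.pair q' j' := by simpa using h1
    exact Nat.pair_eq_pair.1 h2
  have hXκ : ∀ q j, X (κ q j) = y (Nat.pair q j) := fun q j => by
    simp only [X, κ]; rw [Equiv.symm_apply_apply]; rfl
  let lx : ℕ → ℕ := fun n => eqv (Sum.inl n)
  have hXx : ∀ n, X (lx n) = x n := fun n => by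
    simp only [X, lx]; rw [Equiv.symm_apply_apply]; rfl
  have hlx : ∀ n m, lx n = lx m → n = m := fun n m h => by
    have := eqv.injective h
    simpa using this
  have hlκ : ∀ n q j, lx n ≠ κ q j := fun n q j h => by
    have := eqv.injective h
    simp at this
  let S : ℕ → Set E := fun q => {z | ∃ p, enc p = q ∧ v p = z} ∪ Set.range (fun j => X (κ q j))
  let S' : ℕ → Set (E →L[𝕜] 𝕜) := fun q =>
    {z | ∃ p, enc p = q ∧ ρ p = z} ∪ Set.range (fun j => G (κ q j))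
  have hnX : ∀ q j, ‖X (κ q j)‖ ≤ D2 := fun q j => by rw [hXκ]; exact (hy _).trans hD2'
  have hrow : ∀ q, ∃ (J : Type) (_ : Countable J) (e : J → E) (e' : J → E →L[𝕜] 𝕜),
      (∀ j, e j ∈ Submodule.span 𝕜 (S q)) ∧ (∀ j, e' j ∈ Submodule.span 𝕜 (S' q)) ∧
      (∀ j, e' j (e j) = 1) ∧ (∀ i j, i ≠ j → e' i (e j) = 0) ∧
      (∀ j, ‖e j‖ ≤ 1 + 3 * D2) ∧ (∀ j, ‖e' j‖ ≤ 1 + 3 * D2) ∧
      ∀ z ∈ S q, z ∈ Submodule.span 𝕜 (Set.range e) := by
    intro q
    by_cases hq : ∃ p, enc p = q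
    · obtain ⟨p, hp⟩ := hq
      obtain ⟨J, hJ, e, e', h1, h2, h3, h4, h5, h6, h7, h8⟩ :=
        row (C := D2) (by linarith) (v p) (ρ p) (fun j => X (κ q j)) (fun j => G (κ q j))
          (hnX q) (fun j => hG _) (hρv1 p) (fun j => hρX _ _) (fun j => hGv _ _)
          (fun j => hGX1 _) (fun i j hij => hGX2 _ _ (fun h => hij (hκ _ _ _ _ h).2))
      refine ⟨J, hJ, e, e', fun j => ?_, fun j => ?_, h3, h4, h5, h6, ?_⟩
      · refine Submodule.span_mono ?_ (h1 j)
        rintro z (rfl | ⟨j, rfl⟩)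
        · exact Or.inl ⟨p, hp, rfl⟩
        · exact Or.inr ⟨j, rfl⟩
      · refine Submodule.span_mono ?_ (h2 j)
        rintro z (rfl | ⟨j, rfl⟩)
        · exact Or.inl ⟨p, hp, rfl⟩
        · exact Or.inr ⟨j, rfl⟩
      · rintro z (⟨p', hp', rfl⟩ | ⟨j, rfl⟩)
        · have : p' = p := henc (hp'.trans hp.symm)
          rw [this]; exact h7
        · exact h8 j
    · refine ⟨ℕ, inferInstance, fun j => X (κ q j), fun j => G (κ q j), fun j =>
        Submodule.subset_span (Or.inr ⟨j, rfl⟩), fun j => Submodule.subset_span (Or.inr ⟨j, rfl⟩),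
        fun j => hGX1 _, fun i j hij => hGX2 _ _ (fun h => hij (hκ _ _ _ _ h).2), fun j => ?_,
        fun j => ?_, ?_⟩
      · exact (hnX q j).trans (by linarith)
      · exact (hG _).trans (by linarith)
      · rintro z (⟨p', hp', rfl⟩ | ⟨j, rfl⟩)
        · exact absurd ⟨p', hp'⟩ hq
        · exact Submodule.subset_span ⟨j, rfl⟩
  choose J hJ e e' h1 h2 h3 h4 h5 h6 h7 using hrow
  -- cross vanishing
  have hcross0 : ∀ q q', q ≠ q' → ∀ φ ∈ S' q, ∀ z ∈ S q', φ z = 0 := by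
    rintro q q' hqq φ (⟨p, hp, rfl⟩ | ⟨j, rfl⟩) z (⟨p', hp', rfl⟩ | ⟨j', rfl⟩)
    · refine hρv2 p p' ?_
      rintro rfl
      exact hqq (hp.symm.trans hp')
    · exact hρX _ _
    · exact hGv _ _
    · exact hGX2 _ _ (fun h => hqq (hκ _ _ _ _ h).1)
  have hspan2 : ∀ (A : Set (E →L[𝕜] 𝕜)) (B : Set E), (∀ φ ∈ A, ∀ z ∈ B, φ z = 0) →
      ∀ φ ∈ Submodule.span 𝕜 A, ∀ z ∈ Submodule.span 𝕜 B, φ z = 0 := by
    intro A B hAB φ hφ z hz
    have step1 : ∀ φ ∈ A, ∀ z ∈ Submodule.span 𝕜 B, φ z = 0 := by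
      intro φ hφ z hz
      refine Submodule.span_induction (p := fun z _ => φ z = 0) ?_ ?_ ?_ ?_ hz
      · intro z hz; exact hAB φ hφ z hz
      · exact map_zero _
      · intro a b _ _ ha hb; rw [map_add, ha, hb, add_zero]
      · intro c a _ ha; rw [map_smul, ha, smul_zero]
    refine Submodule.span_induction (p := fun φ _ => φ z = 0) ?_ ?_ ?_ ?_ hφ
    · intro φ hφ; exact step1 φ hφ z hz
    · rfl
    · intro a b _ _ ha hb; rw [_root_.add_apply, ha, hb, add_zero]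
    · intro c a _ ha; rw [_root_.smul_apply, ha, smul_zero]
  have hcross : ∀ q q', q ≠ q' → ∀ (j : J q) (j' : J q'), e' q j (e q' j') = 0 := by
    intro q q' hqq j j'
    exact hspan2 _ _ (hcross0 q q' hqq) _ (h2 q j) _ (h1 q' j')
  have hGe : ∀ n q (j : J q), G (lx n) (e q j) = 0 := by
    intro n q j
    refine hspan2 {G (lx n)} (S q) ?_ _ (Submodule.subset_span rfl) _ (h1 q j)
    rintro φ rfl z (⟨p', hp', rfl⟩ | ⟨j', rfl⟩)
    · exact hGv _ _
    · exact hGX2 _ _ (hlκ _ _ _)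
  have hex : ∀ n q (j : J q), e' q j (x n) = 0 := by
    intro n q j
    refine hspan2 (S' q) {x n} ?_ _ (h2 q j) _ (Submodule.subset_span rfl)
    rintro φ (⟨p', hp', rfl⟩ | ⟨j', rfl⟩) z rfl
    · rw [← hXx]; exact hρX _ _
    · rw [← hXx]; exact hGX2 _ _ (hlκ _ _ _).symm
  refine ⟨(Σ q, J q), inferInstance, fun s => e s.1 s.2, max C (1 + 3 * D2), 1 + 3 * D2,
    Sum.elim (fun n => G (lx n)) (fun s => e' s.1 s.2), ?_, ?_, ?_⟩
  · rintro (n | ⟨q, j⟩) (m | ⟨q', j'⟩)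
    · constructor
      · intro h
        have : n = m := by simpa using h
        subst this
        simp only [Sum.elim_inl]
        rw [← hXx]; exact hGX1 _
      · intro h
        simp only [Sum.elim_inl]
        rw [← hXx]
        exact hGX2 _ _ (fun h' => h (by rw [hlx _ _ h']))
    · constructor
      · intro h; simp at h
      · intro _; exact hGe n q' j'
    · constructor
      · intro h; simp at h
      · intro _; exact hex m q j
    · constructor
      · intro h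
        have h' : (⟨q, j⟩ : Σ q, J q) = ⟨q', j'⟩ := by simpa using h
        cases h'
        exact h3 q j
      · intro h
        by_cases hqq : q = q'
        · subst hqq
          refine h4 q j j' fun hjj => h ?_
          rw [hjj]
        · exact hcross q q' hqq j j'
  · rintro (n | ⟨q, j⟩)
    · exact ⟨(hx n).trans (le_max_left _ _), (hG _).trans (by linarith)⟩
    · exact ⟨(h5 q j).trans (le_max_right _ _), h6 q j⟩
  · rw [eq_top_iff, ← htop]
    refine Submodule.topologicalClosure_mono (sup_le ?_ ?_)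
    · rw [Submodule.span_le]
      rintro _ ⟨k, rfl⟩
      obtain ⟨a, rfl⟩ := eqv.surjective k
      rcases a with n | n
      · change X (lx n) ∈ _
        rw [hXx]
        exact Submodule.subset_span ⟨Sum.inl n, rfl⟩
      · have h8 : eqv (Sum.inr n) = κ n.unpair.1 n.unpair.2 := by
          simp only [κ, Nat.pair_unpair]
        rw [h8]
        refine Submodule.span_mono ?_ (h7 n.unpair.1 _ (Or.inr ⟨n.unpair.2, rfl⟩))
        rintro _ ⟨j, rfl⟩
        exact ⟨Sum.inr ⟨_, j⟩, rfl⟩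
    · rw [Submodule.span_le]
      rintro _ ⟨p, rfl⟩
      refine Submodule.span_mono ?_ (h7 (enc p) _ (Or.inl ⟨p, rfl, rfl⟩))
      rintro _ ⟨j, rfl⟩
      exact ⟨Sum.inr ⟨_, j⟩, rfl⟩

end Pool.Agent.H590R3.Ext
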