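import Pool.Agent.H590R3.Ext7

set_option autoImplicit false

namespace Pool.Agent.H590R3.Ext

open Filter Topology

variable {𝕜 : Type} [RCLike 𝕜] {E : Type} [NormedAddCommGroup E] [NormedSpace 𝕜 E]

/-- The finite codimensional case. -/
lemma main_fin [CompleteSpace E] [TopologicalSpace.SeparableSpace E] (x : ℕ → E)
    (f : ℕ → E →L[𝕜] 𝕜) {C D : ℝ} (hx : ∀ n, ‖x n‖ ≤ C) (hf : ∀ n, ‖f n‖ ≤ D)
    (hbi1 : ∀ n, f n (x n) = 1) (hbi2 : ∀ n m, n ≠ m → f n (x m) = 0)
    (hfin : FiniteDimensional 𝕜 (E ⧸ (Submodule.span 𝕜 (Set.range x)).topologicalClosure)) :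
    ∃ (ι : Type) (_ : Countable ι) (y : ι → E) (C D : ℝ) (g : ℕ ⊕ ι → (E →L[𝕜] 𝕜)),
        (∀ i j : ℕ ⊕ ι, (i = j → g i (Sum.elim x y j) = 1) ∧
            (i ≠ j → g i (Sum.elim x y j) = 0)) ∧
        (∀ i : ℕ ⊕ ι, ‖Sum.elim x y i‖ ≤ C ∧ ‖g i‖ ≤ D) ∧
        (Submodule.span 𝕜 (Set.range (Sum.elim x y))).topologicalClosure = ⊤ := by
  classical
  have hD : 0 ≤ D := (norm_nonneg _).trans (hf 0)
  set H := (Submodule.span 𝕜 (Set.range x)).topologicalClosure with hH
  obtain ⟨ι, hι, v, ρ, G, hG, hGX1, hGX2, hGv, hρX, hρv1, hρv2, htop⟩ :=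
    extend x f hD hf hbi1 hbi2
  have hρH : ∀ p, ∀ z ∈ H, ρ p z = 0 := by
    intro p z hz
    have h1 : H ≤ LinearMap.ker (ρ p : E →ₗ[𝕜] 𝕜) := by
      refine Submodule.topologicalClosure_minimal _ ?_ (ContinuousLinearMap.isClosed_ker (ρ p))
      rw [Submodule.span_le]
      rintro _ ⟨n, rfl⟩
      exact hρX p n
    exact h1 hz
  have hli : LinearIndependent 𝕜 (fun p => H.mkQ (v p)) := by
    rw [linearIndependent_iff']
    intro s c hc p hp
    have h1 : H.mkQ (∑ i ∈ s, c i • v i) = 0 := by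
      rw [map_sum, ← hc]
      exact Finset.sum_congr rfl fun i _ => map_smul _ _ _
    have h2 : ∑ i ∈ s, c i • v i ∈ H := (Submodule.Quotient.mk_eq_zero H).1 h1
    have h3 := hρH p _ h2
    rw [map_sum, Finset.sum_eq_single p] at h3
    · rw [map_smul, hρv1, smul_eq_mul, mul_one] at h3
      exact h3
    · intro q _ hq
      rw [map_smul, hρv2 p q hq.symm, smul_zero]
    · intro h; exact absurd hp h
  have hιf : Finite ι := hli.finite_of_isNoetherian
  obtain ⟨B1, hB1⟩ := (Set.finite_range (fun p => ‖v p‖)).bddAbove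
  obtain ⟨B2, hB2⟩ := (Set.finite_range (fun p => ‖ρ p‖)).bddAbove
  refine ⟨ι, hι, v, max C B1, max (2 * D + 2) B2, Sum.elim G ρ, ?_, ?_, ?_⟩
  · rintro (n | p) (m | q)
    · constructor
      · intro h
        have : n = m := by simpa using h
        subst this
        exact hGX1 n
      · intro h
        exact hGX2 n m (fun h' => h (by rw [h']))
    · constructor
      · intro h; simp at h
      · intro _; exact hGv n q
    · constructor
      · intro h; simp at h
      · intro _; exact hρX p m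
    · constructor
      · intro h
        have : p = q := by simpa using h
        subst this
        exact hρv1 p
      · intro h
        exact hρv2 p q (fun h' => h (by rw [h']))
  · rintro (n | p)
    · exact ⟨(hx n).trans (le_max_left _ _), (hG n).trans (le_max_left _ _)⟩
    · exact ⟨(hB1 ⟨p, rfl⟩).trans (le_max_right _ _), (hB2 ⟨p, rfl⟩).trans (le_max_right _ _)⟩
  · rw [eq_top_iff, ← htop]
    refine Submodule.topologicalClosure_mono (sup_le ?_ ?_)
    · refine Submodule.span_mono ?_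
      rintro _ ⟨n, rfl⟩
      exact ⟨Sum.inl n, rfl⟩
    · refine Submodule.span_mono ?_
      rintro _ ⟨n, rfl⟩
      exact ⟨Sum.inr n, rfl⟩

end Pool.Agent.H590R3.Ext
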