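import Mathlib

set_option autoImplicit false

/-! # Nuclear operators attaining their nuclear norm: definitions and plan (MP_91e127_an)

Plan.  `D` = Davie's space, `E n` its finite dimensional pieces, `(f_i), (y_i)` a trace certificate.
`Y` = sequences `v` in `C₀(ℕ, D)` with `v 0 + v (n+1) ∈ E n`: it is isometric to a subspace of `c_0`,
has the bounded approximation property, and carries a certificate `(F_i), (ζ_i)`.
-/

namespace Pool.Agent.H590R3.Nuc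

open Filter Topology

section defs

variable {X Y : Type} [NormedAddCommGroup X] [NormedSpace ℝ X] [NormedAddCommGroup Y]
  [NormedSpace ℝ Y]

/-- `(xs n), (ys n)` is a nuclear representation of `T`. -/
def IsRep (T : X →L[ℝ] Y) (xs : ℕ → (X →L[ℝ] ℝ)) (ys : ℕ → Y) : Prop :=
  Summable (fun n => ‖xs n‖ * ‖ys n‖) ∧ ∀ x, HasSum (fun n => xs n x • ys n) (T x)

/-- `T` is nuclear. -/
def IsNuclear (T : X →L[ℝ] Y) : Prop := ∃ xs ys, IsRep T xs ys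

/-- the nuclear norm: infimum of `∑ ‖xs n‖ ‖ys n‖` over all nuclear representations. -/
noncomputable def nucNorm (T : X →L[ℝ] Y) : ℝ :=
  sInf {c : ℝ | ∃ xs ys, IsRep T xs ys ∧ c = ∑' n, ‖xs n‖ * ‖ys n‖}

/-- `T` attains its nuclear norm. -/
def Attains (T : X →L[ℝ] Y) : Prop :=
  ∃ xs ys, IsRep T xs ys ∧ nucNorm T = ∑' n, ‖xs n‖ * ‖ys n‖

variable (X Y) in
/-- the nuclear norm attaining operators are dense in the nuclear operators (in nuclear norm) -/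
def NADense : Prop :=
  ∀ T : X →L[ℝ] Y, IsNuclear T → ∀ ε > 0, ∃ S : X →L[ℝ] Y, Attains S ∧ nucNorm (T - S) < ε

end defs

section data

variable {Y : Type} [NormedAddCommGroup Y] [NormedSpace ℝ Y]

/-- the `e n` are the coordinates of an isometric embedding of `Y` in `c_0` -/
structure IsCoord (e : ℕ → (Y →L[ℝ] ℝ)) : Prop where
  le : ∀ n y, |e n y| ≤ ‖y‖
  norm_le : ∀ y c, 0 ≤ c → (∀ n, |e n y| ≤ c) → ‖y‖ ≤ c
  tendsto : ∀ y, Tendsto (fun n => e n y) atTop (𝓝 0)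

/-- bounded approximation property -/
structure IsBAP (S : ℕ → (Y →L[ℝ] Y)) : Prop where
  norm_le : ∀ m, ‖S m‖ ≤ 2
  fin : ∀ m, FiniteDimensional ℝ (LinearMap.range (S m : Y →ₗ[ℝ] Y))
  tendsto : ∀ y, Tendsto (fun m => S m y) atTop (𝓝 y)

/-- the certificate in the bidual -/
structure IsCert {ι : Type} (F : ι → (Y →L[ℝ] ℝ)) (ζ : ι → ((Y →L[ℝ] ℝ) →L[ℝ] ℝ)) : Prop where
  summable : Summable fun i => ‖F i‖ * ‖ζ i‖
  trace : HasSum (fun i => ζ i (F i)) 1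
  zero : ∀ (φ : Y →L[ℝ] ℝ) (y : Y), HasSum (fun i => ζ i φ * F i y) 0

/-- Davie data on a space `D` -/
structure IsDav {D : Type} [NormedAddCommGroup D] [NormedSpace ℝ D] (e : ℕ → (D →L[ℝ] ℝ))
    (E : ℕ → Submodule ℝ D) {ι : Type} (f : ι → (D →L[ℝ] ℝ)) (y : ι → D) : Prop where
  coord : IsCoord e
  mono : Monotone E
  fin : ∀ n, FiniteDimensional ℝ (E n)
  summable : Summable fun i => ‖f i‖ * ‖y i‖
  trace : HasSum (fun i => f i (y i)) 1
  zero : ∀ (g : D →L[ℝ] ℝ) (w : D), HasSum (fun i => g (y i) * f i w) 0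
  mem : ∀ i, ∃ n, y i ∈ E n

end data

/-- TASK 1: Davie's space provides Davie data. -/
def TaskDavie : Prop :=
  ∃ (D : Type) (_ : NormedAddCommGroup D) (_ : NormedSpace ℝ D) (_ : CompleteSpace D)
    (e : ℕ → (D →L[ℝ] ℝ)) (E : ℕ → Submodule ℝ D) (ι : Type) (f : ι → (D →L[ℝ] ℝ)) (y : ι → D),
    IsDav e E f y

open ZeroAtInfty in
/-- the space `Y`: `v 0 = w` is the limit, `v (n+1) = x_n - w`, with `x_n ∈ E n`. -/
def YY {D : Type} [NormedAddCommGroup D] [NormedSpace ℝ D] (E : ℕ → Submodule ℝ D) :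
    Submodule ℝ C₀(ℕ, D) where
  carrier := {v | ∀ n, v 0 + v (n + 1) ∈ E n}
  add_mem' := by
    intro u v hu hv n
    have := (E n).add_mem (hu n) (hv n)
    rw [ZeroAtInftyContinuousMap.add_apply, ZeroAtInftyContinuousMap.add_apply]
    convert this using 1
    abel
  zero_mem' := by
    intro n
    rw [ZeroAtInftyContinuousMap.zero_apply, ZeroAtInftyContinuousMap.zero_apply, add_zero]
    exact (E n).zero_mem
  smul_mem' := by
    intro c u hu n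
    rw [ZeroAtInftyContinuousMap.smul_apply, ZeroAtInftyContinuousMap.smul_apply, ← smul_add]
    exact (E n).smul_mem c (hu n)

/-- TASK 2a: completeness, coordinates, BAP for `YY E` -/
def TaskYa : Prop :=
  ∀ (D : Type) [NormedAddCommGroup D] [NormedSpace ℝ D] [CompleteSpace D]
    (e : ℕ → (D →L[ℝ] ℝ)) (E : ℕ → Submodule ℝ D), IsCoord e → Monotone E →
    (∀ n, FiniteDimensional ℝ (E n)) →
    CompleteSpace (YY E) ∧ (∃ e' : ℕ → (YY E →L[ℝ] ℝ), IsCoord e') ∧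
      ∃ S : ℕ → (YY E →L[ℝ] YY E), IsBAP S

/-- TASK 2b: the certificate for `YY E` -/
def TaskYb : Prop :=
  ∀ (D : Type) [NormedAddCommGroup D] [NormedSpace ℝ D] [CompleteSpace D]
    (e : ℕ → (D →L[ℝ] ℝ)) (E : ℕ → Submodule ℝ D) (ι : Type) (f : ι → (D →L[ℝ] ℝ)) (y : ι → D),
    IsDav e E f y →
    ∃ (F : ι → (YY E →L[ℝ] ℝ)) (ζ : ι → ((YY E →L[ℝ] ℝ) →L[ℝ] ℝ)), IsCert F ζ

/-- TASK 3a: functionals on a subspace of `c_0` are given by `ℓ¹` sequences -/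
def TaskL1 : Prop :=
  ∀ (Y : Type) [NormedAddCommGroup Y] [NormedSpace ℝ Y] (e : ℕ → (Y →L[ℝ] ℝ)), IsCoord e →
    ∀ f : Y →L[ℝ] ℝ, ∃ a : ℕ → ℝ, Summable (fun n => |a n|) ∧ ∑' n, |a n| ≤ ‖f‖ ∧
      ∀ y, HasSum (fun n => a n * e n y) (f y)

/-- TASK 3b: the Kadec-Klee type property of the dual of a subspace of `c_0` -/
def TaskKK : Prop :=
  ∀ (Y : Type) [NormedAddCommGroup Y] [NormedSpace ℝ Y] (e : ℕ → (Y →L[ℝ] ℝ)), IsCoord e →
    (∀ f : Y →L[ℝ] ℝ, ∃ a : ℕ → ℝ, Summable (fun n => |a n|) ∧ ∑' n, |a n| ≤ ‖f‖ ∧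
      ∀ y, HasSum (fun n => a n * e n y) (f y)) →
    ∀ (α : Type) (U : Ultrafilter α) (g : α → (Y →L[ℝ] ℝ)) (f : Y →L[ℝ] ℝ) (c : ℝ),
      (∀ i, ‖g i‖ ≤ c) → (∀ y, Tendsto (fun i => g i y) U (𝓝 (f y))) →
      ∀ ε > 0, ∀ᶠ i in (U : Filter α), ‖g i - f‖ ≤ c - ‖f‖ + ε

/-- MAIN (helper590): the abstract theorem -/
def TaskMain : Prop :=
  ∀ (Y : Type) [NormedAddCommGroup Y] [NormedSpace ℝ Y] [CompleteSpace Y]
    (e : ℕ → (Y →L[ℝ] ℝ)) (S : ℕ → (Y →L[ℝ] Y)) (ι : Type) (F : ι → (Y →L[ℝ] ℝ))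
    (ζ : ι → ((Y →L[ℝ] ℝ) →L[ℝ] ℝ)), IsCoord e → IsBAP S → IsCert F ζ →
    ∃ (X : Type) (_ : NormedAddCommGroup X) (_ : NormedSpace ℝ X) (_ : CompleteSpace X),
      ¬ NADense X Y

/-- the goal -/
def Goal : Prop :=
  ∃ (X : Type) (_ : NormedAddCommGroup X) (_ : NormedSpace ℝ X) (_ : CompleteSpace X)
    (Y : Type) (_ : NormedAddCommGroup Y) (_ : NormedSpace ℝ Y) (_ : CompleteSpace Y),
    ¬ NADense X Y

theorem assemble (h1 : TaskDavie) (h2a : TaskYa) (h2b : TaskYb) (hm : TaskMain) : Goal := by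
  obtain ⟨D, i1, i2, i3, e, E, ι, f, y, hD⟩ := h1
  obtain ⟨hc, ⟨e', he'⟩, S, hS⟩ := h2a D e E hD.coord hD.mono hD.fin
  obtain ⟨F, ζ, hF⟩ := h2b D e E ι f y hD
  obtain ⟨X, j1, j2, j3, hX⟩ := hm (YY E) e' S ι F ζ he' hS hF
  exact ⟨X, j1, j2, j3, YY E, inferInstance, inferInstance, hc, hX⟩

end Pool.Agent.H590R3.Nuc
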