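import Mathlib

set_option autoImplicit false

namespace Pool.Agent.H590R3.PropA

open Filter Topology

variable (𝕜 : Type) [RCLike 𝕜] (Z : Type) [NormedAddCommGroup Z] [NormedSpace 𝕜 Z]

/-- the unit sphere as an index type -/
abbrev Gam : Type := Metric.sphere (0 : Z) 1

noncomputable instance : DecidableEq (Gam Z) := Classical.decEq _

/-- the product space -/
abbrev Pr : Type := Z × lp (fun _ : Gam Z => 𝕜) 1

variable {Z} in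
/-- the points `(d, e_d)` and `(d, - e_d)` -/
noncomputable def pt (d : Gam Z) (s : Bool) : Pr 𝕜 Z :=
  ((d : Z), lp.single 1 d (if s then (1 : 𝕜) else -1))

/-- the polar of the set of points -/
def V : Set (Pr 𝕜 Z →L[𝕜] 𝕜) := {φ | ∀ d s, ‖φ (pt 𝕜 d s)‖ ≤ 1}

variable {𝕜 Z}

lemma V_fst {φ : Pr 𝕜 Z →L[𝕜] 𝕜} (hφ : φ ∈ V 𝕜 Z) (z : Z) : ‖φ (z, 0)‖ ≤ ‖z‖ := by
  by_cases hz : z = 0
  · subst hz
    have : ((0 : Z), (0 : lp (fun _ : Gam Z => 𝕜) 1)) = (0 : Pr 𝕜 Z) := rfl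
    rw [this, map_zero, norm_zero, norm_zero]
  · have hz' : ‖z‖ ≠ 0 := norm_ne_zero_iff.2 hz
    let d : Gam Z := ⟨((‖z‖⁻¹ : ℝ) : 𝕜) • z, by
      rw [mem_sphere_zero_iff_norm, norm_smul, RCLike.norm_ofReal, abs_of_nonneg (by positivity)]
      exact inv_mul_cancel₀ hz'⟩
    have h1 : ((z, 0) : Pr 𝕜 Z) = (((‖z‖ / 2 : ℝ)) : 𝕜) • (pt 𝕜 d true + pt 𝕜 d false) := by
      refine Prod.ext ?_ ?_
      · simp only [pt, Prod.smul_fst, Prod.fst_add]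
        change z = ((‖z‖ / 2 : ℝ) : 𝕜) • (((‖z‖⁻¹ : ℝ) : 𝕜) • z + ((‖z‖⁻¹ : ℝ) : 𝕜) • z)
        rw [← two_smul 𝕜, smul_smul, smul_smul]
        have : (((‖z‖ / 2 : ℝ) : 𝕜) * 2 * ((‖z‖⁻¹ : ℝ) : 𝕜)) = 1 := by
          rw [mul_assoc, show (2 : 𝕜) = ((2 : ℝ) : 𝕜) by push_cast; rfl, ← RCLike.ofReal_mul,
            ← RCLike.ofReal_mul, show ‖z‖ / 2 * (2 * ‖z‖⁻¹) = 1 by field_simp, RCLike.ofReal_one]
        rw [this, one_smul]
      · simp only [pt, Prod.smul_snd, Prod.snd_add, if_true, Bool.false_eq_true, if_false]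
        rw [← lp.single_add, add_neg_cancel, lp.single_zero, smul_zero]
    rw [h1, map_smul, map_add, norm_smul, RCLike.norm_ofReal, abs_of_nonneg (by positivity)]
    have h2 := norm_add_le (φ (pt 𝕜 d true)) (φ (pt 𝕜 d false))
    have h3 := hφ d true
    have h4 := hφ d false
    have h5 : ‖φ (pt 𝕜 d true) + φ (pt 𝕜 d false)‖ ≤ 2 := by linarith
    calc ‖z‖ / 2 * ‖φ (pt 𝕜 d true) + φ (pt 𝕜 d false)‖ ≤ ‖z‖ / 2 * 2 :=
          mul_le_mul_of_nonneg_left h5 (by positivity)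
      _ = ‖z‖ := by ring

lemma V_single {φ : Pr 𝕜 Z →L[𝕜] 𝕜} (hφ : φ ∈ V 𝕜 Z) (d : Gam Z) (c : 𝕜) :
    ‖φ (0, lp.single 1 d c)‖ ≤ ‖c‖ := by
  have h1 : ((0, lp.single 1 d c) : Pr 𝕜 Z) = (c / 2) • (pt 𝕜 d true - pt 𝕜 d false) := by
    refine Prod.ext ?_ ?_
    · simp only [pt, Prod.smul_fst, Prod.fst_sub, sub_self, smul_zero]
    · simp only [pt, Prod.smul_snd, Prod.snd_sub, if_true, Bool.false_eq_true, if_false]
      rw [← lp.single_sub, ← lp.single_smul]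
      congr 1
      rw [smul_eq_mul]; ring
  rw [h1, map_smul, map_sub, norm_smul, norm_div]
  have h2 := norm_sub_le (φ (pt 𝕜 d true)) (φ (pt 𝕜 d false))
  have h3 := hφ d true
  have h4 := hφ d false
  have h5 : ‖φ (pt 𝕜 d true) - φ (pt 𝕜 d false)‖ ≤ 2 := by linarith
  rw [RCLike.norm_ofNat]
  calc ‖c‖ / 2 * ‖φ (pt 𝕜 d true) - φ (pt 𝕜 d false)‖ ≤ ‖c‖ / 2 * 2 :=
        mul_le_mul_of_nonneg_left h5 (by positivity)
    _ = ‖c‖ := by ring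

lemma V_snd {φ : Pr 𝕜 Z →L[𝕜] 𝕜} (hφ : φ ∈ V 𝕜 Z) (w : lp (fun _ : Gam Z => 𝕜) 1) :
    ‖φ (0, w)‖ ≤ ‖w‖ := by
  have h1 : HasSum (fun d => lp.single 1 d (w d)) w := lp.hasSum_single (by simp) w
  let ι : lp (fun _ : Gam Z => 𝕜) 1 →L[𝕜] 𝕜 := φ.comp (ContinuousLinearMap.inr 𝕜 Z _)
  have h2 : HasSum (fun d => ι (lp.single 1 d (w d))) (ι w) := ι.hasSum h1
  have h3 : HasSum (fun d => ‖w d‖) ‖w‖ := by
    have := lp.hasSum_norm (p := 1) (by simp) w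
    simpa using this
  have h4 : ‖ι w‖ ≤ ‖w‖ := h2.norm_le_of_bounded h3 (fun d => V_single hφ d (w d))
  exact h4

lemma V_bound {φ : Pr 𝕜 Z →L[𝕜] 𝕜} (hφ : φ ∈ V 𝕜 Z) (u : Pr 𝕜 Z) :
    ‖φ u‖ ≤ ‖u.1‖ + ‖u.2‖ := by
  have h1 : u = (u.1, 0) + (0, u.2) := by
    refine Prod.ext ?_ ?_ <;> simp
  rw [h1, map_add]
  refine (norm_add_le _ _).trans ?_
  refine add_le_add ?_ ?_
  · simpa using V_fst hφ u.1
  · simpa using V_snd hφ u.2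

end Pool.Agent.H590R3.PropA
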