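import Pool.Agent.H590R3.PropA1

set_option autoImplicit false

namespace Pool.Agent.H590R3.PropA

open Filter Topology

variable (𝕜 : Type) [RCLike 𝕜] (Z : Type) [NormedAddCommGroup Z] [NormedSpace 𝕜 Z]

/-- The renormed product space. -/
def XX : Type := Z × lp (fun _ : Gam Z => 𝕜) 1

noncomputable instance : AddCommGroup (XX 𝕜 Z) :=
  inferInstanceAs (AddCommGroup (Z × lp (fun _ : Gam Z => 𝕜) 1))

noncomputable instance : Module 𝕜 (XX 𝕜 Z) :=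
  inferInstanceAs (Module 𝕜 (Z × lp (fun _ : Gam Z => 𝕜) 1))

/-- the identity as a linear map -/
noncomputable def toPr : XX 𝕜 Z ≃ₗ[𝕜] Pr 𝕜 Z := LinearEquiv.refl 𝕜 (Z × lp (fun _ : Gam Z => 𝕜) 1)

lemma Lam_mem (u : XX 𝕜 Z) : Memℓp (fun φ : V 𝕜 Z => φ.1 (toPr 𝕜 Z u)) (⊤ : ENNReal) :=
  memℓp_infty ⟨‖(toPr 𝕜 Z u).1‖ + ‖(toPr 𝕜 Z u).2‖, by
    rintro _ ⟨φ, rfl⟩
    exact V_bound φ.2 _⟩

/-- evaluation map -/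
noncomputable def Lam : XX 𝕜 Z →ₗ[𝕜] lp (fun _ : V 𝕜 Z => 𝕜) ⊤ where
  toFun u := ⟨fun φ => φ.1 (toPr 𝕜 Z u), Lam_mem 𝕜 Z u⟩
  map_add' u v := by
    ext φ
    change φ.1 (toPr 𝕜 Z (u + v)) = φ.1 (toPr 𝕜 Z u) + φ.1 (toPr 𝕜 Z v)
    rw [map_add, map_add]
  map_smul' c u := by
    ext φ
    change φ.1 (toPr 𝕜 Z (c • u)) = c • φ.1 (toPr 𝕜 Z u)
    rw [map_smul, map_smul]

variable {𝕜 Z}

lemma mem_V_of_norm {f : Z →L[𝕜] 𝕜} (hf : ‖f‖ ≤ 1) :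
    f.comp (ContinuousLinearMap.fst 𝕜 Z (lp (fun _ : Gam Z => 𝕜) 1)) ∈ V 𝕜 Z := by
  intro d s
  change ‖f (d : Z)‖ ≤ 1
  refine (f.le_opNorm _).trans ?_
  rw [mem_sphere_zero_iff_norm.1 d.2, mul_one]
  exact hf

lemma mem_V_of_norm_snd {g : lp (fun _ : Gam Z => 𝕜) 1 →L[𝕜] 𝕜} (hg : ‖g‖ ≤ 1) :
    g.comp (ContinuousLinearMap.snd 𝕜 Z (lp (fun _ : Gam Z => 𝕜) 1)) ∈ V 𝕜 Z := by
  intro d s
  change ‖g (lp.single 1 d (if s then (1 : 𝕜) else -1))‖ ≤ 1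
  refine (g.le_opNorm _).trans ?_
  rw [lp.norm_single (by norm_num)]
  have : ‖(if s then (1 : 𝕜) else -1)‖ = 1 := by cases s <;> simp
  rw [this, mul_one]
  exact hg

lemma norm_fst_le_Lam (u : XX 𝕜 Z) : ‖(toPr 𝕜 Z u).1‖ ≤ ‖Lam 𝕜 Z u‖ := by
  obtain ⟨f, hf, hfu⟩ := exists_dual_vector'' 𝕜 (toPr 𝕜 Z u).1
  have h1 := lp.norm_apply_le_norm (by simp) (Lam 𝕜 Z u) ⟨_, mem_V_of_norm (𝕜 := 𝕜) hf⟩
  refine le_trans (le_of_eq ?_) h1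
  change _ = ‖f (toPr 𝕜 Z u).1‖
  rw [hfu, RCLike.norm_ofReal, abs_norm]

lemma norm_snd_le_Lam (u : XX 𝕜 Z) : ‖(toPr 𝕜 Z u).2‖ ≤ ‖Lam 𝕜 Z u‖ := by
  obtain ⟨f, hf, hfu⟩ := exists_dual_vector'' 𝕜 (toPr 𝕜 Z u).2
  have h1 := lp.norm_apply_le_norm (by simp) (Lam 𝕜 Z u) ⟨_, mem_V_of_norm_snd (𝕜 := 𝕜) hf⟩
  refine le_trans (le_of_eq ?_) h1
  change _ = ‖f (toPr 𝕜 Z u).2‖
  rw [hfu, RCLike.norm_ofReal, abs_norm]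

variable (𝕜 Z) in
lemma Lam_injective : Function.Injective (Lam 𝕜 Z) := by
  rw [← LinearMap.ker_eq_bot, LinearMap.ker_eq_bot']
  intro u hu
  have h1 := norm_fst_le_Lam u
  have h2 := norm_snd_le_Lam u
  rw [hu, norm_zero] at h1 h2
  have h3 : (toPr 𝕜 Z u).1 = 0 := norm_le_zero_iff.1 h1
  have h4 : (toPr 𝕜 Z u).2 = 0 := norm_le_zero_iff.1 h2
  exact Prod.ext h3 h4

noncomputable instance : NormedAddCommGroup (XX 𝕜 Z) :=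
  NormedAddCommGroup.induced (XX 𝕜 Z) (lp (fun _ : V 𝕜 Z => 𝕜) ⊤) (Lam 𝕜 Z) (Lam_injective 𝕜 Z)

noncomputable instance : NormedSpace 𝕜 (XX 𝕜 Z) where
  norm_smul_le c u := by
    change ‖Lam 𝕜 Z (c • u)‖ ≤ ‖c‖ * ‖Lam 𝕜 Z u‖
    rw [map_smul]
    exact norm_smul_le _ _

lemma norm_def (u : XX 𝕜 Z) : ‖u‖ = ‖Lam 𝕜 Z u‖ := rfl

lemma V_le_norm {φ : Pr 𝕜 Z →L[𝕜] 𝕜} (hφ : φ ∈ V 𝕜 Z) (u : XX 𝕜 Z) :
    ‖φ (toPr 𝕜 Z u)‖ ≤ ‖u‖ :=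
  lp.norm_apply_le_norm (by simp) (Lam 𝕜 Z u) ⟨φ, hφ⟩

lemma norm_le_of_V {u : XX 𝕜 Z} {C : ℝ} (hC : 0 ≤ C)
    (h : ∀ φ : Pr 𝕜 Z →L[𝕜] 𝕜, φ ∈ V 𝕜 Z → ‖φ (toPr 𝕜 Z u)‖ ≤ C) : ‖u‖ ≤ C :=
  lp.norm_le_of_forall_le hC fun φ => h φ.1 φ.2

lemma norm_le_sum (u : XX 𝕜 Z) : ‖u‖ ≤ ‖(toPr 𝕜 Z u).1‖ + ‖(toPr 𝕜 Z u).2‖ :=
  norm_le_of_V (by positivity) fun _ hφ => V_bound hφ _

lemma norm_fst_le (u : XX 𝕜 Z) : ‖(toPr 𝕜 Z u).1‖ ≤ ‖u‖ := norm_fst_le_Lam u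

lemma norm_snd_le (u : XX 𝕜 Z) : ‖(toPr 𝕜 Z u).2‖ ≤ ‖u‖ := norm_snd_le_Lam u

variable (𝕜 Z) in
/-- continuous equivalence with the product -/
noncomputable def toPrL : XX 𝕜 Z ≃L[𝕜] Pr 𝕜 Z :=
  (toPr 𝕜 Z).toContinuousLinearEquivOfBounds 1 2
    (fun u => by
      rw [one_mul]
      exact max_le (norm_fst_le u) (norm_snd_le u))
    (fun v => by
      refine (norm_le_sum _).trans ?_
      rw [LinearEquiv.apply_symm_apply]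
      have h1 : ‖v.1‖ ≤ ‖v‖ := le_max_left _ _
      have h2 : ‖v.2‖ ≤ ‖v‖ := le_max_right _ _
      linarith)

instance [CompleteSpace Z] : CompleteSpace (XX 𝕜 Z) :=
  ((toPrL 𝕜 Z).isUniformEmbedding.isUniformInducing.completeSpace_congr
    (toPrL 𝕜 Z).surjective).mpr inferInstance

/-- Operators are bounded by their values on the points. -/
lemma opNorm_le {W : Type*} [NormedAddCommGroup W] [NormedSpace 𝕜 W] (T : XX 𝕜 Z →L[𝕜] W) {C : ℝ}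
    (hC : 0 < C) (h : ∀ d s, ‖T ((toPr 𝕜 Z).symm (pt 𝕜 d s))‖ ≤ C) : ‖T‖ ≤ C := by
  refine T.opNorm_le_bound hC.le fun u => ?_
  obtain ⟨f, hf, hfu⟩ := exists_dual_vector'' 𝕜 (T u)
  let φ : Pr 𝕜 Z →L[𝕜] 𝕜 := ((C⁻¹ : ℝ) : 𝕜) • f.comp (T.comp (toPrL 𝕜 Z).symm.toContinuousLinearMap)
  have hφ : φ ∈ V 𝕜 Z := by
    intro d s
    change ‖((C⁻¹ : ℝ) : 𝕜) * f (T ((toPr 𝕜 Z).symm (pt 𝕜 d s)))‖ ≤ 1
    rw [norm_mul, RCLike.norm_ofReal, abs_of_pos (inv_pos.2 hC)]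
    have h1 : ‖f (T ((toPr 𝕜 Z).symm (pt 𝕜 d s)))‖ ≤ C := by
      refine (f.le_opNorm _).trans ?_
      calc ‖f‖ * ‖T ((toPr 𝕜 Z).symm (pt 𝕜 d s))‖ ≤ 1 * C :=
            mul_le_mul hf (h d s) (norm_nonneg _) zero_le_one
        _ = C := one_mul _
    calc C⁻¹ * ‖f (T ((toPr 𝕜 Z).symm (pt 𝕜 d s)))‖ ≤ C⁻¹ * C :=
          mul_le_mul_of_nonneg_left h1 (inv_pos.2 hC).le
      _ = 1 := inv_mul_cancel₀ hC.ne'
  have h2 := V_le_norm hφ u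
  have h3 : φ (toPr 𝕜 Z u) = ((C⁻¹ : ℝ) : 𝕜) * f (T u) := rfl
  rw [h3, hfu, norm_mul, RCLike.norm_ofReal, RCLike.norm_ofReal, abs_of_pos (inv_pos.2 hC),
    abs_norm] at h2
  calc ‖T u‖ = C * (C⁻¹ * ‖T u‖) := by rw [← mul_assoc, mul_inv_cancel₀ hC.ne', one_mul]
    _ ≤ C * ‖u‖ := mul_le_mul_of_nonneg_left h2 hC.le

/-- the exposing functional of a point -/
lemma exists_exposing (d : Gam Z) (s : Bool) : ∃ φ : Pr 𝕜 Z →L[𝕜] 𝕜, φ (pt 𝕜 d s) = 1 ∧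
    ∀ d' s', (d', s') ≠ (d, s) → ‖φ (pt 𝕜 d' s')‖ ≤ 1 / 2 := by
  obtain ⟨f, hf, hfd⟩ := exists_dual_vector'' 𝕜 (d : Z)
  rw [mem_sphere_zero_iff_norm.1 d.2] at hfd
  let σ : 𝕜 := if s then 1 else -1
  let cd : lp (fun _ : Gam Z => 𝕜) 1 →L[𝕜] 𝕜 := LinearMap.mkContinuous
    { toFun := fun w => w d
      map_add' := fun _ _ => rfl
      map_smul' := fun _ _ => rfl } 1 (fun w => by
        rw [one_mul]; exact lp.norm_apply_le_norm (by simp) w d)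
  let φ : Pr 𝕜 Z →L[𝕜] 𝕜 := ((1 / 2 : 𝕜)) • (f.comp (ContinuousLinearMap.fst 𝕜 Z _) +
    σ • cd.comp (ContinuousLinearMap.snd 𝕜 Z _))
  have hφ : ∀ d' s', φ (pt 𝕜 d' s') = (1 / 2) * (f (d' : Z) + σ *
      (if d' = d then (if s' then (1 : 𝕜) else -1) else 0)) := by
    intro d' s'
    change (1 / 2) * (f (d' : Z) + σ * (lp.single 1 d' (if s' then (1 : 𝕜) else -1) :
      lp (fun _ : Gam Z => 𝕜) 1) d) = _
    congr 3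
    by_cases h : d' = d
    · subst h
      rw [if_pos rfl, lp.single_apply_self]
    · rw [if_neg h, lp.single_apply_ne _ _ _ (Ne.symm h)]
  refine ⟨φ, ?_, ?_⟩
  · rw [hφ, if_pos rfl, hfd]
    simp only [σ, RCLike.ofReal_one]
    cases s <;> norm_num
  · intro d' s' hne
    rw [hφ]
    by_cases h : d' = d
    · subst h
      have hs : s' ≠ s := fun hs => hne (by rw [hs])
      rw [if_pos rfl, hfd]
      simp only [σ, RCLike.ofReal_one]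
      cases s <;> cases s' <;> simp at hs ⊢
    · rw [if_neg h, mul_zero, add_zero, norm_mul]
      have h1 : ‖f (d' : Z)‖ ≤ 1 := by
        refine (f.le_opNorm _).trans ?_
        rw [mem_sphere_zero_iff_norm.1 d'.2, mul_one]; exact hf
      have h2 : ‖(1 / 2 : 𝕜)‖ = 1 / 2 := by
        rw [norm_div, norm_one, RCLike.norm_ofNat]
      rw [h2]
      linarith

end Pool.Agent.H590R3.PropA
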