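import Pool.Agent.H590R3.PropA2

set_option autoImplicit false

namespace Pool.Agent.H590R3.PropA

open Filter Topology

variable {𝕜 : Type} [RCLike 𝕜] {Z : Type} [NormedAddCommGroup Z] [NormedSpace 𝕜 Z]

/-- the point as an element of the renormed space -/
noncomputable def ptX (d : Gam Z) (s : Bool) : XX 𝕜 Z := (toPr 𝕜 Z).symm (pt 𝕜 d s)

lemma ptX_norm_le (d : Gam Z) (s : Bool) : ‖(ptX d s : XX 𝕜 Z)‖ ≤ 1 :=
  norm_le_of_V zero_le_one fun φ hφ => by
    have : toPr 𝕜 Z (ptX d s) = pt 𝕜 d s := LinearEquiv.apply_symm_apply _ _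
    rw [this]
    exact hφ d s

/-- Lindenstrauss property A of the renormed space. -/
lemma exists_attaining [Nontrivial Z] {W : Type*} [NormedAddCommGroup W] [NormedSpace 𝕜 W]
    (T : XX 𝕜 Z →L[𝕜] W) {ε : ℝ} (hε : 0 < ε) :
    ∃ S : XX 𝕜 Z →L[𝕜] W, (∃ x : XX 𝕜 Z, ‖x‖ = 1 ∧ ‖S x‖ = ‖S‖) ∧ ‖T - S‖ < ε := by
  have hΓ : Nonempty (Gam Z) := by
    obtain ⟨z, hz⟩ := exists_ne (0 : Z)
    refine ⟨⟨((‖z‖⁻¹ : ℝ) : 𝕜) • z, ?_⟩⟩
    rw [mem_sphere_zero_iff_norm, norm_smul, RCLike.norm_ofReal, abs_of_nonneg (by positivity)]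
    exact inv_mul_cancel₀ (norm_ne_zero_iff.2 hz)
  have hnorm1 : ∀ d s, ‖(ptX d s : XX 𝕜 Z)‖ = 1 := by
    intro d s
    refine le_antisymm (ptX_norm_le d s) ?_
    have h1 := norm_fst_le (ptX d s : XX 𝕜 Z)
    have h2 : (toPr 𝕜 Z (ptX d s : XX 𝕜 Z)).1 = d := by
      have : toPr 𝕜 Z (ptX d s) = pt 𝕜 d s := LinearEquiv.apply_symm_apply _ _
      rw [this]; rfl
    rw [h2, mem_sphere_zero_iff_norm.1 d.2] at h1
    exact h1
  by_cases hT : T = 0
  · obtain ⟨d⟩ := hΓ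
    exact ⟨T, ⟨ptX d true, hnorm1 d true, by rw [hT]; simp⟩, by simpa using hε⟩
  set M := ‖T‖ with hM
  have hM0 : 0 < M := norm_pos_iff.2 hT
  set η : ℝ := min 1 (ε / (2 * M)) with hη
  have hη0 : 0 < η := lt_min one_pos (by positivity)
  have hη1 : η ≤ 1 := min_le_left _ _
  have hη2 : η * M < ε := by
    have : η ≤ ε / (2 * M) := min_le_right _ _
    calc η * M ≤ ε / (2 * M) * M := mul_le_mul_of_nonneg_right this hM0.le
      _ = ε / 2 := by field_simp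
      _ < ε := by linarith
  -- a point where `T` is almost attained
  have hex : ∃ d s, (1 - η / 8) * M < ‖T (ptX d s)‖ := by
    by_contra hcon
    push Not at hcon
    have h1 : 0 < (1 - η / 8) * M := mul_pos (by linarith) hM0
    have h2 := opNorm_le T h1 hcon
    rw [← hM] at h2
    nlinarith
  obtain ⟨d, s, hds⟩ := hex
  obtain ⟨φ, hφ1, hφ2⟩ := exists_exposing (𝕜 := 𝕜) d s
  have hφV : φ ∈ V 𝕜 Z := by
    intro d' s'
    by_cases h : (d', s') = (d, s)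
    · have h1 : d' = d := congrArg Prod.fst h
      have h2 : s' = s := congrArg Prod.snd h
      rw [h1, h2, hφ1, norm_one]
    · exact (hφ2 d' s' h).trans (by norm_num)
  let φX : XX 𝕜 Z →L[𝕜] 𝕜 := φ.comp (toPrL 𝕜 Z).toContinuousLinearMap
  have hφX : ∀ u, φX u = φ (toPr 𝕜 Z u) := fun u => rfl
  have hφXn : ‖φX‖ ≤ 1 := φX.opNorm_le_bound zero_le_one fun u => by
    rw [one_mul, hφX]; exact V_le_norm hφV u
  have hφpt : ∀ d' s', φX (ptX d' s') = φ (pt 𝕜 d' s') := by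
    intro d' s'
    rw [hφX]
    have : toPr 𝕜 Z (ptX d' s') = pt 𝕜 d' s' := LinearEquiv.apply_symm_apply _ _
    rw [this]
  set y : W := T (ptX d s) with hy
  have hyM : ‖y‖ ≤ M := by
    refine (T.le_opNorm _).trans ?_
    rw [hnorm1, mul_one]
  let R : XX 𝕜 Z →L[𝕜] W := φX.smulRight (((η : ℝ) : 𝕜) • y)
  have hR : ∀ u, R u = φX u • (((η : ℝ) : 𝕜) • y) := fun u => rfl
  let S : XX 𝕜 Z →L[𝕜] W := T + R
  have hSp : ‖S (ptX d s)‖ = (1 + η) * ‖y‖ := by
    change ‖T (ptX d s) + R (ptX d s)‖ = _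
    rw [hR, hφpt, hφ1, one_smul, ← hy]
    have : y + ((η : ℝ) : 𝕜) • y = ((1 + η : ℝ) : 𝕜) • y := by
      rw [RCLike.ofReal_add, RCLike.ofReal_one, add_smul, one_smul]
    rw [this, norm_smul, RCLike.norm_ofReal, abs_of_pos (by linarith)]
  have hy0 : (1 - η / 8) * M < ‖y‖ := hds
  have hy00 : 0 < ‖y‖ := lt_trans (mul_pos (by linarith) hM0) hy0
  have hSn : ‖S‖ ≤ (1 + η) * ‖y‖ := by
    refine opNorm_le S (by positivity) ?_
    intro d' s'
    change ‖S (ptX d' s')‖ ≤ _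
    by_cases h : (d', s') = (d, s)
    · have h1 : d' = d := congrArg Prod.fst h
      have h2 : s' = s := congrArg Prod.snd h
      rw [h1, h2, hSp]
    · have h3 : ‖S (ptX d' s')‖ ≤ M + 1 / 2 * (η * ‖y‖) := by
        change ‖T (ptX d' s') + R (ptX d' s')‖ ≤ _
        refine (norm_add_le _ _).trans (add_le_add ?_ ?_)
        · refine (T.le_opNorm _).trans ?_
          rw [hnorm1, mul_one]
        · rw [hR, hφpt, norm_smul, norm_smul, RCLike.norm_ofReal, abs_of_pos hη0]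
          exact mul_le_mul_of_nonneg_right (hφ2 d' s' h) (by positivity)
      refine h3.trans ?_
      -- M + η/2 ‖y‖ ≤ (1+η) ‖y‖
      have h4 : M ≤ (1 + η / 2) * ‖y‖ := by
        have h5 : M ≤ (1 + η / 2) * ((1 - η / 8) * M) := by
          have h6 : 1 ≤ (1 + η / 2) * (1 - η / 8) := by nlinarith
          calc M = 1 * M := (one_mul _).symm
            _ ≤ ((1 + η / 2) * (1 - η / 8)) * M := mul_le_mul_of_nonneg_right h6 hM0.le
            _ = _ := by ring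
        exact h5.trans (mul_le_mul_of_nonneg_left hy0.le (by linarith))
      linarith
  refine ⟨S, ⟨ptX d s, hnorm1 d s, ?_⟩, ?_⟩
  · rw [hSp]
    refine le_antisymm ?_ hSn
    rw [← hSp]
    refine (S.le_opNorm _).trans ?_
    rw [hnorm1, mul_one]
  · have h1 : T - S = - R := by simp only [S]; abel
    rw [h1, norm_neg]
    refine lt_of_le_of_lt (R.opNorm_le_bound (M := η * M) (by positivity) fun u => ?_) hη2
    rw [hR, norm_smul, norm_smul, RCLike.norm_ofReal, abs_of_pos hη0]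
    have h2 : ‖φX u‖ ≤ ‖u‖ := by
      refine (φX.le_opNorm _).trans ?_
      exact mul_le_of_le_one_left (norm_nonneg _) hφXn
    calc ‖φX u‖ * (η * ‖y‖) ≤ ‖u‖ * (η * M) :=
          mul_le_mul h2 (mul_le_mul_of_nonneg_left hyM hη0.le) (by positivity) (norm_nonneg _)
      _ = η * M * ‖u‖ := by ring

variable (𝕜 Z) in
/-- the projection -/
noncomputable def PP : XX 𝕜 Z →L[𝕜] XX 𝕜 Z :=
  LinearMap.mkContinuous
    { toFun := fun u => (toPr 𝕜 Z).symm ((toPr 𝕜 Z u).1, 0)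
      map_add' := fun u v => by
        rw [← map_add, map_add]
        congr 1
        refine Prod.ext rfl ?_
        change (0 : lp (fun _ : Gam Z => 𝕜) 1) = 0 + 0
        rw [add_zero]
      map_smul' := fun c u => by
        rw [RingHom.id_apply, ← map_smul, map_smul]
        congr 1
        refine Prod.ext rfl ?_
        change (0 : lp (fun _ : Gam Z => 𝕜) 1) = c • 0
        rw [smul_zero] } 1 (fun u => by
      rw [one_mul]
      refine le_trans ?_ (norm_fst_le u)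
      refine (norm_le_sum _).trans ?_
      change ‖(toPr 𝕜 Z u).1‖ + ‖(0 : lp (fun _ : Gam Z => 𝕜) 1)‖ ≤ _
      rw [norm_zero, add_zero])

lemma PP_apply (u : XX 𝕜 Z) : PP 𝕜 Z u = (toPr 𝕜 Z).symm ((toPr 𝕜 Z u).1, 0) := rfl

lemma PP_norm_le : ‖PP 𝕜 Z‖ ≤ 1 := LinearMap.mkContinuous_norm_le _ zero_le_one _

lemma PP_idem (u : XX 𝕜 Z) : PP 𝕜 Z (PP 𝕜 Z u) = PP 𝕜 Z u := rfl

/-- embedding of `Z` -/
noncomputable def emb (z : Z) : XX 𝕜 Z := (toPr 𝕜 Z).symm (z, 0)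

lemma emb_norm (z : Z) : ‖(emb z : XX 𝕜 Z)‖ = ‖z‖ := by
  have h := norm_fst_le (emb z : XX 𝕜 Z)
  refine le_antisymm ?_ h
  refine (norm_le_sum _).trans ?_
  change ‖z‖ + ‖(0 : lp (fun _ : Gam Z => 𝕜) 1)‖ ≤ _
  rw [norm_zero, add_zero]

lemma PP_emb (z : Z) : PP 𝕜 Z (emb z) = emb z := rfl

lemma PP_eq_emb (u : XX 𝕜 Z) : PP 𝕜 Z u = emb (toPr 𝕜 Z u).1 := rfl

lemma emb_add (z w : Z) : (emb (z + w) : XX 𝕜 Z) = emb z + emb w := by
  unfold emb
  rw [← map_add]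
  congr 1
  refine Prod.ext rfl ?_
  change (0 : lp (fun _ : Gam Z => 𝕜) 1) = 0 + 0
  rw [add_zero]

lemma emb_sub (z w : Z) : (emb (z - w) : XX 𝕜 Z) = emb z - emb w := by
  unfold emb
  rw [← map_sub]
  congr 1
  refine Prod.ext rfl ?_
  change (0 : lp (fun _ : Gam Z => 𝕜) 1) = 0 - 0
  rw [sub_zero]

lemma emb_smul (c : 𝕜) (z : Z) : (emb (c • z) : XX 𝕜 Z) = c • emb z := by
  unfold emb
  rw [← map_smul]
  congr 1
  refine Prod.ext rfl ?_
  change (0 : lp (fun _ : Gam Z => 𝕜) 1) = c • 0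
  rw [smul_zero]

end Pool.Agent.H590R3.PropA
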