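import Pool.Agent.H590R3.PropA3

set_option autoImplicit false

namespace Pool.Agent.H590R3.PropA

open Filter Topology ZeroAtInfty

section C0part

variable {𝕜 : Type} [RCLike 𝕜]

lemma C0_le (z : C₀(ℕ, 𝕜)) (n : ℕ) : ‖z n‖ ≤ ‖z‖ := z.toBCF.norm_coe_le_norm n

lemma C0_norm_le {z : C₀(ℕ, 𝕜)} {C : ℝ} (hC : 0 ≤ C) (h : ∀ n, ‖z n‖ ≤ C) : ‖z‖ ≤ C :=
  (BoundedContinuousFunction.norm_le hC).2 h

variable (𝕜) in
/-- unit vectors of `c_0` -/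
noncomputable def e0 (i : ℕ) : C₀(ℕ, 𝕜) where
  toFun := Pi.single i 1
  continuous_toFun := continuous_of_discreteTopology
  zero_at_infty' := by
    rw [Filter.cocompact_eq_cofinite, Nat.cofinite_eq_atTop]
    refine tendsto_const_nhds.congr' ?_
    filter_upwards [eventually_gt_atTop i] with n hn
    rw [Pi.single_eq_of_ne (by omega)]

lemma e0_apply (i n : ℕ) : e0 𝕜 i n = if n = i then 1 else 0 := by
  change (Pi.single i 1 : ℕ → 𝕜) n = _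
  rw [Pi.single_apply]

lemma e0_norm (i : ℕ) : ‖e0 𝕜 i‖ = 1 := by
  refine le_antisymm (C0_norm_le zero_le_one fun n => ?_) ?_
  · rw [e0_apply]; split_ifs <;> simp
  · have := C0_le (e0 𝕜 i) i
    rwa [e0_apply, if_pos rfl, norm_one] at this

lemma C0_exists_small (z : C₀(ℕ, 𝕜)) {ε : ℝ} (hε : 0 < ε) : ∃ i, ‖z i‖ < ε := by
  have h := z.zero_at_infty'
  rw [Filter.cocompact_eq_cofinite, Nat.cofinite_eq_atTop] at h
  have h2 := (h.norm).eventually (gt_mem_nhds (by rwa [norm_zero]))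
  obtain ⟨i, hi⟩ := h2.exists
  exact ⟨i, hi⟩

/-- weighted sequence in `ℓ²` -/
lemma Rmem (z : C₀(ℕ, 𝕜)) : Memℓp (fun n : ℕ => (((1 / 2 : ℝ) ^ n : ℝ) : 𝕜) * z n) 2 := by
  refine memℓp_gen ?_
  have h1 : Summable (fun n : ℕ => ((1 / 4 : ℝ)) ^ n * ‖z‖ ^ 2) :=
    (summable_geometric_of_lt_one (by norm_num) (by norm_num)).mul_right _
  refine Summable.of_nonneg_of_le (fun n => by positivity) (fun n => ?_) h1
  have h2 : ‖(((1 / 2 : ℝ) ^ n : ℝ) : 𝕜) * z n‖ ≤ (1 / 2) ^ n * ‖z‖ := by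
    rw [norm_mul, RCLike.norm_ofReal, abs_of_pos (by positivity)]
    exact mul_le_mul_of_nonneg_left (C0_le z n) (by positivity)
  have h3 : (2 : ENNReal).toReal = ((2 : ℕ) : ℝ) := by norm_num
  rw [h3, Real.rpow_natCast]
  calc ‖(((1 / 2 : ℝ) ^ n : ℝ) : 𝕜) * z n‖ ^ 2 ≤ ((1 / 2) ^ n * ‖z‖) ^ 2 :=
        pow_le_pow_left₀ (norm_nonneg _) h2 2
    _ = (1 / 4 : ℝ) ^ n * ‖z‖ ^ 2 := by
        rw [mul_pow, ← pow_mul, mul_comm n 2, pow_mul]; norm_num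

variable (𝕜) in
/-- an injective operator from `c_0` into `ℓ²`. -/
noncomputable def Rmap : C₀(ℕ, 𝕜) →L[𝕜] lp (fun _ : ℕ => 𝕜) 2 :=
  LinearMap.mkContinuous
    { toFun := fun z => ⟨fun n => (((1 / 2 : ℝ) ^ n : ℝ) : 𝕜) * z n, Rmem z⟩
      map_add' := fun z w => by
        ext n
        change _ * (z n + w n) = _ * z n + _ * w n
        ring
      map_smul' := fun c z => by
        ext n
        change _ * (c * z n) = c * (_ * z n)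
        ring } 2 (fun z => by
      refine lp.norm_le_of_tsum_le (by norm_num) (by positivity) ?_
      have h1 : HasSum (fun n : ℕ => ((1 / 4 : ℝ)) ^ n * ‖z‖ ^ 2) ((1 - 1 / 4)⁻¹ * ‖z‖ ^ 2) :=
        (hasSum_geometric_of_lt_one (by norm_num) (by norm_num)).mul_right _
      have h3 : (2 : ENNReal).toReal = ((2 : ℕ) : ℝ) := by norm_num
      rw [h3]
      simp only [Real.rpow_natCast]
      have h2 : ∀ n : ℕ, ‖(((1 / 2 : ℝ) ^ n : ℝ) : 𝕜) * z n‖ ^ 2 ≤ ((1 / 4 : ℝ)) ^ n * ‖z‖ ^ 2 := by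
        intro n
        have h2 : ‖(((1 / 2 : ℝ) ^ n : ℝ) : 𝕜) * z n‖ ≤ (1 / 2) ^ n * ‖z‖ := by
          rw [norm_mul, RCLike.norm_ofReal, abs_of_pos (by positivity)]
          exact mul_le_mul_of_nonneg_left (C0_le z n) (by positivity)
        calc ‖(((1 / 2 : ℝ) ^ n : ℝ) : 𝕜) * z n‖ ^ 2 ≤ ((1 / 2) ^ n * ‖z‖) ^ 2 :=
              pow_le_pow_left₀ (norm_nonneg _) h2 2
          _ = (1 / 4 : ℝ) ^ n * ‖z‖ ^ 2 := by
              rw [mul_pow, ← pow_mul, mul_comm n 2, pow_mul]; norm_num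
      have h4 : Summable (fun n : ℕ => ‖(((1 / 2 : ℝ) ^ n : ℝ) : 𝕜) * z n‖ ^ 2) :=
        Summable.of_nonneg_of_le (fun n => by positivity) h2 h1.summable
      calc ∑' n : ℕ, ‖(((1 / 2 : ℝ) ^ n : ℝ) : 𝕜) * z n‖ ^ 2
          ≤ ∑' n : ℕ, ((1 / 4 : ℝ)) ^ n * ‖z‖ ^ 2 := Summable.tsum_le_tsum h2 h4 h1.summable
        _ = (1 - 1 / 4)⁻¹ * ‖z‖ ^ 2 := h1.tsum_eq
        _ ≤ (2 * ‖z‖) ^ 2 := by
            rw [mul_pow]
            refine mul_le_mul_of_nonneg_right (by norm_num) (by positivity))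

lemma Rmap_apply (z : C₀(ℕ, 𝕜)) (n : ℕ) :
    (Rmap 𝕜 z : ℕ → 𝕜) n = (((1 / 2 : ℝ) ^ n : ℝ) : 𝕜) * z n := rfl

lemma Rmap_injective {z : C₀(ℕ, 𝕜)} (h : Rmap 𝕜 z = 0) : z = 0 := by
  ext n
  have h1 : (Rmap 𝕜 z : ℕ → 𝕜) n = 0 := by rw [h]; rfl
  rw [Rmap_apply, mul_eq_zero] at h1
  rcases h1 with h1 | h1
  · exfalso
    have : ((1 / 2 : ℝ) ^ n : ℝ) = 0 := by exact_mod_cast h1
    have h2 : (0 : ℝ) < (1 / 2 : ℝ) ^ n := by positivity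
    linarith
  · exact h1

variable (𝕜) in
/-- the ambient space -/
abbrev Amb : Type := WithLp 2 (C₀(ℕ, 𝕜) × lp (fun _ : ℕ => 𝕜) 2)

variable (𝕜) in
/-- The graph of `R`, a strictly convex renorming of `c_0`. -/
noncomputable def YY : Submodule 𝕜 (Amb 𝕜) where
  carrier := {u | u.snd = Rmap 𝕜 u.fst}
  add_mem' := by
    intro u v hu hv
    change u.snd + v.snd = Rmap 𝕜 (u.fst + v.fst)
    rw [map_add]
    exact congrArg₂ (· + ·) hu hv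
  zero_mem' := by
    change (0 : lp (fun _ : ℕ => 𝕜) 2) = Rmap 𝕜 0
    rw [map_zero]
  smul_mem' := by
    intro c u hu
    change c • u.snd = Rmap 𝕜 (c • u.fst)
    rw [map_smul]
    exact congrArg (c • ·) hu

lemma YY_closed : IsClosed (YY 𝕜 : Set (Amb 𝕜)) := by
  refine isClosed_eq ?_ ?_
  · exact (WithLp.sndL 2 𝕜 C₀(ℕ, 𝕜) (lp (fun _ : ℕ => 𝕜) 2)).continuous
  · exact (Rmap 𝕜).continuous.comp (WithLp.fstL 2 𝕜 C₀(ℕ, 𝕜) (lp (fun _ : ℕ => 𝕜) 2)).continuous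

instance : CompleteSpace (YY 𝕜) := YY_closed.completeSpace_coe

lemma YY_mem (z : C₀(ℕ, 𝕜)) : (WithLp.toLp 2 (z, Rmap 𝕜 z) : Amb 𝕜) ∈ YY 𝕜 := rfl

lemma norm_fst_le_amb (u : Amb 𝕜) : ‖u.fst‖ ≤ ‖u‖ := by
  have h := WithLp.prod_norm_sq_eq_of_L2 u
  have : ‖u.fst‖ ^ 2 ≤ ‖u‖ ^ 2 := by rw [h]; nlinarith [sq_nonneg ‖u.snd‖]
  exact le_of_sq_le_sq this (norm_nonneg _)

lemma abs_two {E : Type*} [NormedAddCommGroup E] [NormedSpace ℝ E] (a v : E) :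
    2 * ‖a‖ ≤ ‖a + v‖ + ‖a - v‖ := by
  have : (2 : ℝ) • a = (a + v) + (a - v) := by rw [two_smul]; abel
  calc 2 * ‖a‖ = ‖(2 : ℝ) • a‖ := by rw [norm_smul]; simp
    _ = ‖(a + v) + (a - v)‖ := by rw [this]
    _ ≤ _ := norm_add_le _ _

lemma abs_two' {E : Type*} [NormedAddCommGroup E] [NormedSpace ℝ E] (a v : E) :
    2 * ‖a‖ ^ 2 ≤ ‖a + v‖ ^ 2 + ‖a - v‖ ^ 2 := by
  have q := abs_two a v
  have h0 := norm_nonneg a
  nlinarith [sq_nonneg (‖a + v‖ - ‖a - v‖), norm_nonneg (a + v), norm_nonneg (a - v)]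

lemma abs_strict {A B C D E F G H v : ℝ} (e1 : A ^ 2 = B ^ 2 + C ^ 2) (e2 : D ^ 2 = E ^ 2 + F ^ 2)
    (e3 : G ^ 2 = H ^ 2 + v ^ 2) (p1 : A ^ 2 ≤ G ^ 2) (p2 : D ^ 2 ≤ G ^ 2)
    (q : 2 * H ^ 2 ≤ B ^ 2 + E ^ 2) {w : ℝ} (par : C ^ 2 + F ^ 2 = 2 * (v ^ 2 + w ^ 2)) : w = 0 := by
  have : w ^ 2 ≤ 0 := by nlinarith
  nlinarith [sq_nonneg w]

/-- strict convexity in the form used -/
lemma YY_strict {a v : Amb 𝕜} (hv : v ∈ YY 𝕜) (h1 : ‖a + v‖ ≤ ‖a‖) (h2 : ‖a - v‖ ≤ ‖a‖) :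
    v = 0 := by
  have e1 := WithLp.prod_norm_sq_eq_of_L2 (a + v)
  have e2 := WithLp.prod_norm_sq_eq_of_L2 (a - v)
  have e3 := WithLp.prod_norm_sq_eq_of_L2 a
  have p1 : ‖a + v‖ ^ 2 ≤ ‖a‖ ^ 2 := pow_le_pow_left₀ (norm_nonneg _) h1 2
  have p2 : ‖a - v‖ ^ 2 ≤ ‖a‖ ^ 2 := pow_le_pow_left₀ (norm_nonneg _) h2 2
  have par := parallelogram_law_with_norm 𝕜 a.snd v.snd
  let _ : NormedSpace ℝ C₀(ℕ, 𝕜) := NormedSpace.restrictScalars ℝ 𝕜 _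
  have q2 := abs_two' a.fst v.fst
  have hv2 : ‖v.snd‖ = 0 := abs_strict e1 e2 e3 p1 p2 q2 par
  have hv0 : v.snd = 0 := norm_eq_zero.1 hv2
  have hv1 : v.fst = 0 := Rmap_injective (by
    have h3 : v.snd = Rmap 𝕜 v.fst := hv
    rw [← h3, hv0])
  have h4 : v = WithLp.toLp 2 (v.fst, v.snd) := rfl
  rw [h4, hv0, hv1]
  rfl

end C0part

end Pool.Agent.H590R3.PropA
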