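import Mathlib

set_option autoImplicit false

namespace Pool.Agent.H590R3.PropB

open Finset

/-- weights -/
noncomputable def w (k : ℕ) : ℝ := (1 / 2 : ℝ) ^ (2 * k + 7)

lemma w_pos (k : ℕ) : 0 < w k := by unfold w; positivity

lemma w_le_one (k : ℕ) : w k ≤ 1 := by
  unfold w
  exact pow_le_one₀ (by norm_num) (by norm_num)

/-- block sizes -/
def nn (k : ℕ) : ℕ := 4 ^ (k + 6)

lemma w_mul_nn (k : ℕ) : w k * (nn k : ℝ) = 32 := by
  unfold w nn
  push_cast
  have h1 : (4 : ℝ) ^ (k + 6) = 2 ^ (2 * k + 7) * 2 ^ 5 := by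
    rw [show (4 : ℝ) = 2 ^ 2 by norm_num, ← pow_mul, ← pow_add]
    congr 1
  rw [h1, ← mul_assoc, ← mul_pow]
  norm_num

/-- The unit ball of the dual norm. -/
def V : Set (ℕ × ℕ → ℝ) :=
  {g | ∀ i : ℕ × ℕ, ∀ F : Finset (ℕ × ℕ), (∀ j ∈ F, i.1 < j.1) →
    |g i| + ∑ j ∈ F, w j.1 * |g j| ≤ 1}

lemma V_abs_le {g : ℕ × ℕ → ℝ} (hg : g ∈ V) (i : ℕ × ℕ) : |g i| ≤ 1 := by
  have := hg i ∅ (by simp)
  simpa using this

lemma V_neg {g : ℕ × ℕ → ℝ} (hg : g ∈ V) : (fun i => - g i) ∈ V := by
  intro i F hF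
  simpa using hg i F hF

lemma V_mono {g h : ℕ × ℕ → ℝ} (hg : g ∈ V) (hh : ∀ i, |h i| ≤ |g i|) : h ∈ V := by
  intro i F hF
  refine le_trans ?_ (hg i F hF)
  refine add_le_add (hh i) (Finset.sum_le_sum fun j _ => ?_)
  exact mul_le_mul_of_nonneg_left (hh j) (w_pos _).le

/-- coordinate functional -/
def dl (i : ℕ × ℕ) : ℕ × ℕ → ℝ := fun j => if j = i then 1 else 0

lemma dl_mem (i : ℕ × ℕ) : dl i ∈ V := by
  intro j F hF
  by_cases hji : j = i
  · have h0 : ∑ l ∈ F, w l.1 * |dl i l| = 0 := by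
      refine Finset.sum_eq_zero fun l hl => ?_
      have hl2 : l ≠ i := by
        rintro rfl
        have := hF l hl
        rw [hji] at this
        exact lt_irrefl _ this
      simp [dl, hl2]
    rw [h0, hji]
    simp [dl]
  · have h1 : ∑ l ∈ F, w l.1 * |dl i l| ≤ 1 := by
      by_cases hiF : i ∈ F
      · rw [Finset.sum_eq_single i]
        · simpa [dl] using w_le_one i.1
        · intro b _ hb
          simp [dl, hb]
        · intro h; exact absurd hiF h
      · rw [Finset.sum_eq_zero]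
        · norm_num
        · intro l hl
          have : l ≠ i := by rintro rfl; exact hiF hl
          simp [dl, this]
    have h2 : dl i j = 0 := by simp [dl, hji]
    rw [h2]; simpa using h1

/-- ambient space of bounded functions on `V` -/
abbrev Amb : Type := lp (fun _ : V => ℝ) ⊤

/-- the unit vectors -/
noncomputable def e (i : ℕ × ℕ) : Amb :=
  ⟨fun g => g.1 i, memℓp_infty ⟨1, by rintro _ ⟨g, rfl⟩; exact V_abs_le g.2 i⟩⟩

lemma e_apply (i : ℕ × ℕ) (g : V) : (e i : V → ℝ) g = g.1 i := rfl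

lemma norm_e_le (i : ℕ × ℕ) : ‖e i‖ ≤ 1 :=
  lp.norm_le_of_forall_le zero_le_one fun g => V_abs_le g.2 i

/-- evaluation -/
noncomputable def ev (g : V) : Amb →L[ℝ] ℝ :=
  LinearMap.mkContinuous
    { toFun := fun x => (x : V → ℝ) g
      map_add' := fun x y => rfl
      map_smul' := fun c x => rfl } 1 (fun x => by
        rw [one_mul]
        exact lp.norm_apply_le_norm (by simp) x g)

lemma ev_apply (g : V) (x : Amb) : ev g x = (x : V → ℝ) g := rfl

lemma ev_e (g : V) (i : ℕ × ℕ) : ev g (e i) = g.1 i := rfl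

lemma ev_le (g : V) (x : Amb) : |ev g x| ≤ ‖x‖ := lp.norm_apply_le_norm (by simp) x g

/-- The negation of a point of `V`. -/
def negV (g : V) : V := ⟨fun i => - g.1 i, V_neg g.2⟩

/-- The space `X`: closed span of the unit vectors. -/
noncomputable def XS : Submodule ℝ Amb := (Submodule.span ℝ (Set.range e)).topologicalClosure

lemma e_mem (i : ℕ × ℕ) : e i ∈ XS :=
  Submodule.le_topologicalClosure _ (Submodule.subset_span ⟨i, rfl⟩)

/-- A continuous functional vanishing at all unit vectors vanishes on `XS`. -/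
lemma vanish {Φ : Amb →L[ℝ] ℝ} (h : ∀ i, Φ (e i) = 0) {x : Amb} (hx : x ∈ XS) : Φ x = 0 := by
  have h1 : XS ≤ LinearMap.ker (Φ : Amb →ₗ[ℝ] ℝ) := by
    refine Submodule.topologicalClosure_minimal _ ?_ ?_
    · rw [Submodule.span_le]
      rintro _ ⟨i, rfl⟩
      exact h i
    · exact ContinuousLinearMap.isClosed_ker Φ
  exact h1 hx

lemma ev_neg (g : V) {x : Amb} (hx : x ∈ XS) : ev (negV g) x = - ev g x := by
  have := vanish (Φ := ev (negV g) + ev g) (fun i => by
    simp [ev_e, negV]) hx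
  simp only [_root_.add_apply] at this
  linarith

lemma norm_le_of_ev {x : Amb} (hx : x ∈ XS) {C : ℝ} (hC : 0 ≤ C) (h : ∀ g : V, ev g x ≤ C) :
    ‖x‖ ≤ C := by
  refine lp.norm_le_of_forall_le hC fun g => ?_
  have h1 := h g
  have h2 := h (negV g)
  rw [ev_neg g hx] at h2
  exact abs_le.2 ⟨by rw [ev_apply] at h2; linarith, h1⟩

/-- coordinates -/
noncomputable def co (x : Amb) (i : ℕ × ℕ) : ℝ := ev ⟨dl i, dl_mem i⟩ x

lemma co_e (i j : ℕ × ℕ) : co (e i) j = if i = j then 1 else 0 := rfl

lemma co_add (x y : Amb) (i : ℕ × ℕ) : co (x + y) i = co x i + co y i := rfl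
lemma co_sub (x y : Amb) (i : ℕ × ℕ) : co (x - y) i = co x i - co y i := rfl
lemma co_smul (c : ℝ) (y : Amb) (i : ℕ × ℕ) : co (c • y) i = c * co y i := rfl

/-- span of the first blocks -/
noncomputable def YS (K : ℕ) : Submodule ℝ Amb := Submodule.span ℝ (e '' {i | i.1 < K})

lemma vanishY {K : ℕ} {Φ : Amb →L[ℝ] ℝ} (h : ∀ i : ℕ × ℕ, i.1 < K → Φ (e i) = 0) {x : Amb}
    (hx : x ∈ YS K) : Φ x = 0 := by
  have h1 : YS K ≤ LinearMap.ker (Φ : Amb →ₗ[ℝ] ℝ) := by
    unfold YS
    rw [Submodule.span_le]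
    rintro _ ⟨i, hi, rfl⟩
    exact h i hi
  exact h1 hx

lemma YS_mono {K L : ℕ} (h : K ≤ L) : YS K ≤ YS L :=
  Submodule.span_mono (Set.image_mono fun _ hi => lt_of_lt_of_le hi h)

lemma YS_le (K : ℕ) : YS K ≤ XS := by
  refine le_trans (Submodule.span_mono ?_) (Submodule.le_topologicalClosure _)
  exact Set.image_subset_range _ _

lemma exists_YS {x : Amb} (hx : x ∈ XS) {ε : ℝ} (hε : 0 < ε) :
    ∃ K : ℕ, ∃ y ∈ YS K, ‖x - y‖ < ε := by
  have h1 : x ∈ closure (Submodule.span ℝ (Set.range e) : Set Amb) := hx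
  obtain ⟨y, hy, hxy⟩ := Metric.mem_closure_iff.1 h1 ε hε
  rw [dist_eq_norm] at hxy
  have h2 : ∃ K : ℕ, y ∈ YS K := by
    refine Submodule.span_induction (p := fun y _ => ∃ K : ℕ, y ∈ YS K) ?_ ?_ ?_ ?_ hy
    · rintro _ ⟨i, rfl⟩
      exact ⟨i.1 + 1, Submodule.subset_span ⟨i, Nat.lt_succ_self _, rfl⟩⟩
    · exact ⟨0, Submodule.zero_mem _⟩
    · rintro a b _ _ ⟨K, hK⟩ ⟨L, hL⟩
      exact ⟨max K L, Submodule.add_mem _ (YS_mono (le_max_left _ _) hK)
        (YS_mono (le_max_right _ _) hL)⟩
    · rintro c a _ ⟨K, hK⟩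
      exact ⟨K, Submodule.smul_mem _ _ hK⟩
  obtain ⟨K, hK⟩ := h2
  exact ⟨K, y, hK, hxy⟩

/-- the good indices in block `k` -/
noncomputable def good (x : Amb) (k : ℕ) : Finset ℕ :=
  (Finset.range (nn k)).filter fun i => |co x (k, i)| ≤ w k / 4

/-- the bad indices in block `k` -/
noncomputable def bad (x : Amb) (k : ℕ) : Finset ℕ :=
  (Finset.range (nn k)).filter fun i => ¬ |co x (k, i)| ≤ w k / 4

lemma bad_card {x y : Amb} (hx : x ∈ XS) {K : ℕ} (hy : y ∈ YS K) (hxy : ‖x - y‖ ≤ 1 / 8) {k : ℕ}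
    (hk : K ≤ k) : w k * ((bad x k).card : ℝ) ≤ 1 / 2 := by
  set A := bad x k with hA
  set N : ℝ := max 1 (w k * (A.card : ℝ)) with hN
  have hN1 : 1 ≤ N := le_max_left _ _
  have hN2 : w k * (A.card : ℝ) ≤ N := le_max_right _ _
  have hN0 : 0 < N := by linarith
  let g : ℕ × ℕ → ℝ := fun j => if j.1 = k ∧ j.2 ∈ A then SignType.sign (co x j) / N else 0
  have hgabs : ∀ j, |g j| ≤ if j.1 = k ∧ j.2 ∈ A then 1 / N else 0 := by
    intro j
    simp only [g]
    split_ifs with h
    · rw [abs_div, abs_of_pos hN0]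
      gcongr
      rcases lt_trichotomy (co x j) 0 with h0 | h0 | h0
      · simp [sign_neg h0]
      · simp [h0]
      · simp [sign_pos h0]
    · simp
  have hg : g ∈ V := by
    intro i F hF
    by_cases hik : i.1 < k
    · have h0 : g i = 0 := by simp [g, hik.ne]
      rw [h0, abs_zero, zero_add]
      have h1 : ∑ j ∈ F, w j.1 * |g j| ≤ ∑ j ∈ A.image (fun a => (k, a)), w k * (1 / N) := by
        calc ∑ j ∈ F, w j.1 * |g j| ≤ ∑ j ∈ F, if j.1 = k ∧ j.2 ∈ A then w k * (1 / N) else 0 := by
              refine Finset.sum_le_sum fun j _ => ?_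
              have := hgabs j
              split_ifs with h
              · rw [if_pos h] at this
                rw [h.1]
                exact mul_le_mul_of_nonneg_left this (w_pos _).le
              · rw [if_neg h] at this
                have h2 : |g j| = 0 := le_antisymm this (abs_nonneg _)
                rw [h2, mul_zero]
          _ = ∑ j ∈ F.filter (fun j => j.1 = k ∧ j.2 ∈ A), w k * (1 / N) := by
              rw [Finset.sum_filter]
          _ ≤ _ := by
              refine Finset.sum_le_sum_of_subset_of_nonneg ?_ ?_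
              · intro j hj
                rw [Finset.mem_filter] at hj
                rw [Finset.mem_image]
                exact ⟨j.2, hj.2.2, Prod.ext hj.2.1.symm rfl⟩
              · intros
                have := w_pos k
                positivity
      refine h1.trans ?_
      rw [Finset.sum_const, Finset.card_image_of_injective _ (fun a b h => by simpa using h),
        nsmul_eq_mul]
      rw [show (A.card : ℝ) * (w k * (1 / N)) = (w k * A.card) / N by ring]
      exact (div_le_one hN0).2 hN2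
    · have h0 : ∑ j ∈ F, w j.1 * |g j| = 0 := by
        refine Finset.sum_eq_zero fun j hj => ?_
        have h3 : k < j.1 := lt_of_le_of_lt (not_lt.1 hik) (hF j hj)
        have : g j = 0 := by simp [g, h3.ne']
        rw [this]; simp
      rw [h0, add_zero]
      refine (hgabs i).trans ?_
      split_ifs
      · exact (div_le_one hN0).2 hN1
      · exact zero_le_one
  -- evaluation
  have hev : ev ⟨g, hg⟩ x = ∑ a ∈ A, (SignType.sign (co x (k, a)) : ℝ) / N * co x (k, a) := by
    have := vanish (Φ := ev ⟨g, hg⟩ - ∑ a ∈ A, ((SignType.sign (co x (k, a)) : ℝ) / N) •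
      ev ⟨dl (k, a), dl_mem _⟩) (fun i => by
        simp only [_root_.sub_apply, _root_.sum_apply,
          _root_.smul_apply, ev_e, dl, smul_eq_mul]
        rw [sub_eq_zero]
        by_cases h : i.1 = k ∧ i.2 ∈ A
        · rw [Finset.sum_eq_single i.2]
          · have : i = (k, i.2) := Prod.ext h.1 rfl
            rw [if_pos this, mul_one]
            simp only [g]
            rw [if_pos h, ← this]
          · intro b _ hb
            rw [if_neg, mul_zero]
            rintro rfl
            exact hb rfl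
          · intro h'; exact absurd h.2 h'
        · rw [Finset.sum_eq_zero]
          · simp only [g]; rw [if_neg h]
          · intro b hb
            rw [if_neg, mul_zero]
            rintro rfl
            exact h ⟨rfl, hb⟩) hx
    simp only [_root_.sub_apply, _root_.sum_apply,
      _root_.smul_apply, smul_eq_mul] at this
    rw [sub_eq_zero] at this
    exact this
  have hevy : ev ⟨g, hg⟩ y = 0 := by
    refine vanishY (K := K) (fun i hi => ?_) hy
    rw [ev_e]
    have : i.1 ≠ k := by omega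
    simp [g, this]
  have h5 : ev ⟨g, hg⟩ x ≤ 1 / 8 := by
    have := ev_le ⟨g, hg⟩ (x - y)
    rw [map_sub, hevy, sub_zero] at this
    exact (le_abs_self _).trans (this.trans hxy)
  have h6 : (A.card : ℝ) * ((w k / 4) / N) ≤ ev ⟨g, hg⟩ x := by
    rw [hev, ← nsmul_eq_mul, ← Finset.sum_const]
    refine Finset.sum_le_sum fun a ha => ?_
    have ha2 : w k / 4 < |co x (k, a)| := by
      rw [hA, bad, Finset.mem_filter, not_le] at ha
      exact ha.2
    have : (SignType.sign (co x (k, a)) : ℝ) / N * co x (k, a) = |co x (k, a)| / N := by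
      rw [div_mul_eq_mul_div, sign_mul_self]
    rw [this]
    gcongr
  have h7 : w k * (A.card : ℝ) ≤ N / 2 := by
    have h8 := h6.trans h5
    rw [mul_div_assoc', div_le_iff₀ hN0] at h8
    linarith
  have h9 : N = 1 := by
    by_contra hne
    have h10 : N = w k * (A.card : ℝ) := by
      rcases max_choice 1 (w k * (A.card : ℝ)) with h | h
      · exact absurd h hne
      · exact h
    linarith
  rw [h9] at h7
  exact h7

lemma good_card {x y : Amb} (hx : x ∈ XS) {K : ℕ} (hy : y ∈ YS K) (hxy : ‖x - y‖ ≤ 1 / 8) {k : ℕ}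
    (hk : K ≤ k) : 31 ≤ w k * ((good x k).card : ℝ) := by
  have h1 := bad_card hx hy hxy hk
  have h2 : (good x k).card + (bad x k).card = nn k := by
    unfold good bad
    rw [Finset.card_filter_add_card_filter_not, Finset.card_range]
  have h3 : ((good x k).card : ℝ) = (nn k : ℝ) - ((bad x k).card : ℝ) := by
    rw [← h2]; push_cast; ring
  rw [h3, mul_sub, w_mul_nn]
  linarith

end Pool.Agent.H590R3.PropB
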