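import Pool.Agent.H590R3.PropB1

set_option autoImplicit false

namespace Pool.Agent.H590R3.PropB

open Finset

/-- perturbation vector -/
noncomputable def zv (B : Finset ℕ) (k : ℕ) (θ : ℕ → ℝ) : Amb :=
  ∑ i ∈ B, (w k / 4 * θ i) • e (k, i)

lemma zv_mem (B : Finset ℕ) (k : ℕ) (θ : ℕ → ℝ) : zv B k θ ∈ XS :=
  Submodule.sum_mem _ fun _ _ => Submodule.smul_mem _ _ (e_mem _)

lemma zv_neg (B : Finset ℕ) (k : ℕ) (θ : ℕ → ℝ) : zv B k (fun i => - θ i) = - zv B k θ := by
  unfold zv
  rw [← Finset.sum_neg_distrib]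
  refine Finset.sum_congr rfl fun i _ => ?_
  rw [mul_neg, neg_smul]

lemma flat {x y : Amb} (hx : x ∈ XS) (hx1 : ‖x‖ ≤ 1) {K : ℕ} (hy : y ∈ YS K)
    (hxy : ‖x - y‖ ≤ 1 / 8) {k : ℕ} (hk : K ≤ k) (hk0 : 0 < k) (θ : ℕ → ℝ) (hθ : ∀ i, |θ i| ≤ 1) :
    ‖x + zv (good x k) k θ‖ ≤ 1 := by
  set B := good x k with hB
  refine norm_le_of_ev (Submodule.add_mem _ hx (zv_mem _ _ _)) zero_le_one fun g => ?_
  obtain ⟨g, hg⟩ := g
  set B' : Finset (ℕ × ℕ) := B.image (fun a => (k, a)) with hB'
  have hmemB' : ∀ j : ℕ × ℕ, j ∈ B' ↔ (j.1 = k ∧ j.2 ∈ B) := by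
    intro j
    rw [hB', Finset.mem_image]
    constructor
    · rintro ⟨a, ha, rfl⟩; exact ⟨rfl, ha⟩
    · rintro ⟨h1, h2⟩; exact ⟨j.2, h2, Prod.ext h1.symm rfl⟩
  set β : ℝ := ∑ i ∈ B, w k * |g (k, i)| with hβ
  have hβ' : β = ∑ j ∈ B', w j.1 * |g j| := by
    rw [hB', Finset.sum_image]
    intro a _ b _ h
    simpa using h
  have hβ0 : 0 ≤ β := Finset.sum_nonneg fun i _ => mul_nonneg (w_pos _).le (abs_nonneg _)
  have hβ1 : β ≤ 1 := by
    have := hg (0, 0) B' (fun j hj => by rw [((hmemB' j).1 hj).1]; exact hk0)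
    rw [← hβ'] at this
    linarith [abs_nonneg (g (0, 0))]
  let g' : ℕ × ℕ → ℝ := fun j => if j ∈ B' then 0 else g j
  have hg' : g' ∈ V := V_mono hg fun i => by
    simp only [g']; split_ifs
    · simp
    · exact le_rfl
  let gl : ℕ × ℕ → ℝ := fun j => if j.1 < k then g j else 0
  have hgl : gl ∈ V := V_mono hg fun i => by
    simp only [gl]; split_ifs
    · exact le_rfl
    · simp
  let g2 : ℕ × ℕ → ℝ := fun j => if j.1 < k then (1 + β) * g j else g' j
  have hg2 : g2 ∈ V := by
    intro i F hF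
    by_cases hi : i.1 < k
    · set F1 := F.filter (fun j => j.1 < k)
      set F2 := (F.filter (fun j => ¬ j.1 < k)) \ B' with hF2
      have h1 : ∑ j ∈ F, w j.1 * |g2 j| =
          (1 + β) * ∑ j ∈ F1, w j.1 * |g j| + ∑ j ∈ F2, w j.1 * |g j| := by
        rw [← Finset.sum_filter_add_sum_filter_not F (fun j => j.1 < k)]
        congr 1
        · rw [Finset.mul_sum]
          refine Finset.sum_congr rfl fun j hj => ?_
          have : j.1 < k := (Finset.mem_filter.1 hj).2
          simp only [g2, if_pos this]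
          rw [abs_mul, abs_of_nonneg (by linarith : (0 : ℝ) ≤ 1 + β)]
          ring
        · symm
          refine Finset.sum_subset_zero_on_sdiff Finset.sdiff_subset ?_ ?_
          · intro j hj
            have hj2 := Finset.mem_sdiff.1 hj
            have hj3 := (Finset.mem_filter.1 hj2.1).2
            have hj4 : j ∈ B' := by
              by_contra hcon
              exact hj2.2 (Finset.mem_sdiff.2 ⟨hj2.1, hcon⟩)
            simp only [g2, g', if_neg hj3, if_pos hj4]
            simp
          · intro j hj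
            have hj2 := Finset.mem_sdiff.1 hj
            have hj3 := (Finset.mem_filter.1 hj2.1).2
            simp only [g2, g', if_neg hj3, if_neg hj2.2]
      have h2 : |g2 i| = (1 + β) * |g i| := by
        simp only [g2, if_pos hi]
        rw [abs_mul, abs_of_nonneg (by linarith : (0 : ℝ) ≤ 1 + β)]
      have h3 : |g i| + (∑ j ∈ F1, w j.1 * |g j| + (∑ j ∈ F2, w j.1 * |g j| + β)) ≤ 1 := by
        have hd1 : Disjoint F2 B' := Finset.sdiff_disjoint
        have hd2 : Disjoint F1 (F2 ∪ B') := by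
          rw [Finset.disjoint_left]
          intro j hj hj'
          have hj1 := (Finset.mem_filter.1 hj).2
          rcases Finset.mem_union.1 hj' with h | h
          · exact (Finset.mem_filter.1 (Finset.mem_sdiff.1 h).1).2 hj1
          · rw [((hmemB' j).1 h).1] at hj1
            exact lt_irrefl _ hj1
        rw [hβ', ← Finset.sum_union hd1, ← Finset.sum_union hd2]
        apply hg i
        intro j hj
        rcases Finset.mem_union.1 hj with h | h
        · exact hF j (Finset.mem_filter.1 h).1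
        · rcases Finset.mem_union.1 h with h | h
          · exact hF j (Finset.mem_filter.1 (Finset.mem_sdiff.1 h).1).1
          · rw [((hmemB' j).1 h).1]; exact hi
      have h4 : 0 ≤ ∑ j ∈ F2, w j.1 * |g j| :=
        Finset.sum_nonneg fun i _ => mul_nonneg (w_pos _).le (abs_nonneg _)
      rw [h1, h2]
      nlinarith
    · refine le_trans ?_ (hg i F hF)
      refine add_le_add ?_ (Finset.sum_le_sum fun j hj => ?_)
      · simp only [g2, if_neg hi, g']
        split_ifs
        · simp
        · exact le_rfl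
      · have := hF j hj
        have h5 : ¬ j.1 < k := by omega
        refine mul_le_mul_of_nonneg_left ?_ (w_pos _).le
        simp only [g2, if_neg h5, g']
        split_ifs
        · simp
        · exact le_rfl
  -- identities
  have I1 : ev ⟨g, hg⟩ x = ev ⟨g', hg'⟩ x + ∑ i ∈ B, g (k, i) * co x (k, i) := by
    have := vanish (Φ := ev ⟨g, hg⟩ - ev ⟨g', hg'⟩ - ∑ i ∈ B, (g (k, i)) •
      ev ⟨dl (k, i), dl_mem _⟩) (fun i => by
        simp only [_root_.sub_apply, _root_.sum_apply, _root_.smul_apply, ev_e, dl, smul_eq_mul]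
        by_cases h : i ∈ B'
        · have h2 := (hmemB' i).1 h
          simp only [g', if_pos h]
          rw [Finset.sum_eq_single i.2]
          · have : i = (k, i.2) := Prod.ext h2.1 rfl
            rw [if_pos this, mul_one, ← this]
            ring
          · intro b _ hb
            rw [if_neg, mul_zero]
            rintro rfl
            exact hb rfl
          · intro h'; exact absurd h2.2 h'
        · simp only [g', if_neg h]
          rw [Finset.sum_eq_zero]
          · ring
          · intro b hb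
            rw [if_neg, mul_zero]
            rintro rfl
            exact h ((hmemB' _).2 ⟨rfl, hb⟩)) hx
    simp only [_root_.sub_apply, _root_.sum_apply, _root_.smul_apply, smul_eq_mul] at this
    have h2 : ∑ i ∈ B, g (k, i) * co x (k, i) =
      ∑ i ∈ B, g (k, i) * ev ⟨dl (k, i), dl_mem _⟩ x := rfl
    rw [h2]
    linarith
  have I2 : ev ⟨g2, hg2⟩ x = ev ⟨g', hg'⟩ x + β * ev ⟨gl, hgl⟩ x := by
    have := vanish (Φ := ev ⟨g2, hg2⟩ - ev ⟨g', hg'⟩ - β • ev ⟨gl, hgl⟩) (fun i => by
        simp only [_root_.sub_apply, _root_.smul_apply, ev_e, smul_eq_mul, g2, gl]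
        split_ifs with h
        · have : i ∉ B' := by
            intro h2
            rw [((hmemB' i).1 h2).1] at h
            exact lt_irrefl _ h
          simp only [g', if_neg this]
          ring
        · ring) hx
    simp only [_root_.sub_apply, _root_.smul_apply, smul_eq_mul] at this
    linarith
  have I3 : ev ⟨g, hg⟩ y = ev ⟨gl, hgl⟩ y := by
    have := vanishY (K := K) (Φ := ev ⟨g, hg⟩ - ev ⟨gl, hgl⟩) (fun i hi => by
        simp only [_root_.sub_apply, ev_e, gl]
        rw [if_pos (lt_of_lt_of_le hi hk), sub_self]) hy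
    simp only [_root_.sub_apply] at this
    linarith
  -- estimates
  have E0 : ev ⟨g, hg⟩ (x + zv B k θ) = ev ⟨g, hg⟩ x + ∑ i ∈ B, (w k / 4 * θ i) * g (k, i) := by
    rw [map_add]
    congr 1
    unfold zv
    rw [map_sum]
    refine Finset.sum_congr rfl fun i _ => ?_
    rw [map_smul, ev_e, smul_eq_mul]
  have E1 : ∑ i ∈ B, (w k / 4 * θ i) * g (k, i) ≤ β / 4 := by
    rw [hβ, Finset.sum_div]
    refine Finset.sum_le_sum fun i _ => ?_
    have h1 : θ i * g (k, i) ≤ |g (k, i)| := by
      calc θ i * g (k, i) ≤ |θ i * g (k, i)| := le_abs_self _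
        _ = |θ i| * |g (k, i)| := abs_mul _ _
        _ ≤ 1 * |g (k, i)| := mul_le_mul_of_nonneg_right (hθ i) (abs_nonneg _)
        _ = |g (k, i)| := one_mul _
    have := w_pos k
    nlinarith
  have E2 : ∑ i ∈ B, g (k, i) * co x (k, i) ≤ β / 4 := by
    rw [hβ, Finset.sum_div]
    refine Finset.sum_le_sum fun i hi => ?_
    have h2 : |co x (k, i)| ≤ w k / 4 := by
      rw [hB, good, Finset.mem_filter] at hi
      exact hi.2
    calc g (k, i) * co x (k, i) ≤ |g (k, i) * co x (k, i)| := le_abs_self _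
      _ = |g (k, i)| * |co x (k, i)| := abs_mul _ _
      _ ≤ |g (k, i)| * (w k / 4) := mul_le_mul_of_nonneg_left h2 (abs_nonneg _)
      _ = w k * |g (k, i)| / 4 := by ring
  rw [E0]
  by_cases hτ : 1 / 2 ≤ ev ⟨gl, hgl⟩ x
  · have h1 : ev ⟨g2, hg2⟩ x ≤ 1 := (le_abs_self _).trans ((ev_le _ _).trans hx1)
    rw [I2] at h1
    rw [I1]
    nlinarith
  · push Not at hτ
    have h1 : |ev ⟨g, hg⟩ (x - y)| ≤ 1 / 8 := (ev_le _ _).trans hxy
    have h2 : |ev ⟨gl, hgl⟩ (x - y)| ≤ 1 / 8 := (ev_le _ _).trans hxy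
    rw [map_sub] at h1 h2
    have h3 := (abs_le.1 h1).2
    have h4 := (abs_le.1 h2).1
    linarith

end Pool.Agent.H590R3.PropB
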