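import Pool.Agent.H590R3.PropB2

set_option autoImplicit false

namespace Pool.Agent.H590R3.PropB

open Finset

/-- signs given by a finite set -/
noncomputable def sg (s : Finset ℕ) (i : ℕ) : ℝ := if i ∈ s then 1 else -1

lemma abs_sg (s : Finset ℕ) (i : ℕ) : |sg s i| = 1 := by
  unfold sg; split_ifs <;> simp

lemma sum_sq (t : Finset ℕ) (a : ℕ → ℝ) :
    ∑ s ∈ t.powerset, (∑ i ∈ t, sg s i * a i) ^ 2 = 2 ^ t.card * ∑ i ∈ t, a i ^ 2 := by
  induction t using Finset.induction_on with
  | empty => simp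
  | insert b t hb ih =>
    rw [Finset.sum_powerset_insert hb, Finset.card_insert_of_notMem hb]
    have h1 : ∀ s ∈ t.powerset, ∑ i ∈ insert b t, sg s i * a i = (∑ i ∈ t, sg s i * a i) - a b := by
      intro s hs
      rw [Finset.sum_insert hb]
      have : b ∉ s := fun h => hb (Finset.mem_powerset.1 hs h)
      have h2 : sg s b = -1 := by unfold sg; rw [if_neg this]
      rw [h2]; ring
    have h2 : ∀ s ∈ t.powerset, ∑ i ∈ insert b t, sg (insert b s) i * a i =
        (∑ i ∈ t, sg s i * a i) + a b := by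
      intro s hs
      rw [Finset.sum_insert hb]
      have h3 : sg (insert b s) b = 1 := by unfold sg; rw [if_pos (Finset.mem_insert_self _ _)]
      have h4 : ∑ i ∈ t, sg (insert b s) i * a i = ∑ i ∈ t, sg s i * a i := by
        refine Finset.sum_congr rfl fun i hi => ?_
        have hib : i ≠ b := by rintro rfl; exact hb hi
        have : sg (insert b s) i = sg s i := by
          unfold sg
          simp [Finset.mem_insert, hib]
        rw [this]
      rw [h3, h4]; ring
    rw [Finset.sum_congr rfl (fun s hs => by rw [h1 s hs] :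
      ∀ s ∈ t.powerset, (∑ i ∈ insert b t, sg s i * a i) ^ 2 = ((∑ i ∈ t, sg s i * a i) - a b) ^ 2)]
    rw [Finset.sum_congr rfl (fun s hs => by rw [h2 s hs] :
      ∀ s ∈ t.powerset, (∑ i ∈ insert b t, sg (insert b s) i * a i) ^ 2 =
        ((∑ i ∈ t, sg s i * a i) + a b) ^ 2)]
    rw [← Finset.sum_add_distrib]
    have h5 : ∀ s ∈ t.powerset, ((∑ i ∈ t, sg s i * a i) - a b) ^ 2 +
        ((∑ i ∈ t, sg s i * a i) + a b) ^ 2 = 2 * (∑ i ∈ t, sg s i * a i) ^ 2 + 2 * a b ^ 2 := by
      intro s _; ring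
    rw [Finset.sum_congr rfl h5, Finset.sum_add_distrib, ← Finset.mul_sum, ih, Finset.sum_const,
      Finset.card_powerset, Finset.sum_insert hb, nsmul_eq_mul]
    push_cast
    ring

/-- Rademacher block estimate -/
lemma block_bound (n : ℕ) (σ : Finset ℕ → ℝ) (hσ : ∀ s, |σ s| ≤ 1) :
    ∑ i ∈ range n, |(1 / 2 : ℝ) ^ n * ∑ s ∈ (range n).powerset, σ s * sg s i| ≤ Real.sqrt n := by
  set c : ℕ → ℝ := fun i => (1 / 2 : ℝ) ^ n * ∑ s ∈ (range n).powerset, σ s * sg s i with hc
  set t : ℕ → ℝ := fun i => (SignType.sign (c i) : ℝ) with ht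
  have ht1 : ∀ i, |t i| ≤ 1 := by
    intro i
    simp only [ht]
    rcases lt_trichotomy (c i) 0 with h0 | h0 | h0
    · simp [sign_neg h0]
    · simp [h0]
    · simp [sign_pos h0]
  have h1 : ∑ i ∈ range n, |c i| = (1 / 2 : ℝ) ^ n *
      ∑ s ∈ (range n).powerset, σ s * ∑ i ∈ range n, sg s i * t i := by
    have : ∀ i ∈ range n, |c i| = (1 / 2 : ℝ) ^ n * ∑ s ∈ (range n).powerset,
        σ s * (sg s i * t i) := by
      intro i _
      rw [← sign_mul_self (c i)]
      change t i * c i = _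
      simp only [hc]
      rw [Finset.mul_sum, Finset.mul_sum, Finset.mul_sum]
      refine Finset.sum_congr rfl fun s _ => ?_
      ring
    rw [Finset.sum_congr rfl this, ← Finset.mul_sum, Finset.sum_comm]
    congr 1
    refine Finset.sum_congr rfl fun s _ => ?_
    rw [Finset.mul_sum]
  have h2 : ∑ s ∈ (range n).powerset, σ s * ∑ i ∈ range n, sg s i * t i ≤
      ∑ s ∈ (range n).powerset, |∑ i ∈ range n, sg s i * t i| := by
    refine Finset.sum_le_sum fun s _ => ?_
    calc σ s * ∑ i ∈ range n, sg s i * t i ≤ |σ s * ∑ i ∈ range n, sg s i * t i| := le_abs_self _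
      _ = |σ s| * |∑ i ∈ range n, sg s i * t i| := abs_mul _ _
      _ ≤ 1 * |∑ i ∈ range n, sg s i * t i| := mul_le_mul_of_nonneg_right (hσ s) (abs_nonneg _)
      _ = _ := one_mul _
  have h3 : (∑ s ∈ (range n).powerset, |∑ i ∈ range n, sg s i * t i|) ^ 2 ≤
      (2 ^ n) * ((2 ^ n) * (n : ℝ)) := by
    have h4 := sq_sum_le_card_mul_sum_sq (s := (range n).powerset)
      (f := fun s => |∑ i ∈ range n, sg s i * t i|)
    refine h4.trans ?_
    rw [Finset.card_powerset, Finset.card_range]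
    push_cast
    refine mul_le_mul_of_nonneg_left ?_ (by positivity)
    simp only [sq_abs]
    rw [sum_sq, Finset.card_range]
    refine mul_le_mul_of_nonneg_left ?_ (by positivity)
    calc ∑ i ∈ range n, t i ^ 2 ≤ ∑ i ∈ range n, (1 : ℝ) := by
          refine Finset.sum_le_sum fun i _ => ?_
          rw [← sq_abs]
          exact pow_le_one₀ (abs_nonneg _) (ht1 i)
      _ = n := by simp
  have h4 : ∑ s ∈ (range n).powerset, |∑ i ∈ range n, sg s i * t i| ≤ 2 ^ n * Real.sqrt n := by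
    have h5 : (2 ^ n * Real.sqrt n) ^ 2 = (2 ^ n) * ((2 ^ n) * (n : ℝ)) := by
      rw [mul_pow, Real.sq_sqrt (Nat.cast_nonneg n)]; ring
    rw [← h5] at h3
    exact le_of_sq_le_sq h3 (by positivity)
  rw [h1]
  calc (1 / 2 : ℝ) ^ n * ∑ s ∈ (range n).powerset, σ s * ∑ i ∈ range n, sg s i * t i
      ≤ (1 / 2 : ℝ) ^ n * (2 ^ n * Real.sqrt n) :=
        mul_le_mul_of_nonneg_left (h2.trans h4) (by positivity)
    _ = Real.sqrt n := by
        rw [← mul_assoc, ← mul_pow]; norm_num

end Pool.Agent.H590R3.PropB
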