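import Pool.Agent.H590R3.PropB3

set_option autoImplicit false

namespace Pool.Agent.H590R3.PropB

open Finset

/-- Coordinates of the operator. -/
noncomputable def cc (p : ℕ × Finset ℕ) : Amb →L[ℝ] ℝ :=
  if p.2 ⊆ range (nn p.1) then
    ((1 / 2 : ℝ) ^ (nn p.1)) • ∑ i ∈ range (nn p.1), (sg p.2 i) • ev ⟨dl (p.1, i), dl_mem _⟩
  else 0

lemma cc_apply_e {k : ℕ} {s : Finset ℕ} (hs : s ⊆ range (nn k)) (j : ℕ × ℕ) :
    cc (k, s) (e j) = if j.1 = k ∧ j.2 ∈ range (nn k) then (1 / 2 : ℝ) ^ (nn k) * sg s j.2 else 0 := by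
  unfold cc
  rw [if_pos hs]
  simp only [_root_.smul_apply, _root_.sum_apply, ev_e, dl, smul_eq_mul]
  split_ifs with h
  · rw [Finset.sum_eq_single j.2]
    · have : j = (k, j.2) := Prod.ext h.1 rfl
      rw [if_pos this, mul_one]
    · intro b _ hb
      rw [if_neg, mul_zero]
      rintro rfl
      exact hb rfl
    · intro h'; exact absurd h.2 h'
  · rw [Finset.sum_eq_zero, mul_zero]
    intro b hb
    rw [if_neg, mul_zero]
    rintro rfl
    exact h ⟨rfl, hb⟩

lemma sqrt_nn (k : ℕ) : Real.sqrt (nn k) = 2 ^ (k + 6) := by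
  unfold nn
  push_cast
  rw [show (4 : ℝ) ^ (k + 6) = (2 ^ (k + 6)) ^ 2 by
    rw [← pow_mul, mul_comm (k + 6) 2, pow_mul]; norm_num]
  exact Real.sqrt_sq (by positivity)

lemma w_sqrt (k : ℕ) : w k * Real.sqrt (nn k) = (1 / 2) ^ (k + 1) := by
  rw [sqrt_nn]
  unfold w
  rw [show 2 * k + 7 = (k + 1) + (k + 6) by ring, pow_add, mul_assoc, ← mul_pow]
  norm_num

lemma sum_geo (K : Finset ℕ) : ∑ k ∈ K, (1 / 2 : ℝ) ^ (k + 1) ≤ 1 := by
  have h1 : Summable (fun k : ℕ => (1 / 2 : ℝ) ^ (k + 1)) := by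
    simpa [pow_succ] using (summable_geometric_two).mul_right (1 / 2 : ℝ)
  have h2 := h1.sum_le_tsum K (fun _ _ => by positivity)
  have h3 : ∑' k : ℕ, (1 / 2 : ℝ) ^ (k + 1) = 1 := by
    simp only [pow_succ]
    rw [tsum_mul_right, tsum_geometric_two]
    norm_num
  rw [h3] at h2
  exact h2

lemma sum_cc {x : Amb} (hx : x ∈ XS) (K : Finset ℕ) :
    ∑ k ∈ K, ∑ s ∈ (range (nn k)).powerset, |cc (k, s) x| ≤ 2 * ‖x‖ := by
  let σ : ℕ → Finset ℕ → ℝ := fun k s => (SignType.sign (cc (k, s) x) : ℝ)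
  have hσ : ∀ k s, |σ k s| ≤ 1 := by
    intro k s
    simp only [σ]
    rcases lt_trichotomy (cc (k, s) x) 0 with h0 | h0 | h0
    · simp [sign_neg h0]
    · simp [h0]
    · simp [sign_pos h0]
  let q : ℕ × ℕ → ℝ := fun j => (1 / 2 : ℝ) ^ (nn j.1) *
    ∑ s ∈ (range (nn j.1)).powerset, σ j.1 s * sg s j.2
  let g : ℕ × ℕ → ℝ := fun j => if j.1 ∈ K ∧ j.2 ∈ range (nn j.1) then (1 / 2) * q j else 0
  have hq1 : ∀ j, |q j| ≤ 1 := by
    intro j
    simp only [q]
    rw [abs_mul, abs_of_pos (by positivity : (0 : ℝ) < (1 / 2) ^ (nn j.1))]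
    have h1 : |∑ s ∈ (range (nn j.1)).powerset, σ j.1 s * sg s j.2| ≤ 2 ^ (nn j.1) := by
      refine (Finset.abs_sum_le_sum_abs _ _).trans ?_
      calc ∑ s ∈ (range (nn j.1)).powerset, |σ j.1 s * sg s j.2|
          ≤ ∑ s ∈ (range (nn j.1)).powerset, (1 : ℝ) := by
            refine Finset.sum_le_sum fun s _ => ?_
            rw [abs_mul, abs_sg, mul_one]
            exact hσ _ _
        _ = 2 ^ (nn j.1) := by
            rw [Finset.sum_const, Finset.card_powerset, Finset.card_range, nsmul_eq_mul, mul_one]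
            push_cast; rfl
    calc (1 / 2 : ℝ) ^ (nn j.1) * |∑ s ∈ (range (nn j.1)).powerset, σ j.1 s * sg s j.2|
        ≤ (1 / 2 : ℝ) ^ (nn j.1) * 2 ^ (nn j.1) := mul_le_mul_of_nonneg_left h1 (by positivity)
      _ = 1 := by rw [← mul_pow]; norm_num
  have hg1 : ∀ j, |g j| ≤ 1 / 2 := by
    intro j
    simp only [g]
    split_ifs
    · rw [abs_mul, abs_of_pos (by norm_num : (0 : ℝ) < 1 / 2)]
      linarith [hq1 j]
    · simp
  set S : Finset (ℕ × ℕ) := (K.sigma (fun k => range (nn k))).image (fun p => (p.1, p.2)) with hS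
  have hmemS : ∀ j : ℕ × ℕ, j ∈ S ↔ (j.1 ∈ K ∧ j.2 ∈ range (nn j.1)) := by
    intro j
    rw [hS, Finset.mem_image]
    constructor
    · rintro ⟨⟨a, b⟩, hab, rfl⟩
      rw [Finset.mem_sigma] at hab
      exact hab
    · intro h
      exact ⟨⟨j.1, j.2⟩, Finset.mem_sigma.2 h, rfl⟩
  have hsum : ∑ j ∈ S, w j.1 * |g j| ≤ 1 / 2 := by
    rw [hS, Finset.sum_image (by
      rintro ⟨a, b⟩ _ ⟨c, d⟩ _ h
      simp only [Prod.mk.injEq] at h
      obtain ⟨rfl, rfl⟩ := h
      rfl), Finset.sum_sigma]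
    calc ∑ k ∈ K, ∑ i ∈ range (nn k), w k * |g (k, i)|
        = ∑ k ∈ K, (1 / 2) * (w k * ∑ i ∈ range (nn k), |q (k, i)|) := by
          refine Finset.sum_congr rfl fun k hk => ?_
          rw [Finset.mul_sum, Finset.mul_sum]
          refine Finset.sum_congr rfl fun i hi => ?_
          simp only [g]
          rw [if_pos ⟨hk, hi⟩, abs_mul, abs_of_pos (by norm_num : (0 : ℝ) < 1 / 2)]
          ring
      _ ≤ ∑ k ∈ K, (1 / 2) * ((1 / 2) ^ (k + 1)) := by
          refine Finset.sum_le_sum fun k _ => ?_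
          refine mul_le_mul_of_nonneg_left ?_ (by norm_num)
          rw [← w_sqrt]
          refine mul_le_mul_of_nonneg_left ?_ (w_pos _).le
          exact block_bound (nn k) (σ k) (hσ k)
      _ = (1 / 2) * ∑ k ∈ K, (1 / 2 : ℝ) ^ (k + 1) := by rw [Finset.mul_sum]
      _ ≤ 1 / 2 := by linarith [sum_geo K]
  have hg : g ∈ V := by
    intro i F _
    have h1 : ∑ j ∈ F, w j.1 * |g j| ≤ ∑ j ∈ S, w j.1 * |g j| := by
      calc ∑ j ∈ F, w j.1 * |g j| = ∑ j ∈ F.filter (fun j => j ∈ S), w j.1 * |g j| := by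
            symm
            refine Finset.sum_subset (Finset.filter_subset _ _) ?_
            intro j hj hj'
            have : j ∉ S := fun h => hj' (Finset.mem_filter.2 ⟨hj, h⟩)
            rw [hmemS] at this
            simp only [g]
            rw [if_neg this]
            simp
        _ ≤ _ := by
            refine Finset.sum_le_sum_of_subset_of_nonneg ?_ ?_
            · intro j hj
              exact (Finset.mem_filter.1 hj).2
            · intro j _ _
              exact mul_nonneg (w_pos _).le (abs_nonneg _)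
    linarith [hg1 i]
  have hev : ev ⟨g, hg⟩ x = (1 / 2) *
      ∑ k ∈ K, ∑ s ∈ (range (nn k)).powerset, σ k s * cc (k, s) x := by
    have := vanish (Φ := ev ⟨g, hg⟩ - (1 / 2 : ℝ) • ∑ k ∈ K,
        ∑ s ∈ (range (nn k)).powerset, (σ k s) • cc (k, s)) (fun j => by
        simp only [_root_.sub_apply, _root_.sum_apply, _root_.smul_apply, ev_e, smul_eq_mul]
        rw [sub_eq_zero]
        by_cases h : j.1 ∈ K ∧ j.2 ∈ range (nn j.1)
        · simp only [g]
          rw [if_pos h]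
          congr 1
          simp only [q]
          rw [Finset.sum_eq_single j.1, Finset.mul_sum]
          · refine Finset.sum_congr rfl fun s hs => ?_
            rw [cc_apply_e (Finset.mem_powerset.1 hs), if_pos ⟨rfl, h.2⟩]
            ring
          · intro k _ hk
            refine Finset.sum_eq_zero fun s hs => ?_
            rw [cc_apply_e (Finset.mem_powerset.1 hs), if_neg, mul_zero]
            rintro ⟨h1, _⟩
            exact hk h1.symm
          · intro h'; exact absurd h.1 h'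
        · simp only [g]
          rw [if_neg h, Finset.sum_eq_zero, mul_zero]
          intro k hk
          refine Finset.sum_eq_zero fun s hs => ?_
          rw [cc_apply_e (Finset.mem_powerset.1 hs), if_neg, mul_zero]
          rintro ⟨h1, h2⟩
          apply h
          rw [h1]
          exact ⟨hk, h2⟩) hx
    simp only [_root_.sub_apply, _root_.sum_apply, _root_.smul_apply, smul_eq_mul] at this
    linarith
  have h5 : ∑ k ∈ K, ∑ s ∈ (range (nn k)).powerset, |cc (k, s) x| =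
      ∑ k ∈ K, ∑ s ∈ (range (nn k)).powerset, σ k s * cc (k, s) x := by
    refine Finset.sum_congr rfl fun k _ => Finset.sum_congr rfl fun s _ => ?_
    exact (sign_mul_self _).symm
  rw [h5]
  have h6 := (le_abs_self _).trans (ev_le ⟨g, hg⟩ x)
  rw [hev] at h6
  linarith

/-- enumeration of the target coordinates -/
noncomputable def eq : ℕ ≃ ℕ × Finset ℕ := (Denumerable.eqv (ℕ × Finset ℕ)).symm

lemma sum_cc' {x : Amb} (hx : x ∈ XS) (N : Finset ℕ) : ∑ n ∈ N, |cc (eq n) x| ≤ 2 * ‖x‖ := by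
  classical
  set K : Finset ℕ := N.image (fun n => (eq n).1) with hK
  refine le_trans ?_ (sum_cc hx K)
  have h1 : ∑ n ∈ N, |cc (eq n) x| = ∑ p ∈ N.image eq, |cc p x| := by
    rw [Finset.sum_image]
    intro a _ b _ h
    exact eq.injective h
  rw [h1]
  have h2 : ∑ p ∈ N.image eq, |cc p x| =
      ∑ p ∈ (N.image eq).filter (fun p => p.2 ⊆ range (nn p.1)), |cc p x| := by
    symm
    refine Finset.sum_subset (Finset.filter_subset _ _) ?_
    intro p hp hp'
    have : ¬ p.2 ⊆ range (nn p.1) := fun h => hp' (Finset.mem_filter.2 ⟨hp, h⟩)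
    unfold cc
    rw [if_neg this]
    simp
  rw [h2, ← Finset.sum_sigma (s := K) (t := fun k => (range (nn k)).powerset)
    (f := fun p => |cc (p.1, p.2) x|)]
  have h3 : ∑ p ∈ K.sigma (fun k => (range (nn k)).powerset), |cc (p.1, p.2) x| =
      ∑ p ∈ (K.sigma (fun k => (range (nn k)).powerset)).image (fun p => (p.1, p.2)), |cc p x| := by
    rw [Finset.sum_image]
    rintro ⟨a, b⟩ _ ⟨c, d⟩ _ h
    simp only [Prod.mk.injEq] at h
    obtain ⟨rfl, rfl⟩ := h
    rfl
  rw [h3]
  refine Finset.sum_le_sum_of_subset_of_nonneg ?_ (fun _ _ _ => abs_nonneg _)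
  intro p hp
  obtain ⟨hp1, hp2⟩ := Finset.mem_filter.1 hp
  obtain ⟨n, hn, rfl⟩ := Finset.mem_image.1 hp1
  rw [Finset.mem_image]
  refine ⟨⟨(eq n).1, (eq n).2⟩, Finset.mem_sigma.2 ⟨?_, Finset.mem_powerset.2 hp2⟩, rfl⟩
  exact Finset.mem_image.2 ⟨n, hn, rfl⟩

end Pool.Agent.H590R3.PropB
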