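import Pool.Agent.H590R3.PropB4

set_option autoImplicit false

namespace Pool.Agent.H590R3.PropB

open Finset

lemma exists_near {E G : Type} [NormedAddCommGroup E] [NormedSpace ℝ E] [NormedAddCommGroup G]
    [NormedSpace ℝ G] {s : Set (E →L[ℝ] G)} (hs : Dense s) (T : E →L[ℝ] G) {ε : ℝ} (hε : 0 < ε) :
    ∃ S ∈ s, ‖S - T‖ < ε := by
  obtain ⟨S, hS, h⟩ := Metric.mem_closure_iff.1 (hs T) ε hε
  rw [dist_eq_norm, norm_sub_rev] at h
  exact ⟨S, hS, h⟩

section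

variable {F : ℕ → Type} [∀ n, NormedAddCommGroup (F n)] [∀ n, NormedSpace ℝ (F n)]

lemma one_toReal_pos : 0 < (1 : ENNReal).toReal := by simp

lemma sum_le_norm (b : lp F 1) (N : Finset ℕ) : ∑ n ∈ N, ‖b n‖ ≤ ‖b‖ := by
  have := lp.sum_rpow_le_norm_rpow one_toReal_pos b N
  simpa using this

lemma hasSum_norm (b : lp F 1) : HasSum (fun n => ‖b n‖) ‖b‖ := by
  have := lp.hasSum_norm one_toReal_pos b
  simpa using this

lemma rigid {a v : lp F 1} (h1 : ‖a + v‖ ≤ ‖a‖) (h2 : ‖a - v‖ ≤ ‖a‖) (n : ℕ) : ‖v n‖ ≤ ‖a n‖ := by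
  have h3 := ((hasSum_norm (a + v)).add (hasSum_norm (a - v))).sub ((hasSum_norm a).mul_left 2)
  have hpos : ∀ m, 0 ≤ ‖(a + v) m‖ + ‖(a - v) m‖ - 2 * ‖a m‖ := by
    intro m
    have h4 : (2 : ℝ) • a m = (a + v) m + (a - v) m := by
      rw [lp.coeFn_add, lp.coeFn_sub, Pi.add_apply, Pi.sub_apply, two_smul]
      abel
    have h5 : 2 * ‖a m‖ = ‖(2 : ℝ) • a m‖ := by rw [norm_smul]; norm_num
    rw [h5, h4]
    linarith [norm_add_le ((a + v) m) ((a - v) m)]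
  have h6 := le_hasSum h3 n (fun m _ => hpos m)
  have h7 : ‖(a + v) n‖ + ‖(a - v) n‖ ≤ 2 * ‖a n‖ := by linarith
  have h8 : (2 : ℝ) • v n = (a + v) n - (a - v) n := by
    rw [lp.coeFn_add, lp.coeFn_sub, Pi.add_apply, Pi.sub_apply, two_smul]
    abel
  have h9 : 2 * ‖v n‖ = ‖(2 : ℝ) • v n‖ := by rw [norm_smul]; norm_num
  have h10 := norm_sub_le ((a + v) n) ((a - v) n)
  rw [← h8, ← h9] at h10
  linarith

variable (f : ∀ n, F n) (hf : ∀ n, ‖f n‖ = 1)

include hf in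
lemma T_sum {x : Amb} (hx : x ∈ XS) (N : Finset ℕ) :
    ∑ n ∈ N, ‖cc (eq n) x • f n‖ ≤ 2 * ‖x‖ := by
  refine le_trans (le_of_eq ?_) (sum_cc' hx N)
  refine Finset.sum_congr rfl fun n _ => ?_
  rw [norm_smul, hf, mul_one, Real.norm_eq_abs]

include hf in
lemma T_mem (x : XS) : Memℓp (fun n => cc (eq n) (x : Amb) • f n) (1 : ENNReal) := by
  refine memℓp_gen' (C := 2 * ‖(x : Amb)‖) fun N => ?_
  simpa using T_sum f hf x.2 N

/-- The operator. -/
noncomputable def Top : XS →L[ℝ] lp F 1 :=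
  LinearMap.mkContinuous
    { toFun := fun x => ⟨fun n => cc (eq n) (x : Amb) • f n, T_mem f hf x⟩
      map_add' := fun x y => by
        ext n
        rw [lp.coeFn_add, Pi.add_apply]
        change cc (eq n) ((x : Amb) + (y : Amb)) • f n = _
        rw [map_add, add_smul]
      map_smul' := fun c x => by
        ext n
        rw [RingHom.id_apply, lp.coeFn_smul, Pi.smul_apply]
        change cc (eq n) (c • (x : Amb)) • f n = _
        rw [map_smul, smul_eq_mul, mul_smul] } 2 (fun x => by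
      refine lp.norm_le_of_forall_sum_le one_toReal_pos (by positivity) fun N => ?_
      have := T_sum f hf x.2 N
      simpa using this)

lemma Top_apply (x : XS) (n : ℕ) : (Top f hf x : lp F 1) n = cc (eq n) (x : Amb) • f n := rfl

lemma Top_norm_le : ‖Top f hf‖ ≤ 2 := LinearMap.mkContinuous_norm_le _ (by norm_num) _

/-- unit vector in `XS` -/
noncomputable def eX (i : ℕ × ℕ) : XS := ⟨e i, e_mem i⟩

omit [∀ n, NormedSpace ℝ (F n)] in
lemma eX_norm (i : ℕ × ℕ) : ‖eX i‖ ≤ 1 := norm_e_le i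

lemma XS_flat (x : XS) (hx : ‖x‖ ≤ 1) : ∃ k : ℕ, ∃ B : Finset ℕ, B ⊆ range (nn k) ∧
    31 ≤ w k * (B.card : ℝ) ∧ ∀ θ : ℕ → ℝ, (∀ i, |θ i| ≤ 1) →
      ‖x + ∑ i ∈ B, (w k / 4 * θ i) • eX (k, i)‖ ≤ 1 := by
  obtain ⟨K, y, hy, hxy⟩ := exists_YS x.2 (ε := 1 / 8) (by norm_num)
  refine ⟨K + 1, good (x : Amb) (K + 1), Finset.filter_subset _ _,
    good_card x.2 hy hxy.le (Nat.le_succ _), fun θ hθ => ?_⟩
  have h1 := flat x.2 hx hy hxy.le (Nat.le_succ K) (Nat.succ_pos _) θ hθ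
  have h2 : ((x + ∑ i ∈ good (x : Amb) (K + 1), (w (K + 1) / 4 * θ i) • eX (K + 1, i) : XS) : Amb) =
      x + zv (good (x : Amb) (K + 1)) (K + 1) θ := by
    rw [Submodule.coe_add, Submodule.coe_sum]
    rfl
  change ‖((x + ∑ i ∈ good (x : Amb) (K + 1), (w (K + 1) / 4 * θ i) • eX (K + 1, i) : XS) : Amb)‖ ≤ 1
  rw [h2]
  exact h1

theorem not_dense_abs {X : Type} [NormedAddCommGroup X] [NormedSpace ℝ X] (e : ℕ × ℕ → X)
    (he : ∀ i, ‖e i‖ ≤ 1) (T : X →L[ℝ] lp F 1) (hT : ‖T‖ ≤ 2)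
    (fd : ∀ n, F n →L[ℝ] ℝ) (hfd : ∀ n, ‖fd n‖ ≤ 1)
    (hTe : ∀ k, ∀ i ∈ range (nn k), ∀ s ∈ (range (nn k)).powerset,
      |fd (eq.symm (k, s)) ((T (e (k, i)) : lp F 1) (eq.symm (k, s)))| = (1 / 2 : ℝ) ^ (nn k))
    (hflat : ∀ x : X, ‖x‖ ≤ 1 → ∃ k : ℕ, ∃ B : Finset ℕ, B ⊆ range (nn k) ∧
      31 ≤ w k * (B.card : ℝ) ∧ ∀ θ : ℕ → ℝ, (∀ i, |θ i| ≤ 1) →
        ‖x + ∑ i ∈ B, (w k / 4 * θ i) • e (k, i)‖ ≤ 1) :
    ¬ Dense {T : X →L[ℝ] lp F 1 | ∃ x : X, ‖x‖ ≤ 1 ∧ ‖T x‖ = ‖T‖} := by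
  intro hdense
  obtain ⟨S, hTS, hS⟩ := exists_near hdense T (show (0 : ℝ) < 1 / 4 by norm_num)
  obtain ⟨x, hx1, hxS⟩ := hTS
  have hSn : ‖S‖ ≤ 9 / 4 := by
    have : S = T + (S - T) := by abel
    rw [this]
    refine (norm_add_le _ _).trans ?_
    linarith
  obtain ⟨k, B, hBsub, hcard, hfl⟩ := hflat x hx1
  -- flatness
  have hflat : ∀ θ : ℕ → ℝ, (∀ i, |θ i| ≤ 1) → ∀ n,
      ‖(S (∑ i ∈ B, (w k / 4 * θ i) • e (k, i)) : lp F 1) n‖ ≤ ‖(S x : lp F 1) n‖ := by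
    intro θ hθ n
    apply rigid
    · rw [← map_add]
      refine (S.le_opNorm _).trans ?_
      rw [hxS]
      exact mul_le_of_le_one_right (norm_nonneg _) (hfl θ hθ)
    · rw [← map_sub]
      refine (S.le_opNorm _).trans ?_
      have h1 : ‖x - ∑ i ∈ B, (w k / 4 * θ i) • e (k, i)‖ ≤ 1 := by
        have := hfl (fun i => - θ i) (fun i => by rw [abs_neg]; exact hθ i)
        have h2 : ∑ i ∈ B, (w k / 4 * - θ i) • e (k, i) = - ∑ i ∈ B, (w k / 4 * θ i) • e (k, i) := by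
          rw [← Finset.sum_neg_distrib]
          refine Finset.sum_congr rfl fun i _ => ?_
          rw [mul_neg, neg_smul]
        rw [h2, ← sub_eq_add_neg] at this
        exact this
      rw [hxS]
      exact mul_le_of_le_one_right (norm_nonneg _) h1
  -- coordinatewise consequence
  have hcoord : ∀ n, ∑ i ∈ B, w k / 4 * |fd n ((S (e (k, i)) : lp F 1) n)| ≤
      ‖(S x : lp F 1) n‖ := by
    intro n
    set θ : ℕ → ℝ := fun i => (SignType.sign (fd n ((S (e (k, i)) : lp F 1) n)) : ℝ) with hθdef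
    have hθ : ∀ i, |θ i| ≤ 1 := by
      intro i
      simp only [hθdef]
      rcases lt_trichotomy (fd n ((S (e (k, i)) : lp F 1) n)) 0 with h0 | h0 | h0
      · simp [sign_neg h0]
      · simp [h0]
      · simp [sign_pos h0]
    refine le_trans ?_ (hflat θ hθ n)
    rw [map_sum]
    have h2 : ((∑ i ∈ B, S ((w k / 4 * θ i) • e (k, i)) : lp F 1) : ∀ n, F n) n =
        ∑ i ∈ B, (w k / 4 * θ i) • ((S (e (k, i)) : lp F 1) n) := by
      rw [lp.coeFn_sum, Finset.sum_apply]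
      refine Finset.sum_congr rfl fun i _ => ?_
      rw [map_smul]
      rfl
    rw [h2]
    have h3 : fd n (∑ i ∈ B, (w k / 4 * θ i) • ((S (e (k, i)) : lp F 1) n)) =
        ∑ i ∈ B, w k / 4 * |fd n ((S (e (k, i)) : lp F 1) n)| := by
      rw [map_sum]
      refine Finset.sum_congr rfl fun i _ => ?_
      rw [map_smul, smul_eq_mul, ← sign_mul_self (fd n ((S (e (k, i)) : lp F 1) n)), mul_assoc]
    rw [← h3]
    refine (le_abs_self _).trans ?_
    rw [← Real.norm_eq_abs]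
    refine ((fd n).le_opNorm _).trans ?_
    exact mul_le_of_le_one_left (norm_nonneg _) (hfd n)
  -- sum over the block
  classical
  set N : Finset ℕ := ((range (nn k)).powerset).image (fun s => eq.symm (k, s)) with hN
  have hlow : ∀ i ∈ B, 3 / 4 ≤ ∑ n ∈ N, |fd n ((S (e (k, i)) : lp F 1) n)| := by
    intro i hi
    have hi' : i ∈ range (nn k) := hBsub hi
    have h1 : ∑ n ∈ N, |fd n ((T (e (k, i)) : lp F 1) n)| = 1 := by
      rw [hN, Finset.sum_image (by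
        intro a _ b _ h
        have := eq.symm.injective h
        simpa using this)]
      rw [Finset.sum_congr rfl (hTe k i hi'), Finset.sum_const, Finset.card_powerset,
        Finset.card_range, nsmul_eq_mul]
      push_cast
      rw [← mul_pow]; norm_num
    have h2 : ∑ n ∈ N, ‖((S - T) (e (k, i)) : lp F 1) n‖ ≤ 1 / 4 := by
      refine (sum_le_norm _ N).trans ?_
      refine ((S - T).le_opNorm _).trans ?_
      calc ‖S - T‖ * ‖e (k, i)‖ ≤ ‖S - T‖ * 1 :=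
            mul_le_mul_of_nonneg_left (he _) (norm_nonneg _)
        _ ≤ 1 / 4 := by rw [mul_one]; exact hS.le
    have h4 : ∑ n ∈ N, |fd n ((T (e (k, i)) : lp F 1) n)| ≤
        ∑ n ∈ N, (|fd n ((S (e (k, i)) : lp F 1) n)| + ‖((S - T) (e (k, i)) : lp F 1) n‖) := by
      refine Finset.sum_le_sum fun n _ => ?_
      have h5 : (T (e (k, i)) : lp F 1) n =
          (S (e (k, i)) : lp F 1) n - ((S - T) (e (k, i)) : lp F 1) n := by
        rw [_root_.sub_apply, lp.coeFn_sub, Pi.sub_apply]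
        abel
      rw [h5, map_sub]
      refine (abs_sub _ _).trans ?_
      refine add_le_add le_rfl ?_
      rw [← Real.norm_eq_abs]
      refine ((fd n).le_opNorm _).trans ?_
      exact mul_le_of_le_one_left (norm_nonneg _) (hfd n)
    rw [Finset.sum_add_distrib, h1] at h4
    linarith
  have hup : ∑ n ∈ N, ∑ i ∈ B, w k / 4 * |fd n ((S (e (k, i)) : lp F 1) n)| ≤ 9 / 4 := by
    refine (Finset.sum_le_sum fun n _ => hcoord n).trans ?_
    refine (sum_le_norm _ N).trans ?_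
    rw [hxS]; exact hSn
  rw [Finset.sum_comm] at hup
  have hlow2 : ∑ i ∈ B, (w k / 4 * (3 / 4)) ≤
      ∑ i ∈ B, ∑ n ∈ N, w k / 4 * |fd n ((S (e (k, i)) : lp F 1) n)| := by
    refine Finset.sum_le_sum fun i hi => ?_
    rw [← Finset.mul_sum]
    refine mul_le_mul_of_nonneg_left (hlow i hi) ?_
    have := w_pos k
    positivity
  rw [Finset.sum_const, nsmul_eq_mul] at hlow2
  linarith

include hf in
theorem not_dense (fd : ∀ n, F n →L[ℝ] ℝ) (hfd : ∀ n, ‖fd n‖ ≤ 1) (hfd1 : ∀ n, fd n (f n) = 1) :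
    ¬ Dense {T : XS →L[ℝ] lp F 1 | ∃ x : XS, ‖x‖ ≤ 1 ∧ ‖T x‖ = ‖T‖} := by
  refine not_dense_abs eX eX_norm (Top f hf) (Top_norm_le f hf) fd hfd ?_ XS_flat
  intro k i hi s hs
  rw [Top_apply, map_smul, hfd1, smul_eq_mul, mul_one, Equiv.apply_symm_apply]
  change |cc (k, s) (PropB.e (k, i))| = _
  rw [cc_apply_e (Finset.mem_powerset.1 hs), if_pos ⟨rfl, hi⟩, abs_mul, abs_sg, mul_one,
    abs_of_pos (by positivity)]

end

end Pool.Agent.H590R3.PropB
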