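import Mathlib

set_option autoImplicit false

namespace Pool.Agent.H590R3.RC

open Filter Topology

/-- The numerical radius of an operator on a real Banach space. -/
noncomputable def numRadius {X : Type*} [NormedAddCommGroup X] [NormedSpace ℝ X]
    (T : X →L[ℝ] X) : ℝ :=
  sSup {r : ℝ | ∃ (x : X) (f : X →L[ℝ] ℝ), ‖x‖ = 1 ∧ ‖f‖ = 1 ∧ f x = 1 ∧ r = |f (T x)|}

/-- The numerical index of a real Banach space. -/
noncomputable def numIndex (X : Type*) [NormedAddCommGroup X] [NormedSpace ℝ X] : ℝ :=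
  sInf {r : ℝ | ∃ T : X →L[ℝ] X, ‖T‖ = 1 ∧ r = numRadius T}

section basic

variable {X : Type*} [NormedAddCommGroup X] [NormedSpace ℝ X]

lemma bddAbove_num (T : X →L[ℝ] X) :
    BddAbove {r : ℝ | ∃ (x : X) (f : X →L[ℝ] ℝ), ‖x‖ = 1 ∧ ‖f‖ = 1 ∧ f x = 1 ∧ r = |f (T x)|} := by
  refine ⟨‖T‖, ?_⟩
  rintro r ⟨x, f, hx, hf, _, rfl⟩
  calc |f (T x)| ≤ ‖f‖ * ‖T x‖ := f.le_opNorm _
    _ ≤ 1 * (‖T‖ * ‖x‖) := by rw [hf]; exact mul_le_mul_of_nonneg_left (T.le_opNorm _) zero_le_one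
    _ = ‖T‖ := by rw [hx]; ring

lemma le_numRadius (T : X →L[ℝ] X) {x : X} {f : X →L[ℝ] ℝ} (hx : ‖x‖ = 1) (hf : ‖f‖ = 1)
    (hfx : f x = 1) : |f (T x)| ≤ numRadius T :=
  le_csSup (bddAbove_num T) ⟨x, f, hx, hf, hfx, rfl⟩

lemma numRadius_nonneg (T : X →L[ℝ] X) : 0 ≤ numRadius T :=
  Real.sSup_nonneg (by rintro r ⟨x, f, _, _, _, rfl⟩; exact abs_nonneg _)

lemma numRadius_le {T : X →L[ℝ] X} {C : ℝ} (hC : 0 ≤ C)
    (h : ∀ (x : X) (f : X →L[ℝ] ℝ), ‖x‖ = 1 → ‖f‖ = 1 → f x = 1 → |f (T x)| ≤ C) :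
    numRadius T ≤ C :=
  Real.sSup_le (by rintro r ⟨x, f, h1, h2, h3, rfl⟩; exact h x f h1 h2 h3) hC

lemma numRadius_le_norm (T : X →L[ℝ] X) : numRadius T ≤ ‖T‖ :=
  numRadius_le (norm_nonneg _) fun x f hx hf _ => by
    calc |f (T x)| ≤ ‖f‖ * ‖T x‖ := f.le_opNorm _
      _ ≤ 1 * (‖T‖ * ‖x‖) := by
        rw [hf]; exact mul_le_mul_of_nonneg_left (T.le_opNorm _) zero_le_one
      _ = ‖T‖ := by rw [hx]; ring

lemma numIndex_eq_zero {T : X →L[ℝ] X} (hT : T ≠ 0) (hv : numRadius T = 0) :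
    numIndex X = 0 := by
  have hn : ‖T‖ ≠ 0 := norm_ne_zero_iff.2 hT
  refine le_antisymm ?_ (Real.sInf_nonneg (by rintro r ⟨S, _, rfl⟩; exact numRadius_nonneg S))
  refine csInf_le ⟨0, by rintro r ⟨S, _, rfl⟩; exact numRadius_nonneg S⟩
    ⟨‖T‖⁻¹ • T, ?_, ?_⟩
  · rw [norm_smul, norm_inv, norm_norm, inv_mul_cancel₀ hn]
  · symm
    refine le_antisymm (numRadius_le le_rfl fun x f hx hf hfx => ?_) (numRadius_nonneg _)
    have h1 := le_numRadius T hx hf hfx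
    rw [hv] at h1
    have h2 : f (T x) = 0 := abs_eq_zero.1 (le_antisymm h1 (abs_nonneg _))
    have h3 : f ((‖T‖⁻¹ • T) x) = ‖T‖⁻¹ * f (T x) := by
      rw [_root_.smul_apply, map_smul, smul_eq_mul]
    rw [h3, h2, mul_zero, abs_zero]

lemma numIndex_eq_one [Nontrivial X] (h : ∀ T : X →L[ℝ] X, ‖T‖ ≤ numRadius T) :
    numIndex X = 1 := by
  have h1 : {r : ℝ | ∃ T : X →L[ℝ] X, ‖T‖ = 1 ∧ r = numRadius T} = {1} := by
    ext r
    constructor
    · rintro ⟨T, hT, rfl⟩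
      have h1 := h T
      have h2 := numRadius_le_norm T
      rw [hT] at h1 h2
      exact le_antisymm h2 h1
    · rintro rfl
      refine ⟨ContinuousLinearMap.id ℝ X, ContinuousLinearMap.norm_id, ?_⟩
      have h1 := h (ContinuousLinearMap.id ℝ X)
      have h2 := numRadius_le_norm (ContinuousLinearMap.id ℝ X)
      rw [ContinuousLinearMap.norm_id] at h1 h2
      exact le_antisymm h1 h2
  unfold numIndex
  rw [h1, csInf_singleton]

/-- if `‖x + t T x‖ ≤ (1 + c t²) ‖x‖`, the numerical radius vanishes -/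
lemma numRadius_eq_zero {T : X →L[ℝ] X} {c : ℝ}
    (h : ∀ (t : ℝ) (x : X), ‖x‖ = 1 → ‖x + t • T x‖ ≤ 1 + c * t ^ 2) : numRadius T = 0 := by
  refine le_antisymm (numRadius_le le_rfl fun x f hx hf hfx => ?_) (numRadius_nonneg _)
  have h1 : ∀ t : ℝ, t * f (T x) ≤ c * t ^ 2 := by
    intro t
    have h2 : f (x + t • T x) ≤ 1 + c * t ^ 2 := by
      refine (le_abs_self _).trans ((f.le_opNorm _).trans ?_)
      rw [hf, one_mul]
      exact h t x hx
    rw [map_add, hfx, map_smul, smul_eq_mul] at h2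
    linarith
  set a := f (T x) with ha
  by_contra hne
  push Not at hne
  have ha0 : a ≠ 0 := by
    intro h0; rw [h0, abs_zero] at hne; exact lt_irrefl _ hne
  have hc : 0 ≤ c := by nlinarith [h1 1, h1 (-1)]
  have h2 := h1 (a / (2 * (c + 1)))
  have h3 : 0 < a ^ 2 := by positivity
  have h4 : a / (2 * (c + 1)) * a = a ^ 2 / (2 * (c + 1)) := by ring
  have h5 : c * (a / (2 * (c + 1))) ^ 2 = a ^ 2 / (2 * (c + 1)) * (c / (2 * (c + 1))) := by
    field_simp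
  rw [h4, h5] at h2
  have h6 : 0 < a ^ 2 / (2 * (c + 1)) := by positivity
  have h7 : c / (2 * (c + 1)) < 1 := by
    rw [div_lt_one (by positivity)]; linarith
  nlinarith

/-- If `|f(Tx)| ≤ v` then `‖x + α T x‖ ≤ (1 + α²‖T‖²) / (1 - α v)`. -/
lemma norm_add_le_of_numRadius (T : X →L[ℝ] X) {α : ℝ} (hα : 0 ≤ α)
    (hαv : α * numRadius T < 1) {x : X} (hx : ‖x‖ ≤ 1) :
    ‖x + α • T x‖ * (1 - α * numRadius T) ≤ 1 + α ^ 2 * ‖T‖ ^ 2 := by
  have key : ∀ z : X, (1 - α * numRadius T) * ‖z‖ ≤ ‖z - α • T z‖ := by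
    intro z
    by_cases hz : z = 0
    · rw [hz]; simp
    obtain ⟨f, hf, hfz⟩ := exists_dual_vector ℝ z (norm_ne_zero_iff.2 hz)
    have hz0 : 0 < ‖z‖ := norm_pos_iff.2 hz
    have h1 := le_numRadius T (x := ‖z‖⁻¹ • z) (f := f)
      (by rw [norm_smul, norm_inv, norm_norm, inv_mul_cancel₀ hz0.ne']) hf
      (by rw [map_smul, hfz, smul_eq_mul]; exact inv_mul_cancel₀ hz0.ne')
    have h2 : f (T (‖z‖⁻¹ • z)) = ‖z‖⁻¹ * f (T z) := by
      rw [map_smul, map_smul, smul_eq_mul]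
    rw [h2, abs_mul, abs_of_pos (inv_pos.2 hz0), inv_mul_le_iff₀ hz0] at h1
    have h3 : f (z - α • T z) ≤ ‖z - α • T z‖ := by
      refine (le_abs_self _).trans ((f.le_opNorm _).trans ?_)
      rw [hf, one_mul]
    rw [map_sub, hfz, map_smul, smul_eq_mul] at h3
    have h4 : α * f (T z) ≤ α * (‖z‖ * numRadius T) :=
      mul_le_mul_of_nonneg_left ((le_abs_self _).trans h1) hα
    have h5 : ((‖z‖ : ℝ) : ℝ) - α * f (T z) ≤ ‖z - α • T z‖ := h3
    nlinarith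
  have h1 := key (x + α • T x)
  have h2 : (x + α • T x) - α • T (x + α • T x) = x - (α ^ 2) • T (T x) := by
    rw [map_add, map_smul, smul_add, smul_smul, ← sq]
    abel
  rw [h2] at h1
  have h3 : ‖x - (α ^ 2) • T (T x)‖ ≤ 1 + α ^ 2 * ‖T‖ ^ 2 := by
    refine (norm_sub_le _ _).trans (add_le_add hx ?_)
    rw [norm_smul, Real.norm_of_nonneg (by positivity)]
    refine mul_le_mul_of_nonneg_left ?_ (by positivity)
    calc ‖T (T x)‖ ≤ ‖T‖ * ‖T x‖ := T.le_opNorm _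
      _ ≤ ‖T‖ * (‖T‖ * ‖x‖) := mul_le_mul_of_nonneg_left (T.le_opNorm _) (norm_nonneg _)
      _ ≤ ‖T‖ * (‖T‖ * 1) :=
        mul_le_mul_of_nonneg_left (mul_le_mul_of_nonneg_left hx (norm_nonneg _)) (norm_nonneg _)
      _ = ‖T‖ ^ 2 := by ring
  linarith [mul_comm (1 - α * numRadius T) ‖x + α • T x‖]

end basic

section dual

variable {E X : Type*} [NormedAddCommGroup E] [NormedSpace ℝ E]
  [NormedAddCommGroup X] [NormedSpace ℝ X]

lemma dual_norm_ge (Φ : E ≃ₗᵢ[ℝ] (X →L[ℝ] ℝ)) (e : E) (x : X) (hx : ‖x‖ ≤ 1) :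
    |Φ e x| ≤ ‖e‖ := by
  have := (Φ e).le_opNorm x
  rw [Φ.norm_map] at this
  calc |Φ e x| ≤ ‖e‖ * ‖x‖ := this
    _ ≤ ‖e‖ * 1 := mul_le_mul_of_nonneg_left hx (norm_nonneg _)
    _ = ‖e‖ := mul_one _

lemma dual_norm_le (Φ : E ≃ₗᵢ[ℝ] (X →L[ℝ] ℝ)) (e : E) {C : ℝ} (hC : 0 ≤ C)
    (h : ∀ x : X, ‖x‖ ≤ 1 → |Φ e x| ≤ C) : ‖e‖ ≤ C := by
  rw [← Φ.norm_map]
  refine ContinuousLinearMap.opNorm_le_bound _ hC fun x => ?_
  by_cases hx : x = 0
  · rw [hx]; simp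
  have hx0 : 0 < ‖x‖ := norm_pos_iff.2 hx
  have h1 := h (‖x‖⁻¹ • x) (by rw [norm_smul, norm_inv, norm_norm, inv_mul_cancel₀ hx0.ne'])
  rw [map_smul, smul_eq_mul, abs_mul, abs_of_pos (inv_pos.2 hx0), inv_mul_le_iff₀ hx0] at h1
  rw [mul_comm]
  exact h1

lemma pre_norm_le (Φ : E ≃ₗᵢ[ℝ] (X →L[ℝ] ℝ)) (x : X) {C : ℝ} (hC : 0 ≤ C)
    (h : ∀ e : E, ‖e‖ ≤ 1 → |Φ e x| ≤ C) : ‖x‖ ≤ C := by
  by_cases hx : x = 0
  · rw [hx, norm_zero]; exact hC
  obtain ⟨f, hf, hfx⟩ := exists_dual_vector ℝ x (norm_ne_zero_iff.2 hx)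
  have h1 := h (Φ.symm f) (by rw [Φ.symm.norm_map, hf])
  rw [Φ.apply_symm_apply, hfx] at h1
  exact (le_abs_self _).trans h1

/-- numerical radius of the adjoint is at most that of the operator. -/
lemma numRadius_adjoint_le (Φ : E ≃ₗᵢ[ℝ] (X →L[ℝ] ℝ)) (T : X →L[ℝ] X) (S : E →L[ℝ] E)
    (hS : ∀ e x, Φ (S e) x = Φ e (T x)) : numRadius S ≤ numRadius T := by
  set v := numRadius T with hv
  have hv0 : 0 ≤ v := numRadius_nonneg T
  -- norm estimate for the adjoint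
  have key : ∀ α : ℝ, 0 ≤ α → α * v < 1 → ∀ e : E, ‖e‖ ≤ 1 → ∀ s : ℝ, |s| = 1 →
      ‖e + (s * α) • S e‖ * (1 - α * v) ≤ 1 + α ^ 2 * ‖T‖ ^ 2 := by
    intro α hα hαv e he s hs
    have h1 : 0 < 1 - α * v := by linarith
    rw [← le_div_iff₀ h1]
    refine dual_norm_le Φ _ (by positivity) fun x hx => ?_
    have hTs : numRadius (s • T) ≤ v := by
      refine numRadius_le hv0 fun x f hx hf hfx => ?_
      rw [_root_.smul_apply, map_smul, smul_eq_mul, abs_mul, hs, one_mul]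
      exact le_numRadius T hx hf hfx
    have h2 : Φ (e + (s * α) • S e) x = Φ e (x + α • (s • T) x) := by
      have e1 : Φ (e + (s * α) • S e) x = Φ e x + (s * α) * Φ (S e) x := by
        rw [map_add, map_smul]
        rfl
      have e2 : Φ e (x + α • (s • T) x) = Φ e x + α * (s * Φ e (T x)) := by
        rw [map_add, map_smul, _root_.smul_apply, map_smul, smul_eq_mul, smul_eq_mul]
      rw [e1, e2, hS]; ring
    rw [h2]
    have h3 : |Φ e (x + α • (s • T) x)| ≤ ‖x + α • (s • T) x‖ := by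
      calc |Φ e (x + α • (s • T) x)| ≤ ‖Φ e‖ * ‖x + α • (s • T) x‖ := (Φ e).le_opNorm _
        _ ≤ 1 * ‖x + α • (s • T) x‖ := by
          rw [Φ.norm_map]; exact mul_le_mul_of_nonneg_right he (norm_nonneg _)
        _ = _ := one_mul _
    refine h3.trans ?_
    rw [le_div_iff₀ h1]
    have h4 : α * numRadius (s • T) < 1 :=
      lt_of_le_of_lt (mul_le_mul_of_nonneg_left hTs hα) hαv
    have h5 := norm_add_le_of_numRadius (s • T) hα h4 hx
    have h6 : ‖s • T‖ = ‖T‖ := by rw [norm_smul, Real.norm_eq_abs, hs, one_mul]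
    rw [h6] at h5
    refine le_trans ?_ h5
    refine mul_le_mul_of_nonneg_left ?_ (norm_nonneg _)
    have := mul_le_mul_of_nonneg_left hTs hα
    linarith
  refine numRadius_le hv0 fun e f he hf hfe => ?_
  -- for a sign `s` with `s f(Se) = |f(Se)|`
  obtain ⟨s, hs, hsa⟩ : ∃ s : ℝ, |s| = 1 ∧ |f (S e)| = s * f (S e) := by
    by_cases h : 0 ≤ f (S e)
    · exact ⟨1, by simp, by rw [abs_of_nonneg h, one_mul]⟩
    · push Not at h
      exact ⟨-1, by simp, by rw [abs_of_neg h]; ring⟩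
  set a := |f (S e)| with ha
  by_contra hcon
  push Not at hcon
  -- (1 + α a)(1 - α v) ≤ 1 + α² ‖T‖²
  have h1 : ∀ α : ℝ, 0 ≤ α → α * v < 1 → (1 + α * a) * (1 - α * v) ≤ 1 + α ^ 2 * ‖T‖ ^ 2 := by
    intro α hα hαv
    refine le_trans ?_ (key α hα hαv e he.le s hs)
    refine mul_le_mul_of_nonneg_right ?_ (by linarith)
    have h2 : f (e + (s * α) • S e) = 1 + α * a := by
      rw [map_add, hfe, map_smul, smul_eq_mul, hsa]; ring
    rw [← h2]
    refine (le_abs_self _).trans ((f.le_opNorm _).trans ?_)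
    rw [hf, one_mul]
  have ha0 : 0 ≤ a := abs_nonneg _
  set δ := a - v with hδ
  have hδ0 : 0 < δ := by linarith
  -- choose α small
  set M := a * v + ‖T‖ ^ 2 + 1 + v with hM
  have hM0 : 0 < M := by positivity
  have hvM : v < M := by
    have : 0 ≤ a * v := mul_nonneg ha0 hv0
    have : 0 ≤ ‖T‖ ^ 2 := by positivity
    linarith
  obtain ⟨α, hα0, hα1, hα2⟩ : ∃ α : ℝ, 0 < α ∧ α * M < 1 ∧ α * M < δ := by
    refine ⟨min 1 δ / (2 * M), by positivity, ?_, ?_⟩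
    · have : min 1 δ / (2 * M) * M = min 1 δ / 2 := by field_simp
      rw [this]
      have := min_le_left 1 δ
      linarith
    · have : min 1 δ / (2 * M) * M = min 1 δ / 2 := by field_simp
      rw [this]
      have := min_le_right 1 δ
      linarith
  have h3 := h1 α hα0.le (lt_of_le_of_lt (mul_le_mul_of_nonneg_left hvM.le hα0.le) hα1)
  have h4 : α * δ ≤ α ^ 2 * (a * v + ‖T‖ ^ 2) := by
    have : (1 + α * a) * (1 - α * v) = 1 + α * δ - α ^ 2 * (a * v) := by rw [hδ]; ring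
    rw [this] at h3
    nlinarith
  have h5 : δ ≤ α * (a * v + ‖T‖ ^ 2) := by
    have : α * δ ≤ α * (α * (a * v + ‖T‖ ^ 2)) := by rw [← mul_assoc, ← sq]; exact h4
    exact le_of_mul_le_mul_left this hα0
  have h6 : α * (a * v + ‖T‖ ^ 2) ≤ α * M :=
    mul_le_mul_of_nonneg_left (by linarith) hα0.le
  linarith

end dual

end Pool.Agent.H590R3.RC
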