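import Pool.Agent.H590R3.RC1

set_option autoImplicit false

namespace Pool.Agent.H590R3.RC

open Filter Topology

lemma real_est {g r : ℝ} (hg0 : 0 ≤ g) (hg1 : g ≤ 1) (hr : |r| ≤ 2) (N : ℕ) :
    N * (g * (1 - g * r ^ 2 / 4) ^ N * r) ^ 2 ≤ 4 := by
  have hr2 : r ^ 2 ≤ 4 := by
    have := sq_le_sq' (by linarith [(abs_le.1 hr).1] : -2 ≤ r) (abs_le.1 hr).2
    linarith
  set p := g * r ^ 2 / 4 with hp
  have hp0 : 0 ≤ p := by positivity
  have hp1 : p ≤ 1 := by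
    have : g * r ^ 2 ≤ 1 * 4 := mul_le_mul hg1 hr2 (sq_nonneg _) zero_le_one
    rw [hp]; linarith
  have h1p : 0 ≤ 1 - p := by linarith
  have hpow0 : 0 ≤ (1 - p) ^ N := pow_nonneg h1p N
  have hpow1 : (1 - p) ^ N ≤ 1 := pow_le_one₀ h1p (by linarith)
  -- N p (1-p)^N ≤ 1
  have hb : N * p * (1 - p) ^ N ≤ 1 := by
    have h1 : 1 + (N : ℝ) * p ≤ (1 + p) ^ N := one_add_mul_le_pow (by linarith) N
    have h2 : (1 - p) ^ N * (1 + p) ^ N ≤ 1 := by
      rw [← mul_pow]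
      refine pow_le_one₀ (by positivity) ?_
      nlinarith
    nlinarith [mul_le_mul_of_nonneg_left h1 hpow0]
  have h2 : (g * (1 - p) ^ N * r) ^ 2 = g * (4 * p) * ((1 - p) ^ N) ^ 2 := by
    rw [hp]; ring
  rw [h2]
  have h3 : ((1 - p) ^ N) ^ 2 ≤ (1 - p) ^ N := by nlinarith
  calc (N : ℝ) * (g * (4 * p) * ((1 - p) ^ N) ^ 2)
      ≤ N * (1 * (4 * p) * (1 - p) ^ N) := by
        refine mul_le_mul_of_nonneg_left ?_ (Nat.cast_nonneg _)
        refine mul_le_mul ?_ h3 (sq_nonneg _) (by positivity)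
        exact mul_le_mul_of_nonneg_right hg1 (by positivity)
    _ = 4 * (N * p * (1 - p) ^ N) := by ring
    _ ≤ 4 * 1 := by linarith
    _ = 4 := by ring

section CK

variable {K E : Type*} [TopologicalSpace K] [CompactSpace K] [NormedAddCommGroup E]
  [NormedSpace ℝ E]

lemma norm_le_numRadius_of_CK (ι : E →ₗᵢ[ℝ] C(K, ℝ)) (hmul : ∀ a b : E, ∃ c, ι c = ι a * ι b)
    (T : E →L[ℝ] E) : ‖T‖ ≤ numRadius T := by
  by_contra hcon
  push Not at hcon
  set v := numRadius T with hv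
  have hv0 : 0 ≤ v := numRadius_nonneg T
  have hT0 : 0 < ‖T‖ := lt_of_le_of_lt hv0 hcon
  obtain ⟨ε, hε0, hε⟩ : ∃ ε : ℝ, 0 < ε ∧ v + 2 * ε * ‖T‖ < ‖T‖ := by
    refine ⟨(‖T‖ - v) / (4 * ‖T‖), div_pos (by linarith) (by positivity), ?_⟩
    have : 2 * ((‖T‖ - v) / (4 * ‖T‖)) * ‖T‖ = (‖T‖ - v) / 2 := by field_simp; ring
    rw [this]; linarith
  have hε1 : ε < 1 / 2 := by nlinarith
  -- an almost norming vector
  obtain ⟨x, hx1, hx2⟩ : ∃ x : E, ‖x‖ ≤ 1 ∧ (1 - ε) * ‖T‖ < ‖T x‖ := by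
    by_contra hno
    push Not at hno
    have h1 : ‖T‖ ≤ (1 - ε) * ‖T‖ := by
      refine ContinuousLinearMap.opNorm_le_bound _ (mul_nonneg (by linarith) hT0.le) fun x => ?_
      by_cases hx : x = 0
      · rw [hx]; simp
      have hx0 : 0 < ‖x‖ := norm_pos_iff.2 hx
      have h2 := hno (‖x‖⁻¹ • x) (by rw [norm_smul, norm_inv, norm_norm, inv_mul_cancel₀ hx0.ne'])
      rw [map_smul, norm_smul, norm_inv, norm_norm, inv_mul_le_iff₀ hx0] at h2
      linarith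
    nlinarith
  set y := T x with hy
  set σ := ‖y‖ with hσ
  have hσ0 : 0 < σ := lt_trans (mul_pos (by linarith) hT0) hx2
  -- a peak point
  have hK : Nonempty K := by
    by_contra hK
    rw [not_nonempty_iff] at hK
    have : ι y = 0 := by ext t; exact hK.elim t
    rw [← ι.norm_map, this, norm_zero] at hσ
    exact hσ0.ne' hσ
  obtain ⟨t0, ht0⟩ : ∃ t0 : K, |ι y t0| = σ := by
    obtain ⟨t0, ht0⟩ := (isCompact_univ (X := K)).exists_isMaxOn ⟨hK.some, trivial⟩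
      ((ι y).continuous.abs.continuousOn)
    refine ⟨t0, le_antisymm ?_ ?_⟩
    · rw [hσ, ← ι.norm_map]; exact (ι y).norm_coe_le_norm t0
    · rw [hσ, ← ι.norm_map]
      exact (ContinuousMap.norm_le _ (abs_nonneg _)).2 fun t => ht0.2 (Set.mem_univ t)
  set x0 := ι x t0 with hx0
  have hιx : ∀ t, |ι x t| ≤ 1 := fun t => by
    have := (ι x).norm_coe_le_norm t
    rw [ι.norm_map] at this
    exact this.trans hx1
  have hx01 : |x0| ≤ 1 := hιx t0
  -- the function g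
  obtain ⟨g, hg⟩ : ∃ g : E, ∀ t, ι g t = (ι y t / σ) ^ 2 := by
    obtain ⟨c, hc⟩ := hmul y y
    refine ⟨(σ⁻¹ ^ 2) • c, fun t => ?_⟩
    rw [map_smul, hc]
    change σ⁻¹ ^ 2 * (ι y t * ι y t) = _
    field_simp
  have hg0 : ∀ t, 0 ≤ ι g t := fun t => by rw [hg]; positivity
  have hg1 : ∀ t, ι g t ≤ 1 := fun t => by
    rw [hg, sq_le_one_iff_abs_le_one, abs_div, abs_of_pos hσ0, div_le_one hσ0]
    have := (ι y).norm_coe_le_norm t
    rw [ι.norm_map] at this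
    exact this
  have hgt0 : ι g t0 = 1 := by
    rw [hg, div_pow, ← sq_abs, ht0, div_self (by positivity)]
  -- multiplication by `1 - u/4`
  have hstep : ∀ φ : E, ∃ ψ : E, ∀ t, ι ψ t = ι φ t * (1 - ι g t * (ι x t - x0) ^ 2 / 4) := by
    intro φ
    obtain ⟨φg, h1⟩ := hmul φ g
    obtain ⟨φgx, h2⟩ := hmul φg x
    obtain ⟨φgxx, h3⟩ := hmul φgx x
    refine ⟨φ - (1 / 4 : ℝ) • (φgxx - (2 * x0) • φgx + (x0 ^ 2) • φg), fun t => ?_⟩
    rw [map_sub, map_smul, map_add, map_sub, map_smul, map_smul, h3, h2, h1]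
    change ι φ t - 1 / 4 * ((ι φ t * ι g t * ι x t * ι x t) - 2 * x0 * (ι φ t * ι g t * ι x t)
      + x0 ^ 2 * (ι φ t * ι g t)) = _
    ring
  have hφ : ∀ N : ℕ, ∃ φ : E, ∀ t, ι φ t = ι g t * (1 - ι g t * (ι x t - x0) ^ 2 / 4) ^ N := by
    intro N
    induction N with
    | zero => exact ⟨g, fun t => by simp⟩
    | succ N ih =>
      obtain ⟨φ, h1⟩ := ih
      obtain ⟨ψ, h2⟩ := hstep φ
      exact ⟨ψ, fun t => by rw [h2, h1, pow_succ]; ring⟩
  obtain ⟨N, hN⟩ := exists_nat_gt (4 / ε ^ 2)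
  have hN0 : (0 : ℝ) < N := lt_of_le_of_lt (by positivity) hN
  obtain ⟨φ, hφ⟩ := hφ N
  have hr : ∀ t, |ι x t - x0| ≤ 2 := fun t => by
    calc |ι x t - x0| ≤ |ι x t| + |x0| := abs_sub _ _
      _ ≤ 2 := by linarith [hιx t]
  have hu : ∀ t, 0 ≤ 1 - ι g t * (ι x t - x0) ^ 2 / 4 ∧ 1 - ι g t * (ι x t - x0) ^ 2 / 4 ≤ 1 := by
    intro t
    have h1 : (ι x t - x0) ^ 2 ≤ 4 := by
      have := sq_le_sq' (by linarith [(abs_le.1 (hr t)).1] : -2 ≤ ι x t - x0) (abs_le.1 (hr t)).2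
      linarith
    have h2 : ι g t * (ι x t - x0) ^ 2 ≤ 1 * 4 := mul_le_mul (hg1 t) h1 (sq_nonneg _) zero_le_one
    have h3 : 0 ≤ ι g t * (ι x t - x0) ^ 2 := mul_nonneg (hg0 t) (sq_nonneg _)
    constructor <;> linarith
  have hφ0 : ∀ t, 0 ≤ ι φ t := fun t => by
    rw [hφ]; exact mul_nonneg (hg0 t) (pow_nonneg (hu t).1 N)
  have hφ1 : ∀ t, ι φ t ≤ 1 := fun t => by
    rw [hφ]
    exact mul_le_one₀ (hg1 t) (pow_nonneg (hu t).1 N) (pow_le_one₀ (hu t).1 (hu t).2)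
  have hφt0 : ι φ t0 = 1 := by
    rw [hφ, hgt0, ← hx0]; simp
  have hsmall : ∀ t, |ι φ t * (ι x t - x0)| ≤ ε := by
    intro t
    have h1 := real_est (hg0 t) (hg1 t) (hr t) N
    rw [← hφ t] at h1
    have h2 : (ι φ t * (ι x t - x0)) ^ 2 ≤ ε ^ 2 := by
      have h3 : 4 < N * ε ^ 2 := by
        rw [div_lt_iff₀ (by positivity)] at hN; exact hN
      by_contra h4
      push Not at h4
      nlinarith [mul_lt_mul_of_pos_left h4 hN0]
    exact abs_le_of_sq_le_sq h2 hε0.le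
  -- x1, x2
  obtain ⟨φx, hφx⟩ := hmul φ x
  have hφx' : ∀ t, ι φx t = ι φ t * ι x t := fun t => by rw [hφx]; rfl
  have hx1' : ∀ t, ι (x - φx + φ) t = (1 - ι φ t) * ι x t + ι φ t := fun t => by
    rw [map_add, map_sub]
    change ι x t - ι φx t + ι φ t = _
    rw [hφx']; ring
  have hx2' : ∀ t, ι (-(x - φx - φ)) t = -((1 - ι φ t) * ι x t) + ι φ t := fun t => by
    rw [map_neg, map_sub, map_sub]
    change -(ι x t - ι φx t - ι φ t) = _
    rw [hφx']; ring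
  have hn1 : ‖x - φx + φ‖ ≤ 1 := by
    rw [← ι.norm_map]
    refine (ContinuousMap.norm_le _ zero_le_one).2 fun t => ?_
    rw [hx1', Real.norm_eq_abs]
    have h1 := hφ0 t
    have h2 := hφ1 t
    calc |(1 - ι φ t) * ι x t + ι φ t| ≤ |(1 - ι φ t) * ι x t| + |ι φ t| := abs_add_le _ _
      _ = (1 - ι φ t) * |ι x t| + ι φ t := by
        rw [abs_mul, abs_of_nonneg (by linarith : 0 ≤ 1 - ι φ t), abs_of_nonneg h1]
      _ ≤ (1 - ι φ t) * 1 + ι φ t := by
        have := mul_le_mul_of_nonneg_left (hιx t) (by linarith : 0 ≤ 1 - ι φ t)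
        linarith
      _ = 1 := by ring
  have hn2 : ‖-(x - φx - φ)‖ ≤ 1 := by
    rw [← ι.norm_map]
    refine (ContinuousMap.norm_le _ zero_le_one).2 fun t => ?_
    rw [hx2', Real.norm_eq_abs]
    have h1 := hφ0 t
    have h2 := hφ1 t
    calc |-((1 - ι φ t) * ι x t) + ι φ t| ≤ |-((1 - ι φ t) * ι x t)| + |ι φ t| := abs_add_le _ _
      _ = (1 - ι φ t) * |ι x t| + ι φ t := by
        rw [abs_neg, abs_mul, abs_of_nonneg (by linarith : 0 ≤ 1 - ι φ t), abs_of_nonneg h1]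
      _ ≤ (1 - ι φ t) * 1 + ι φ t := by
        have := mul_le_mul_of_nonneg_left (hιx t) (by linarith : 0 ≤ 1 - ι φ t)
        linarith
      _ = 1 := by ring
  -- the functional
  let f : E →L[ℝ] ℝ := LinearMap.mkContinuous
    { toFun := fun e => ι e t0
      map_add' := fun a b => by rw [map_add]; rfl
      map_smul' := fun c a => by rw [map_smul]; rfl } 1 (fun e => by
        rw [one_mul, ← ι.norm_map]
        exact (ι e).norm_coe_le_norm t0)
  have hfapp : ∀ e, f e = ι e t0 := fun e => rfl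
  have hfle : ‖f‖ ≤ 1 := LinearMap.mkContinuous_norm_le _ zero_le_one _
  have hunit : ∀ e : E, ‖e‖ ≤ 1 → f e = 1 → |f (T e)| ≤ v := by
    intro e he hfe
    have h1 : 1 ≤ ‖f‖ * ‖e‖ := by
      have := f.le_opNorm e
      rw [hfe, norm_one] at this
      exact this
    have h2 : ‖f‖ = 1 := by
      refine le_antisymm hfle ?_
      calc 1 ≤ ‖f‖ * ‖e‖ := h1
        _ ≤ ‖f‖ * 1 := mul_le_mul_of_nonneg_left he (norm_nonneg _)
        _ = ‖f‖ := mul_one _
    have h3 : ‖e‖ = 1 := by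
      refine le_antisymm he ?_
      rwa [h2, one_mul] at h1
    exact le_numRadius T h3 h2 hfe
  have hf1 : |f (T (x - φx + φ))| ≤ v := hunit _ hn1 (by rw [hfapp, hx1', hφt0]; ring)
  have hf2 : |f (T (-(x - φx - φ)))| ≤ v := hunit _ hn2 (by rw [hfapp, hx2', hφt0]; ring)
  -- convex combination
  set lam := (1 + x0) / 2 with hlam
  have hl0 : 0 ≤ lam := by rw [hlam]; linarith [(abs_le.1 hx01).1]
  have hl1 : lam ≤ 1 := by rw [hlam]; linarith [(abs_le.1 hx01).2]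
  have hcomb : |f (T (lam • (x - φx + φ) - (1 - lam) • (-(x - φx - φ))))| ≤ v := by
    rw [map_sub, map_smul, map_smul, map_sub, map_smul, map_smul, smul_eq_mul, smul_eq_mul]
    calc |lam * f (T (x - φx + φ)) - (1 - lam) * f (T (-(x - φx - φ)))|
        ≤ |lam * f (T (x - φx + φ))| + |(1 - lam) * f (T (-(x - φx - φ)))| := abs_sub _ _
      _ = lam * |f (T (x - φx + φ))| + (1 - lam) * |f (T (-(x - φx - φ)))| := by
        rw [abs_mul, abs_mul, abs_of_nonneg hl0, abs_of_nonneg (by linarith : 0 ≤ 1 - lam)]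
      _ ≤ lam * v + (1 - lam) * v :=
        add_le_add (mul_le_mul_of_nonneg_left hf1 hl0)
          (mul_le_mul_of_nonneg_left hf2 (by linarith))
      _ = v := by ring
  have hdiff : ‖x - (lam • (x - φx + φ) - (1 - lam) • (-(x - φx - φ)))‖ ≤ ε := by
    rw [← ι.norm_map]
    refine (ContinuousMap.norm_le _ hε0.le).2 fun t => ?_
    have : ι (x - (lam • (x - φx + φ) - (1 - lam) • (-(x - φx - φ)))) t =
        ι φ t * (ι x t - x0) := by
      rw [map_sub, map_sub, map_smul, map_smul]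
      change ι x t - (lam * ι (x - φx + φ) t - (1 - lam) * ι (-(x - φx - φ)) t) = _
      rw [hx1', hx2', hlam]; ring
    rw [this]
    exact hsmall t
  have hfin : σ ≤ v + ‖T‖ * ε := by
    have h1 : σ = |f (T x)| := ht0.symm
    have h2 : f (T x) = f (T (lam • (x - φx + φ) - (1 - lam) • (-(x - φx - φ)))) +
        f (T (x - (lam • (x - φx + φ) - (1 - lam) • (-(x - φx - φ))))) := by
      rw [← map_add, ← map_add]
      congr 2
      abel
    rw [h1, h2]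
    refine (abs_add_le _ _).trans (add_le_add hcomb ?_)
    calc |f (T (x - (lam • (x - φx + φ) - (1 - lam) • (-(x - φx - φ)))))|
        ≤ ‖f‖ * ‖T (x - (lam • (x - φx + φ) - (1 - lam) • (-(x - φx - φ))))‖ := f.le_opNorm _
      _ ≤ 1 * (‖T‖ * ‖x - (lam • (x - φx + φ) - (1 - lam) • (-(x - φx - φ)))‖) :=
        mul_le_mul hfle (T.le_opNorm _) (norm_nonneg _) zero_le_one
      _ ≤ 1 * (‖T‖ * ε) := by
        rw [one_mul, one_mul]; exact mul_le_mul_of_nonneg_left hdiff (norm_nonneg _)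
      _ = ‖T‖ * ε := one_mul _
  nlinarith

end CK

end Pool.Agent.H590R3.RC
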