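import Mathlib

set_option autoImplicit false

namespace Pool.Agent.H590R3.RC

open Filter Topology

section

variable {𝔅 : Type*} [CStarAlgebra 𝔅]

/-- bounded families in `S` -/
def Fam (S : Submodule ℝ 𝔅) {I : Type*} (x : I → 𝔅) : Prop :=
  (∀ i, x i ∈ S) ∧ ∃ C : ℝ, ∀ i, ‖x i‖ ≤ C

/-- abstract norm-one limits of bounded families -/
structure Lim (S : Submodule ℝ 𝔅) (I : Type*) where
  P : (I → 𝔅) → 𝔅
  mem : ∀ x, Fam S x → P x ∈ S
  add : ∀ x y, Fam S x → Fam S y → P (fun i => x i + y i) = P x + P y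
  smul : ∀ (c : ℝ) x, Fam S x → P (fun i => c • x i) = c • P x
  const : ∀ a ∈ S, P (fun _ => a) = a
  norm_le : ∀ x (C : ℝ), 0 ≤ C → Fam S x → (∀ i, ‖x i‖ ≤ C) → ‖P x‖ ≤ C

/-- left multipliers -/
def Mult (S : Submodule ℝ 𝔅) (b : 𝔅) : Prop := ∀ a ∈ S, b * a ∈ S

variable {S : Submodule ℝ 𝔅} {I : Type*}

lemma Mult.one : Mult S 1 := fun a ha => by rwa [one_mul]

lemma Mult.add {b c : 𝔅} (hb : Mult S b) (hc : Mult S c) : Mult S (b + c) := fun a ha => by
  rw [add_mul]; exact S.add_mem (hb a ha) (hc a ha)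

lemma Mult.sub {b c : 𝔅} (hb : Mult S b) (hc : Mult S c) : Mult S (b - c) := fun a ha => by
  rw [sub_mul]; exact S.sub_mem (hb a ha) (hc a ha)

lemma Mult.smul {b : 𝔅} (r : ℝ) (hb : Mult S b) : Mult S (r • b) := fun a ha => by
  rw [smul_mul_assoc]; exact S.smul_mem r (hb a ha)

lemma Mult.mul {b c : 𝔅} (hb : Mult S b) (hc : Mult S c) : Mult S (b * c) := fun a ha => by
  rw [mul_assoc]; exact hb _ (hc a ha)

lemma Fam.mul {x : I → 𝔅} (hx : Fam S x) {b : 𝔅} (hb : Mult S b) : Fam S (fun i => b * x i) := by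
  obtain ⟨h1, C, hC⟩ := hx
  refine ⟨fun i => hb _ (h1 i), ‖b‖ * C, fun i => ?_⟩
  exact (norm_mul_le _ _).trans (mul_le_mul_of_nonneg_left (hC i) (norm_nonneg _))

lemma Fam.add {x y : I → 𝔅} (hx : Fam S x) (hy : Fam S y) : Fam S (fun i => x i + y i) := by
  obtain ⟨h1, C, hC⟩ := hx
  obtain ⟨h2, D, hD⟩ := hy
  exact ⟨fun i => S.add_mem (h1 i) (h2 i), C + D,
    fun i => (norm_add_le _ _).trans (add_le_add (hC i) (hD i))⟩

lemma Fam.smul {x : I → 𝔅} (hx : Fam S x) (c : ℝ) : Fam S (fun i => c • x i) := by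
  obtain ⟨h1, C, hC⟩ := hx
  refine ⟨fun i => S.smul_mem c (h1 i), |c| * C, fun i => ?_⟩
  rw [norm_smul, Real.norm_eq_abs]
  exact mul_le_mul_of_nonneg_left (hC i) (abs_nonneg _)

lemma Fam.const {a : 𝔅} (ha : a ∈ S) : Fam S (fun _ : I => a) := ⟨fun _ => ha, ‖a‖, fun _ => le_rfl⟩

lemma Lim.sub (L : Lim S I) {x y : I → 𝔅} (hx : Fam S x) (hy : Fam S y) :
    L.P (fun i => x i - y i) = L.P x - L.P y := by
  have h1 := L.add x (fun i => (-1 : ℝ) • y i) hx (hy.smul (-1))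
  rw [L.smul (-1) y hy] at h1
  have h2 : (fun i => x i + (-1 : ℝ) • y i) = fun i => x i - y i := by
    funext i; rw [neg_one_smul, sub_eq_add_neg]
  rw [h2, neg_one_smul, ← sub_eq_add_neg] at h1
  exact h1

/-! ### norm facts -/

lemma norm_add_sq_orth {u v : 𝔅} (h : star u * v = 0) : ‖u + v‖ ^ 2 ≤ ‖u‖ ^ 2 + ‖v‖ ^ 2 := by
  have h' : star v * u = 0 := by
    have := congrArg star h
    rwa [star_mul, star_star, star_zero] at this
  have e : star (u + v) * (u + v) = star u * u + star v * v := by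
    rw [star_add, add_mul, mul_add, mul_add, h, h', add_zero, zero_add]
  rw [sq, ← CStarRing.norm_star_mul_self, e, sq, sq, ← CStarRing.norm_star_mul_self,
    ← CStarRing.norm_star_mul_self]
  exact norm_add_le _ _

variable [PartialOrder 𝔅] [StarOrderedRing 𝔅]

lemma norm_lower {g y : 𝔅} (hg0 : 0 ≤ g) (hg1 : g ≤ 1) {t : ℝ} (ht : 0 ≤ t) :
    (1 + t) * ‖g * y‖ ≤ ‖y + t • (g * y)‖ := by
  have hgs : star g = g := (IsSelfAdjoint.of_nonneg hg0).star_eq
  have hg2 : g * g ≤ g := by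
    have := CStarAlgebra.pow_antitone hg0 hg1 (one_le_two)
    simpa [sq] using this
  have hkey : ((1 + t) • g) * ((1 + t) • g) ≤ (1 + t • g) * (1 + t • g) := by
    rw [← sub_nonneg]
    have e1 : (1 + t • g) * (1 + t • g) = 1 + (2 * t) • g + (t * t) • (g * g) := by
      rw [mul_add, mul_one, add_mul, one_mul, smul_mul_smul_comm]
      module
    have e2 : ((1 + t) • g) * ((1 + t) • g) = ((1 + t) * (1 + t)) • (g * g) := by
      rw [smul_mul_smul_comm]
    have e : (1 + t • g) * (1 + t • g) - ((1 + t) • g) * ((1 + t) • g) =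
        (1 - g) + (1 + 2 * t) • (g - g * g) := by
      rw [e1, e2]
      module
    rw [e]
    exact add_nonneg (sub_nonneg.2 hg1) (smul_nonneg (by positivity) (sub_nonneg.2 hg2))
  have h1 : star y * (((1 + t) • g) * ((1 + t) • g)) * y ≤ star y * ((1 + t • g) * (1 + t • g)) * y :=
    star_left_conjugate_le_conjugate hkey y
  have s1 : star ((1 + t) • (g * y)) * ((1 + t) • (g * y)) =
      star y * (((1 + t) • g) * ((1 + t) • g)) * y := by
    simp only [star_smul, star_mul, hgs, smul_mul_assoc, mul_smul_comm, mul_assoc,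
      TrivialStar.star_trivial]
  have s2 : star (y + t • (g * y)) * (y + t • (g * y)) =
      star y * ((1 + t • g) * (1 + t • g)) * y := by
    have : y + t • (g * y) = (1 + t • g) * y := by rw [add_mul, one_mul, smul_mul_assoc]
    rw [this, star_mul]
    have : star (1 + t • g) = 1 + t • g := by
      rw [star_add, star_one, star_smul, hgs, TrivialStar.star_trivial]
    rw [this]
    simp only [mul_assoc]
  have h2 : ‖(1 + t) • (g * y)‖ ^ 2 ≤ ‖y + t • (g * y)‖ ^ 2 := by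
    rw [sq, sq, ← CStarRing.norm_star_mul_self, ← CStarRing.norm_star_mul_self, s1, s2]
    refine CStarAlgebra.norm_le_norm_of_nonneg_of_le ?_ h1
    rw [← s1]
    exact star_mul_self_nonneg _
  have h3 := abs_le_of_sq_le_sq h2 (norm_nonneg _)
  rw [abs_of_nonneg (norm_nonneg _), norm_smul, Real.norm_of_nonneg (by positivity)] at h3
  exact h3

lemma T1 (L : Lim S I) {f g : 𝔅} (hf : Mult S f) (hg : Mult S g) (hg0 : 0 ≤ g) (hg1 : g ≤ 1)
    (hfg : star f * g = 0) {x : I → 𝔅} (hx : Fam S x) : g * L.P (fun i => f * x i) = 0 := by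
  have hfx := hx.mul hf
  set y := L.P (fun i => f * x i) with hy
  have hyS : y ∈ S := L.mem _ hfx
  set z := g * y with hz
  have hzS : z ∈ S := hg y hyS
  obtain ⟨C, hC⟩ := hfx.2
  set C' := max C 0 with hC'
  have hC0 : 0 ≤ C' := le_max_right _ _
  have hC1 : ∀ i, ‖f * x i‖ ≤ C' := fun i => (hC i).trans (le_max_left _ _)
  have key : ∀ t : ℝ, 0 ≤ t → (1 + t) ^ 2 * ‖z‖ ^ 2 ≤ C' ^ 2 + t ^ 2 * ‖z‖ ^ 2 := by
    intro t ht
    have htz : t • z ∈ S := S.smul_mem t hzS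
    have e1 : L.P (fun i => f * x i + t • z) = y + t • z := by
      rw [L.add _ _ hfx (Fam.const htz), L.const _ htz]
    have h2 : ‖y + t • z‖ ≤ Real.sqrt (C' ^ 2 + t ^ 2 * ‖z‖ ^ 2) := by
      rw [← e1]
      refine L.norm_le _ _ (Real.sqrt_nonneg _) (hfx.add (Fam.const htz)) fun i => ?_
      refine Real.le_sqrt_of_sq_le ?_
      have ho : star (f * x i) * (t • z) = 0 := by
        rw [star_mul, hz, mul_smul_comm, mul_assoc, ← mul_assoc (star f), hfg, zero_mul, mul_zero,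
          smul_zero]
      refine (norm_add_sq_orth ho).trans (add_le_add ?_ ?_)
      · exact pow_le_pow_left₀ (norm_nonneg _) (hC1 i) 2
      · rw [norm_smul, Real.norm_of_nonneg ht, mul_pow]
    have h3 := norm_lower (y := y) hg0 hg1 ht
    rw [← hz] at h3
    have h4 := h3.trans h2
    have h5 := pow_le_pow_left₀ (by positivity) h4 2
    rwa [Real.sq_sqrt (by positivity), mul_pow] at h5
  by_contra hne
  have hz0 : 0 < ‖z‖ ^ 2 := by
    have := norm_pos_iff.2 hne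
    positivity
  have h1 := key (C' ^ 2 / ‖z‖ ^ 2) (by positivity)
  have h2 : (1 + 2 * (C' ^ 2 / ‖z‖ ^ 2)) * ‖z‖ ^ 2 ≤ C' ^ 2 := by nlinarith
  have h3 : (1 + 2 * (C' ^ 2 / ‖z‖ ^ 2)) * ‖z‖ ^ 2 = ‖z‖ ^ 2 + 2 * C' ^ 2 := by
    field_simp
  rw [h3] at h2
  nlinarith [sq_nonneg C']

end

end Pool.Agent.H590R3.RC
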