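import Pool.Agent.H590R3.RC3

set_option autoImplicit false

namespace Pool.Agent.H590R3.RC

open Filter Topology

section

variable {𝔅 : Type*} [CStarAlgebra 𝔅]

/-- closed real star-subalgebras (possibly without the unit) -/
structure IsRCS (S : Submodule ℝ 𝔅) : Prop where
  closed : IsClosed (S : Set 𝔅)
  mul : ∀ a ∈ S, ∀ b ∈ S, a * b ∈ S
  star : ∀ a ∈ S, star a ∈ S

variable {S : Submodule ℝ 𝔅} {I : Type*}

lemma Mult.of_mem (hS : IsRCS S) {a : 𝔅} (ha : a ∈ S) : Mult S a := fun b hb => hS.mul a ha b hb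

/-- two sided star multipliers as a star subalgebra -/
def multAlg (S : Submodule ℝ 𝔅) : StarSubalgebra ℝ 𝔅 where
  carrier := {b | Mult S b ∧ Mult S (star b)}
  mul_mem' := by
    rintro a b ⟨h1, h2⟩ ⟨h3, h4⟩
    exact ⟨h1.mul h3, by rw [star_mul]; exact h4.mul h2⟩
  add_mem' := by
    rintro a b ⟨h1, h2⟩ ⟨h3, h4⟩
    exact ⟨h1.add h3, by rw [star_add]; exact h2.add h4⟩
  algebraMap_mem' := by
    intro r
    have h : Mult S (algebraMap ℝ 𝔅 r) := by
      rw [Algebra.algebraMap_eq_smul_one]; exact Mult.one.smul r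
    refine ⟨h, ?_⟩
    rw [Algebra.algebraMap_eq_smul_one, star_smul, star_one, TrivialStar.star_trivial]
    exact Mult.one.smul r
  star_mem' := by
    rintro a ⟨h1, h2⟩
    exact ⟨h2, by rw [star_star]; exact h1⟩

lemma multAlg_closed (hS : IsRCS S) : IsClosed (multAlg S : Set 𝔅) := by
  have h : (multAlg S : Set 𝔅) =
      (⋂ a ∈ S, {b | b * a ∈ S}) ∩ (⋂ a ∈ S, {b | star b * a ∈ S}) := by
    ext b
    simp only [Set.mem_inter_iff, Set.mem_iInter, Set.mem_ofPred_eq]
    exact Iff.rfl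
  rw [h]
  refine IsClosed.inter (isClosed_biInter fun a _ => ?_) (isClosed_biInter fun a _ => ?_)
  · exact hS.closed.preimage (by fun_prop : Continuous fun b : 𝔅 => b * a)
  · exact hS.closed.preimage (by fun_prop : Continuous fun b : 𝔅 => star b * a)

lemma Mult.cfc (hS : IsRCS S) {h : 𝔅} (hh : h ∈ S) (f : ℝ → ℝ) : Mult S (cfc f h) := by
  have := multAlg_closed hS
  have h1 : h ∈ multAlg S := ⟨Mult.of_mem hS hh, Mult.of_mem hS (hS.star h hh)⟩
  exact (cfc_mem (s := multAlg S) f h1).1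

/-- the defect of multiplicativity -/
noncomputable def D (L : Lim S I) (x : I → 𝔅) (F : 𝔅) : 𝔅 := L.P (fun i => F * x i) - F * L.P x

lemma D_add (L : Lim S I) {x : I → 𝔅} (hx : Fam S x) {F G : 𝔅} (hF : Mult S F) (hG : Mult S G) :
    D L x (F + G) = D L x F + D L x G := by
  unfold D
  have : (fun i => (F + G) * x i) = fun i => F * x i + G * x i := by funext i; rw [add_mul]
  rw [this, L.add _ _ (hx.mul hF) (hx.mul hG), add_mul]
  abel

lemma D_smul_one (L : Lim S I) {x : I → 𝔅} (hx : Fam S x) (c : ℝ) :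
    D L x (c • 1) = 0 := by
  unfold D
  have : (fun i => (c • (1 : 𝔅)) * x i) = fun i => c • x i := by
    funext i; rw [smul_mul_assoc, one_mul]
  rw [this, L.smul c x hx, smul_mul_assoc, one_mul, sub_self]

lemma D_norm (L : Lim S I) {x : I → 𝔅} (hx : Fam S x) {C : ℝ} (hC0 : 0 ≤ C)
    (hC : ∀ i, ‖x i‖ ≤ C) {F : 𝔅} (hF : Mult S F) : ‖D L x F‖ ≤ 2 * C * ‖F‖ := by
  unfold D
  have h1 : ‖L.P (fun i => F * x i)‖ ≤ ‖F‖ * C :=
    L.norm_le _ _ (by positivity) (hx.mul hF) fun i =>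
      (norm_mul_le _ _).trans (mul_le_mul_of_nonneg_left (hC i) (norm_nonneg _))
  have h2 : ‖F * L.P x‖ ≤ ‖F‖ * C :=
    (norm_mul_le _ _).trans (mul_le_mul_of_nonneg_left (L.norm_le _ _ hC0 hx hC) (norm_nonneg _))
  calc _ ≤ _ := norm_sub_le _ _
    _ ≤ ‖F‖ * C + ‖F‖ * C := add_le_add h1 h2
    _ = _ := by ring

variable [PartialOrder 𝔅] [StarOrderedRing 𝔅]

lemma D_orth (hS : IsRCS S) (L : Lim S I) {x : I → 𝔅} (hx : Fam S x) {h : 𝔅} (hh : h ∈ S)
    (hsa : IsSelfAdjoint h) {f g : ℝ → ℝ} (hf : Continuous f) (hg : Continuous g)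
    (hg0 : ∀ t, 0 ≤ g t) (hg1 : ∀ t, g t ≤ 1) (hfg : ∀ t, f t * g t = 0) :
    cfc g h * D L x (cfc f h) = 0 := by
  have hfg' : ∀ t, g t * f t = 0 := fun t => by rw [mul_comm]; exact hfg t
  unfold D
  have h1 : cfc g h * L.P (fun i => cfc f h * x i) = 0 := by
    refine T1 L (Mult.cfc hS hh f) (Mult.cfc hS hh g) (cfc_nonneg fun t _ => hg0 t)
      (cfc_le_one g h fun t _ => hg1 t) ?_ hx
    rw [(cfc_predicate f h : IsSelfAdjoint _).star_eq,
      ← cfc_mul f g h hf.continuousOn hg.continuousOn]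
    have : (fun t => f t * g t) = fun _ => 0 := funext hfg
    rw [this, cfc_const_zero]
  rw [mul_sub, h1, zero_sub, neg_eq_zero, ← mul_assoc,
    ← cfc_mul g f h hg.continuousOn hf.continuousOn]
  have : (fun t => g t * f t) = fun _ => 0 := funext hfg'
  rw [this, cfc_const_zero, zero_mul]

/-- clamp function -/
def clampf (a b : ℝ) (t : ℝ) : ℝ := max a (min t b)

lemma clampf_cont (a b : ℝ) : Continuous (clampf a b) := by unfold clampf; fun_prop

/-- the defect on an interval -/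
noncomputable def V (L : Lim S I) (x : I → 𝔅) (h : 𝔅) (a b : ℝ) : 𝔅 := D L x (cfc (clampf a b) h)

lemma V_eq (hS : IsRCS S) (L : Lim S I) {x : I → 𝔅} (hx : Fam S x) {h : 𝔅} (hh : h ∈ S)
    (hsa : IsSelfAdjoint h) (a b c : ℝ) :
    V L x h a b = D L x (cfc (fun t => clampf a b t - c) h) := by
  unfold V
  have h1 : cfc (fun t => clampf a b t - c) h = cfc (clampf a b) h - c • 1 := by
    rw [cfc_sub (clampf a b) (fun _ => c) h (clampf_cont a b).continuousOn
      continuous_const.continuousOn, cfc_const c h, Algebra.algebraMap_eq_smul_one]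
  have h2 : cfc (clampf a b) h = cfc (fun t => clampf a b t - c) h + c • 1 := by rw [h1]; abel
  rw [h2, D_add L hx (Mult.cfc hS hh _) (Mult.one.smul c), D_smul_one L hx, add_zero]

lemma V_add (hS : IsRCS S) (L : Lim S I) {x : I → 𝔅} (hx : Fam S x) {h : 𝔅} (hh : h ∈ S)
    (hsa : IsSelfAdjoint h) {a m b : ℝ} (h1 : a ≤ m) (h2 : m ≤ b) :
    V L x h a b = V L x h a m + V L x h m b := by
  rw [V_eq hS L hx hh hsa m b m]
  unfold V
  rw [← D_add L hx (Mult.cfc hS hh _) (Mult.cfc hS hh _),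
    ← cfc_add h (clampf a m) (fun t => clampf m b t - m) (clampf_cont a m).continuousOn
      ((clampf_cont m b).sub continuous_const).continuousOn]
  congr 2
  funext t
  unfold clampf
  rcases le_total t a with h3 | h3
  · rw [min_eq_left (h3.trans (h1.trans h2)), max_eq_left h3, min_eq_left (h3.trans h1),
      max_eq_left h3, max_eq_left (h3.trans h1)]
    ring
  · rcases le_total t m with h4 | h4
    · rw [min_eq_left (h4.trans h2), max_eq_right h3, min_eq_left h4, max_eq_right h3,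
        max_eq_left h4]
      ring
    · rw [min_eq_right h4, max_eq_right h1]
      have h5 : m ≤ min t b := le_min h4 h2
      rw [max_eq_right h5, max_eq_right (h1.trans h5)]
      ring

lemma V_norm (hS : IsRCS S) (L : Lim S I) {x : I → 𝔅} (hx : Fam S x) {C : ℝ} (hC0 : 0 ≤ C)
    (hC : ∀ i, ‖x i‖ ≤ C) {h : 𝔅} (hh : h ∈ S) (hsa : IsSelfAdjoint h) {a b : ℝ} (hab : a ≤ b) :
    ‖V L x h a b‖ ≤ 2 * C * (b - a) := by
  rw [V_eq hS L hx hh hsa a b a]
  refine (D_norm L hx hC0 hC (Mult.cfc hS hh _)).trans ?_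
  refine mul_le_mul_of_nonneg_left ?_ (by positivity)
  refine norm_cfc_le (by linarith) fun t _ => ?_
  have h1 : a ≤ clampf a b t := le_max_left _ _
  have h2 : clampf a b t ≤ b := max_le hab (min_le_right _ _)
  rw [Real.norm_of_nonneg (by linarith)]
  linarith

lemma V_gap (hS : IsRCS S) (L : Lim S I) {x : I → 𝔅} (hx : Fam S x) {h : 𝔅} (hh : h ∈ S)
    (hsa : IsSelfAdjoint h) {a c m b : ℝ} (h1 : a ≤ c) (h2 : c < m) (h3 : m ≤ b) :
    star (V L x h a c) * V L x h m b = 0 := by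
  -- the bump function
  let g : ℝ → ℝ := fun t => max 0 (min ((t - c) / (m - c)) 1)
  have hmc : 0 < m - c := by linarith
  have hg : Continuous g := by
    refine continuous_const.max (Continuous.min ?_ continuous_const)
    exact (continuous_id.sub continuous_const).div_const _
  have hg0 : ∀ t, 0 ≤ g t := fun t => le_max_left _ _
  have hg1 : ∀ t, g t ≤ 1 := fun t => max_le zero_le_one (min_le_right _ _)
  have hgc : ∀ t, t ≤ c → g t = 0 := by
    intro t ht
    refine max_eq_left ((min_le_left _ _).trans ?_)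
    exact div_nonpos_of_nonpos_of_nonneg (by linarith) hmc.le
  have hgm : ∀ t, m ≤ t → g t = 1 := by
    intro t ht
    have : 1 ≤ (t - c) / (m - c) := by rw [le_div_iff₀ hmc]; linarith
    change max 0 (min ((t - c) / (m - c)) 1) = 1
    rw [min_eq_right this, max_eq_right zero_le_one]
  set G := cfc g h with hG
  have hGs : star G = G := (cfc_predicate g h : IsSelfAdjoint _).star_eq
  have e1 : G * V L x h a c = 0 := by
    rw [V_eq hS L hx hh hsa a c c]
    refine D_orth hS L hx hh hsa ((clampf_cont a c).sub continuous_const) hg hg0 hg1 fun t => ?_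
    rcases le_total t c with ht | ht
    · rw [hgc t ht, mul_zero]
    · have : clampf a c t = c := by
        unfold clampf; rw [min_eq_right ht, max_eq_right h1]
      rw [this, sub_self, zero_mul]
  have e2 : (1 - G) * V L x h m b = 0 := by
    have hG' : (1 : 𝔅) - G = cfc (fun t => 1 - g t) h := by
      rw [cfc_sub (fun _ => (1 : ℝ)) g h continuous_const.continuousOn hg.continuousOn,
        cfc_const 1 h, map_one]
    rw [hG', V_eq hS L hx hh hsa m b m]
    refine D_orth hS L hx hh hsa ((clampf_cont m b).sub continuous_const)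
      (continuous_const.sub hg) (fun t => sub_nonneg.2 (hg1 t)) (fun t => by linarith [hg0 t])
      fun t => ?_
    rcases le_total t m with ht | ht
    · have : clampf m b t = m := by
        unfold clampf; rw [min_eq_left (ht.trans h3), max_eq_left ht]
      rw [this, sub_self, zero_mul]
    · rw [hgm t ht, sub_self, mul_zero]
  have e3 : V L x h m b = G * V L x h m b := by
    rw [sub_mul, one_mul, sub_eq_zero] at e2
    exact e2
  have e4 : star (V L x h a c) * G = 0 := by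
    have := congrArg star e1
    rwa [star_mul, star_zero, hGs] at this
  rw [e3, ← mul_assoc, e4, zero_mul]

lemma V_orth (hS : IsRCS S) (L : Lim S I) {x : I → 𝔅} (hx : Fam S x) {C : ℝ} (hC0 : 0 ≤ C)
    (hC : ∀ i, ‖x i‖ ≤ C) {h : 𝔅} (hh : h ∈ S) (hsa : IsSelfAdjoint h) {a m b : ℝ}
    (h1 : a ≤ m) (h2 : m ≤ b) : star (V L x h a m) * V L x h m b = 0 := by
  rcases h1.eq_or_lt with h1 | h1
  · have h3 := V_norm hS L hx hC0 hC hh hsa (le_refl m)
    rw [sub_self, mul_zero] at h3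
    rw [h1, norm_le_zero_iff.1 h3, star_zero, zero_mul]
  · rw [← norm_le_zero_iff]
    refine le_of_forall_pos_le_add fun ε hε => ?_
    rw [zero_add]
    set W := V L x h m b with hW
    obtain ⟨δ, hδ0, hδ1, hδ2⟩ : ∃ δ : ℝ, 0 < δ ∧ δ ≤ m - a ∧ 2 * C * δ * ‖W‖ ≤ ε := by
      refine ⟨min (m - a) (ε / (2 * C * ‖W‖ + 1)), lt_min (by linarith) (by positivity),
        min_le_left _ _, ?_⟩
      have h3 : min (m - a) (ε / (2 * C * ‖W‖ + 1)) ≤ ε / (2 * C * ‖W‖ + 1) := min_le_right _ _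
      have h4 : 0 ≤ 2 * C * ‖W‖ := by positivity
      calc 2 * C * min (m - a) (ε / (2 * C * ‖W‖ + 1)) * ‖W‖
          = (2 * C * ‖W‖) * min (m - a) (ε / (2 * C * ‖W‖ + 1)) := by ring
        _ ≤ (2 * C * ‖W‖) * (ε / (2 * C * ‖W‖ + 1)) := mul_le_mul_of_nonneg_left h3 h4
        _ ≤ (2 * C * ‖W‖ + 1) * (ε / (2 * C * ‖W‖ + 1)) :=
          mul_le_mul_of_nonneg_right (by linarith) (by positivity)
        _ = ε := by field_simp
    rw [V_add hS L hx hh hsa (by linarith : a ≤ m - δ) (by linarith : m - δ ≤ m), star_add,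
      add_mul, V_gap hS L hx hh hsa (by linarith : a ≤ m - δ) (by linarith) h2, zero_add]
    refine (norm_mul_le _ _).trans ?_
    rw [norm_star]
    have h5 := V_norm hS L hx hC0 hC hh hsa (by linarith : m - δ ≤ m)
    rw [sub_sub_cancel] at h5
    exact (mul_le_mul_of_nonneg_right h5 (norm_nonneg _)).trans hδ2

lemma V_sq (hS : IsRCS S) (L : Lim S I) {x : I → 𝔅} (hx : Fam S x) {C : ℝ} (hC0 : 0 ≤ C)
    (hC : ∀ i, ‖x i‖ ≤ C) {h : 𝔅} (hh : h ∈ S) (hsa : IsSelfAdjoint h) (n : ℕ) :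
    ∀ a b : ℝ, a ≤ b → ‖V L x h a b‖ ^ 2 ≤ (2 * C * (b - a)) ^ 2 / 2 ^ n := by
  induction n with
  | zero =>
    intro a b hab
    rw [pow_zero, div_one]
    exact pow_le_pow_left₀ (norm_nonneg _) (V_norm hS L hx hC0 hC hh hsa hab) 2
  | succ n ih =>
    intro a b hab
    have h1 : a ≤ (a + b) / 2 := by linarith
    have h2 : (a + b) / 2 ≤ b := by linarith
    rw [V_add hS L hx hh hsa h1 h2]
    refine (norm_add_sq_orth (V_orth hS L hx hC0 hC hh hsa h1 h2)).trans ?_
    refine (add_le_add (ih _ _ h1) (ih _ _ h2)).trans (le_of_eq ?_)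
    rw [pow_succ (2 : ℝ) n]
    field_simp
    ring

lemma V_zero (hS : IsRCS S) (L : Lim S I) {x : I → 𝔅} (hx : Fam S x) {h : 𝔅} (hh : h ∈ S)
    (hsa : IsSelfAdjoint h) {a b : ℝ} (hab : a ≤ b) : V L x h a b = 0 := by
  obtain ⟨C, hC⟩ := hx.2
  have hC0 : 0 ≤ max C 0 := le_max_right _ _
  have hC1 : ∀ i, ‖x i‖ ≤ max C 0 := fun i => (hC i).trans (le_max_left _ _)
  have h1 : ∀ n : ℕ, ‖V L x h a b‖ ^ 2 ≤ (2 * max C 0 * (b - a)) ^ 2 / 2 ^ n := fun n =>
    V_sq hS L hx hC0 hC1 hh hsa n a b hab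
  have h2 : Tendsto (fun n : ℕ => (2 * max C 0 * (b - a)) ^ 2 / 2 ^ n) atTop (𝓝 0) := by
    have := (tendsto_pow_atTop_nhds_zero_of_lt_one (r := (1 / 2 : ℝ)) (by norm_num)
      (by norm_num)).const_mul ((2 * max C 0 * (b - a)) ^ 2)
    rw [mul_zero] at this
    refine this.congr fun n => ?_
    rw [one_div, inv_pow]; rfl
  have h3 : ‖V L x h a b‖ ^ 2 ≤ 0 := ge_of_tendsto' h2 h1
  have h4 : ‖V L x h a b‖ = 0 := by nlinarith [norm_nonneg (V L x h a b)]
  exact norm_eq_zero.1 h4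

/-- limits commute with multiplication by self-adjoint elements. -/
theorem T2 (hS : IsRCS S) (L : Lim S I) {x : I → 𝔅} (hx : Fam S x) {h : 𝔅} (hh : h ∈ S)
    (hsa : IsSelfAdjoint h) : L.P (fun i => h * x i) = h * L.P x := by
  rcases subsingleton_or_nontrivial 𝔅 with hsub | hnt
  · exact Subsingleton.elim _ _
  have h1 := V_zero hS L hx hh hsa (a := -‖h‖) (b := ‖h‖) (by linarith [norm_nonneg h])
  unfold V at h1
  have h2 : cfc (clampf (-‖h‖) ‖h‖) h = h := by
    have h3 : cfc (clampf (-‖h‖) ‖h‖) h = cfc (fun t : ℝ => t) h := by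
      refine cfc_congr fun t ht => ?_
      have h4 : ‖t‖ ≤ ‖h‖ := spectrum.norm_le_norm_of_mem ht
      rw [Real.norm_eq_abs, abs_le] at h4
      change clampf (-‖h‖) ‖h‖ t = t
      unfold clampf
      rw [min_eq_left h4.2, max_eq_right h4.1]
    rw [h3]
    exact cfc_id' ℝ h
  rw [h2] at h1
  exact sub_eq_zero.1 h1

end

end Pool.Agent.H590R3.RC
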