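import Pool.Agent.H590R3.RC4

set_option autoImplicit false

namespace Pool.Agent.H590R3.RC

open Filter Topology

section

variable {𝔅 : Type*} [CStarAlgebra 𝔅] {S : Submodule ℝ 𝔅} {I : Type*}

lemma eq_zero_of_star_mul {a : 𝔅} (h : star a * a = 0) : a = 0 := by
  have := CStarRing.norm_star_mul_self (x := a)
  rw [h, norm_zero] at this
  exact norm_eq_zero.1 (by nlinarith [norm_nonneg a])

lemma eq_zero_of_sq {a : 𝔅} (hs : star a = a) (h : a * a = 0) : a = 0 :=
  eq_zero_of_star_mul (by rw [hs]; exact h)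

/-- the bilinear form -/
def Bf (a b : 𝔅) : 𝔅 := star a * b + star b * a

lemma Bf_symm (a b : 𝔅) : Bf a b = Bf b a := by unfold Bf; exact add_comm _ _

lemma Bf_add (a b c : 𝔅) : Bf a (b + c) = Bf a b + Bf a c := by
  unfold Bf; rw [star_add, mul_add, add_mul]; abel

lemma Bf_sub (a b c : 𝔅) : Bf a (b - c) = Bf a b - Bf a c := by
  unfold Bf; rw [star_sub, mul_sub, sub_mul]; abel

lemma Bf_add_left (a b c : 𝔅) : Bf (a + b) c = Bf a c + Bf b c := by
  rw [Bf_symm, Bf_add, Bf_symm c a, Bf_symm c b]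

lemma Bf_smul (r : ℝ) (a b : 𝔅) : Bf a (r • b) = r • Bf a b := by
  unfold Bf
  rw [star_smul, star_trivial r, mul_smul_comm, smul_mul_assoc, smul_add]

lemma Bf_sa (a b : 𝔅) : star (Bf a b) = Bf a b := by
  unfold Bf; rw [star_add, star_mul, star_mul, star_star, star_star, add_comm]

lemma Bf_mem (hS : IsRCS S) {a b : 𝔅} (ha : a ∈ S) (hb : b ∈ S) : Bf a b ∈ S :=
  S.add_mem (hS.mul _ (hS.star a ha) _ hb) (hS.mul _ (hS.star b hb) _ ha)

lemma Bf_self (a : 𝔅) : Bf a a = (2 : ℝ) • (star a * a) := by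
  unfold Bf; rw [two_smul]

/-- all self-adjoint elements of `S` commute pairwise -/
def SaComm (S : Submodule ℝ 𝔅) : Prop :=
  ∀ a ∈ S, ∀ b ∈ S, star a = a → star b = b → a * b = b * a

/-- then they are central -/
lemma central (hS : IsRCS S) (hc : SaComm S) {h x : 𝔅} (hh : h ∈ S) (hsa : star h = h)
    (hx : x ∈ S) : h * x = x * h := by
  -- skew case
  have skew : ∀ k ∈ S, star k = -k → h * k = k * h := by
    intro k hk hks
    have hcS : h * k - k * h ∈ S := S.sub_mem (hS.mul _ hh _ hk) (hS.mul _ hk _ hh)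
    set c := h * k - k * h with hcdef
    have hcs : star c = c := by
      rw [hcdef, star_sub, star_mul, star_mul, hks, hsa]
      noncomm_ring
    have h1 : c * h = h * c := hc c hcS h hh hcs hsa
    have hk2 : star (k * k) = k * k := by rw [star_mul, hks]; noncomm_ring
    have h2 : h * (k * k) = (k * k) * h := hc h hh _ (hS.mul _ hk _ hk) hsa hk2
    have h3 : c * k + k * c = 0 := by
      have : c * k + k * c = h * (k * k) - (k * k) * h := by rw [hcdef]; noncomm_ring
      rw [this, h2, sub_self]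
    have h4 : c * k = -(k * c) := eq_neg_of_add_eq_zero_left h3
    have h5 : c * c = -(c * c) := by
      calc c * c = c * (h * k - k * h) := by rw [← hcdef]
        _ = (c * h) * k - (c * k) * h := by noncomm_ring
        _ = (h * c) * k - (-(k * c)) * h := by rw [h1, h4]
        _ = h * (c * k) + k * (c * h) := by noncomm_ring
        _ = h * (-(k * c)) + k * (h * c) := by rw [h4, h1]
        _ = -((h * k - k * h) * c) := by noncomm_ring
        _ = -(c * c) := by rw [← hcdef]
    have h6 : c * c = 0 := by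
      have : (2 : ℝ) • (c * c) = 0 := by
        rw [two_smul]; nth_rw 1 [h5]; rw [neg_add_cancel]
      exact (smul_eq_zero.1 this).resolve_left two_ne_zero
    exact sub_eq_zero.1 (eq_zero_of_sq hcs h6)
  have e : x = (1 / 2 : ℝ) • (x + star x) + (1 / 2 : ℝ) • (x - star x) := by module
  have h1 : h * ((1 / 2 : ℝ) • (x + star x)) = ((1 / 2 : ℝ) • (x + star x)) * h :=
    hc h hh _ (S.smul_mem _ (S.add_mem hx (hS.star x hx))) hsa (by
      rw [star_smul, star_add, star_star, TrivialStar.star_trivial, add_comm])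
  have h2 : h * ((1 / 2 : ℝ) • (x - star x)) = ((1 / 2 : ℝ) • (x - star x)) * h :=
    skew _ (S.smul_mem _ (S.sub_mem hx (hS.star x hx))) (by
      rw [star_smul, star_sub, star_star, TrivialStar.star_trivial, ← smul_neg, neg_sub])
  rw [e, mul_add, add_mul, h1, h2]

lemma Bf_z (hS : IsRCS S) (hc : SaComm S) {z a b : 𝔅} (hz : z ∈ S) (hzs : star z = z)
    (ha : a ∈ S) (hb : b ∈ S) : Bf a (z * b) = z * Bf a b := by
  have h1 := central hS hc hz hzs (hS.star a ha)
  have h2 := central hS hc hz hzs (hS.star b hb)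
  unfold Bf
  rw [star_mul, hzs, mul_add, ← mul_assoc, ← mul_assoc, ← mul_assoc, h1, h2]

variable [PartialOrder 𝔅] [StarOrderedRing 𝔅]

/-- limits preserve orthogonality to a fixed element -/
lemma orthP (hS : IsRCS S) (hc : SaComm S) (L : Lim S I) {x : I → 𝔅} (hx : Fam S x) {a : 𝔅}
    (ha : a ∈ S) (hax : ∀ i, Bf a (x i) = 0) : Bf a (L.P x) = 0 := by
  set y := L.P x with hy
  have hyS : y ∈ S := L.mem x hx
  set c := Bf a y with hcdef
  have hcS : c ∈ S := Bf_mem hS ha hyS
  have hcs : star c = c := Bf_sa a y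
  have hac : a * c ∈ S := hS.mul _ ha _ hcS
  set Q := star (a * c) * (a * c) with hQ
  have hQ0 : 0 ≤ Q := star_mul_self_nonneg _
  set M := ‖a‖ ^ 2 with hM
  have hM0 : 0 ≤ M := by positivity
  obtain ⟨C, hC⟩ := hx.2
  -- Q ≤ M c²
  have hQc : Q ≤ M • (c * c) := by
    have h1 : star a * a ≤ algebraMap ℝ 𝔅 (‖a‖ ^ 2) := CStarAlgebra.star_mul_le_algebraMap_norm_sq
    have h2 := star_left_conjugate_le_conjugate h1 c
    have e1 : star c * (star a * a) * c = Q := by
      rw [hQ, star_mul]; noncomm_ring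
    have e2 : star c * algebraMap ℝ 𝔅 (‖a‖ ^ 2) * c = M • (c * c) := by
      rw [Algebra.algebraMap_eq_smul_one, mul_smul_comm, mul_one, smul_mul_assoc, hcs]
    rwa [e1, e2] at h2
  have hsc : ∀ s ∈ S, c * s = s * c := fun s hs => central hS hc hcS hcs hs
  -- cross terms
  have hcross : ∀ s ∈ S, star (a * c) * s + star s * (a * c) = c * Bf a s := by
    intro s hs
    unfold Bf
    rw [star_mul, hcs, mul_add, ← mul_assoc c, ← mul_assoc c (star s)]
    rw [hsc (star s) (hS.star s hs), mul_assoc (star s) c a, hsc a ha]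
  have key : ∀ R : ℝ, 0 ≤ R → R * ‖Q‖ ≤ M * (max C 0) ^ 2 := by
    intro R hR
    set z := R • (a * c) with hz
    have hzS : z ∈ S := S.smul_mem R hac
    have hzz : star z * z = (R ^ 2) • Q := by
      rw [hz, star_smul, TrivialStar.star_trivial, smul_mul_smul_comm, hQ, sq]
    have hzn : ‖z‖ ^ 2 = R ^ 2 * ‖Q‖ := by
      rw [sq, ← CStarRing.norm_star_mul_self, hzz, norm_smul, Real.norm_of_nonneg (by positivity)]
    have hzc : ∀ s ∈ S, star z * s + star s * z = R • (c * Bf a s) := by
      intro s hs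
      rw [hz, star_smul, TrivialStar.star_trivial, smul_mul_assoc, mul_smul_comm, ← smul_add,
        hcross s hs]
    have e1 : L.P (fun i => x i + z) = y + z := by
      rw [L.add _ _ hx (Fam.const hzS), L.const _ hzS]
    have h2 : ‖y + z‖ ≤ Real.sqrt (R ^ 2 * ‖Q‖ + (max C 0) ^ 2) := by
      rw [← e1]
      refine L.norm_le _ _ (Real.sqrt_nonneg _) (hx.add (Fam.const hzS)) fun i => ?_
      refine Real.le_sqrt_of_sq_le ?_
      have h3 : star (x i + z) * (x i + z) = star z * z + star (x i) * x i := by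
        have h4 := hzc (x i) (hx.1 i)
        rw [hax i, mul_zero, smul_zero] at h4
        rw [star_add, add_mul, mul_add, mul_add]
        calc star (x i) * x i + star (x i) * z + (star z * x i + star z * z)
            = star z * z + star (x i) * x i + (star z * x i + star (x i) * z) := by abel
          _ = _ := by rw [h4, add_zero]
      rw [sq, ← CStarRing.norm_star_mul_self, h3]
      refine (norm_add_le _ _).trans (add_le_add ?_ ?_)
      · rw [CStarRing.norm_star_mul_self, ← sq, hzn]
      · rw [CStarRing.norm_star_mul_self, ← sq]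
        exact pow_le_pow_left₀ (norm_nonneg _) ((hC i).trans (le_max_left _ _)) 2
    have h5 : ‖y + z‖ ^ 2 ≤ R ^ 2 * ‖Q‖ + (max C 0) ^ 2 := by
      have := pow_le_pow_left₀ (norm_nonneg _) h2 2
      rwa [Real.sq_sqrt (by positivity)] at this
    have h6 : (M * R ^ 2 + R) • Q ≤ M • (star (y + z) * (y + z)) := by
      have h7 : star (y + z) * (y + z) = (R ^ 2) • Q + R • (c * c) + star y * y := by
        have h4 := hzc y hyS
        rw [← hcdef] at h4
        rw [star_add, add_mul, mul_add, mul_add, ← hzz, ← h4]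
        abel
      rw [← sub_nonneg, h7]
      have h8 : M • ((R ^ 2) • Q + R • (c * c) + star y * y) - (M * R ^ 2 + R) • Q =
          R • (M • (c * c) - Q) + M • (star y * y) := by module
      rw [h8]
      exact add_nonneg (smul_nonneg hR (sub_nonneg.2 hQc))
        (smul_nonneg hM0 (star_mul_self_nonneg y))
    have h9 : (M * R ^ 2 + R) * ‖Q‖ ≤ M * ‖y + z‖ ^ 2 := by
      have := CStarAlgebra.norm_le_norm_of_nonneg_of_le (smul_nonneg (by positivity) hQ0) h6
      have hyz : ‖star (y + z) * (y + z)‖ = ‖y + z‖ ^ 2 := by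
        rw [CStarRing.norm_star_mul_self, sq]
      rwa [norm_smul, norm_smul, Real.norm_of_nonneg (by positivity), Real.norm_of_nonneg hM0,
        hyz] at this
    nlinarith [mul_le_mul_of_nonneg_left h5 hM0]
  have hQz : ‖Q‖ = 0 := by
    by_contra hne
    have hpos : 0 < ‖Q‖ := lt_of_le_of_ne (norm_nonneg _) (Ne.symm hne)
    have h1 := key ((M * (max C 0) ^ 2 + 1) / ‖Q‖) (by positivity)
    rw [div_mul_cancel₀ _ hne] at h1
    linarith
  have hac0 : a * c = 0 := eq_zero_of_star_mul (norm_eq_zero.1 hQz)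
  have hcc : c * c = 0 := by
    have h1 := hcross y hyS
    rw [hac0, star_zero, zero_mul, mul_zero, add_zero] at h1
    rw [← hcdef] at h1
    exact h1.symm
  exact eq_zero_of_sq hcs hcc

/-- in the commuting case `k (P(kx) - k P(x)) = 0` for skew `k`. -/
lemma kE_zero (hS : IsRCS S) (hc : SaComm S) (L : Lim S I) {x : I → 𝔅} (hx : Fam S x) {k : 𝔅}
    (hk : k ∈ S) (hks : star k = -k) :
    k * (L.P (fun i => k * x i) - k * L.P x) = 0 := by
  have hkM : Mult S k := Mult.of_mem hS hk
  have hu : Fam S (fun i => k * x i) := hx.mul hkM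
  set y := L.P x with hy
  have hyS : y ∈ S := L.mem x hx
  set u := L.P (fun i => k * x i) with hudef
  have huS : u ∈ S := L.mem _ hu
  have hE : u - k * y ∈ S := S.sub_mem huS (hS.mul _ hk _ hyS)
  set κ := star k * k with hκ
  have hκS : κ ∈ S := hS.mul _ (hS.star k hk) _ hk
  have hκs : star κ = κ := by rw [hκ, star_mul, star_star]
  -- the main identity
  have main : ∀ b ∈ S, κ * (star b * b) * (Bf b u + Bf (k * b) y) = 0 := by
    intro b hb
    set c := k * b with hcd
    have hcS : c ∈ S := hS.mul _ hk _ hb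
    set N := star b * b with hN
    have hNS : N ∈ S := hS.mul _ (hS.star b hb) _ hb
    have hNs : star N = N := by rw [hN, star_mul, star_star]
    have hNc : star c * c = κ * N := by
      have h1 := central hS hc hκS hκs (hS.star b hb)
      rw [hcd, star_mul, hN, ← mul_assoc κ, h1, hκ]
      noncomm_ring
    have hbc : Bf b c = 0 := by
      unfold Bf
      rw [hcd, star_mul, hks]
      noncomm_ring
    -- the coefficient family
    set w : I → 𝔅 := fun i => Bf b (k * x i) with hw
    have hwS : ∀ i, w i ∈ S := fun i => Bf_mem hS hb (hu.1 i)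
    have hws : ∀ i, star (w i) = w i := fun i => Bf_sa _ _
    have hwc : ∀ i, Bf c (x i) = - w i := by
      intro i
      change Bf c (x i) = - Bf b (k * x i)
      unfold Bf
      rw [hcd, star_mul, star_mul, hks]
      noncomm_ring
    have hwF : Fam S w := by
      obtain ⟨C, hC⟩ := hu.2
      refine ⟨hwS, ‖b‖ * C + C * ‖b‖, fun i => ?_⟩
      change ‖star b * (k * x i) + star (k * x i) * b‖ ≤ _
      refine (norm_add_le _ _).trans (add_le_add ?_ ?_)
      · refine (norm_mul_le _ _).trans ?_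
        rw [norm_star]
        exact mul_le_mul_of_nonneg_left (hC i) (norm_nonneg _)
      · refine (norm_mul_le _ _).trans ?_
        rw [norm_star]
        exact mul_le_mul_of_nonneg_right (hC i) (norm_nonneg _)
    have hwmul : ∀ s ∈ S, Fam S (fun i => w i * s) := by
      intro s hs
      obtain ⟨C, hC⟩ := hwF.2
      refine ⟨fun i => hS.mul _ (hwS i) _ hs, C * ‖s‖, fun i => ?_⟩
      exact (norm_mul_le _ _).trans (mul_le_mul_of_nonneg_right (hC i) (norm_nonneg _))
    have hwb := hwmul b hb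
    have hwcF := hwmul c hcS
    set pb := L.P (fun i => w i * b) with hpb
    set pc := L.P (fun i => w i * c) with hpc
    have hpbS : pb ∈ S := L.mem _ hwb
    have hpcS : pc ∈ S := L.mem _ hwcF
    have h2 : ∀ z ∈ S, star z = z → ∀ s ∈ S, Bf s (z * s) = z * ((2 : ℝ) • (star s * s)) := by
      intro z hz hzs s hs
      rw [Bf_z hS hc hz hzs hs hs, Bf_self]
    have hNN : ∀ z ∈ S, z * N = N * z := fun z hz => (central hS hc hNS hNs hz).symm
    have hκκ : ∀ z ∈ S, z * κ = κ * z := fun z hz => (central hS hc hκS hκs hz).symm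
    -- (1)
    have s1 : (2 : ℝ) • (N * Bf b u) = Bf b pb := by
      have hN2S : (2 : ℝ) • N ∈ S := S.smul_mem _ hNS
      have hN2s : star ((2 : ℝ) • N) = (2 : ℝ) • N := by
        rw [star_smul, star_trivial (2 : ℝ), hNs]
      have h3 : ∀ i, Bf b (((2 : ℝ) • N) * (k * x i) - w i * b) = 0 := by
        intro i
        rw [Bf_sub, Bf_z hS hc hN2S hN2s hb (hu.1 i), h2 (w i) (hwS i) (hws i) b hb]
        change ((2 : ℝ) • N) * w i - w i * ((2 : ℝ) • N) = 0
        rw [smul_mul_assoc, mul_smul_comm, hNN _ (hwS i), sub_self]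
      have hF1 : Fam S (fun i => ((2 : ℝ) • N) * (k * x i)) := hu.mul (Mult.of_mem hS hN2S)
      have hF : Fam S (fun i => ((2 : ℝ) • N) * (k * x i) - w i * b) := by
        obtain ⟨C, hC⟩ := hF1.2
        obtain ⟨D, hD⟩ := hwb.2
        exact ⟨fun i => S.sub_mem (hF1.1 i) (hwb.1 i), C + D,
          fun i => (norm_sub_le _ _).trans (add_le_add (hC i) (hD i))⟩
      have h4 := orthP hS hc L hF hb h3
      rw [L.sub hF1 hwb, T2 hS L hu hN2S hN2s, Bf_sub, Bf_z hS hc hN2S hN2s hb huS, sub_eq_zero,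
        smul_mul_assoc] at h4
      exact h4
    -- (2)
    have s2 : (2 : ℝ) • (κ * N * Bf c y) = - Bf c pc := by
      have hN2S : (2 : ℝ) • (κ * N) ∈ S := S.smul_mem _ (hS.mul _ hκS _ hNS)
      have hκN : star (κ * N) = κ * N := by rw [star_mul, hκs, hNs, hκκ _ hNS]
      have hN2s : star ((2 : ℝ) • (κ * N)) = (2 : ℝ) • (κ * N) := by
        rw [star_smul, star_trivial (2 : ℝ), hκN]
      have h3 : ∀ i, Bf c (((2 : ℝ) • (κ * N)) * x i + w i * c) = 0 := by
        intro i
        rw [Bf_add, Bf_z hS hc hN2S hN2s hcS (hx.1 i), h2 (w i) (hwS i) (hws i) c hcS, hNc,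
          hwc i, smul_mul_assoc, mul_smul_comm, mul_neg,
          ← central hS hc (hS.mul _ hκS _ hNS) hκN (hwS i), smul_neg, neg_add_cancel]
      have hF1 : Fam S (fun i => ((2 : ℝ) • (κ * N)) * x i) := hx.mul (Mult.of_mem hS hN2S)
      have h4 := orthP hS hc L (hF1.add hwcF) hcS h3
      rw [L.add _ _ hF1 hwcF, T2 hS L hx hN2S hN2s, Bf_add, Bf_z hS hc hN2S hN2s hcS hyS,
        smul_mul_assoc] at h4
      exact eq_neg_of_add_eq_zero_left h4
    -- (3)
    have s3 : Bf b pc = 0 := by
      refine orthP hS hc L hwcF hb fun i => ?_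
      rw [Bf_z hS hc (hwS i) (hws i) hb hcS, hbc, mul_zero]
    have s3' : Bf c pb = 0 := by
      refine orthP hS hc L hwb hcS fun i => ?_
      rw [Bf_z hS hc (hwS i) (hws i) hcS hb, Bf_symm c b, hbc, mul_zero]
    -- (4)
    have s4 : κ * Bf b pb = Bf c pc := by
      have hκb : Fam S (fun i => κ * (w i * b)) := hwb.mul (Mult.of_mem hS hκS)
      have hbcS : b + c ∈ S := S.add_mem hb hcS
      have h3 : ∀ i, Bf (b + c) (κ * (w i * b) - w i * c) = 0 := by
        intro i
        have hwbS : w i * b ∈ S := hS.mul _ (hwS i) _ hb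
        have hwcS : w i * c ∈ S := hS.mul _ (hwS i) _ hcS
        have q1 : Bf b (κ * (w i * b)) = κ * (w i * ((2 : ℝ) • N)) := by
          rw [Bf_z hS hc hκS hκs hb hwbS, h2 (w i) (hwS i) (hws i) b hb]
        have q2 : Bf c (κ * (w i * b)) = 0 := by
          rw [Bf_z hS hc hκS hκs hcS hwbS, Bf_z hS hc (hwS i) (hws i) hcS hb, Bf_symm c b, hbc,
            mul_zero, mul_zero]
        have q3 : Bf b (w i * c) = 0 := by
          rw [Bf_z hS hc (hwS i) (hws i) hb hcS, hbc, mul_zero]
        have q4 : Bf c (w i * c) = w i * ((2 : ℝ) • (κ * N)) := by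
          rw [h2 (w i) (hwS i) (hws i) c hcS, hNc]
        rw [Bf_sub, Bf_add_left, Bf_add_left, q1, q2, q3, q4, add_zero, zero_add, mul_smul_comm,
          mul_smul_comm, mul_smul_comm, ← mul_assoc, ← hκκ _ (hwS i), mul_assoc, sub_self]
      have hF : Fam S (fun i => κ * (w i * b) - w i * c) := by
        obtain ⟨C, hC⟩ := hκb.2
        obtain ⟨D, hD⟩ := hwcF.2
        exact ⟨fun i => S.sub_mem (hκb.1 i) (hwcF.1 i), C + D,
          fun i => (norm_sub_le _ _).trans (add_le_add (hC i) (hD i))⟩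
      have h4 := orthP hS hc L hF hbcS h3
      rw [L.sub hκb hwcF, T2 hS L hwb hκS hκs, Bf_sub, Bf_add_left, Bf_add_left, ← hpb, ← hpc,
        Bf_z hS hc hκS hκs hb hpbS, Bf_z hS hc hκS hκs hcS hpbS, s3, s3', mul_zero, add_zero,
        zero_add, sub_eq_zero] at h4
      exact h4
    -- combine
    have h5 : (2 : ℝ) • (κ * N * (Bf b u + Bf c y)) = 0 := by
      have e1 : (2 : ℝ) • (κ * N * Bf b u) = Bf c pc := by
        rw [mul_assoc, ← mul_smul_comm, s1, s4]
      rw [mul_add, smul_add, e1, s2, add_neg_cancel]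
    exact (smul_eq_zero.1 h5).resolve_left two_ne_zero
  -- apply with b = E
  set E := u - k * y with hEdef
  have hfin : ∀ b : 𝔅, Bf b u + Bf (k * b) y = Bf b E := by
    intro b
    rw [hEdef, Bf_sub]
    have : Bf (k * b) y = - Bf b (k * y) := by
      unfold Bf
      rw [star_mul, star_mul, hks]
      noncomm_ring
    rw [this, sub_eq_add_neg]
  have h1 := main E hE
  rw [hfin, Bf_self, mul_smul_comm] at h1
  have h2 : κ * (star E * E) * (star E * E) = 0 := (smul_eq_zero.1 h1).resolve_left two_ne_zero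
  set N := star E * E with hN
  have hNS : N ∈ S := hS.mul _ (hS.star E hE) _ hE
  have hκN : N * κ = κ * N := (central hS hc hκS hκs hNS).symm
  have hNs : star N = N := by rw [hN, star_mul, star_star]
  have h3 : (κ * N) * (κ * N) = 0 := by
    have : (κ * N) * (κ * N) = κ * (κ * N * N) := by
      rw [mul_assoc κ N, ← mul_assoc N κ, hκN]
    rw [this, h2, mul_zero]
  have h4 : κ * N = 0 := eq_zero_of_sq (by rw [star_mul, hκs, hNs, hκN]) h3
  refine eq_zero_of_star_mul ?_
  have h5 : star (k * E) * (k * E) = star E * κ * E := by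
    rw [star_mul, hκ]; noncomm_ring
  rw [h5, ← central hS hc hκS hκs (hS.star E hE), mul_assoc]
  exact h4

end

end Pool.Agent.H590R3.RC
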