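import Pool.Agent.H590R3.RC5
import Pool.Agent.H590R3.RC2

set_option autoImplicit false

namespace Pool.Agent.H590R3.RC

open Filter Topology

universe u v w

section

variable {𝔅 : Type u} [CStarAlgebra 𝔅] [PartialOrder 𝔅] [StarOrderedRing 𝔅]
  {S : Submodule ℝ 𝔅}

/-- There is a nonzero skew element multiplication by which commutes with all limits. -/
theorem exists_skew (hS : IsRCS S) (hne : ∃ a ∈ S, star a ≠ a) :
    ∃ k ∈ S, star k = -k ∧ k ≠ 0 ∧
      ∀ (I : Type v) (L : Lim S I) (x : I → 𝔅), Fam S x →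
        L.P (fun i => k * x i) = k * L.P x := by
  by_cases hc : SaComm S
  · obtain ⟨a, ha, hane⟩ := hne
    set k := a - star a with hk
    have hkS : k ∈ S := S.sub_mem ha (hS.star a ha)
    have hks : star k = -k := by rw [hk, star_sub, star_star, neg_sub]
    have hk0 : k ≠ 0 := fun h => hane (sub_eq_zero.1 h).symm
    have hk2S : k * k ∈ S := hS.mul _ hkS _ hkS
    have hk2s : star (k * k) = k * k := by rw [star_mul, hks]; noncomm_ring
    refine ⟨k * k * k, hS.mul _ hk2S _ hkS, ?_, ?_, ?_⟩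
    · rw [star_mul, star_mul, hks]; noncomm_ring
    · intro h0
      have h1 : k * k = 0 := by
        refine eq_zero_of_sq hk2s ?_
        rw [← mul_assoc, h0, zero_mul]
      have h2 : star k * k = 0 := by rw [hks, neg_mul, h1, neg_zero]
      exact hk0 (eq_zero_of_star_mul h2)
    · intro I L x hx
      have h1 := kE_zero hS hc L hx hkS hks
      rw [mul_sub, sub_eq_zero] at h1
      have h2 : (fun i => k * k * k * x i) = fun i => (k * k) * (k * x i) := by
        funext i; rw [mul_assoc (k * k)]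
      rw [h2, T2 hS L (hx.mul (Mult.of_mem hS hkS)) hk2S hk2s, mul_assoc k k, h1]
      noncomm_ring
  · unfold SaComm at hc
    push Not at hc
    obtain ⟨a, ha, b, hb, has, hbs, hab⟩ := hc
    refine ⟨a * b - b * a, S.sub_mem (hS.mul _ ha _ hb) (hS.mul _ hb _ ha), ?_,
      sub_ne_zero.2 hab, ?_⟩
    · rw [star_sub, star_mul, star_mul, has, hbs, neg_sub]
    · intro I L x hx
      have hax := hx.mul (Mult.of_mem hS ha)
      have hbx := hx.mul (Mult.of_mem hS hb)
      have h1 : (fun i => (a * b - b * a) * x i) = fun i => a * (b * x i) - b * (a * x i) := by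
        funext i; noncomm_ring
      rw [h1, L.sub (hbx.mul (Mult.of_mem hS ha)) (hax.mul (Mult.of_mem hS hb)),
        T2 hS L hbx ha has, T2 hS L hax hb hbs, T2 hS L hx hb hbs, T2 hS L hx ha has]
      noncomm_ring

end

section predual

lemma mem_range_of_approx {X F : Type*} [NormedAddCommGroup X] [NormedSpace ℝ X] [CompleteSpace X]
    [NormedAddCommGroup F] [NormedSpace ℝ F] (J : X →ₗᵢ[ℝ] F) (G : F)
    (h : ∀ ε : ℝ, 0 < ε → ∃ x, ‖G - J x‖ < ε) : ∃ x, J x = G := by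
  have hclosed : IsClosed (Set.range J) := J.isometry.isClosedEmbedding.isClosed_range
  have hmem : G ∈ closure (Set.range J) := by
    rw [Metric.mem_closure_iff]
    intro ε hε
    obtain ⟨x, hx⟩ := h ε hε
    exact ⟨J x, ⟨x, rfl⟩, by rw [dist_eq_norm]; exact hx⟩
  rw [hclosed.closure_eq] at hmem
  exact hmem

lemma approx_fin {D : Type*} [NormedAddCommGroup D] [NormedSpace ℝ D] {σ : Type*} [Fintype σ]
    (l : σ → D →L[ℝ] ℝ) (G : D →L[ℝ] ℝ) {ε δ : ℝ} (hε : 0 ≤ ε) (hδ : 0 < δ)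
    (h : ∀ f : D, ‖f‖ ≤ 1 → (∀ x, |l x f| ≤ δ) → |G f| ≤ ε) :
    ∃ c : σ → ℝ, ‖G - ∑ x, c x • l x‖ ≤ ε := by
  let N : Submodule ℝ D := ⨅ x : σ, LinearMap.ker (l x).toLinearMap
  have hN : ∀ f, f ∈ N ↔ ∀ x, l x f = 0 := by
    intro f
    rw [Submodule.mem_iInf]
    exact Iff.rfl
  have hGN : ‖G.comp N.subtypeL‖ ≤ ε := by
    refine ContinuousLinearMap.opNorm_le_bound _ hε fun f => ?_
    by_cases hf : f = 0
    · rw [hf]; simp
    have hf0 : 0 < ‖(f : D)‖ := by
      rw [norm_pos_iff]; exact fun h0 => hf (Subtype.ext h0)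
    have h1 := h (‖(f : D)‖⁻¹ • (f : D))
      (by rw [norm_smul, norm_inv, norm_norm, inv_mul_cancel₀ hf0.ne'])
      (fun x => by
        have h2 : l x (f : D) = 0 := (hN _).1 f.2 x
        rw [map_smul, h2, smul_zero, abs_zero]; exact hδ.le)
    rw [map_smul, smul_eq_mul, abs_mul, abs_of_pos (inv_pos.2 hf0), inv_mul_le_iff₀ hf0] at h1
    change |G (f : D)| ≤ ε * ‖(f : D)‖
    linarith
  obtain ⟨G', hG'1, hG'2⟩ := exists_extension_norm_eq N (G.comp N.subtypeL)
  have hspan : (G - G').toLinearMap ∈ Submodule.span ℝ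
      (Set.range fun x : σ => (l x).toLinearMap) := by
    refine mem_span_of_iInf_ker_le_ker ?_
    intro f hf
    have hf' : f ∈ N := hf
    have := hG'1 ⟨f, hf'⟩
    change (G - G') f = 0
    rw [_root_.sub_apply, this]
    exact sub_self _
  rw [Submodule.mem_span_range_iff_exists_fun] at hspan
  obtain ⟨c, hc⟩ := hspan
  refine ⟨c, ?_⟩
  have h1 : ∑ x, c x • l x = G - G' := by
    ext f
    have h1 := congrArg (fun l : D →ₗ[ℝ] ℝ => l f) hc
    simp only [LinearMap.sum_apply, LinearMap.smul_apply] at h1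
    rw [_root_.sum_apply]
    exact h1
  rw [h1, sub_sub_cancel, hG'2]
  exact hGN

/-- Functionals on the dual that are weak-star continuous on bounded sets are evaluations. -/
lemma exists_eval {X : Type v} [NormedAddCommGroup X] [NormedSpace ℝ X] [CompleteSpace X]
    (G : (X →L[ℝ] ℝ) →L[ℝ] ℝ)
    (hG : ∀ ε : ℝ, 0 < ε → ∃ (s : Finset X) (δ : ℝ), 0 < δ ∧ ∀ f : X →L[ℝ] ℝ, ‖f‖ ≤ 1 →
      (∀ x ∈ s, |f x| ≤ δ) → |G f| ≤ ε) : ∃ ψ : X, ∀ f, G f = f ψ := by
  have hmem : ∃ ψ, NormedSpace.inclusionInDoubleDualLi ℝ (E := X) ψ = G := by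
    refine mem_range_of_approx (NormedSpace.inclusionInDoubleDualLi ℝ (E := X)) G fun ε hε => ?_
    obtain ⟨s, δ, hδ, h⟩ := hG (ε / 2) (by positivity)
    obtain ⟨c, hc⟩ := approx_fin (fun x : s => (ContinuousLinearMap.apply ℝ ℝ (x : X))) G
      (by positivity) hδ (fun f hf hfx => h f hf fun x hx => hfx ⟨x, hx⟩)
    refine ⟨∑ x : s, c x • (x : X), ?_⟩
    have hJ : NormedSpace.inclusionInDoubleDualLi ℝ (E := X) (∑ x : s, c x • (x : X)) =
        ∑ x : s, c x • (ContinuousLinearMap.apply ℝ ℝ (x : X)) := by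
      ext f
      rw [_root_.sum_apply]
      change f (∑ x : s, c x • (x : X)) = _
      rw [map_sum]
      refine Finset.sum_congr rfl fun x _ => ?_
      rw [map_smul]
      rfl
    rw [hJ]
    exact lt_of_le_of_lt hc (by linarith)
  obtain ⟨ψ, hψ⟩ := hmem
  exact ⟨ψ, fun f => by rw [← hψ]; rfl⟩

variable {𝔅 : Type u} [CStarAlgebra 𝔅]
  {E : Type w} [NormedAddCommGroup E] [NormedSpace ℝ E]
  {X : Type v} [NormedAddCommGroup X] [NormedSpace ℝ X]

/-- weak-star limit along an ultrafilter -/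
def IsLim (Φ : E ≃ₗᵢ[ℝ] (X →L[ℝ] ℝ)) {I : Type v} (U : Ultrafilter I) (e : I → E) (a : E) : Prop :=
  ∀ x : X, Tendsto (fun i => Φ (e i) x) U (𝓝 (Φ a x))

lemma IsLim.unique {Φ : E ≃ₗᵢ[ℝ] (X →L[ℝ] ℝ)} {I : Type v} {U : Ultrafilter I} {e : I → E}
    {a b : E} (ha : IsLim Φ U e a) (hb : IsLim Φ U e b) : a = b := by
  refine Φ.injective ?_
  ext x
  exact tendsto_nhds_unique (ha x) (hb x)

lemma IsLim.exists (Φ : E ≃ₗᵢ[ℝ] (X →L[ℝ] ℝ)) {I : Type v} (U : Ultrafilter I) {e : I → E}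
    {C : ℝ} (hC : ∀ i, ‖e i‖ ≤ C) : ∃ a, ‖a‖ ≤ C ∧ IsLim Φ U e a := by
  have hK := WeakDual.isCompact_closedBall (0 : StrongDual ℝ X) C
  let m : I → WeakDual ℝ X := fun i => StrongDual.toWeakDual (Φ (e i))
  have h1 : (U.map m : Filter (WeakDual ℝ X)) ≤ 𝓟 (WeakDual.toStrongDual ⁻¹'
      Metric.closedBall (0 : StrongDual ℝ X) C) := by
    rw [le_principal_iff, Ultrafilter.coe_map, mem_map]
    refine univ_mem' fun i => ?_
    change Φ (e i) ∈ Metric.closedBall (0 : StrongDual ℝ X) C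
    rw [mem_closedBall_zero_iff, Φ.norm_map]
    exact hC i
  obtain ⟨y, hy, hUy⟩ := hK.ultrafilter_le_nhds (U.map m) h1
  refine ⟨Φ.symm (WeakDual.toStrongDual y), ?_, fun x => ?_⟩
  · rw [Φ.symm.norm_map]
    exact mem_closedBall_zero_iff.1 hy
  · rw [Φ.apply_symm_apply]
    have h2 : Tendsto m U (𝓝 y) := hUy
    exact ((WeakDual.eval_continuous x).tendsto y).comp h2

open Classical in
/-- the limit -/
noncomputable def limE (Φ : E ≃ₗᵢ[ℝ] (X →L[ℝ] ℝ)) {I : Type v} (U : Ultrafilter I) (e : I → E) : E :=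
  if h : ∃ a, IsLim Φ U e a then h.choose else 0

lemma limE_spec (Φ : E ≃ₗᵢ[ℝ] (X →L[ℝ] ℝ)) {I : Type v} (U : Ultrafilter I) {e : I → E}
    {C : ℝ} (hC : ∀ i, ‖e i‖ ≤ C) : IsLim Φ U e (limE Φ U e) := by
  obtain ⟨a, _, ha⟩ := IsLim.exists Φ U hC
  have h : ∃ a, IsLim Φ U e a := ⟨a, ha⟩
  unfold limE
  rw [dif_pos h]
  exact h.choose_spec

lemma limE_eq {Φ : E ≃ₗᵢ[ℝ] (X →L[ℝ] ℝ)} {I : Type v} {U : Ultrafilter I} {e : I → E}
    {a : E} (ha : IsLim Φ U e a) : limE Φ U e = a := by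
  have h : ∃ a, IsLim Φ U e a := ⟨a, ha⟩
  unfold limE
  rw [dif_pos h]
  exact h.choose_spec.unique ha

/-- the range of the embedding -/
noncomputable def rng (ι : E →ₗᵢ[ℝ] 𝔅) : Submodule ℝ 𝔅 := LinearMap.range ι.toLinearMap

lemma mem_rng (ι : E →ₗᵢ[ℝ] 𝔅) (e : E) : ι e ∈ rng ι := ⟨e, rfl⟩

lemma invFun_ι (ι : E →ₗᵢ[ℝ] 𝔅) (e : E) : Function.invFun ι (ι e) = e :=
  Function.leftInverse_invFun ι.injective e

lemma ι_invFun (ι : E →ₗᵢ[ℝ] 𝔅) {a : 𝔅} (ha : a ∈ rng ι) : ι (Function.invFun ι a) = a := by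
  obtain ⟨e, rfl⟩ := ha
  exact congrArg ι (invFun_ι ι e)

/-- the limit structure -/
noncomputable def mkLim (ι : E →ₗᵢ[ℝ] 𝔅) (Φ : E ≃ₗᵢ[ℝ] (X →L[ℝ] ℝ)) {I : Type v}
    (U : Ultrafilter I) : Lim (rng ι) I where
  P := fun x => ι (limE Φ U fun i => Function.invFun ι (x i))
  mem := fun x _ => mem_rng ι _
  add := by
    rintro x y ⟨hx, C, hC⟩ ⟨hy, D, hD⟩
    have h1 := limE_spec Φ U (e := fun i => Function.invFun ι (x i)) (C := C) fun i => by
      rw [← ι.norm_map, ι_invFun ι (hx i)]; exact hC i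
    have h2 := limE_spec Φ U (e := fun i => Function.invFun ι (y i)) (C := D) fun i => by
      rw [← ι.norm_map, ι_invFun ι (hy i)]; exact hD i
    rw [← map_add]
    congr 1
    refine limE_eq fun z => ?_
    have h3 : ∀ i, Φ (Function.invFun ι (x i + y i)) z =
        Φ (Function.invFun ι (x i)) z + Φ (Function.invFun ι (y i)) z := by
      intro i
      have : Function.invFun ι (x i + y i) = Function.invFun ι (x i) + Function.invFun ι (y i) := by
        refine ι.injective ?_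
        rw [map_add, ι_invFun ι (hx i), ι_invFun ι (hy i),
          ι_invFun ι ((rng ι).add_mem (hx i) (hy i))]
      rw [this, map_add]
      rfl
    simp only [h3]
    rw [map_add]
    exact (h1 z).add (h2 z)
  smul := by
    rintro c x ⟨hx, C, hC⟩
    have h1 := limE_spec Φ U (e := fun i => Function.invFun ι (x i)) (C := C) fun i => by
      rw [← ι.norm_map, ι_invFun ι (hx i)]; exact hC i
    rw [← map_smul]
    congr 1
    refine limE_eq fun z => ?_
    have h3 : ∀ i, Φ (Function.invFun ι (c • x i)) z = c * Φ (Function.invFun ι (x i)) z := by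
      intro i
      have : Function.invFun ι (c • x i) = c • Function.invFun ι (x i) := by
        refine ι.injective ?_
        rw [map_smul, ι_invFun ι (hx i), ι_invFun ι ((rng ι).smul_mem c (hx i))]
      rw [this, map_smul]
      rfl
    simp only [h3]
    rw [map_smul]
    exact (h1 z).const_mul c
  const := by
    rintro a ⟨e, rfl⟩
    change ι (limE Φ U fun _ => Function.invFun ι (ι e)) = ι e
    rw [limE_eq (a := e)]
    intro z
    rw [invFun_ι]
    exact tendsto_const_nhds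
  norm_le := by
    rintro x C hC0 ⟨hx, _⟩ hC
    obtain ⟨a, ha1, ha2⟩ := IsLim.exists Φ U (e := fun i => Function.invFun ι (x i)) (C := C)
      fun i => by rw [← ι.norm_map, ι_invFun ι (hx i)]; exact hC i
    rw [limE_eq ha2, ι.norm_map]
    exact ha1

end predual

end Pool.Agent.H590R3.RC
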