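import Pool.Agent.H590R3.RC6

set_option autoImplicit false

namespace Pool.Agent.H590R3.RC

open Filter Topology

universe u v w

section

variable {𝔅 : Type u} [CStarAlgebra 𝔅]
  {E : Type w} [NormedAddCommGroup E] [NormedSpace ℝ E]

lemma exists_mulOp (ι : E →ₗᵢ[ℝ] 𝔅) (hS : IsRCS (rng ι)) {k : 𝔅} (hk : k ∈ rng ι) :
    ∃ M : E →L[ℝ] E, ∀ e, ι (M e) = k * ι e := by
  have h1 : ∀ e, ι (Function.invFun ι (k * ι e)) = k * ι e := fun e =>
    ι_invFun ι (hS.mul _ hk _ (mem_rng ι e))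
  refine ⟨LinearMap.mkContinuous
    { toFun := fun e => Function.invFun ι (k * ι e)
      map_add' := fun a b => by
        refine ι.injective ?_
        rw [h1, map_add, map_add, h1, h1, mul_add]
      map_smul' := fun c a => by
        refine ι.injective ?_
        rw [h1, RingHom.id_apply, map_smul, map_smul, h1, mul_smul_comm] } ‖k‖ (fun e => by
      change ‖Function.invFun ι (k * ι e)‖ ≤ ‖k‖ * ‖e‖
      rw [← ι.norm_map (Function.invFun ι (k * ι e)), h1]
      refine (norm_mul_le _ _).trans ?_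
      rw [ι.norm_map]), fun e => h1 e⟩

/-- norm growth for skew multiplications -/
lemma norm_skew {k a : 𝔅} (hks : star k = -k) (t : ℝ) :
    ‖a + t • (k * a)‖ ≤ (1 + ‖k‖ ^ 2 * t ^ 2) * ‖a‖ := by
  have e : star (a + t • (k * a)) * (a + t • (k * a)) =
      star a * a + (t ^ 2) • (star (k * a) * (k * a)) := by
    rw [star_add, star_smul, star_trivial t, star_mul, hks, add_mul, mul_add, mul_add,
      smul_mul_smul_comm, mul_smul_comm, smul_mul_assoc, sq]
    have : star a * -k * a = - (star a * (k * a)) := by noncomm_ring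
    rw [this, smul_neg]
    abel
  have h1 : ‖a + t • (k * a)‖ ^ 2 ≤ ((1 + ‖k‖ ^ 2 * t ^ 2) * ‖a‖) ^ 2 := by
    rw [sq, ← CStarRing.norm_star_mul_self, e]
    refine (norm_add_le _ _).trans ?_
    rw [CStarRing.norm_star_mul_self, norm_smul, Real.norm_of_nonneg (sq_nonneg t),
      CStarRing.norm_star_mul_self]
    have h2 : ‖k * a‖ * ‖k * a‖ ≤ (‖k‖ * ‖a‖) * (‖k‖ * ‖a‖) :=
      mul_le_mul (norm_mul_le _ _) (norm_mul_le _ _) (norm_nonneg _) (by positivity)
    have h3 : t ^ 2 * (‖k * a‖ * ‖k * a‖) ≤ t ^ 2 * ((‖k‖ * ‖a‖) * (‖k‖ * ‖a‖)) :=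
      mul_le_mul_of_nonneg_left h2 (sq_nonneg t)
    have h4 : 0 ≤ ‖k‖ ^ 2 * t ^ 2 := by positivity
    have h5 : 0 ≤ ‖a‖ ^ 2 := by positivity
    nlinarith [mul_nonneg h4 h5, mul_nonneg (mul_nonneg h4 h4) h5]
  exact (abs_le_of_sq_le_sq' h1 (by positivity)).2

variable [PartialOrder 𝔅] [StarOrderedRing 𝔅]

theorem index_zero (ι : E →ₗᵢ[ℝ] 𝔅) (hS : IsRCS (rng ι)) (hne : ∃ a ∈ rng ι, star a ≠ a) :
    numIndex E = 0 ∧ ∀ (X : Type v) [NormedAddCommGroup X] [NormedSpace ℝ X] [CompleteSpace X]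
      (_ : E ≃ₗᵢ[ℝ] (X →L[ℝ] ℝ)), numIndex X = 0 := by
  classical
  obtain ⟨k, hk, hks, hk0, hcomm⟩ := exists_skew.{u, v} hS hne
  obtain ⟨M, hM⟩ := exists_mulOp ι hS hk
  have hMgrow : ∀ (t : ℝ) (e : E), ‖e + t • M e‖ ≤ (1 + ‖k‖ ^ 2 * t ^ 2) * ‖e‖ := by
    intro t e
    rw [← ι.norm_map, map_add, map_smul, hM, ← ι.norm_map e]
    exact norm_skew hks t
  have hM0 : M ≠ 0 := by
    intro h0
    obtain ⟨e, he⟩ := hk
    have h1 := hM e
    have he' : ι e = k := he
    rw [h0, _root_.zero_apply, map_zero, he'] at h1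
    have h2 : star k * k = 0 := by rw [hks, neg_mul, ← h1, neg_zero]
    exact hk0 (eq_zero_of_star_mul h2)
  refine ⟨numIndex_eq_zero hM0 (numRadius_eq_zero (c := ‖k‖ ^ 2) fun t e he => ?_), ?_⟩
  · have := hMgrow t e
    rwa [he, mul_one] at this
  intro X _ _ _ Φ
  have hMn : ∀ e, ‖M e‖ ≤ ‖k‖ * ‖e‖ := by
    intro e
    rw [← ι.norm_map, hM, ← ι.norm_map e]
    exact norm_mul_le _ _
  -- existence of the preadjoint
  have hex : ∀ φ : X, ∃ ψ : X, ∀ e : E, Φ (M e) φ = Φ e ψ := by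
    intro φ
    let G : (X →L[ℝ] ℝ) →L[ℝ] ℝ := LinearMap.mkContinuous
      { toFun := fun f => Φ (M (Φ.symm f)) φ
        map_add' := fun f g => by rw [map_add, map_add, map_add]; rfl
        map_smul' := fun c f => by rw [map_smul, map_smul, map_smul]; rfl } (‖k‖ * ‖φ‖) (fun f => by
        change ‖Φ (M (Φ.symm f)) φ‖ ≤ ‖k‖ * ‖φ‖ * ‖f‖
        refine ((Φ (M (Φ.symm f))).le_opNorm φ).trans ?_
        rw [Φ.norm_map]
        have := hMn (Φ.symm f)
        rw [Φ.symm.norm_map] at this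
        calc ‖M (Φ.symm f)‖ * ‖φ‖ ≤ (‖k‖ * ‖f‖) * ‖φ‖ :=
              mul_le_mul_of_nonneg_right this (norm_nonneg _)
          _ = _ := by ring)
    have hG : ∀ f, G f = Φ (M (Φ.symm f)) φ := fun f => rfl
    obtain ⟨ψ, hψ⟩ := exists_eval G (by
      by_contra hcon
      push Not at hcon
      obtain ⟨ε, hε, hcon⟩ := hcon
      have hch : ∀ i : Finset X × ℕ, ∃ f : X →L[ℝ] ℝ, ‖f‖ ≤ 1 ∧
          (∀ x ∈ i.1, |f x| ≤ 1 / ((i.2 : ℝ) + 1)) ∧ ε < |G f| := fun i => by
        obtain ⟨f, h1, h2, h3⟩ := hcon i.1 (1 / ((i.2 : ℝ) + 1)) (by positivity)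
        exact ⟨f, h1, h2, h3⟩
      choose f hf1 hf2 hf3 using hch
      let U : Ultrafilter (Finset X × ℕ) := Ultrafilter.of atTop
      have hU : (U : Filter (Finset X × ℕ)) ≤ atTop := Ultrafilter.of_le atTop
      have hlim0 : IsLim Φ U (fun i => Φ.symm (f i)) 0 := by
        intro x
        refine Tendsto.mono_left ?_ hU
        rw [map_zero, _root_.zero_apply]
        rw [Metric.tendsto_atTop]
        intro δ hδ
        obtain ⟨n, hn⟩ := exists_nat_one_div_lt hδ
        refine ⟨({x}, n), fun i hi => ?_⟩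
        rw [dist_zero_right, Φ.apply_symm_apply]
        have h1 : x ∈ i.1 := hi.1 (Finset.mem_singleton_self x)
        have h2 := hf2 i x h1
        have h3 : 1 / ((i.2 : ℝ) + 1) ≤ 1 / ((n : ℝ) + 1) := by
          have : (n : ℝ) ≤ i.2 := by exact_mod_cast hi.2
          gcongr
        exact lt_of_le_of_lt (h2.trans h3) hn
      let L := mkLim ι Φ U
      have hx : Fam (rng ι) (fun i => ι (Φ.symm (f i))) :=
        ⟨fun i => mem_rng ι _, 1, fun i => by rw [ι.norm_map, Φ.symm.norm_map]; exact hf1 i⟩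
      have h1 : L.P (fun i => ι (Φ.symm (f i))) = 0 := by
        change ι (limE Φ U fun i => Function.invFun ι (ι (Φ.symm (f i)))) = 0
        simp only [invFun_ι]
        rw [limE_eq hlim0, map_zero]
      have h2 := hcomm _ L _ hx
      rw [h1, mul_zero] at h2
      have h3 : L.P (fun i => k * ι (Φ.symm (f i))) = ι (limE Φ U fun i => M (Φ.symm (f i))) := by
        change ι (limE Φ U fun i => Function.invFun ι (k * ι (Φ.symm (f i)))) = _
        simp only [← hM, invFun_ι]
      rw [h3] at h2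
      have h4 : limE Φ U (fun i => M (Φ.symm (f i))) = 0 := by
        refine ι.injective ?_
        rw [h2, map_zero]
      have h5 := limE_spec Φ U (e := fun i => M (Φ.symm (f i))) (C := ‖k‖) (fun i => by
        refine (hMn _).trans ?_
        rw [Φ.symm.norm_map]
        exact mul_le_of_le_one_right (norm_nonneg _) (hf1 i)) φ
      rw [h4, map_zero, _root_.zero_apply] at h5
      have h6 : Tendsto (fun i => |Φ (M (Φ.symm (f i))) φ|) U (𝓝 0) := by
        have := h5.abs
        rwa [abs_zero] at this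
      have h7 : ε ≤ 0 := ge_of_tendsto h6 (Eventually.of_forall fun i => (hf3 i).le)
      linarith)
    refine ⟨ψ, fun e => ?_⟩
    have := hψ (Φ e)
    rwa [hG, Φ.symm_apply_apply] at this
  choose T hT using hex
  have hsep : ∀ a b : X, (∀ e : E, Φ e a = Φ e b) → a = b := by
    intro a b h
    have h1 : ‖a - b‖ ≤ 0 := pre_norm_le Φ _ le_rfl fun e _ => by
      rw [map_sub, h e, sub_self, abs_zero]
    exact sub_eq_zero.1 (norm_le_zero_iff.1 h1)
  let T' : X →L[ℝ] X := LinearMap.mkContinuous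
    { toFun := T
      map_add' := fun a b => hsep _ _ fun e => by rw [map_add, ← hT, ← hT, ← hT, map_add]
      map_smul' := fun c a => hsep _ _ fun e => by
        rw [RingHom.id_apply, map_smul, ← hT, ← hT, map_smul] } ‖k‖ (fun a => by
      change ‖T a‖ ≤ ‖k‖ * ‖a‖
      refine pre_norm_le Φ _ (by positivity) fun e he => ?_
      rw [← hT]
      refine ((Φ (M e)).le_opNorm a).trans ?_
      rw [Φ.norm_map]
      refine mul_le_mul_of_nonneg_right ?_ (norm_nonneg _)
      exact (hMn e).trans (mul_le_of_le_one_right (norm_nonneg _) he))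
  have hT' : ∀ e a, Φ (M e) a = Φ e (T' a) := fun e a => hT a e
  refine numIndex_eq_zero (T := T') ?_ (numRadius_eq_zero (c := ‖k‖ ^ 2) fun t a ha => ?_)
  · intro h0
    refine hM0 ?_
    ext e
    refine Φ.injective ?_
    ext a
    rw [hT', h0, _root_.zero_apply, map_zero, _root_.zero_apply, map_zero, _root_.zero_apply]
  · refine pre_norm_le Φ _ (by positivity) fun e he => ?_
    have h1 : Φ e (a + t • T' a) = Φ (e + t • M e) a := by
      rw [map_add, map_smul, ← hT', map_add, map_smul]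
      rfl
    rw [h1]
    refine ((Φ (e + t • M e)).le_opNorm a).trans ?_
    rw [Φ.norm_map, ha, mul_one]
    refine (hMgrow t e).trans ?_
    exact mul_le_of_le_one_right (by positivity) he

/-- the preadjoint transfer of numerical index one -/
theorem index_one_predual [Nontrivial E] (h : ∀ T : E →L[ℝ] E, ‖T‖ ≤ numRadius T)
    {X : Type v} [NormedAddCommGroup X] [NormedSpace ℝ X]
    (Φ : E ≃ₗᵢ[ℝ] (X →L[ℝ] ℝ)) : numIndex X = 1 := by
  have hX : Nontrivial X := by
    by_contra hX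
    rw [not_nontrivial_iff_subsingleton] at hX
    obtain ⟨e, he⟩ := exists_ne (0 : E)
    refine he (Φ.injective ?_)
    ext x
    rw [Subsingleton.elim x 0, map_zero, map_zero]
  refine numIndex_eq_one fun T => ?_
  let S : E →L[ℝ] E := LinearMap.mkContinuous
    { toFun := fun e => Φ.symm ((Φ e).comp T)
      map_add' := fun a b => by rw [map_add, ContinuousLinearMap.add_comp, map_add]
      map_smul' := fun c a => by
        rw [map_smul, ContinuousLinearMap.smul_comp, map_smul]; rfl } ‖T‖ (fun e => by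
      change ‖Φ.symm ((Φ e).comp T)‖ ≤ ‖T‖ * ‖e‖
      rw [Φ.symm.norm_map]
      refine ((Φ e).opNorm_comp_le T).trans ?_
      rw [Φ.norm_map, mul_comm])
  have hS : ∀ e x, Φ (S e) x = Φ e (T x) := by
    intro e x
    change Φ (Φ.symm ((Φ e).comp T)) x = _
    rw [Φ.apply_symm_apply]
    rfl
  have h1 : ‖T‖ ≤ ‖S‖ := by
    refine T.opNorm_le_bound (norm_nonneg _) fun x => ?_
    refine pre_norm_le Φ _ (by positivity) fun e he => ?_
    rw [← hS]
    refine ((Φ (S e)).le_opNorm x).trans ?_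
    rw [Φ.norm_map]
    refine mul_le_mul_of_nonneg_right ?_ (norm_nonneg _)
    exact (S.le_opNorm e).trans (mul_le_of_le_one_right (norm_nonneg _) he)
  exact h1.trans ((h S).trans (numRadius_adjoint_le Φ T S hS))

end

end Pool.Agent.H590R3.RC
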