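import Pool.Agent.H590R3.RC7

set_option autoImplicit false

namespace Pool.Agent.H590R3.RC

open Filter Topology

section

open scoped CStarAlgebra in
open Unitization WeakDual in
lemma comm_case {D : Type*} [NonUnitalCommCStarAlgebra D] {E : Type*} [NormedAddCommGroup E]
    [NormedSpace ℝ E] (j : E →ₗᵢ[ℝ] D) (hsa : ∀ e, star (j e) = j e)
    (hmul : ∀ a b, ∃ c, j c = j a * j b) (T : E →L[ℝ] E) : ‖T‖ ≤ numRadius T := by
  let f : D → C(characterSpace ℂ (D⁺¹), ℂ) := fun d => gelfandStarTransform D⁺¹ (d : D⁺¹)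
  have hf : Isometry f := gelfandTransform_isometry _ |>.comp isometry_inr
  have hfmul : ∀ a b, f (a * b) = f a * f b := fun a b => by
    change gelfandStarTransform D⁺¹ ((a * b : D) : D⁺¹) = _
    rw [inr_mul, map_mul]
  have hfadd : ∀ a b, f (a + b) = f a + f b := fun a b => by
    change gelfandStarTransform D⁺¹ ((a + b : D) : D⁺¹) = _
    rw [inr_add, map_add]
  have hfsmul : ∀ (c : ℝ) a, f (c • a) = (c : ℂ) • f a := fun c a => by
    change gelfandStarTransform D⁺¹ ((c • a : D) : D⁺¹) = _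
    have : ((c • a : D) : D⁺¹) = (c : ℂ) • (a : D⁺¹) := by
      rw [← inr_smul]; rfl
    rw [this, map_smul]
  have hfstar : ∀ a, f (star a) = star (f a) := fun a => by
    change gelfandStarTransform D⁺¹ ((star a : D) : D⁺¹) = _
    rw [inr_star, map_star]
  have hf0 : f 0 = 0 := by
    change gelfandStarTransform D⁺¹ ((0 : D) : D⁺¹) = _
    rw [inr_zero, map_zero]
  have hfnorm : ∀ a, ‖f a‖ = ‖a‖ := fun a => hf.norm_map_of_map_zero hf0 a
  have hreal : ∀ e χ, ((f (j e) χ).re : ℂ) = f (j e) χ := by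
    intro e χ
    have h1 := hfstar (j e)
    rw [hsa] at h1
    have h2 : f (j e) χ = star (f (j e) χ) := by
      conv_lhs => rw [h1]
      rfl
    exact Complex.conj_eq_iff_re.1 h2.symm
  let J : E →ₗᵢ[ℝ] C(characterSpace ℂ (D⁺¹), ℝ) :=
    { toFun := fun e => ⟨fun χ => (f (j e) χ).re, by
        exact Complex.continuous_re.comp (f (j e)).continuous⟩
      map_add' := fun a b => by
        ext χ
        change (f (j (a + b)) χ).re = (f (j a) χ).re + (f (j b) χ).re
        rw [map_add, hfadd]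
        exact Complex.add_re _ _
      map_smul' := fun c a => by
        ext χ
        change (f (j (c • a)) χ).re = c * (f (j a) χ).re
        rw [map_smul, hfsmul]
        change ((c : ℂ) * f (j a) χ).re = _
        rw [Complex.re_ofReal_mul]
      norm_map' := fun e => by
        have h1 : ∀ χ, ‖(f (j e) χ).re‖ = ‖f (j e) χ‖ := fun χ => by
          rw [← hreal e χ, Complex.norm_real]
          rfl
        rw [← j.norm_map e, ← hfnorm (j e)]
        refine le_antisymm ?_ ?_
        · refine (ContinuousMap.norm_le _ (norm_nonneg _)).2 fun χ => ?_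
          change ‖(f (j e) χ).re‖ ≤ _
          rw [h1]
          exact (f (j e)).norm_coe_le_norm χ
        · refine (ContinuousMap.norm_le _ (norm_nonneg _)).2 fun χ => ?_
          rw [← h1]
          exact ContinuousMap.norm_coe_le_norm (⟨fun χ => (f (j e) χ).re,
            Complex.continuous_re.comp (f (j e)).continuous⟩ : C(characterSpace ℂ (D⁺¹), ℝ)) χ }
  refine norm_le_numRadius_of_CK J (fun a b => ?_) T
  obtain ⟨c, hc⟩ := hmul a b
  refine ⟨c, ?_⟩
  ext χ
  change (f (j c) χ).re = (f (j a) χ).re * (f (j b) χ).re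
  rw [hc, hfmul]
  change (f (j a) χ * f (j b) χ).re = _
  rw [← hreal a χ, ← hreal b χ, Complex.re_ofReal_mul]
  simp only [Complex.ofReal_re]

open scoped IsMulCommutative in
open NonUnitalStarAlgebra NonUnitalStarSubalgebra in
theorem index_one {B : Type*} [NonUnitalCStarAlgebra B] {E : Type*} [NormedAddCommGroup E]
    [NormedSpace ℝ E] (ι : E →ₗᵢ[ℝ] B) (hsa : ∀ e, star (ι e) = ι e)
    (hmul : ∀ a b, ∃ c, ι c = ι a * ι b) (T : E →L[ℝ] E) : ‖T‖ ≤ numRadius T := by
  have hcomm : ∀ a b, ι a * ι b = ι b * ι a := by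
    intro a b
    obtain ⟨c, hc⟩ := hmul a b
    have h1 := hsa c
    rw [hc, star_mul, hsa, hsa] at h1
    exact h1.symm
  let s : Set B := Set.range ι
  let D : NonUnitalStarSubalgebra ℂ B := (adjoin ℂ s).topologicalClosure
  have hD : IsClosed (D : Set B) := (adjoin ℂ s).isClosed_topologicalClosure
  have : IsMulCommutative (adjoin ℂ s) := by
    refine isMulCommutative_adjoin ℂ ?_ ?_
    · rintro _ ⟨a, rfl⟩ _ ⟨b, rfl⟩
      exact hcomm a b
    · rintro _ ⟨a, rfl⟩ _ ⟨b, rfl⟩
      rw [hsa]
      exact hcomm a b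
  let _ : NonUnitalCommRing D := (adjoin ℂ s).nonUnitalCommRingTopologicalClosure mul_comm
  let _ : NonUnitalCommCStarAlgebra D := { }
  have hmem : ∀ e, ι e ∈ D := fun e =>
    le_topologicalClosure _ (subset_adjoin ℂ s ⟨e, rfl⟩)
  let j : E →ₗᵢ[ℝ] D :=
    { toFun := fun e => ⟨ι e, hmem e⟩
      map_add' := fun a b => Subtype.ext (map_add ι a b)
      map_smul' := fun c a => Subtype.ext (map_smul ι c a)
      norm_map' := fun e => ι.norm_map e }
  refine comm_case j (fun e => Subtype.ext (hsa e)) (fun a b => ?_) T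
  obtain ⟨c, hc⟩ := hmul a b
  exact ⟨c, Subtype.ext hc⟩

end

end Pool.Agent.H590R3.RC
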